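import Pool.Agent.Y752.SR.K3

set_option autoImplicit false

/-! Mean squares of the remainder of the hyperbolic sums. -/

namespace Pool.Agent.Y752.SR

open MeasureTheory Set Filter Complex
open Pool.Agent.TH612.GS (mP)
open Pool.Agent.TH612.CF (pw pw_apply pw_mult)
open Pool.Agent.TH521.GS (mor)

noncomputable section

variable {k : ℕ}

lemma lx_re (γ : Fin k ⊕ Fin k → ℝ) (e : Fin k × Fin k) : (lx γ e).re = 0 := by
  unfold lx
  simp

lemma QQ_le {N : ℕ} (hN : 1 ≤ N) (γ : Fin k ⊕ Fin k → ℝ) (e : Fin k × Fin k) :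
    ‖QQ N γ e‖ ≤ 1 + Real.log N := by
  unfold QQ
  refine (norm_sum_le _ _).trans ?_
  refine le_trans (le_of_eq ?_) (sum_inv_le N)
  refine Finset.sum_congr rfl fun n hn => ?_
  have hn1 := (Finset.mem_Icc.1 hn).1
  rw [norm_mul, norm_inv, Complex.norm_natCast, pw_apply _ (by omega : n ≠ 0),
    Complex.norm_natCast_cpow_of_pos (by omega), lx_re, Real.rpow_zero, mul_one]

lemma logp_le {δ : ℝ} (hδ : 0 < δ) (m : ℕ) : ∃ C : ℝ, 1 ≤ C ∧ ∀ x : ℝ, 1 ≤ x →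
    (1 + Real.log x) ^ m ≤ C * x ^ δ := by
  have hd : 0 < δ / (m + 1) := by positivity
  refine ⟨(1 + 1 / (δ / (m + 1))) ^ m, one_le_pow₀ (by linarith [one_div_pos.2 hd]), fun x hx => ?_⟩
  have hx0 : 0 < x := by linarith
  have h1 := Real.log_le_rpow_div hx0.le hd
  have h2 : 1 ≤ x ^ (δ / (m + 1)) := Real.one_le_rpow hx hd.le
  have h3 : 1 + Real.log x ≤ (1 + 1 / (δ / (m + 1))) * x ^ (δ / (m + 1)) := by
    have e : (1 + 1 / (δ / (m + 1))) * x ^ (δ / (m + 1)) = x ^ (δ / (m + 1)) +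
        x ^ (δ / (m + 1)) / (δ / (m + 1)) := by ring
    rw [e]
    linarith
  have h0 : 0 ≤ 1 + Real.log x := by linarith [Real.log_nonneg hx]
  calc (1 + Real.log x) ^ m ≤ ((1 + 1 / (δ / (m + 1))) * x ^ (δ / (m + 1))) ^ m := by gcongr
    _ = (1 + 1 / (δ / (m + 1))) ^ m * x ^ (δ / (m + 1) * m) := by
        rw [mul_pow, ← Real.rpow_natCast (x ^ _), ← Real.rpow_mul hx0.le]
    _ ≤ _ := by
        refine mul_le_mul_of_nonneg_left ?_ (by positivity)
        refine Real.rpow_le_rpow_of_exponent_le hx ?_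
        rw [div_mul_eq_mul_div, div_le_iff₀ (by positivity)]
        nlinarith

lemma EEp_le {δ : ℝ} (hδ : 0 < δ) (m : ℕ) : ∃ C : ℝ, 1 ≤ C ∧ ∀ N : ℕ, 1 ≤ N →
    (EE N : ℝ) ^ m ≤ C * (N : ℝ) ^ δ := by
  obtain ⟨C, hC1, hC⟩ := EE_le (ε := δ / (m + 1)) (by positivity)
  refine ⟨C ^ m, one_le_pow₀ hC1, fun N hN => ?_⟩
  have hN1 : (1:ℝ) ≤ N := by exact_mod_cast hN
  have hN0 : (0:ℝ) ≤ N := by linarith
  calc (EE N : ℝ) ^ m ≤ (C * (N : ℝ) ^ (δ / (m + 1))) ^ m := by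
        have := hC N hN
        gcongr
    _ = C ^ m * (N : ℝ) ^ (δ / (m + 1) * m) := by
        rw [mul_pow, ← Real.rpow_natCast ((N : ℝ) ^ _), ← Real.rpow_mul hN0]
    _ ≤ _ := by
        refine mul_le_mul_of_nonneg_left ?_ (by positivity)
        refine Real.rpow_le_rpow_of_exponent_le hN1 ?_
        rw [div_mul_eq_mul_div, div_le_iff₀ (by positivity)]
        nlinarith

lemma lx_cont (e : Fin k × Fin k) : Continuous fun γ : Fin k ⊕ Fin k → ℝ => lx γ e := by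
  unfold lx
  fun_prop

lemma cpow_lx_cont (e : Fin k × Fin k) {n : ℕ} (hn : 1 ≤ n) :
    Continuous fun γ : Fin k ⊕ Fin k → ℝ => (n : ℂ) ^ (lx γ e) := by
  have hn0 : (n : ℂ) ≠ 0 := by exact_mod_cast (by omega : n ≠ 0)
  exact Continuous.const_cpow (lx_cont e) (Or.inl hn0)

lemma XX_cont (s : Finset (Fin k × Fin k)) (m : ℕ) :
    Continuous fun γ : Fin k ⊕ Fin k → ℝ => XX s γ m := by
  rcases Nat.eq_zero_or_pos m with h | h
  · subst h
    simp only [ArithmeticFunction.map_zero]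
    exact continuous_const
  · simp only [fun γ : Fin k ⊕ Fin k → ℝ => XX_expand γ m s m h le_rfl]
    refine continuous_finsetSum _ fun ν hν => continuous_finsetProd _ fun e _ => ?_
    exact cpow_lx_cont e (TT_pos (Finset.mem_filter.1 hν).1 e)

lemma PP_cont (s : Finset (Fin k × Fin k)) (W : ℕ) :
    Continuous fun γ : Fin k ⊕ Fin k → ℝ => PP s W γ := by
  unfold PP
  exact continuous_finsetSum _ fun m _ => continuous_const.mul (XX_cont s m)

lemma QQ_cont (N : ℕ) (e : Fin k × Fin k) :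
    Continuous fun γ : Fin k ⊕ Fin k → ℝ => QQ N γ e := by
  unfold QQ
  refine continuous_finsetSum _ fun n hn => continuous_const.mul ?_
  have hn1 := (Finset.mem_Icc.1 hn).1
  simp only [pw_apply _ (by omega : n ≠ 0)]
  exact cpow_lx_cont e hn1

lemma RR_cont (s : Finset (Fin k × Fin k)) (W N : ℕ) :
    Continuous fun γ : Fin k ⊕ Fin k → ℝ => RR s W N γ := by
  unfold RR
  exact (continuous_finsetProd _ fun e _ => QQ_cont N e).sub (PP_cont s W)

theorem AA_ms' {C1 : ℝ} (hC1 : 0 < C1) (hMV : ∀ (T : ℝ) (X : ℕ) (a : ℕ → ℂ), 1 ≤ T → (X : ℝ) ≤ T ^ 2 →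
      ∫ u in (0:ℝ)..(2 * T), ‖∑ n ∈ Finset.Icc 1 X, a n * (n : ℂ) ^ (-(I * u))‖ ^ 2 ≤
        C1 * ∑ n ∈ Finset.Icc 1 X, (T + n) * ‖a n‖ ^ 2) (k : ℕ) {ε : ℝ} (hε : 0 < ε) :
    ∃ C : ℝ, 1 ≤ C ∧ ∀ (s : Finset (Fin k × Fin k)) (a : Fin k × Fin k) (H : ℝ) (W N : ℕ),
      1 ≤ W → W ≤ N → (N : ℝ) ≤ H →
      ∫⁻ γ, ENNReal.ofReal (‖AA s a W N γ‖ ^ 2) ∂(mP (Fin k ⊕ Fin k) H) ≤
        ENNReal.ofReal (C * H ^ (2 * k) * H ^ ε / W) := by
  obtain ⟨C2, hC2, hE⟩ := EEp_le (δ := ε / 2) (by positivity) (k * k + 1)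
  obtain ⟨C3, hC3, hL⟩ := logp_le (δ := ε / 2) (by positivity) (k * k + 1)
  have hC20 : 0 < C2 := by linarith
  have hC30 : 0 < C3 := by linarith
  refine ⟨max 1 ((2 * C1) ^ (2 * k - 1) * C2 * C1 * 2 * C3), le_max_left _ _, ?_⟩
  intro s a H W N hW hWN hNH
  have hk : 1 ≤ k := by have := a.1.2; omega
  have hW0 : (0:ℝ) < W := by exact_mod_cast hW
  have hN1' : 1 ≤ N := hW.trans hWN
  have hN1 : (1:ℝ) ≤ N := by exact_mod_cast hN1'
  have hH : 1 ≤ H := hN1.trans hNH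
  have hH0 : 0 < H := by linarith
  have hlN : 0 ≤ Real.log N := Real.log_nonneg hN1
  refine (AA_ms hC1 hMV hH s a hW hWN hNH).trans (ENNReal.ofReal_le_ofReal ?_)
  have h1 := hE N hN1'
  have h2 := hL N hN1
  have h3 : (N : ℝ) ^ (ε / 2) ≤ H ^ (ε / 2) := Real.rpow_le_rpow (by linarith) hNH (by positivity)
  have h4 : H / W + 1 ≤ 2 * (H / W) := by
    have : 1 ≤ H / W := by
      rw [le_div_iff₀ hW0, one_mul]
      have : (W : ℝ) ≤ N := by exact_mod_cast hWN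
      linarith
    linarith
  have hA : (EE N : ℝ) ^ (k * k) * EE N ≤ C2 * H ^ (ε / 2) := by
    rw [← pow_succ]
    exact h1.trans (mul_le_mul_of_nonneg_left h3 hC20.le)
  have hB : (1 + Real.log N) ^ (k * k + 1) ≤ C3 * H ^ (ε / 2) :=
    h2.trans (mul_le_mul_of_nonneg_left h3 hC30.le)
  have hHk : H ^ (2 * k - 1) * H = H ^ (2 * k) := by
    rw [← pow_succ]
    congr 1
    omega
  have hHe : H ^ (ε / 2) * H ^ (ε / 2) = H ^ ε := by
    rw [← Real.rpow_add hH0]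
    congr 1
    ring
  calc (2 * C1 * H) ^ (2 * k - 1) * (EE N : ℝ) ^ (k * k) * EE N * C1 *
        ((H / W + 1) * (1 + Real.log N) ^ (k * k + 1))
      = (2 * C1 * H) ^ (2 * k - 1) * ((EE N : ℝ) ^ (k * k) * EE N) * C1 *
        ((H / W + 1) * (1 + Real.log N) ^ (k * k + 1)) := by ring
    _ ≤ (2 * C1 * H) ^ (2 * k - 1) * (C2 * H ^ (ε / 2)) * C1 *
        ((2 * (H / W)) * (C3 * H ^ (ε / 2))) := by gcongr
    _ = ((2 * C1) ^ (2 * k - 1) * C2 * C1 * 2 * C3) * (H ^ (2 * k - 1) * H) *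
        (H ^ (ε / 2) * H ^ (ε / 2)) / W := by
        rw [mul_pow (2 * C1) H]
        ring
    _ = ((2 * C1) ^ (2 * k - 1) * C2 * C1 * 2 * C3) * H ^ (2 * k) * H ^ ε / W := by rw [hHk, hHe]
    _ ≤ _ := by
        gcongr
        exact le_max_right _ _

theorem RR_ms (k : ℕ) (s : Finset (Fin k × Fin k)) : ∀ {ε : ℝ}, 0 < ε →
    ∃ C : ℝ, 1 ≤ C ∧ ∀ (H : ℝ) (W N : ℕ), 1 ≤ W → W ≤ N → (N : ℝ) ≤ H →
      ∫⁻ γ, ENNReal.ofReal (‖RR s W N γ‖ ^ 2) ∂(mP (Fin k ⊕ Fin k) H) ≤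
        ENNReal.ofReal (C * H ^ (2 * k) * H ^ ε / W) := by
  obtain ⟨C1, hC1, hMV⟩ := Pool.Agent.TH928.GS.t_MV
  induction s using Finset.induction_on with
  | empty =>
    intro ε hε
    refine ⟨1, le_rfl, ?_⟩
    intro H W N hW hWN hNH
    have e : (fun γ : Fin k ⊕ Fin k → ℝ => ENNReal.ofReal (‖RR ∅ W N γ‖ ^ 2)) = fun _ => 0 := by
      funext γ
      rw [RR_empty hW]
      simp
    rw [e, lintegral_zero]
    exact bot_le
  | insert a s ha ih =>
    intro ε hε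
    obtain ⟨C2, hC2, h2⟩ := ih (ε := ε / 2) (by positivity)
    obtain ⟨C3, hC3, h3⟩ := AA_ms' hC1 hMV k hε
    obtain ⟨C4, hC4, h4⟩ := logp_le (δ := ε / 2) (by positivity) 2
    refine ⟨2 * C4 * C2 + 2 * C3, by nlinarith, ?_⟩
    intro H W N hW hWN hNH
    have hN1' : 1 ≤ N := hW.trans hWN
    have hN1 : (1:ℝ) ≤ N := by exact_mod_cast hN1'
    have hH : 1 ≤ H := hN1.trans hNH
    have hH0 : 0 < H := by linarith
    have hW0 : (0:ℝ) < W := by exact_mod_cast hW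
    set L : ℝ := 1 + Real.log N with hL
    have hL0 : 0 ≤ L := by
      have := Real.log_nonneg hN1
      linarith
    have hpt : ∀ γ : Fin k ⊕ Fin k → ℝ, ENNReal.ofReal (‖RR (insert a s) W N γ‖ ^ 2) ≤
        ENNReal.ofReal (2 * L ^ 2) * ENNReal.ofReal (‖RR s W N γ‖ ^ 2) +
          ENNReal.ofReal 2 * ENNReal.ofReal (‖AA s a W N γ‖ ^ 2) := by
      intro γ
      rw [← ENNReal.ofReal_mul (by positivity), ← ENNReal.ofReal_mul (by norm_num),
        ← ENNReal.ofReal_add (by positivity) (by positivity)]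
      refine ENNReal.ofReal_le_ofReal ?_
      rw [RR_insert ha hWN]
      have h5 : ‖QQ N γ a * RR s W N γ + AA s a W N γ‖ ≤ L * ‖RR s W N γ‖ + ‖AA s a W N γ‖ := by
        refine (norm_add_le _ _).trans ?_
        rw [norm_mul]
        have := QQ_le hN1' γ a
        gcongr
      calc ‖QQ N γ a * RR s W N γ + AA s a W N γ‖ ^ 2 ≤ (L * ‖RR s W N γ‖ + ‖AA s a W N γ‖) ^ 2 := by gcongr
        _ ≤ _ := by nlinarith [sq_nonneg (L * ‖RR s W N γ‖ - ‖AA s a W N γ‖)]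
    have hm : Measurable fun γ : Fin k ⊕ Fin k → ℝ => ENNReal.ofReal (‖RR s W N γ‖ ^ 2) :=
      mor ((RR_cont s W N).norm.pow 2)
    refine (lintegral_mono hpt).trans ?_
    rw [lintegral_add_left (hm.const_mul _), lintegral_const_mul' _ _ ENNReal.ofReal_ne_top,
      lintegral_const_mul' _ _ ENNReal.ofReal_ne_top]
    have k1 := h2 H W N hW hWN hNH
    have k2 := h3 s a H W N hW hWN hNH
    calc _ ≤ ENNReal.ofReal (2 * L ^ 2) * ENNReal.ofReal (C2 * H ^ (2 * k) * H ^ (ε / 2) / W) +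
          ENNReal.ofReal 2 * ENNReal.ofReal (C3 * H ^ (2 * k) * H ^ ε / W) := by gcongr
      _ = ENNReal.ofReal (2 * L ^ 2 * (C2 * H ^ (2 * k) * H ^ (ε / 2) / W) +
          2 * (C3 * H ^ (2 * k) * H ^ ε / W)) := by
          rw [← ENNReal.ofReal_mul (by positivity), ← ENNReal.ofReal_mul (by norm_num),
            ← ENNReal.ofReal_add (by positivity) (by positivity)]
      _ ≤ _ := by
          refine ENNReal.ofReal_le_ofReal ?_
          have k3 : L ^ 2 ≤ C4 * H ^ (ε / 2) :=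
            (h4 N hN1).trans (mul_le_mul_of_nonneg_left
              (Real.rpow_le_rpow (by linarith) hNH (by positivity)) (by linarith))
          have hHe : H ^ (ε / 2) * H ^ (ε / 2) = H ^ ε := by
            rw [← Real.rpow_add hH0]
            congr 1
            ring
          calc 2 * L ^ 2 * (C2 * H ^ (2 * k) * H ^ (ε / 2) / W) + 2 * (C3 * H ^ (2 * k) * H ^ ε / W)
              ≤ 2 * (C4 * H ^ (ε / 2)) * (C2 * H ^ (2 * k) * H ^ (ε / 2) / W) +
                2 * (C3 * H ^ (2 * k) * H ^ ε / W) := by gcongr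
            _ = 2 * C4 * C2 * H ^ (2 * k) * (H ^ (ε / 2) * H ^ (ε / 2)) / W +
                2 * (C3 * H ^ (2 * k) * H ^ ε / W) := by ring
            _ = _ := by rw [hHe]; ring

end

end Pool.Agent.Y752.SR
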