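import Pool.Agent.Y752.SR.K7
import Pool.Agent.TH228.GS.ZM

set_option autoImplicit false

/-! From the product of the partial sums to the product of the zeta values, longer sums. -/

namespace Pool.Agent.Y752.SR

open Complex Filter Topology MeasureTheory Set
open Pool.Agent.TH612.CF Pool.Agent.TH612.GS
open Pool.Agent.TH811.GS (approx norm_zN_le co zN_sub sum_co cont_P cont_zN cont_zeta)
open Pool.Agent.TH228.GS (prod_sub_le zN_le hh hh_nonneg hh_neg H1 H2 H1_meas H2_meas le_H2 H1_int H2_int fub)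
open scoped ENNReal

noncomputable section

theorem one' (hMV : S_MV) : ∃ C T₀ : ℝ, 0 < C ∧ 3 ≤ T₀ ∧ ∀ (T : ℝ) (M : ℕ), T₀ ≤ T → 1 ≤ M →
    (M : ℝ) ≤ T →
  (∀ v : ℝ, 1 ≤ |v| → |v| ≤ T → ‖riemannZeta (1 + I * v)‖ ≤ C * Real.log T) ∧
  ∫ v in (T ^ (1 / 2 : ℝ))..T, ‖riemannZeta (1 + I * v) - zN M (1 + I * v)‖ ^ 2 ≤
    C * Real.log T * T / M := by
  obtain ⟨C, hC, hMV⟩ := hMV
  refine ⟨100 + 100 * C, 3, by positivity, le_rfl, ?_⟩
  intro T M hT hM hMT
  have hT0 : 0 < T := by linarith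
  set X : ℕ := ⌊T ^ 2⌋₊ with hX
  have hXle : (X : ℝ) ≤ T ^ 2 := Nat.floor_le (by positivity)
  have hXlt : T ^ 2 < (X : ℝ) + 1 := Nat.lt_floor_add_one _
  have hX1 : T ^ 2 / 2 ≤ (X : ℝ) - 1 := by nlinarith
  have hX0 : (0 : ℝ) < X := by nlinarith
  have hlogT : 1 ≤ Real.log T := by
    rw [Real.le_log_iff_exp_le hT0]
    have := Real.exp_one_lt_d9
    linarith
  have hlogX : Real.log X ≤ 2 * Real.log T := by
    have h := Real.log_le_log hX0 hXle
    rw [Real.log_pow] at h
    push_cast at h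
    exact h
  constructor
  · intro v hv1 hv2
    have h1 := approx hT hX1 hv1 hv2
    have h2 := norm_zN_le X v
    have h3 : 1 / |v| ≤ 1 := by rw [div_le_one (by linarith)]; exact hv1
    have h4 : 3 / T ≤ 1 := by rw [div_le_one hT0]; exact hT
    have h5 : ‖riemannZeta (1 + I * v)‖ ≤ ‖riemannZeta (1 + I * v) - zN X (1 + I * v)‖ + ‖zN X (1 + I * v)‖ := by
      have := norm_add_le (riemannZeta (1 + I * v) - zN X (1 + I * v)) (zN X (1 + I * v))
      rwa [sub_add_cancel] at this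
    have h6 : 0 ≤ C * Real.log T := by positivity
    nlinarith
  · set r : ℝ := T ^ (1 / 2 : ℝ) with hr
    have hrr : r * r = T := by
      rw [hr, ← Real.rpow_add hT0]
      norm_num
    have hr0 : 0 < r := Real.rpow_pos_of_pos hT0 _
    have hr1 : 1 ≤ r := Real.one_le_rpow (by linarith) (by norm_num)
    have hrT : r ≤ T := by nlinarith
    have hM0 : (0 : ℝ) < M := by exact_mod_cast hM
    have hrM : 1 ≤ T / M := by
      rw [le_div_iff₀ hM0, one_mul]
      exact hMT
    have hMX : M ≤ X := by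
      have : (M : ℝ) ≤ X := by nlinarith
      exact_mod_cast this
    have hmv := hMV T X (co M) (by linarith) hXle
    have hsum := sum_co hM hMX hT0.le
    set P : ℝ → ℂ := fun v => ∑ n ∈ Finset.Icc 1 X, co M n * (n : ℂ) ^ (-(I * (v : ℂ))) with hP
    have hPc : Continuous P := cont_P M X
    have hPi : ∀ a b : ℝ, IntervalIntegrable (fun v => ‖P v‖ ^ 2) volume a b := fun a b =>
      (hPc.norm.pow 2).intervalIntegrable a b
    have hfc : IntervalIntegrable (fun v : ℝ => ‖riemannZeta (1 + I * v) - zN M (1 + I * v)‖ ^ 2) volume r T := by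
      apply ContinuousOn.intervalIntegrable
      rw [Set.uIcc_of_le hrT]
      intro v hv
      have h1 := (cont_zeta (lt_of_lt_of_le hr0 hv.1)).sub (cont_zN M).continuousAt
      exact (h1.norm.pow 2).continuousWithinAt
    have hle : ∫ v in r..T, ‖riemannZeta (1 + I * v) - zN M (1 + I * v)‖ ^ 2 ≤
        ∫ v in r..T, (32 / T + 2 * ‖P v‖ ^ 2) := by
      apply intervalIntegral.integral_mono_on hrT hfc
      · exact (intervalIntegrable_const).add ((hPi r T).const_mul 2)
      · intro v hv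
        have hv0 : 0 < v := lt_of_lt_of_le hr0 hv.1
        have h1 := approx hT hX1 (v := v) (by rw [abs_of_pos hv0]; linarith [hv.1])
          (by rw [abs_of_pos hv0]; exact hv.2)
        rw [abs_of_pos hv0] at h1
        have h2 : 1 / v ≤ 1 / r := by
          apply one_div_le_one_div_of_le hr0 hv.1
        have h3 : 3 / T ≤ 3 / r := by gcongr
        have h4 : ‖riemannZeta (1 + I * v) - zN X (1 + I * v)‖ ≤ 4 / r := by
          have : 4 / r = 1 / r + 3 / r := by ring
          linarith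
        have h5 : ‖riemannZeta (1 + I * v) - zN M (1 + I * v)‖ ≤ 4 / r + ‖P v‖ := by
          have e : riemannZeta (1 + I * v) - zN M (1 + I * v) =
              (riemannZeta (1 + I * v) - zN X (1 + I * v)) + P v := by
            rw [hP]
            simp only
            rw [← zN_sub hMX]
            ring
          rw [e]
          exact (norm_add_le _ _).trans (add_le_add h4 le_rfl)
        have h6 : (4 / r) ^ 2 = 16 / T := by
          rw [div_pow, ← hrr]
          ring
        calc ‖riemannZeta (1 + I * v) - zN M (1 + I * v)‖ ^ 2 ≤ (4 / r + ‖P v‖) ^ 2 := by gcongr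
          _ ≤ 2 * (4 / r) ^ 2 + 2 * ‖P v‖ ^ 2 := by nlinarith [sq_nonneg (4 / r - ‖P v‖)]
          _ = 32 / T + 2 * ‖P v‖ ^ 2 := by rw [h6]; ring
    have hint : ∫ v in r..T, (32 / T + 2 * ‖P v‖ ^ 2) = (T - r) * (32 / T) + 2 * ∫ v in r..T, ‖P v‖ ^ 2 := by
      rw [intervalIntegral.integral_add intervalIntegrable_const ((hPi r T).const_mul 2),
        intervalIntegral.integral_const, intervalIntegral.integral_const_mul, smul_eq_mul]
    have hmono : ∫ v in r..T, ‖P v‖ ^ 2 ≤ ∫ v in (0:ℝ)..(2 * T), ‖P v‖ ^ 2 :=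
      intervalIntegral.integral_mono_interval hr0.le hrT (by linarith)
        (Eventually.of_forall fun v => by positivity) (hPi _ _)
    have hfirst : (T - r) * (32 / T) ≤ 32 := by
      rw [mul_div_assoc', div_le_iff₀ hT0]
      nlinarith
    have h7 : ∫ v in (0:ℝ)..(2 * T), ‖P v‖ ^ 2 ≤ C * (T / M + (1 + Real.log X)) :=
      hmv.trans (mul_le_mul_of_nonneg_left hsum hC.le)
    have hLT : T / M ≤ Real.log T * (T / M) := by nlinarith
    have hL1 : Real.log T ≤ Real.log T * (T / M) := by nlinarith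
    have h8 : T / M + (1 + Real.log X) ≤ 4 * (Real.log T * (T / M)) := by linarith
    have h9 : C * (T / M + (1 + Real.log X)) ≤ C * (4 * (Real.log T * (T / M))) :=
      mul_le_mul_of_nonneg_left h8 hC.le
    have h10 : (100 + 100 * C) * Real.log T * T / M =
        100 * (Real.log T * (T / M)) + 100 * (C * (Real.log T * (T / M))) := by ring
    have h11 : 0 ≤ C * (Real.log T * (T / M)) := by positivity
    have h12 : 1 ≤ Real.log T * (T / M) := by linarith
    rw [h10]
    linarith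


theorem zm' (k : ℕ) : ∃ (C T₀ : ℝ) (B : ℕ), 0 < C ∧ 3 ≤ T₀ ∧ ∀ (T : ℝ) (M : ℕ), T₀ ≤ T →
    1 ≤ M → (M : ℝ) ≤ T →
  ∫⁻ γ in Sep k T, ENNReal.ofReal (‖GM M γ 0 - zr γ‖ ^ 2) ∂(mP (Fin k ⊕ Fin k) T) ≤
    ENNReal.ofReal (C * Real.log T ^ B * T ^ (2 * k) / M) := by
  obtain ⟨C₁, T₁, hC₁, hT₁, hone⟩ := one' Pool.Agent.TH928.GS.t_MV
  have hBF : 0 ≤ BF k (1 / 8) := by unfold BF; positivity
  set D : ℝ := BF k (1 / 8) ^ 2 * (max C₁ 2) ^ (2 * (k * k)) * (k * k) * ((k * k) * (2 * C₁))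
    with hD
  have hD0 : 0 ≤ D := by rw [hD]; positivity
  refine ⟨D + 1, T₁, 2 * (k * k) + 1, by linarith, hT₁, ?_⟩
  intro T M hT hM hMT
  have hT3 : 3 ≤ T := hT₁.trans hT
  have hT1 : 1 ≤ T := by linarith
  obtain ⟨hz, hi⟩ := hone T M hT hM hMT
  have hL : 1 ≤ Real.log T := by
    rw [Real.le_log_iff_exp_le (by linarith)]
    have := Real.exp_one_lt_d9
    linarith
  have h0 : (1 : ℝ) ≤ T ^ (1 / 2 : ℝ) := Real.one_le_rpow hT1 (by norm_num)
  have h1 : T ^ (1 / 2 : ℝ) ≤ T := by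
    calc T ^ (1 / 2 : ℝ) ≤ T ^ (1 : ℝ) := Real.rpow_le_rpow_of_exponent_le hT1 (by norm_num)
      _ = T := Real.rpow_one T
  have hM1 : (1 : ℝ) ≤ M := by exact_mod_cast hM
  have hlogM : Real.log M ≤ Real.log T :=
    Real.log_le_log (by linarith) hMT
  set K : ℝ := max C₁ 2 * Real.log T with hK
  have hmx : (2 : ℝ) ≤ max C₁ 2 := le_max_right _ _
  have hK2 : 2 * Real.log T ≤ K := mul_le_mul_of_nonneg_right hmx (by linarith)
  have hK1 : 1 ≤ K := by linarith
  have hKC : C₁ * Real.log T ≤ K := mul_le_mul_of_nonneg_right (le_max_left _ _) (by linarith)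
  have hzN : ∀ v : ℝ, ‖zN M (1 + I * v)‖ ≤ K := fun v => (zN_le M v).trans (by linarith)
  set A : ℝ := BF k (1 / 8) ^ 2 * K ^ (2 * (k * k)) * (k * k) with hA
  have hA0 : 0 ≤ A := by rw [hA]; positivity
  -- the pointwise bound
  have hpt : ∀ γ ∈ Sep k T, ENNReal.ofReal (‖GM M γ 0 - zr γ‖ ^ 2) ≤
      ENNReal.ofReal A * ∑ p : Fin k × Fin k, H2 M T (γ (Sum.inl p.1) - γ (Sum.inr p.2)) := by
    intro γ hγ
    obtain ⟨hγ1, hγ2⟩ := hγ
    set v : Fin k × Fin k → ℝ := fun p => γ (Sum.inl p.1) - γ (Sum.inr p.2) with hv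
    have hv1 : ∀ p, T ^ (1 / 2 : ℝ) ≤ |v p| := fun p => hγ2 _ _ (by simp)
    have hv2 : ∀ p, |v p| ≤ T := by
      intro p
      rw [abs_le]
      have a1 := hγ1 (Sum.inl p.1)
      have a2 := hγ1 (Sum.inr p.2)
      constructor <;> simp only [hv] <;> linarith [a1.1, a1.2, a2.1, a2.2]
    have e1 : GM M γ 0 = FH (fun j => (γ (Sum.inl j) : ℂ)) (fun j => (γ (Sum.inr j) : ℂ)) *
        ∏ p : Fin k × Fin k, zN M (1 + I * (v p : ℂ)) := by
      unfold GM
      rw [Fintype.prod_prod_type]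
      simp [hv]
    have e2 : zr γ = FH (fun j => (γ (Sum.inl j) : ℂ)) (fun j => (γ (Sum.inr j) : ℂ)) *
        ∏ p : Fin k × Fin k, riemannZeta (1 + I * (v p : ℂ)) := by
      unfold zr zab
      rw [Fintype.prod_prod_type]
      congr 1
      refine Finset.prod_congr rfl fun j _ => Finset.prod_congr rfl fun l _ => ?_
      congr 1
      simp only [hv]
      push_cast
      ring
    have hFH : ‖FH (fun j => (γ (Sum.inl j) : ℂ)) (fun j => (γ (Sum.inr j) : ℂ))‖ ≤
        BF k (1 / 8) := by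
      refine FH_le (by norm_num) fun j => ?_
      simp
    have hz' : ∀ p, ‖riemannZeta (1 + I * (v p : ℂ))‖ ≤ K := fun p =>
      (hz (v p) (h0.trans (hv1 p)) (hv2 p)).trans hKC
    have h2 := prod_sub_le Finset.univ (fun p : Fin k × Fin k => zN M (1 + I * (v p : ℂ)))
      (fun p => riemannZeta (1 + I * (v p : ℂ))) hK1 (fun p _ => hzN (v p)) (fun p _ => hz' p)
    have hcard : (Finset.univ : Finset (Fin k × Fin k)).card = k * k := by simp
    rw [hcard] at h2
    have h3 : ‖GM M γ 0 - zr γ‖ ≤ BF k (1 / 8) * (K ^ (k * k) *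
        ∑ p : Fin k × Fin k, ‖zN M (1 + I * (v p : ℂ)) - riemannZeta (1 + I * (v p : ℂ))‖) := by
      rw [e1, e2, ← mul_sub, norm_mul]
      exact mul_le_mul hFH h2 (norm_nonneg _) hBF
    have h4 : (∑ p : Fin k × Fin k,
        ‖zN M (1 + I * (v p : ℂ)) - riemannZeta (1 + I * (v p : ℂ))‖) ^ 2 ≤
        (k * k) * ∑ p : Fin k × Fin k, hh M (v p) := by
      have := sq_sum_le_card_mul_sum_sq (s := (Finset.univ : Finset (Fin k × Fin k)))
        (f := fun p => ‖zN M (1 + I * (v p : ℂ)) - riemannZeta (1 + I * (v p : ℂ))‖)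
      rw [hcard] at this
      push_cast at this
      refine this.trans (le_of_eq ?_)
      congr 1
      refine Finset.sum_congr rfl fun p _ => ?_
      unfold hh
      rw [norm_sub_rev]
    have h5 : ‖GM M γ 0 - zr γ‖ ^ 2 ≤ A * ∑ p : Fin k × Fin k, hh M (v p) := by
      calc ‖GM M γ 0 - zr γ‖ ^ 2 ≤ (BF k (1 / 8) * (K ^ (k * k) *
            ∑ p : Fin k × Fin k,
              ‖zN M (1 + I * (v p : ℂ)) - riemannZeta (1 + I * (v p : ℂ))‖)) ^ 2 :=
            pow_le_pow_left₀ (norm_nonneg _) h3 2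
        _ = BF k (1 / 8) ^ 2 * K ^ (2 * (k * k)) * (∑ p : Fin k × Fin k,
              ‖zN M (1 + I * (v p : ℂ)) - riemannZeta (1 + I * (v p : ℂ))‖) ^ 2 := by
            rw [mul_comm 2 (k * k), pow_mul]; ring
        _ ≤ BF k (1 / 8) ^ 2 * K ^ (2 * (k * k)) * ((k * k) *
              ∑ p : Fin k × Fin k, hh M (v p)) :=
            mul_le_mul_of_nonneg_left h4 (by positivity)
        _ = _ := by rw [hA]; ring
    calc ENNReal.ofReal (‖GM M γ 0 - zr γ‖ ^ 2)
        ≤ ENNReal.ofReal (A * ∑ p : Fin k × Fin k, hh M (v p)) := ENNReal.ofReal_le_ofReal h5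
      _ = ENNReal.ofReal A * ∑ p : Fin k × Fin k, ENNReal.ofReal (hh M (v p)) := by
          rw [ENNReal.ofReal_mul hA0, ENNReal.ofReal_sum_of_nonneg fun p _ => hh_nonneg M _]
      _ ≤ _ := by
          gcongr with p
          exact le_H2 M (hv1 p) (hv2 p)
  have hmeas : ∀ p : Fin k × Fin k, Measurable fun γ : Fin k ⊕ Fin k → ℝ =>
      H2 M T (γ (Sum.inl p.1) - γ (Sum.inr p.2)) := fun p =>
    (H2_meas M T).comp ((measurable_pi_apply _).sub (measurable_pi_apply _))
  have hmeasS : Measurable fun γ : Fin k ⊕ Fin k → ℝ => ENNReal.ofReal A *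
      ∑ p : Fin k × Fin k, H2 M T (γ (Sum.inl p.1) - γ (Sum.inr p.2)) :=
    (Finset.measurable_fun_sum _ fun p _ => hmeas p).const_mul _
  calc ∫⁻ γ in Sep k T, ENNReal.ofReal (‖GM M γ 0 - zr γ‖ ^ 2) ∂(mP (Fin k ⊕ Fin k) T)
      ≤ ∫⁻ γ in Sep k T, ENNReal.ofReal A *
          ∑ p : Fin k × Fin k, H2 M T (γ (Sum.inl p.1) - γ (Sum.inr p.2))
            ∂(mP (Fin k ⊕ Fin k) T) := setLIntegral_mono hmeasS hpt
    _ ≤ ∫⁻ γ, ENNReal.ofReal A *
          ∑ p : Fin k × Fin k, H2 M T (γ (Sum.inl p.1) - γ (Sum.inr p.2))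
            ∂(mP (Fin k ⊕ Fin k) T) := setLIntegral_le_lintegral _ _
    _ = ENNReal.ofReal A * ∑ p : Fin k × Fin k,
          ∫⁻ γ, H2 M T (γ (Sum.inl p.1) - γ (Sum.inr p.2)) ∂(mP (Fin k ⊕ Fin k) T) := by
        rw [lintegral_const_mul _ (Finset.measurable_fun_sum _ fun p _ => hmeas p),
          lintegral_finsetSum _ fun p _ => hmeas p]
    _ ≤ ENNReal.ofReal A * ∑ p : Fin k × Fin k,
          ENNReal.ofReal (2 * (C₁ * Real.log T * T / M) * T ^ (2 * k - 1)) := by
        gcongr with p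
        refine (fub T (by simp) (H2_meas M T)).trans ?_
        rw [H2_int M hT1]
        have e1 : Fintype.card (Fin k ⊕ Fin k) - 1 = 2 * k - 1 := by simp; omega
        have hT0 : 0 ≤ T := by linarith
        rw [e1, ENNReal.ofReal_mul (by positivity), ENNReal.ofReal_mul (by norm_num),
          ENNReal.ofReal_pow hT0, ENNReal.ofReal_ofNat]
        gcongr
        exact hi
    _ ≤ ENNReal.ofReal ((D + 1) * Real.log T ^ (2 * (k * k) + 1) * T ^ (2 * k) / M) := by
        have hT0 : 0 ≤ T := by linarith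
        rw [Finset.sum_const, Finset.card_univ, Fintype.card_prod, Fintype.card_fin,
          nsmul_eq_mul, ← ENNReal.ofReal_natCast, ← ENNReal.ofReal_mul (by positivity),
          ← ENNReal.ofReal_mul hA0]
        refine ENNReal.ofReal_le_ofReal ?_
        rcases Nat.eq_zero_or_pos k with hk | hk
        · subst hk
          simp only [Nat.cast_zero, zero_mul, mul_zero, pow_zero]
          have : (0 : ℝ) < M := by linarith
          positivity
        · have e2 : T * T ^ (2 * k - 1) = T ^ (2 * k) := by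
            rw [← pow_succ']
            congr 1
            omega
          have e3 : A * (((k * k : ℕ) : ℝ) * (2 * (C₁ * Real.log T * T / M) * T ^ (2 * k - 1))) =
              D * Real.log T ^ (2 * (k * k) + 1) * T ^ (2 * k) / M := by
            rw [← e2, hA, hD, hK, mul_pow]
            push_cast
            ring
          rw [e3]
          gcongr
          linarith


end

end Pool.Agent.Y752.SR
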