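import Pool.Agent.Y752.SR.K4

set_option autoImplicit false

/-! The arithmetic factor as a Dirichlet series over powerful numbers. -/

namespace Pool.Agent.Y752.SR

open MeasureTheory Set Filter Complex
open Pool.Agent.TH612.GS (mP dr)
open Pool.Agent.TH612.CF (pw pw_apply pw_mult tauA tauA_apply tauA_mult tau_prime tau_le dg)
open Pool.Agent.W182.KO (tau)

noncomputable section

variable {k : ℕ}

/-- the coefficients -/
def DA (γ : Fin k ⊕ Fin k → ℝ) : ArithmeticFunction ℂ :=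
  (tauA (fun j : Fin k => I * (γ (Sum.inr j) : ℂ))).pmul (tauA (fun j : Fin k => -(I * (γ (Sum.inl j) : ℂ))))

lemma DA_apply (γ : Fin k ⊕ Fin k → ℝ) (n : ℕ) : DA γ n = tau (fun j : Fin k => I * (γ (Sum.inr j) : ℂ)) n *
    tau (fun j : Fin k => -(I * (γ (Sum.inl j) : ℂ))) n := by
  unfold DA
  rw [ArithmeticFunction.pmul_apply, tauA_apply, tauA_apply]

lemma dr_DA (γ : Fin k ⊕ Fin k → ℝ) (n : ℕ) : dr γ n = DA γ n * (n : ℂ)⁻¹ := by
  rw [DA_apply]
  rfl

lemma DA_mult (γ : Fin k ⊕ Fin k → ℝ) : (DA γ).IsMultiplicative :=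
  (tauA_mult _).pmul (tauA_mult _)

/-- the inverse of `pw` -/
def pwi (l : ℂ) : ArithmeticFunction ℂ :=
  (pw l).pmul ((ArithmeticFunction.moebius : ArithmeticFunction ℤ) : ArithmeticFunction ℂ)

lemma pwi_mult (l : ℂ) : (pwi l).IsMultiplicative :=
  (pw_mult l).pmul (ArithmeticFunction.isMultiplicative_moebius.intCast)

lemma pwi_apply {n : ℕ} (l : ℂ) (hn : n ≠ 0) :
    pwi l n = (n : ℂ) ^ l * ((ArithmeticFunction.moebius n : ℤ) : ℂ) := by
  unfold pwi
  rw [ArithmeticFunction.pmul_apply, pw_apply l hn, ArithmeticFunction.intCoe_apply]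

lemma pwi_le (l : ℂ) (hl : l.re = 0) (n : ℕ) : ‖pwi l n‖ ≤ 1 := by
  rcases Nat.eq_zero_or_pos n with h | h
  · subst h
    simp
  · rw [pwi_apply l h.ne', norm_mul, Complex.norm_natCast_cpow_of_pos h, hl, Real.rpow_zero, one_mul,
      Complex.norm_intCast]
    have := ArithmeticFunction.abs_moebius_le_one (n := n)
    exact_mod_cast this

lemma pw_mul_pwi (l : ℂ) : pw l * pwi l = 1 := by
  ext n
  rcases Nat.eq_zero_or_pos n with h | h
  · subst h
    simp
  have h1 := congrArg (fun f : ArithmeticFunction ℂ => f n)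
    (ArithmeticFunction.coe_zeta_mul_coe_moebius (R := ℂ))
  simp only [ArithmeticFunction.mul_apply] at h1
  rw [ArithmeticFunction.mul_apply]
  have e1 : ∀ p ∈ n.divisorsAntidiagonal, pw l p.1 * pwi l p.2 =
      (n : ℂ) ^ l * ((((ArithmeticFunction.zeta : ArithmeticFunction ℕ) : ArithmeticFunction ℂ) p.1) *
        (((ArithmeticFunction.moebius : ArithmeticFunction ℤ) : ArithmeticFunction ℂ) p.2)) := by
    intro p hp
    obtain ⟨h2, h3⟩ := Nat.mem_divisorsAntidiagonal.1 hp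
    have hp1 : p.1 ≠ 0 := by rintro h; rw [h, zero_mul] at h2; exact h3 h2.symm
    have hp2 : p.2 ≠ 0 := by rintro h; rw [h, mul_zero] at h2; exact h3 h2.symm
    rw [pw_apply l hp1, pwi_apply l hp2, ← h2, Nat.cast_mul, Complex.natCast_mul_natCast_cpow,
      ArithmeticFunction.natCoe_apply, ArithmeticFunction.intCoe_apply, ArithmeticFunction.zeta_apply,
      if_neg hp1]
    push_cast
    ring
  rw [Finset.sum_congr rfl e1, ← Finset.mul_sum, h1, ArithmeticFunction.one_apply]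
  by_cases hn : n = 1
  · subst hn
    simp
  · rw [if_neg hn, mul_zero]

/-- the quotient -/
def ps (γ : Fin k ⊕ Fin k → ℝ) : ArithmeticFunction ℂ := DA γ * ∏ e, pwi (lx γ e)

lemma ps_mul (γ : Fin k ⊕ Fin k → ℝ) : XX Finset.univ γ * ps γ = DA γ := by
  unfold XX ps
  rw [mul_comm, mul_assoc, ← Finset.prod_mul_distrib]
  have : ∏ e, pwi (lx γ e) * pw (lx γ e) = 1 :=
    Finset.prod_eq_one fun e _ => by rw [mul_comm, pw_mul_pwi]
  rw [this, mul_one]

lemma prod_mult (s : Finset (Fin k × Fin k)) (f : Fin k × Fin k → ArithmeticFunction ℂ)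
    (hf : ∀ e, (f e).IsMultiplicative) : (∏ e ∈ s, f e).IsMultiplicative := by
  induction s using Finset.induction_on with
  | empty =>
    rw [Finset.prod_empty]
    exact ArithmeticFunction.isMultiplicative_one
  | insert a s ha ih =>
    rw [Finset.prod_insert ha]
    exact (hf a).mul ih

lemma ps_mult (γ : Fin k ⊕ Fin k → ℝ) : (ps γ).IsMultiplicative :=
  (DA_mult γ).mul (prod_mult _ _ fun _ => pwi_mult _)

lemma XX_mult (s : Finset (Fin k × Fin k)) (γ : Fin k ⊕ Fin k → ℝ) : (XX s γ).IsMultiplicative :=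
  prod_mult _ _ fun _ => pw_mult _

lemma mul_prime {f g : ArithmeticFunction ℂ} (hf : f.IsMultiplicative) (hg : g.IsMultiplicative)
    {p : ℕ} (hp : p.Prime) : (f * g) p = f p + g p := by
  rw [ArithmeticFunction.mul_apply, Nat.sum_divisorsAntidiagonal (fun a b => f a * g b),
    Nat.Prime.divisors hp, Finset.sum_pair hp.one_lt.ne, Nat.div_one, Nat.div_self hp.pos,
    hf.map_one, hg.map_one]
  ring

lemma XX_prime (s : Finset (Fin k × Fin k)) (γ : Fin k ⊕ Fin k → ℝ) {p : ℕ} (hp : p.Prime) :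
    XX s γ p = ∑ e ∈ s, (p : ℂ) ^ (lx γ e) := by
  induction s using Finset.induction_on with
  | empty =>
    unfold XX
    rw [Finset.prod_empty, Finset.sum_empty, ArithmeticFunction.one_apply, if_neg hp.one_lt.ne']
  | insert a s ha ih =>
    have e0 : XX (insert a s) γ = pw (lx γ a) * XX s γ := by
      unfold XX
      rw [Finset.prod_insert ha]
    rw [e0, mul_prime (pw_mult _) (XX_mult s γ) hp, ih, Finset.sum_insert ha, pw_apply _ hp.ne_zero]

lemma ps_prime (γ : Fin k ⊕ Fin k → ℝ) {p : ℕ} (hp : p.Prime) : ps γ p = 0 := by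
  have h1 := congrArg (fun f : ArithmeticFunction ℂ => f p) (ps_mul γ)
  rw [mul_prime (XX_mult _ γ) (ps_mult γ) hp, XX_prime _ γ hp, DA_apply, tau_prime _ hp,
    tau_prime _ hp] at h1
  have h2 : ∑ e : Fin k × Fin k, (p : ℂ) ^ (lx γ e) =
      (∑ j : Fin k, (p : ℂ) ^ (I * (γ (Sum.inr j) : ℂ))) * ∑ j : Fin k, (p : ℂ) ^ (-(I * (γ (Sum.inl j) : ℂ))) := by
    rw [mul_comm, Finset.sum_mul_sum, Fintype.sum_prod_type]
    refine Finset.sum_congr rfl fun i _ => Finset.sum_congr rfl fun j _ => ?_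
    rw [← Complex.cpow_add _ _ (by exact_mod_cast hp.ne_zero)]
    unfold lx
    congr 1
    ring
  rw [h2] at h1
  linear_combination h1

/-- powerful numbers -/
def Pf (b : ℕ) : Prop := 1 ≤ b ∧ ∀ p : ℕ, p.Prime → p ∣ b → p ^ 2 ∣ b

lemma ps_zero (γ : Fin k ⊕ Fin k → ℝ) {b : ℕ} (h : ¬ Pf b) : ps γ b = 0 := by
  rcases Nat.eq_zero_or_pos b with hb | hb
  · subst hb
    simp
  unfold Pf at h
  push Not at h
  obtain ⟨p, hp, h1, h2⟩ := h hb
  obtain ⟨c, rfl⟩ := h1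
  have hc : ¬ p ∣ c := by
    rintro ⟨d, rfl⟩
    exact h2 ⟨d, by ring⟩
  have hco : Nat.Coprime p c := (Nat.Prime.coprime_iff_not_dvd hp).2 hc
  rw [(ps_mult γ).map_mul_of_coprime hco, ps_prime γ hp, zero_mul]

lemma DA_le (γ : Fin k ⊕ Fin k → ℝ) (n : ℕ) : ‖DA γ n‖ ≤ (n.divisors.card : ℝ) ^ (2 * k) := by
  rw [DA_apply, norm_mul]
  have h1 := tau_le (l := fun j : Fin k => I * (γ (Sum.inr j) : ℂ)) (c := 0) (fun j => by simp) n
  have h2 := tau_le (l := fun j : Fin k => -(I * (γ (Sum.inl j) : ℂ))) (c := 0) (fun j => by simp) n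
  rw [Real.rpow_zero, mul_one] at h1 h2
  calc _ ≤ (n.divisors.card : ℝ) ^ k * (n.divisors.card : ℝ) ^ k :=
        mul_le_mul h1 h2 (norm_nonneg _) (by positivity)
    _ = _ := by rw [← pow_add, two_mul]

lemma conv_le (f : ArithmeticFunction ℂ) (A : ℕ) (hf : ∀ n, ‖f n‖ ≤ (n.divisors.card : ℝ) ^ A) (l : ℂ)
    (hl : l.re = 0) (n : ℕ) : ‖(f * pwi l) n‖ ≤ (n.divisors.card : ℝ) ^ (A + 1) := by
  rw [ArithmeticFunction.mul_apply, Nat.sum_divisorsAntidiagonal (fun a b => f a * pwi l b)]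
  rcases Nat.eq_zero_or_pos n with h | h
  · subst h
    simp
  have h1 : ∀ d ∈ n.divisors, ‖f d * pwi l (n / d)‖ ≤ (n.divisors.card : ℝ) ^ A := by
    intro d hd
    rw [norm_mul]
    have h2 : (d.divisors.card : ℝ) ≤ n.divisors.card := by
      exact_mod_cast Finset.card_le_card (Nat.divisors_subset_of_dvd h.ne' (Nat.dvd_of_mem_divisors hd))
    calc ‖f d‖ * ‖pwi l (n / d)‖ ≤ (d.divisors.card : ℝ) ^ A * 1 :=
          mul_le_mul (hf d) (pwi_le l hl _) (norm_nonneg _) (by positivity)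
      _ = (d.divisors.card : ℝ) ^ A := mul_one _
      _ ≤ _ := by gcongr
  refine (norm_sum_le_of_le _ h1).trans ?_
  rw [Finset.sum_const, nsmul_eq_mul, pow_succ, mul_comm]

lemma conv_prod_le (γ : Fin k ⊕ Fin k → ℝ) (s : Finset (Fin k × Fin k)) :
    ∀ n, ‖(DA γ * ∏ e ∈ s, pwi (lx γ e)) n‖ ≤ (n.divisors.card : ℝ) ^ (2 * k + s.card) := by
  induction s using Finset.induction_on with
  | empty =>
    intro n
    rw [Finset.prod_empty, mul_one, Finset.card_empty, add_zero]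
    exact DA_le γ n
  | insert a s ha ih =>
    intro n
    rw [Finset.prod_insert ha, mul_comm (pwi _), ← mul_assoc, Finset.card_insert_of_notMem ha, ← add_assoc]
    exact conv_le _ _ ih _ (lx_re γ a) n

open Classical in
/-- the majorant -/
def gg (A : ℕ) (b : ℕ) : ℝ := if Pf b then (b.divisors.card : ℝ) ^ A else 0

lemma gg_nonneg (A b : ℕ) : 0 ≤ gg A b := by
  unfold gg
  split_ifs
  · positivity
  · exact le_rfl

lemma ps_le (γ : Fin k ⊕ Fin k → ℝ) (b : ℕ) : ‖ps γ b‖ ≤ gg (2 * k + k * k) b := by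
  unfold gg
  split_ifs with h
  · have h1 := conv_prod_le γ Finset.univ b
    rw [Finset.card_univ, Fintype.card_prod, Fintype.card_fin] at h1
    exact h1
  · rw [ps_zero γ h, norm_zero]

lemma pf_dec {b : ℕ} (h : Pf b) : ∃ q : ℕ × ℕ, 1 ≤ q.1 ∧ 1 ≤ q.2 ∧ q.1 ^ 2 * q.2 ^ 3 = b := by
  obtain ⟨hb, hp⟩ := h
  obtain ⟨a, c, ha, hc, h1, h2⟩ := Nat.sq_mul_squarefree_of_pos hb
  have hac : a ∣ c := by
    rw [← Nat.prod_primeFactors_of_squarefree h2]
    refine Finset.prod_primes_dvd c (fun p hp' => (Nat.prime_of_mem_primeFactors hp').prime) ?_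
    intro p hp'
    have hpp := Nat.prime_of_mem_primeFactors hp'
    have hpa := Nat.dvd_of_mem_primeFactors hp'
    by_contra hcon
    have h3 : p ^ 2 ∣ c ^ 2 * a := by
      rw [h1]
      exact hp p hpp (by rw [← h1]; exact Dvd.dvd.mul_left hpa _)
    have h4 : Nat.Coprime (p ^ 2) (c ^ 2) :=
      Nat.Coprime.pow 2 2 ((Nat.Prime.coprime_iff_not_dvd hpp).2 hcon)
    have h5 : p ^ 2 ∣ a := h4.dvd_of_dvd_mul_left h3
    rw [pow_two] at h5
    exact hpp.one_lt.ne' (Nat.isUnit_iff.1 (h2 p h5))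
  obtain ⟨x, rfl⟩ := hac
  refine ⟨(x, a), ?_, ha, ?_⟩
  · refine Nat.pos_of_ne_zero fun h0 => ?_
    have h0' : x = 0 := h0
    rw [h0', mul_zero] at hc
    exact absurd hc (by norm_num)
  · rw [← h1]
    ring

theorem pf_sum {σ : ℝ} (hσ : 1 / 2 < σ) : Summable fun b : ℕ => gg 0 b * (b : ℝ) ^ (-σ) := by
  have hs1 : Summable fun x : ℕ => (x : ℝ) ^ (-(2 * σ)) := Real.summable_nat_rpow.2 (by linarith)
  have hs2 : Summable fun x : ℕ => (x : ℝ) ^ (-(3 * σ)) := Real.summable_nat_rpow.2 (by linarith)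
  have hs := hs1.mul_of_nonneg hs2 (fun x => by positivity) (fun x => by positivity)
  have hdec : ∀ b : ℕ, ∃ q : ℕ × ℕ, Pf b → 1 ≤ q.1 ∧ 1 ≤ q.2 ∧ q.1 ^ 2 * q.2 ^ 3 = b := by
    intro b
    by_cases h : Pf b
    · obtain ⟨q, hq⟩ := pf_dec h
      exact ⟨q, fun _ => hq⟩
    · exact ⟨(0, 0), fun h' => absurd h' h⟩
  choose q hq using hdec
  classical
  refine summable_of_sum_le (c := ∑' x : ℕ × ℕ, (x.1 : ℝ) ^ (-(2 * σ)) * (x.2 : ℝ) ^ (-(3 * σ)))
    (fun b => mul_nonneg (gg_nonneg _ _) (by positivity)) fun u => ?_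
  have e1 : ∑ b ∈ u, gg 0 b * (b : ℝ) ^ (-σ) = ∑ b ∈ u.filter Pf, (b : ℝ) ^ (-σ) := by
    rw [Finset.sum_filter]
    refine Finset.sum_congr rfl fun b _ => ?_
    unfold gg
    split_ifs <;> simp
  have e2 : ∑ b ∈ u.filter Pf, (b : ℝ) ^ (-σ) =
      ∑ b ∈ u.filter Pf, ((q b).1 : ℝ) ^ (-(2 * σ)) * ((q b).2 : ℝ) ^ (-(3 * σ)) := by
    refine Finset.sum_congr rfl fun b hb => ?_
    obtain ⟨h1, h2, h3⟩ := hq b (Finset.mem_filter.1 hb).2
    have h4 : (b : ℝ) = ((q b).1 : ℝ) ^ 2 * ((q b).2 : ℝ) ^ 3 := by exact_mod_cast h3.symm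
    rw [h4, Real.mul_rpow (by positivity) (by positivity), ← Real.rpow_natCast, ← Real.rpow_natCast,
      ← Real.rpow_mul (by positivity), ← Real.rpow_mul (by positivity)]
    congr 2 <;> push_cast <;> ring
  have hinj : Set.InjOn q (u.filter Pf : Set ℕ) := by
    intro b hb b' hb' h
    have h1 := (hq b (Finset.mem_filter.1 (Finset.mem_coe.1 hb)).2).2.2
    have h2 := (hq b' (Finset.mem_filter.1 (Finset.mem_coe.1 hb')).2).2.2
    rw [← h1, ← h2, h]
  rw [e1, e2]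
  have e3 : ∑ b ∈ u.filter Pf, ((q b).1 : ℝ) ^ (-(2 * σ)) * ((q b).2 : ℝ) ^ (-(3 * σ)) =
      ∑ x ∈ (u.filter Pf).image q, (x.1 : ℝ) ^ (-(2 * σ)) * (x.2 : ℝ) ^ (-(3 * σ)) :=
    (Finset.sum_image (f := fun x : ℕ × ℕ => (x.1 : ℝ) ^ (-(2 * σ)) * (x.2 : ℝ) ^ (-(3 * σ))) hinj).symm
  rw [e3]
  exact hs.sum_le_tsum _ fun x _ => by positivity

theorem gg_sum (A : ℕ) {σ : ℝ} (hσ : 1 / 2 < σ) : Summable fun b : ℕ => gg A b * (b : ℝ) ^ (-σ) := by
  set δ : ℝ := (σ - 1 / 2) / 2 with hδ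
  have hδ0 : 0 < δ := by rw [hδ]; linarith
  obtain ⟨C, hC0, hC⟩ := Pool.Agent.H510R2.divisor_bound (δ / (A + 1)) (by positivity)
  refine Summable.of_nonneg_of_le (fun b => mul_nonneg (gg_nonneg _ _) (by positivity)) (fun b => ?_)
    ((pf_sum (σ := σ - δ) (by rw [hδ]; linarith)).mul_left (C ^ A))
  unfold gg
  split_ifs with h
  · have hb : 1 ≤ b := h.1
    have hb1 : (1:ℝ) ≤ b := by exact_mod_cast hb
    have hb0 : (0:ℝ) < b := by linarith
    rw [pow_zero, one_mul]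
    have h1 : (b.divisors.card : ℝ) ^ A ≤ C ^ A * (b : ℝ) ^ δ := by
      calc (b.divisors.card : ℝ) ^ A ≤ (C * (b : ℝ) ^ (δ / (A + 1))) ^ A := by
            have := hC b hb
            gcongr
        _ = C ^ A * (b : ℝ) ^ (δ / (A + 1) * A) := by
            rw [mul_pow, ← Real.rpow_natCast ((b : ℝ) ^ _), ← Real.rpow_mul hb0.le]
        _ ≤ _ := by
            refine mul_le_mul_of_nonneg_left ?_ (by positivity)
            refine Real.rpow_le_rpow_of_exponent_le hb1 ?_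
            rw [div_mul_eq_mul_div, div_le_iff₀ (by positivity)]
            nlinarith
    calc (b.divisors.card : ℝ) ^ A * (b : ℝ) ^ (-σ) ≤ (C ^ A * (b : ℝ) ^ δ) * (b : ℝ) ^ (-σ) := by gcongr
      _ = C ^ A * ((b : ℝ) ^ δ * (b : ℝ) ^ (-σ)) := by ring
      _ = _ := by
          rw [← Real.rpow_add hb0]
          congr 2
          ring
  · simp

end

end Pool.Agent.Y752.SR
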