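import Pool.Agent.Y752.SR.F

set_option autoImplicit false

/-! The mean values for arbitrary index types. -/

namespace Pool.Agent.Y752.SR

open MeasureTheory Set Filter Complex
open Pool.Agent.TH612.GS (mP conj_cpow_nat)
open Pool.Agent.TH521.GS (mor lint_prod lint_equiv lint1)

noncomputable section

variable {ι : Type} [Fintype ι]

lemma sum_contι (σ : ι → Bool) {κ : Type} (s : Finset κ) (N : κ → ι → ℕ) (c : κ → ℂ)
    (h : ∀ q ∈ s, ∀ i, 1 ≤ N q i) :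
    Continuous fun γ : ι → ℝ => ‖∑ q ∈ s, c q * ∏ i, chs (σ i) (N q i) (γ i)‖ ^ 2 := by
  refine Continuous.pow (Continuous.norm ?_) 2
  refine continuous_finsetSum _ fun q hq => continuous_const.mul ?_
  exact continuous_finsetProd _ fun i _ => (chs_cont (σ i) (h q hq i)).comp (continuous_apply i)

open Classical in
theorem tlsι {C1 : ℝ} (hC1 : 0 < C1) (hMV : ∀ (T : ℝ) (X : ℕ) (a : ℕ → ℂ), 1 ≤ T → (X : ℝ) ≤ T ^ 2 →
      ∫ u in (0:ℝ)..(2 * T), ‖∑ n ∈ Finset.Icc 1 X, a n * (n : ℂ) ^ (-(I * u))‖ ^ 2 ≤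
        C1 * ∑ n ∈ Finset.Icc 1 X, (T + n) * ‖a n‖ ^ 2)
    {H : ℝ} (hH : 1 ≤ H) (σ : ι → Bool) {κ : Type} (s : Finset κ)
    (N : κ → ι → ℕ) (c : κ → ℂ) (D : ℕ) (hN : ∀ q ∈ s, ∀ i, 1 ≤ N q i ∧ (N q i : ℝ) ≤ H)
    (hD : ∀ q ∈ s, (s.filter fun q' => N q' = N q).card ≤ D) :
    ∫⁻ γ, ENNReal.ofReal (‖∑ q ∈ s, c q * ∏ i, chs (σ i) (N q i) (γ i)‖ ^ 2) ∂(mP ι H) ≤
      ENNReal.ofReal ((2 * C1 * H) ^ Fintype.card ι * (D * ∑ q ∈ s, ‖c q‖ ^ 2)) := by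
  set n := Fintype.card ι with hn
  have e : ι ≃ Fin n := Fintype.equivFin ι
  rw [lint_equiv e H _ (mor (sum_contι σ s N c fun q hq i => (hN q hq i).1))]
  have h1 := tls hC1 hMV hH n (fun j => σ (e.symm j)) s (fun q j => N q (e.symm j)) c D
    (fun q hq j => hN q hq _) (fun q hq => by
      refine le_trans (Finset.card_le_card ?_) (hD q hq)
      intro q' hq'
      rw [Finset.mem_filter] at hq' ⊢
      refine ⟨hq'.1, funext fun i => ?_⟩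
      have := congrFun hq'.2 (e i)
      simpa using this)
  have e1 : ∀ (q : κ) (γ : Fin n → ℝ),
      ∏ j, chs (σ (e.symm j)) (N q (e.symm j)) (γ j) = ∏ i, chs (σ i) (N q i) (γ (e i)) := by
    intro q γ
    rw [← Equiv.prod_comp e]
    simp
  simp only [e1] at h1
  exact h1

open Classical in
theorem mixι {C1 : ℝ} (hC1 : 0 < C1) (hMV : ∀ (T : ℝ) (X : ℕ) (a : ℕ → ℂ), 1 ≤ T → (X : ℝ) ≤ T ^ 2 →
      ∫ u in (0:ℝ)..(2 * T), ‖∑ n ∈ Finset.Icc 1 X, a n * (n : ℂ) ^ (-(I * u))‖ ^ 2 ≤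
        C1 * ∑ n ∈ Finset.Icc 1 X, (T + n) * ‖a n‖ ^ 2)
    {H : ℝ} (hH : 1 ≤ H) {i0 i1 : ι} (hi : i1 ≠ i0) (σ : ι → Bool) (σ' : Bool) {κ : Type} (s : Finset κ)
    (N : κ → ι → ℕ) (n : κ → ℕ) (c : κ → ℂ) (D E X : ℕ) (hX : (X : ℝ) ≤ H ^ 2)
    (hN : ∀ q ∈ s, ∀ i, 1 ≤ N q i ∧ (N q i : ℝ) ≤ H)
    (hn : ∀ q ∈ s, 1 ≤ n q ∧ N q i0 * n q ≤ X)
    (hD : ∀ q ∈ s, (s.filter fun q' => n q' = n q ∧ N q' = N q).card ≤ D)
    (hE : ∀ M ∈ Finset.Icc 1 X, M.divisors.card ≤ E) :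
    ∫⁻ γ, ENNReal.ofReal (‖∑ q ∈ s, c q * ((∏ i, chs (σ i) (N q i) (γ i)) *
      (chs (σ i0) (n q) (γ i0) * chs σ' (n q) (γ i1)))‖ ^ 2) ∂(mP ι H) ≤
      ENNReal.ofReal ((2 * C1 * H) ^ (Fintype.card ι - 1) * D * E * C1 *
        ∑ q ∈ s, (H + (N q i0 * n q : ℕ)) * ‖c q‖ ^ 2) := by
  have hpos : 0 < Fintype.card ι := Fintype.card_pos_iff.2 ⟨i0⟩
  obtain ⟨m, hm⟩ : ∃ m, Fintype.card ι = m + 1 := ⟨Fintype.card ι - 1, by omega⟩
  obtain ⟨e, he⟩ : ∃ e : ι ≃ Fin (m + 1), e i0 = 0 := by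
    have e' : ι ≃ Fin (m + 1) := Fintype.equivFinOfCardEq hm
    refine ⟨e'.trans (Equiv.swap (e' i0) 0), ?_⟩
    simp
  have hc : Continuous fun γ : ι → ℝ => ‖∑ q ∈ s, c q * ((∏ i, chs (σ i) (N q i) (γ i)) *
      (chs (σ i0) (n q) (γ i0) * chs σ' (n q) (γ i1)))‖ ^ 2 := by
    refine Continuous.pow (Continuous.norm ?_) 2
    refine continuous_finsetSum _ fun q hq => continuous_const.mul (Continuous.mul ?_ (Continuous.mul ?_ ?_))
    · exact continuous_finsetProd _ fun i _ => (chs_cont (σ i) (hN q hq i).1).comp (continuous_apply i)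
    · exact (chs_cont _ (hn q hq).1).comp (continuous_apply _)
    · exact (chs_cont _ (hn q hq).1).comp (continuous_apply _)
  rw [lint_equiv e H _ (mor hc)]
  have hei : e i1 ≠ 0 := by
    rw [← he]
    exact fun h => hi (e.injective h)
  obtain ⟨j1, hj1⟩ := Fin.exists_succ_eq.2 hei
  have hes : e.symm 0 = i0 := by rw [← he, Equiv.symm_apply_apply]
  have h1 := mix hC1 hMV hH (fun j => σ (e.symm j)) σ' s (fun q j => N q (e.symm j)) n j1 c D E X hX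
    (fun q hq j => hN q hq _) (fun q hq => by
      rw [hes]
      exact ⟨(hn q hq).1, (hN q hq i0).1, (hn q hq).2⟩) (fun q hq => by
      refine le_trans (Finset.card_le_card ?_) (hD q hq)
      intro q' hq'
      rw [Finset.mem_filter] at hq' ⊢
      refine ⟨hq'.1, hq'.2.1, funext fun i => ?_⟩
      have := congrFun hq'.2.2 (e i)
      simpa using this) hE
  have e1 : ∀ (q : κ) (γ : Fin (m + 1) → ℝ),
      ∏ j, chs (σ (e.symm j)) (N q (e.symm j)) (γ j) = ∏ i, chs (σ i) (N q i) (γ (e i)) := by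
    intro q γ
    rw [← Equiv.prod_comp e]
    simp
  simp only [e1, hes] at h1
  beta_reduce
  rw [he, ← hj1, hm, Nat.add_sub_cancel]
  exact h1

end

end Pool.Agent.Y752.SR
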