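import Pool.Agent.TH521.GS.Rep

set_option autoImplicit false

/-! Replacement of the factors, with the shifts in an interval which may be shorter than the range of
the variable (after `Pool.Agent.TH521.GS.Rep`). -/

namespace Pool.Agent.Y752.SR

open MeasureTheory Set
open scoped ENNReal
open Pool.Agent.TH612.GS (mP)
open Pool.Agent.TH521.GS (mor lint_prod lint_equiv lint1 tonelli pt bb bb_succ bb_nonneg bb_le)

noncomputable section

theorem rep_fin {T S K V : ℝ} (hS : 0 ≤ S) (hT : 0 ≤ T) (hK : 0 ≤ K) (hV : 0 ≤ V) :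
    ∀ (n : ℕ) (f g : Fin n → ℝ → ℂ), (∀ i, Continuous (f i)) → (∀ i, Continuous (g i)) →
    (∀ i, ∀ R : ℝ → ℂ, Continuous R →
      ∫ y in (0:ℝ)..T, ‖∫ t in (0:ℝ)..S, (f i (t + y) - g i (t + y)) * R t‖ ^ 2 ≤
        K * ∫ t in (0:ℝ)..S, ‖R t‖ ^ 2) →
    (∀ i, ∀ t ∈ Icc 0 S, ∫ y in (0:ℝ)..T, ‖f i (t + y)‖ ^ 2 ≤ V) →
    (∀ i, ∀ t ∈ Icc 0 S, ∫ y in (0:ℝ)..T, ‖g i (t + y)‖ ^ 2 ≤ V) →
    ∀ R : ℝ → ℂ, Continuous R →
    ∫⁻ γ, ENNReal.ofReal (‖∫ t in (0:ℝ)..S, R t *
      (∏ i, f i (t + γ i) - ∏ i, g i (t + γ i))‖ ^ 2) ∂(mP (Fin n) T) ≤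
      ENNReal.ofReal (bb K V n * ∫ t in (0:ℝ)..S, ‖R t‖ ^ 2) := by
  intro n
  induction n with
  | zero =>
    intro f g _ _ _ _ _ R _
    simp
  | succ n ih =>
    intro f g hf hg hop hVf hVg R hR
    have hf0 := hf 0
    have hg0 := hg 0
    have hcc : Continuous fun p : ℝ × (Fin n → ℝ) => (Fin.cons p.1 p.2 : Fin (n + 1) → ℝ) :=
      Continuous.finCons (A := fun _ => ℝ) continuous_fst continuous_snd
    -- the two parts
    obtain ⟨D1, hD1⟩ : ∃ D1 : ℝ × (Fin n → ℝ) → ℂ, D1 = fun p => ∫ t in (0:ℝ)..S,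
      (f 0 (t + p.1) - g 0 (t + p.1)) * (R t * ∏ i : Fin n, f i.succ (t + p.2 i)) := ⟨_, rfl⟩
    obtain ⟨D2, hD2⟩ : ∃ D2 : ℝ × (Fin n → ℝ) → ℂ, D2 = fun p => ∫ t in (0:ℝ)..S,
      (R t * g 0 (t + p.1)) * (∏ i : Fin n, f i.succ (t + p.2 i) -
        ∏ i : Fin n, g i.succ (t + p.2 i)) := ⟨_, rfl⟩
    have hc1 : Continuous D1 := by
      rw [hD1]
      apply intervalIntegral.continuous_parametric_intervalIntegral_of_continuous'
      unfold Function.uncurry
      fun_prop
    have hc2 : Continuous D2 := by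
      rw [hD2]
      apply intervalIntegral.continuous_parametric_intervalIntegral_of_continuous'
      unfold Function.uncurry
      fun_prop
    have hcD : Continuous fun γ : Fin (n + 1) → ℝ => ‖∫ t in (0:ℝ)..S, R t *
        (∏ i, f i (t + γ i) - ∏ i, g i (t + γ i))‖ ^ 2 := by
      apply Continuous.pow
      apply Continuous.norm
      apply intervalIntegral.continuous_parametric_intervalIntegral_of_continuous'
      unfold Function.uncurry
      fun_prop
    have hsplit : ∀ p : ℝ × (Fin n → ℝ), (∫ t in (0:ℝ)..S, R t *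
        (∏ i, f i (t + (Fin.cons p.1 p.2 : Fin (n + 1) → ℝ) i) -
          ∏ i, g i (t + (Fin.cons p.1 p.2 : Fin (n + 1) → ℝ) i))) = D1 p + D2 p := by
      intro p
      rw [hD1, hD2]
      dsimp only
      rw [← intervalIntegral.integral_add]
      · apply intervalIntegral.integral_congr
        intro t _
        dsimp only
        rw [Fin.prod_univ_succ, Fin.prod_univ_succ]
        simp only [Fin.cons_zero, Fin.cons_succ]
        ring
      · apply Continuous.intervalIntegrable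
        fun_prop
      · apply Continuous.intervalIntegrable
        fun_prop
    have hle : ∀ p : ℝ × (Fin n → ℝ), ENNReal.ofReal (‖∫ t in (0:ℝ)..S, R t *
        (∏ i, f i (t + (Fin.cons p.1 p.2 : Fin (n + 1) → ℝ) i) -
          ∏ i, g i (t + (Fin.cons p.1 p.2 : Fin (n + 1) → ℝ) i))‖ ^ 2) ≤
        ENNReal.ofReal 2 * ENNReal.ofReal (‖D1 p‖ ^ 2) +
          ENNReal.ofReal 2 * ENNReal.ofReal (‖D2 p‖ ^ 2) := by
      intro p
      rw [hsplit, ← ENNReal.ofReal_mul (by norm_num), ← ENNReal.ofReal_mul (by norm_num),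
        ← ENNReal.ofReal_add (by positivity) (by positivity)]
      apply ENNReal.ofReal_le_ofReal
      have h1 := norm_add_le (D1 p) (D2 p)
      have h2 : ‖D1 p + D2 p‖ ^ 2 ≤ (‖D1 p‖ + ‖D2 p‖) ^ 2 :=
        pow_le_pow_left₀ (norm_nonneg _) h1 2
      nlinarith [sq_nonneg (‖D1 p‖ - ‖D2 p‖)]
    have hm1 : Measurable fun p : ℝ × (Fin n → ℝ) => ENNReal.ofReal (‖D1 p‖ ^ 2) :=
      mor (hc1.norm.pow 2)
    have hm2 : Measurable fun p : ℝ × (Fin n → ℝ) => ENNReal.ofReal (‖D2 p‖ ^ 2) :=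
      mor (hc2.norm.pow 2)
    -- part 1
    have hp1 : ∫⁻ p, ENNReal.ofReal (‖D1 p‖ ^ 2)
        ∂((volume.restrict (Icc 0 T)).prod (mP (Fin n) T)) ≤
        ENNReal.ofReal (K * V ^ n * ∫ t in (0:ℝ)..S, ‖R t‖ ^ 2) := by
      rw [lintegral_prod_symm _ hm1.aemeasurable]
      have e1 : ∀ γ : Fin n → ℝ, ∫⁻ y, ENNReal.ofReal (‖D1 (y, γ)‖ ^ 2)
          ∂(volume.restrict (Icc 0 T)) ≤ ENNReal.ofReal K *
            ENNReal.ofReal (∫ t in (0:ℝ)..S, ‖R t‖ ^ 2 * ∏ i : Fin n, ‖f i.succ (t + γ i)‖ ^ 2) := by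
        intro γ
        have hcy : Continuous fun y : ℝ => ‖D1 (y, γ)‖ ^ 2 :=
          (hc1.comp (by fun_prop : Continuous fun y : ℝ => (y, γ))).norm.pow 2
        rw [lint1 hT hcy fun y => sq_nonneg _, ← ENNReal.ofReal_mul hK]
        apply ENNReal.ofReal_le_ofReal
        have h1 := hop 0 (fun t => R t * ∏ i : Fin n, f i.succ (t + γ i)) (by fun_prop)
        rw [hD1]
        refine h1.trans (le_of_eq ?_)
        congr 1
        apply intervalIntegral.integral_congr
        intro t _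
        dsimp only
        rw [norm_mul, norm_prod, mul_pow, Finset.prod_pow]
      refine (lintegral_mono e1).trans ?_
      have hG : Continuous (Function.uncurry fun (t : ℝ) (γ : Fin n → ℝ) =>
          ∏ i : Fin n, ‖f i.succ (t + γ i)‖ ^ 2) := by
        unfold Function.uncurry
        fun_prop
      rw [lintegral_const_mul']
      · rw [mul_assoc, ENNReal.ofReal_mul hK]
        refine mul_le_mul' le_rfl ?_
        exact tonelli (mP (Fin n) T) (hR.norm.pow 2) (fun t => sq_nonneg _) hG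
          (fun t γ => Finset.prod_nonneg fun i _ => sq_nonneg _) hS (by positivity)
          fun t ht => pt hT hV t n (fun i => f i.succ) (fun i => hf i.succ)
            fun i => hVf i.succ t ht
      · exact ENNReal.ofReal_ne_top
    -- part 2
    have hp2 : ∫⁻ p, ENNReal.ofReal (‖D2 p‖ ^ 2)
        ∂((volume.restrict (Icc 0 T)).prod (mP (Fin n) T)) ≤
        ENNReal.ofReal (bb K V n * (V * ∫ t in (0:ℝ)..S, ‖R t‖ ^ 2)) := by
      rw [lintegral_prod _ hm2.aemeasurable]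
      have hb := bb_nonneg hK hV n
      have e1 : ∀ y : ℝ, ∫⁻ γ, ENNReal.ofReal (‖D2 (y, γ)‖ ^ 2) ∂(mP (Fin n) T) ≤
          ENNReal.ofReal (bb K V n) *
            ENNReal.ofReal (∫ t in (0:ℝ)..S, ‖R t‖ ^ 2 * ‖g 0 (t + y)‖ ^ 2) := by
        intro y
        have h1 := ih (fun i => f i.succ) (fun i => g i.succ) (fun i => hf i.succ)
          (fun i => hg i.succ) (fun i => hop i.succ) (fun i => hVf i.succ) (fun i => hVg i.succ)
          (fun t => R t * g 0 (t + y)) (by fun_prop)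
        rw [hD2]
        refine h1.trans (le_of_eq ?_)
        rw [ENNReal.ofReal_mul hb]
        congr 3
        funext t
        rw [norm_mul, mul_pow]
      refine (lintegral_mono e1).trans ?_
      rw [lintegral_const_mul']
      · rw [ENNReal.ofReal_mul hb]
        refine mul_le_mul' le_rfl ?_
        have hG : Continuous (Function.uncurry fun (t : ℝ) (y : ℝ) => ‖g 0 (t + y)‖ ^ 2) := by
          unfold Function.uncurry
          fun_prop
        refine tonelli (volume.restrict (Icc 0 T)) (hR.norm.pow 2) (fun t => sq_nonneg _) hG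
          (fun t y => sq_nonneg _) hS hV fun t ht => ?_
        rw [lint1 hT (by fun_prop) fun y => sq_nonneg _]
        exact ENNReal.ofReal_le_ofReal (hVg 0 t ht)
      · exact ENNReal.ofReal_ne_top
    have hI : 0 ≤ ∫ t in (0:ℝ)..S, ‖R t‖ ^ 2 :=
      intervalIntegral.integral_nonneg hS fun t _ => sq_nonneg _
    have hb := bb_nonneg hK hV n
    rw [lint_prod T _ (mor hcD)]
    refine (lintegral_mono hle).trans ?_
    rw [lintegral_add_left (hm1.const_mul _), lintegral_const_mul _ hm1,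
      lintegral_const_mul _ hm2]
    refine (add_le_add (mul_le_mul' le_rfl hp1) (mul_le_mul' le_rfl hp2)).trans ?_
    rw [← ENNReal.ofReal_mul (by norm_num), ← ENNReal.ofReal_mul (by norm_num),
      ← ENNReal.ofReal_add (by positivity) (by positivity), bb_succ]
    apply ENNReal.ofReal_le_ofReal
    apply le_of_eq
    ring

/-- replacement of all the factors; the shifts run over `[0, T]`, the variable over `[0, S]` -/
theorem rep {ι : Type} [Fintype ι] (f g : ι → ℝ → ℂ) {T S K V : ℝ} (hS : 0 ≤ S) (hT : 0 ≤ T)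
    (hK : 0 ≤ K) (hV : 0 ≤ V) (hf : ∀ i, Continuous (f i)) (hg : ∀ i, Continuous (g i))
    (hop : ∀ i, ∀ R : ℝ → ℂ, Continuous R →
      ∫ y in (0:ℝ)..T, ‖∫ t in (0:ℝ)..S, (f i (t + y) - g i (t + y)) * R t‖ ^ 2 ≤
        K * ∫ t in (0:ℝ)..S, ‖R t‖ ^ 2)
    (hVf : ∀ i, ∀ t ∈ Icc 0 S, ∫ y in (0:ℝ)..T, ‖f i (t + y)‖ ^ 2 ≤ V)
    (hVg : ∀ i, ∀ t ∈ Icc 0 S, ∫ y in (0:ℝ)..T, ‖g i (t + y)‖ ^ 2 ≤ V) :
    ∫⁻ γ, ENNReal.ofReal (‖∫ t in (0:ℝ)..S, (∏ i, f i (t + γ i) - ∏ i, g i (t + γ i))‖ ^ 2)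
      ∂(mP ι T) ≤ ENNReal.ofReal (4 ^ Fintype.card ι * K * V ^ (Fintype.card ι - 1) * S) := by
  set n := Fintype.card ι with hn
  have e : ι ≃ Fin n := Fintype.equivFin ι
  have hcD : Continuous fun γ : ι → ℝ => ‖∫ t in (0:ℝ)..S,
      (∏ i, f i (t + γ i) - ∏ i, g i (t + γ i))‖ ^ 2 := by
    apply Continuous.pow
    apply Continuous.norm
    apply intervalIntegral.continuous_parametric_intervalIntegral_of_continuous'
    unfold Function.uncurry
    fun_prop
  rw [lint_equiv e T _ (mor hcD)]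
  have h1 := rep_fin hS hT hK hV n (fun j => f (e.symm j)) (fun j => g (e.symm j))
    (fun j => hf _) (fun j => hg _) (fun j => hop _) (fun j => hVf _) (fun j => hVg _)
    (fun _ => 1) continuous_const
  have e1 : ∀ (h : ι → ℝ → ℂ) (γ : Fin n → ℝ) (t : ℝ),
      ∏ j, h (e.symm j) (t + γ j) = ∏ i, h i (t + γ (e i)) := by
    intro h γ t
    rw [← Equiv.prod_comp e]
    simp
  simp only [e1, one_mul, norm_one, one_pow, intervalIntegral.integral_const, sub_zero, smul_eq_mul,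
    mul_one] at h1
  refine h1.trans (ENNReal.ofReal_le_ofReal ?_)
  exact mul_le_mul_of_nonneg_right (bb_le hK hV n) hS


end

end Pool.Agent.Y752.SR
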