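import Pool.Agent.Y752.SR.A
import Pool.Agent.TH889.GS.OP
import Pool.Agent.TH928.GS.MV
import Pool.Agent.TH503.GS.MVD
import Pool.Agent.TH236.GF.OQ
import Pool.Agent.TH321.GF.AQ

set_option autoImplicit false

/-! Zeta minus a Dirichlet polynomial of the length of the interval of shifts, as a convolution
operator (after `Pool.Agent.TH889.GS.OP`). -/

namespace Pool.Agent.Y752.SR

open MeasureTheory Set Filter Complex
open Pool.Agent.TH612.GS (mP z PN z_cont PN_cont S_MV S_MVD)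
open Pool.Agent.TH889.GS (cont_cpow cont_z cont_PN diff_eq norm_bb)

noncomputable section

theorem part2 {C1 C2 : ℝ} (hC1 : 0 < C1) (hC2 : 0 < C2)
    (hMV : ∀ (T : ℝ) (X : ℕ) (a : ℕ → ℂ), 1 ≤ T → (X : ℝ) ≤ T ^ 2 →
      ∫ u in (0:ℝ)..(2 * T), ‖∑ n ∈ Finset.Icc 1 X, a n * (n : ℂ) ^ (-(I * u))‖ ^ 2 ≤
        C1 * ∑ n ∈ Finset.Icc 1 X, (T + n) * ‖a n‖ ^ 2)
    (hMVD : ∀ (T S : ℝ) (X : ℕ) (R : ℝ → ℂ), 1 ≤ T → 0 ≤ S → S ≤ T →
      (X : ℝ) ≤ T ^ 2 → Continuous R →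
      ∑ n ∈ Finset.Icc 1 X, ‖∫ t in (0:ℝ)..S, R t * (n : ℂ) ^ (-(I * t))‖ ^ 2 / (T + n) ≤
        C2 * ∫ t in (0:ℝ)..S, ‖R t‖ ^ 2)
    {T S H : ℝ} {N X : ℕ} {R : ℝ → ℂ} (hH : 1 ≤ H) (hHT : H ≤ T) (hS : 0 ≤ S) (hST : S ≤ T)
    (hN : H ≤ 2 * N) (hNX : N ≤ X) (hX4 : (X : ℝ) ≤ 4 * T) (hXH : (X : ℝ) ≤ H ^ 2)
    (hR : Continuous R) :
    ∫ y in (0:ℝ)..H, ‖∫ t in (0:ℝ)..S, (PN X (t + y) - PN N (t + y)) * R t‖ ^ 2 ≤
      15 * C1 * C2 * T * ∫ t in (0:ℝ)..S, ‖R t‖ ^ 2 := by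
  have hT : 1 ≤ T := hH.trans hHT
  have hH0 : 0 < H := by linarith
  have hT0 : 0 < T := by linarith
  obtain ⟨c, hc⟩ : ∃ c : ℕ → ℂ, c = fun n : ℕ => ∫ t in (0:ℝ)..S, R t * (n : ℂ) ^ (-(I * t)) :=
    ⟨_, rfl⟩
  have hin : ∀ y : ℝ, ∫ t in (0:ℝ)..S, (PN X (t + y) - PN N (t + y)) * R t =
      ∑ n ∈ Finset.Icc 1 X, (Pool.Agent.TH889.GS.bb N n * c n) * (n : ℂ) ^ (-(I * y)) := by
    intro y
    have h1 : ∀ t : ℝ, (PN X (t + y) - PN N (t + y)) * R t =
        ∑ n ∈ Finset.Icc 1 X, (Pool.Agent.TH889.GS.bb N n * (n : ℂ) ^ (-(I * y))) *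
          (R t * (n : ℂ) ^ (-(I * t))) := by
      intro t
      rw [diff_eq hNX, Finset.sum_mul]
      exact Finset.sum_congr rfl fun n _ => by ring
    simp only [h1]
    rw [intervalIntegral.integral_finsetSum]
    · refine Finset.sum_congr rfl fun n _ => ?_
      rw [intervalIntegral.integral_const_mul, hc]
      ring
    · intro n hn
      have hn1 := (Finset.mem_Icc.1 hn).1
      exact ((hR.mul (cont_cpow hn1)).const_mul _).intervalIntegrable _ _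
  simp only [hin]
  have hcont : Continuous fun y : ℝ => ‖∑ n ∈ Finset.Icc 1 X, (Pool.Agent.TH889.GS.bb N n * c n) *
      (n : ℂ) ^ (-(I * y))‖ ^ 2 := by
    refine Continuous.pow (Continuous.norm ?_) 2
    apply continuous_finsetSum
    intro n hn
    exact (cont_cpow (Finset.mem_Icc.1 hn).1).const_mul _
  have h1 : ∫ y in (0:ℝ)..H, ‖∑ n ∈ Finset.Icc 1 X, (Pool.Agent.TH889.GS.bb N n * c n) *
        (n : ℂ) ^ (-(I * y))‖ ^ 2 ≤
      ∫ y in (0:ℝ)..(2 * H), ‖∑ n ∈ Finset.Icc 1 X, (Pool.Agent.TH889.GS.bb N n * c n) *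
        (n : ℂ) ^ (-(I * y))‖ ^ 2 :=
    intervalIntegral.integral_mono_interval le_rfl hH0.le (by linarith)
      (Eventually.of_forall fun _ => by positivity) (hcont.intervalIntegrable _ _)
  have h2 := hMV H X (fun n => Pool.Agent.TH889.GS.bb N n * c n) hH hXH
  have hXT : (X : ℝ) ≤ T ^ 2 := hXH.trans (by gcongr)
  have h3 := hMVD T S X R hT hS hST hXT hR
  have h4 : ∑ n ∈ Finset.Icc 1 X, (H + n) * ‖Pool.Agent.TH889.GS.bb N n * c n‖ ^ 2 ≤
      (15 * T) * ∑ n ∈ Finset.Icc 1 X,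
        ‖∫ t in (0:ℝ)..S, R t * (n : ℂ) ^ (-(I * t))‖ ^ 2 / (T + n) := by
    rw [Finset.mul_sum]
    refine Finset.sum_le_sum fun n hn => ?_
    have hn1 : (1 : ℝ) ≤ n := by exact_mod_cast (Finset.mem_Icc.1 hn).1
    have hnX : (n : ℝ) ≤ X := by exact_mod_cast (Finset.mem_Icc.1 hn).2
    have hcn : c n = ∫ t in (0:ℝ)..S, R t * (n : ℂ) ^ (-(I * t)) := by rw [hc]
    rw [← hcn, norm_mul, mul_pow]
    have hTn : 0 < T + n := by linarith
    by_cases h : N < n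
    · rw [norm_bb h]
      have hNn : (N : ℝ) ≤ n := by exact_mod_cast h.le
      have hn0 : (0:ℝ) < n := by linarith
      have a1 : (H + n) / n ≤ 3 := by
        rw [div_le_iff₀ hn0]
        linarith
      have a2 : (H + n) / n * (T + n) ≤ 15 * T := by
        calc (H + n) / n * (T + n) ≤ 3 * (T + 4 * T) := by
              have : (T + n) ≤ T + 4 * T := by linarith
              gcongr
          _ = _ := by ring
      have h5 : (H + n) * (1 / n * ‖c n‖ ^ 2) = (H + n) / n * (T + n) * (‖c n‖ ^ 2 / (T + n)) := by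
        field_simp
      rw [h5]
      exact mul_le_mul_of_nonneg_right a2 (by positivity)
    · unfold Pool.Agent.TH889.GS.bb
      rw [if_neg h]
      simp only [norm_zero]
      have : (H + ↑n) * (0 ^ 2 * ‖c n‖ ^ 2) = 0 := by ring
      rw [this]
      positivity
  calc _ ≤ _ := h1
    _ ≤ _ := h2
    _ ≤ C1 * ((15 * T) * (C2 * ∫ t in (0:ℝ)..S, ‖R t‖ ^ 2)) := by
      refine mul_le_mul_of_nonneg_left (h4.trans ?_) hC1.le
      exact mul_le_mul_of_nonneg_left h3 (by positivity)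
    _ = _ := by ring

theorem op : ∃ C T₀ : ℝ, 0 < C ∧ 3 ≤ T₀ ∧ ∀ (T S H : ℝ) (N : ℕ) (R : ℝ → ℂ), T₀ ≤ T →
    0 ≤ S → S ≤ T → 1 ≤ H → H ≤ T → 4 * T ≤ H ^ 2 → H ≤ 2 * N → (N : ℝ) ≤ H → Continuous R →
    ∫ y in (0:ℝ)..H, ‖∫ t in (0:ℝ)..S, (z (t + y) - PN N (t + y)) * R t‖ ^ 2 ≤
      C * (T * Real.log T ^ 2) * ∫ t in (0:ℝ)..S, ‖R t‖ ^ 2 := by
  obtain ⟨C1, hC1, h1⟩ := Pool.Agent.TH928.GS.t_MV
  obtain ⟨C2, hC2, h2⟩ := Pool.Agent.TH503.GS.t_MVD Pool.Agent.TH928.GS.t_MV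
  obtain ⟨C3, T3, hC3, hT3, h3⟩ := Pool.Agent.TH236.GF.t_OQ Pool.Agent.TH321.GF.t_AQ
  refine ⟨2 * C3 + 2 * (15 * C1 * C2), max T3 3, by positivity, le_max_right _ _, ?_⟩
  intro T S H N R hT hS hST hH hHT hTH hN hNH hR
  have hTT3 : T3 ≤ T := (le_max_left _ _).trans hT
  have hT3' : 3 ≤ T := (le_max_right _ _).trans hT
  have hT0 : 0 < T := by linarith
  have hlog : 1 ≤ Real.log T := by
    rw [Real.le_log_iff_exp_le hT0]
    exact (Real.exp_one_lt_d9.le.trans (by norm_num)).trans hT3'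
  obtain ⟨X, hX⟩ : ∃ X : ℕ, X = ⌈2 * T⌉₊ := ⟨_, rfl⟩
  have hX1 : 2 * T ≤ X := by rw [hX]; exact Nat.le_ceil _
  have hX2 : (X : ℝ) ≤ 4 * T := by
    have := Nat.ceil_lt_add_one (a := 2 * T) (by positivity)
    rw [← hX] at this
    linarith
  have hNX : N ≤ X := by
    have : (N : ℝ) ≤ X := by linarith
    exact_mod_cast this
  have he : Continuous fun u => z u - PN X u := cont_z.sub (cont_PN X)
  have hd : Continuous fun u => PN X u - PN N u := (cont_PN X).sub (cont_PN N)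
  have p1 := h3 T S X R hTT3 hS hST hX1 hX2 hR
  have p2 := part2 hC1 hC2 h1 h2 hH hHT hS hST hN hNX hX2 (hX2.trans hTH) hR
  set W := ∫ t in (0:ℝ)..S, ‖R t‖ ^ 2 with hW
  have hW0 : 0 ≤ W := intervalIntegral.integral_nonneg hS fun _ _ => by positivity
  have cF : ∀ g : ℝ → ℂ, Continuous g →
      Continuous fun y : ℝ => ∫ t in (0:ℝ)..S, g (t + y) * R t := by
    intro g hg
    have hF : Continuous (Function.uncurry fun (y t : ℝ) => g (t + y) * R t) := by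
      have h1 : Continuous fun p : ℝ × ℝ => p.2 + p.1 := continuous_snd.add continuous_fst
      exact (hg.comp h1).mul (hR.comp continuous_snd)
    exact intervalIntegral.continuous_parametric_intervalIntegral_of_continuous' hF 0 S
  have p1' : ∫ y in (0:ℝ)..H, ‖∫ t in (0:ℝ)..S, (z (t + y) - PN X (t + y)) * R t‖ ^ 2 ≤
      C3 * (T * Real.log T ^ 2) * W := by
    refine le_trans ?_ p1
    exact intervalIntegral.integral_mono_interval le_rfl (by linarith) hHT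
      (Eventually.of_forall fun _ => by positivity)
      (((cF _ he).norm.pow 2).intervalIntegrable _ _)
  have hsplit : ∀ y : ℝ, ‖∫ t in (0:ℝ)..S, (z (t + y) - PN N (t + y)) * R t‖ ^ 2 ≤
      2 * ‖∫ t in (0:ℝ)..S, (z (t + y) - PN X (t + y)) * R t‖ ^ 2 +
      2 * ‖∫ t in (0:ℝ)..S, (PN X (t + y) - PN N (t + y)) * R t‖ ^ 2 := by
    intro y
    have ht : Continuous fun t : ℝ => t + y := continuous_id.add continuous_const
    have a1 : ∫ t in (0:ℝ)..S, (z (t + y) - PN N (t + y)) * R t =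
        (∫ t in (0:ℝ)..S, (z (t + y) - PN X (t + y)) * R t) +
        ∫ t in (0:ℝ)..S, (PN X (t + y) - PN N (t + y)) * R t := by
      rw [← intervalIntegral.integral_add]
      · exact intervalIntegral.integral_congr fun t _ => by ring
      · exact ((he.comp ht).mul hR).intervalIntegrable _ _
      · exact ((hd.comp ht).mul hR).intervalIntegrable _ _
    rw [a1]
    have a2 := norm_add_le (∫ t in (0:ℝ)..S, (z (t + y) - PN X (t + y)) * R t)
      (∫ t in (0:ℝ)..S, (PN X (t + y) - PN N (t + y)) * R t)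
    have a3 := norm_nonneg (∫ t in (0:ℝ)..S, (z (t + y) - PN X (t + y)) * R t)
    have a4 := norm_nonneg (∫ t in (0:ℝ)..S, (PN X (t + y) - PN N (t + y)) * R t)
    refine (pow_le_pow_left₀ (norm_nonneg _) a2 2).trans ?_
    nlinarith [sq_nonneg (‖∫ t in (0:ℝ)..S, (z (t + y) - PN X (t + y)) * R t‖ -
      ‖∫ t in (0:ℝ)..S, (PN X (t + y) - PN N (t + y)) * R t‖)]
  have q1 : IntervalIntegrable (fun y : ℝ => 2 * ‖∫ t in (0:ℝ)..S,
      (z (t + y) - PN X (t + y)) * R t‖ ^ 2) volume 0 H :=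
    (((cF _ he).norm.pow 2).const_mul 2).intervalIntegrable _ _
  have q2 : IntervalIntegrable (fun y : ℝ => 2 * ‖∫ t in (0:ℝ)..S,
      (PN X (t + y) - PN N (t + y)) * R t‖ ^ 2) volume 0 H :=
    (((cF _ hd).norm.pow 2).const_mul 2).intervalIntegrable _ _
  have q3 : IntervalIntegrable (fun y : ℝ => ‖∫ t in (0:ℝ)..S,
      (z (t + y) - PN N (t + y)) * R t‖ ^ 2) volume 0 H :=
    ((cF _ (cont_z.sub (cont_PN N))).norm.pow 2).intervalIntegrable _ _
  have q4 := intervalIntegral.integral_mono_on (by linarith) q3 (q1.add q2) fun y _ => hsplit y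
  rw [intervalIntegral.integral_add q1 q2, intervalIntegral.integral_const_mul,
    intervalIntegral.integral_const_mul] at q4
  have q5 : 15 * C1 * C2 * T * W ≤ 15 * C1 * C2 * (T * Real.log T ^ 2) * W := by
    have : 1 ≤ Real.log T ^ 2 := one_le_pow₀ hlog
    have h6 : 15 * C1 * C2 * T * W * 1 ≤ 15 * C1 * C2 * T * W * Real.log T ^ 2 := by gcongr
    linarith
  have q6 : (2 * C3 + 2 * (15 * C1 * C2)) * (T * Real.log T ^ 2) * W =
      2 * (C3 * (T * Real.log T ^ 2) * W) + 2 * (15 * C1 * C2 * (T * Real.log T ^ 2) * W) := by ring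
  rw [q6]
  linarith

end

end Pool.Agent.Y752.SR
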