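import Pool.Agent.Y752.SR.B
import Pool.Agent.Y766.G7
import Pool.Agent.TH570.GS.SM
import Pool.Agent.TH612.GS.Z

set_option autoImplicit false

/-! The mean square of zeta on intervals a little longer than the square root of the height. -/

namespace Pool.Agent.Y752.SR

open MeasureTheory Set Filter Complex
open Pool.Agent.TH612.GS (mP z PN z_cont PN_cont shift_le)
open Pool.Agent.Y766 (gs hl afe_sq)
open Pool.Agent.TH889.GS (cont_cpow)
open Pool.Agent.H448R2.GC (cu cu_nonneg cu_le_one cu_cont)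

noncomputable section

lemma sum_inv_le (N : ℕ) : ∑ n ∈ Finset.Icc 1 N, ((n : ℝ))⁻¹ ≤ 1 + Real.log N := by
  have h := harmonic_le_one_add_log N
  rw [harmonic_eq_sum_Icc] at h
  push_cast at h
  exact h

/-- mean square of a Dirichlet polynomial of the size of the interval -/
lemma mvu {C1 : ℝ} (hC1 : 0 < C1)
    (hMV : ∀ (T : ℝ) (X : ℕ) (a : ℕ → ℂ), 1 ≤ T → (X : ℝ) ≤ T ^ 2 →
      ∫ u in (0:ℝ)..(2 * T), ‖∑ n ∈ Finset.Icc 1 X, a n * (n : ℂ) ^ (-(I * u))‖ ^ 2 ≤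
        C1 * ∑ n ∈ Finset.Icc 1 X, (T + n) * ‖a n‖ ^ 2)
    {H : ℝ} (hH : 1 ≤ H) {N : ℕ} (hNH : (N : ℝ) ≤ H) {a : ℕ → ℂ}
    (ha : ∀ n ∈ Finset.Icc 1 N, ‖a n‖ ^ 2 ≤ (n : ℝ)⁻¹) :
    ∫ u in (0:ℝ)..H, ‖∑ n ∈ Finset.Icc 1 N, a n * (n : ℂ) ^ (-(I * u))‖ ^ 2 ≤
      2 * C1 * (H * (1 + Real.log N)) := by
  have hH0 : 0 < H := by linarith
  have hcont : Continuous fun y : ℝ => ‖∑ n ∈ Finset.Icc 1 N, a n * (n : ℂ) ^ (-(I * y))‖ ^ 2 := by
    refine Continuous.pow (Continuous.norm ?_) 2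
    apply continuous_finsetSum
    intro n hn
    exact (cont_cpow (Finset.mem_Icc.1 hn).1).const_mul _
  have h1 : ∫ y in (0:ℝ)..H, ‖∑ n ∈ Finset.Icc 1 N, a n * (n : ℂ) ^ (-(I * y))‖ ^ 2 ≤
      ∫ y in (0:ℝ)..(2 * H), ‖∑ n ∈ Finset.Icc 1 N, a n * (n : ℂ) ^ (-(I * y))‖ ^ 2 :=
    intervalIntegral.integral_mono_interval le_rfl hH0.le (by linarith)
      (Eventually.of_forall fun _ => by positivity) (hcont.intervalIntegrable _ _)
  have hNH2 : (N : ℝ) ≤ H ^ 2 := hNH.trans (by nlinarith)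
  refine h1.trans ((hMV H N a hH hNH2).trans ?_)
  have h2 : ∑ n ∈ Finset.Icc 1 N, (H + n) * ‖a n‖ ^ 2 ≤ ∑ n ∈ Finset.Icc 1 N, 2 * H * ((n : ℝ))⁻¹ := by
    refine Finset.sum_le_sum fun n hn => ?_
    have hn1 := (Finset.mem_Icc.1 hn).1
    have hnN : (n : ℝ) ≤ N := by exact_mod_cast (Finset.mem_Icc.1 hn).2
    have := ha n hn
    have h3 : H + n ≤ 2 * H := by linarith
    gcongr
  rw [← Finset.mul_sum] at h2
  have h3 := sum_inv_le N
  calc C1 * ∑ n ∈ Finset.Icc 1 N, (H + n) * ‖a n‖ ^ 2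
      ≤ C1 * (2 * H * (1 + Real.log N)) := by
        refine mul_le_mul_of_nonneg_left (h2.trans ?_) hC1.le
        gcongr
    _ = _ := by ring

lemma norm_half' {m : ℕ} (hm : 1 ≤ m) (t : ℝ) : ‖(m : ℂ) ^ (-(1 / 2 + I * (t : ℂ)))‖ ^ 2 = (m : ℝ)⁻¹ := by
  have hm0 : (0:ℝ) < m := by exact_mod_cast (by omega : 0 < m)
  rw [Complex.norm_natCast_cpow_of_pos (by omega)]
  have : (-(1 / 2 + I * (t : ℂ)) : ℂ).re = -(1 / 2) := by simp
  rw [this, ← Real.rpow_natCast, ← Real.rpow_mul hm0.le, ← Real.rpow_neg_one]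
  norm_num

/-- mean square of the partial sums over short intervals -/
theorem PN_win : ∃ C : ℝ, 1 ≤ C ∧ ∀ (H : ℝ) (N : ℕ) (t : ℝ), 1 ≤ H → (N : ℝ) ≤ H →
    ∫ y in (0:ℝ)..H, ‖PN N (t + y)‖ ^ 2 ≤ C * (H * (1 + Real.log N)) := by
  obtain ⟨C1, hC1, h1⟩ := Pool.Agent.TH928.GS.t_MV
  refine ⟨1 + 2 * C1, by linarith, fun H N t hH hNH => ?_⟩
  have e : ∀ y : ℝ, PN N (t + y) = ∑ n ∈ Finset.Icc 1 N, (n : ℂ) ^ (-(1 / 2 + I * (t : ℂ))) *
      (n : ℂ) ^ (-(I * (y : ℂ))) := by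
    intro y
    unfold Pool.Agent.TH612.GS.PN Pool.Agent.TH612.GS.zN
    refine Finset.sum_congr rfl fun n hn => ?_
    have hn1 := (Finset.mem_Icc.1 hn).1
    have hn0 : (n : ℂ) ≠ 0 := by exact_mod_cast (by omega : n ≠ 0)
    rw [← Complex.cpow_add _ _ hn0]
    congr 1
    push_cast
    ring
  simp only [e]
  have h2 := mvu hC1 h1 hH hNH (a := fun n => (n : ℂ) ^ (-(1 / 2 + I * (t : ℂ))))
    (fun n hn => (norm_half' (Finset.mem_Icc.1 hn).1 t).le)
  have h3 : 0 ≤ H * (1 + Real.log N) := by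
    have : 0 ≤ Real.log N := Real.log_natCast_nonneg N
    positivity
  linarith

/-- the smoothed sums over short intervals -/
lemma gs_win {C1 : ℝ} (hC1 : 0 < C1)
    (hMV : ∀ (T : ℝ) (X : ℕ) (a : ℕ → ℂ), 1 ≤ T → (X : ℝ) ≤ T ^ 2 →
      ∫ u in (0:ℝ)..(2 * T), ‖∑ n ∈ Finset.Icc 1 X, a n * (n : ℂ) ^ (-(I * u))‖ ^ 2 ≤
        C1 * ∑ n ∈ Finset.Icc 1 X, (T + n) * ‖a n‖ ^ 2)
    {H : ℝ} (hH : 1 ≤ H) {N : ℕ} (hNH : (N : ℝ) ≤ H) (k : ℕ) {c : ℝ} (hc : 0 < c)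
    (D t : ℝ) : ∫ y in (0:ℝ)..H, ‖gs N k c (hl (t + y)) D‖ ^ 2 ≤
      2 * C1 * (H * (1 + Real.log N)) := by
  have e : ∀ y : ℝ, gs N k c (hl (t + y)) D = ∑ n ∈ Finset.Icc 1 N,
      ((cu k c (Real.log n - D) : ℂ) * (n : ℂ) ^ (-(1 / 2 + I * (t : ℂ)))) * (n : ℂ) ^ (-(I * (y : ℂ))) := by
    intro y
    unfold gs hl
    refine Finset.sum_congr rfl fun n hn => ?_
    have hn1 := (Finset.mem_Icc.1 hn).1
    have hn0 : (n : ℂ) ≠ 0 := by exact_mod_cast (by omega : n ≠ 0)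
    rw [mul_assoc, ← Complex.cpow_add _ _ hn0]
    congr 2
    push_cast
    ring
  simp only [e]
  refine mvu hC1 hMV hH hNH (a := fun n => (cu k c (Real.log n - D) : ℂ) *
    (n : ℂ) ^ (-(1 / 2 + I * (t : ℂ)))) (fun n hn => ?_)
  rw [norm_mul, mul_pow, norm_half' (Finset.mem_Icc.1 hn).1 t, Complex.norm_real,
    Real.norm_of_nonneg (cu_nonneg _ _ _ hc)]
  have h1 := cu_nonneg k c (Real.log n - D) hc
  have h2 := cu_le_one k c (Real.log n - D) hc
  have h3 : cu k c (Real.log n - D) ^ 2 ≤ 1 := pow_le_one₀ h1 h2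
  have h4 : (0:ℝ) ≤ (n : ℝ)⁻¹ := by positivity
  nlinarith

lemma gs_cont2 {N k : ℕ} {c : ℝ} (hc : 0 < c) (t D : ℝ) :
    Continuous fun p : ℝ × ℝ => gs N (k + 1) c (hl (t + p.1)) (D + p.2) := by
  unfold gs hl
  refine continuous_finsetSum _ fun n hn => ?_
  have hn1 := (Finset.mem_Icc.1 hn).1
  have hn0 : (n : ℂ) ≠ 0 := by exact_mod_cast (by omega : n ≠ 0)
  refine Continuous.mul (Complex.continuous_ofReal.comp ((cu_cont k c hc).comp (by fun_prop))) ?_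
  exact Continuous.const_cpow (by fun_prop) (Or.inl hn0)

lemma fub_win {f : ℝ → ℝ → ℝ} (hf : Continuous (Function.uncurry f)) {H W : ℝ} (hH : 0 ≤ H)
    (h : ∀ u : ℝ, ∫ y in (0:ℝ)..H, f y u ≤ 2 * W) :
    ∫ y in (0:ℝ)..H, ∫ u in (-3:ℝ)..3, f y u ≤ 12 * W := by
  rw [Pool.Agent.TH889.GS.fub hf hH (by norm_num)]
  have hc : Continuous fun u : ℝ => ∫ y in (0:ℝ)..H, f y u :=
    intervalIntegral.continuous_parametric_intervalIntegral_of_continuous'
      (f := fun u y : ℝ => f y u) (hf.comp continuous_swap) _ _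
  have h2 : ∫ u in (-3:ℝ)..3, ∫ y in (0:ℝ)..H, f y u ≤ ∫ _u in (-3:ℝ)..3, 2 * W :=
    intervalIntegral.integral_mono_on (μ := volume) (by norm_num) (hc.intervalIntegrable (-3) 3)
      (continuous_const.intervalIntegrable (-3) 3) fun u _ => h u
  refine h2.trans (le_of_eq ?_)
  rw [intervalIntegral.integral_const, smul_eq_mul]
  ring

lemma fin_win {H C1 C2 C3 L W : ℝ} (hH : 0 < H) (hC2 : 0 ≤ C2) (hC3 : 0 ≤ C3) (_hC1 : 0 ≤ C1)
    (Z A B J : ℝ → ℝ) (cZ : Continuous Z) (cA : Continuous A) (cB : Continuous B) (cJ : Continuous J)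
    (hL : 1 ≤ L) (hW : W ≤ 2 * C1 * 2 * (H * L)) (hA : ∫ y in (0:ℝ)..H, A y ≤ W)
    (hB : ∫ y in (0:ℝ)..H, B y ≤ W) (hJ : ∫ y in (0:ℝ)..H, J y ≤ 12 * W)
    (h : ∀ y ∈ Icc 0 H, Z y ≤ C2 * (1 + A y + B y + J y)) :
    ∫ y in (0:ℝ)..H, Z y ≤ (C3 + C2 * (1 + 4 * C1 * 2 + 12 * (2 * C1 * 2))) * (H * L) := by
  have i2 : Continuous (fun y : ℝ => C2 * (1 + A y + B y + J y)) := by fun_prop
  have h6 := intervalIntegral.integral_mono_on (μ := volume) hH.le (cZ.intervalIntegrable 0 H)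
    (i2.intervalIntegrable 0 H) h
  refine h6.trans ?_
  rw [intervalIntegral.integral_const_mul, intervalIntegral.integral_add, intervalIntegral.integral_add,
    intervalIntegral.integral_add, intervalIntegral.integral_const, smul_eq_mul, mul_one, sub_zero]
  · have a3 : H ≤ H * L := le_mul_of_one_le_right hH.le hL
    have h7 : 0 ≤ C3 * (H * L) := by positivity
    have h8 : C2 * (H + (∫ y in (0:ℝ)..H, A y) + (∫ y in (0:ℝ)..H, B y) + ∫ y in (0:ℝ)..H, J y) ≤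
        C2 * (H * L + 2 * (2 * C1 * 2 * (H * L)) + 12 * (2 * C1 * 2 * (H * L))) := by
      refine mul_le_mul_of_nonneg_left ?_ hC2
      linarith
    refine h8.trans ?_
    have e : (C3 + C2 * (1 + 4 * C1 * 2 + 12 * (2 * C1 * 2))) * (H * L) =
        C3 * (H * L) + C2 * (H * L + 2 * (2 * C1 * 2 * (H * L)) + 12 * (2 * C1 * 2 * (H * L))) := by ring
    rw [e]
    linarith
  · exact continuous_const.intervalIntegrable _ _
  · exact cA.intervalIntegrable _ _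
  · exact (continuous_const.add cA).intervalIntegrable _ _
  · exact cB.intervalIntegrable _ _
  · exact ((continuous_const.add cA).add cB).intervalIntegrable _ _
  · exact cJ.intervalIntegrable _ _

theorem win {η : ℝ} (hη : 0 < η) (hη1 : η ≤ 1 / 100) : ∃ C T₀ : ℝ, 1 ≤ C ∧ 3 ≤ T₀ ∧
    ∀ (T H t : ℝ), T₀ ≤ H → H ≤ T → T ^ (1 / 2 + 3 * η) ≤ H → 0 ≤ t → t ≤ T →
    ∫ y in (0:ℝ)..H, ‖z (t + y)‖ ^ 2 ≤ C * (H * Real.log T) := by
  obtain ⟨C1, hC1, hMV⟩ := Pool.Agent.TH928.GS.t_MV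
  obtain ⟨k, C2, T2, hC2, hT2, h2⟩ := afe_sq hη hη1
  obtain ⟨C3, T3, hC3, hT3, h3⟩ := Pool.Agent.TH570.GS.t_SM
  refine ⟨C3 + C2 * (1 + 4 * C1 * 2 + 12 * (2 * C1 * 2)), max 3 (max T2 (max T3 ((30:ℝ) ^ (1 / η)))), ?_,
    le_max_left _ _, ?_⟩
  · nlinarith
  intro T H t hH hHT hHH ht0 htT
  have hH3 : 3 ≤ H := (le_max_left _ _).trans hH
  have hH' := (le_max_right _ _).trans hH
  have hHT2 : T2 ≤ H := (le_max_left _ _).trans hH'
  have hH'' := (le_max_right _ _).trans hH'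
  have hHT3 : T3 ≤ H := (le_max_left _ _).trans hH''
  have hH30 : (30:ℝ) ^ (1 / η) ≤ H := (le_max_right _ _).trans hH''
  have hH0 : 0 < H := by linarith
  have hT0 : 0 < T := by linarith
  have hlogT : 1 ≤ Real.log T := by
    rw [Real.le_log_iff_exp_le hT0]
    exact (Real.exp_one_lt_d9.le.trans (by norm_num)).trans (hH3.trans hHT)
  have hlogHT : Real.log H ≤ Real.log T := Real.log_le_log hH0 hHT
  have hlogH0 : 0 ≤ Real.log H := Real.log_nonneg (by linarith)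
  rcases le_or_gt t H with htH | htH
  · refine (shift_le z_cont ht0 htH).trans ((h3 H hHT3).trans ?_)
    have e1 : C3 * H * Real.log H ≤ C3 * (H * Real.log T) := by
      rw [mul_assoc]
      gcongr
    refine e1.trans ?_
    have : 0 ≤ C2 * (1 + 4 * C1 * 2 + 12 * (2 * C1 * 2)) * (H * Real.log T) := by positivity
    nlinarith
  · obtain ⟨c, D1, D2, N, hc, hN, hz⟩ := h2 t (by linarith)
    have hTη : 30 ≤ T ^ η := by
      have h5 : ((30:ℝ) ^ (1 / η)) ^ η ≤ T ^ η :=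
        Real.rpow_le_rpow (by positivity) (hH30.trans hHT) hη.le
      rwa [← Real.rpow_mul (by norm_num), one_div_mul_cancel hη.ne', Real.rpow_one] at h5
    have hNH : (N : ℝ) ≤ H := by
      calc (N : ℝ) ≤ 30 * t ^ (1 / 2 + 2 * η) := hN
        _ ≤ T ^ η * T ^ (1 / 2 + 2 * η) := by
            have : t ^ (1 / 2 + 2 * η) ≤ T ^ (1 / 2 + 2 * η) :=
              Real.rpow_le_rpow ht0 htT (by positivity)
            gcongr
        _ = T ^ (1 / 2 + 3 * η) := by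
            rw [← Real.rpow_add hT0]
            congr 1
            ring
        _ ≤ H := hHH
    have hlogN : Real.log N ≤ Real.log T := by
      rcases Nat.eq_zero_or_pos N with h0 | h0
      · rw [h0]
        simp only [Nat.cast_zero, Real.log_zero]
        linarith
      · exact Real.log_le_log (by exact_mod_cast h0) (hNH.trans hHT)
    have hlogN0 : 0 ≤ Real.log N := Real.log_natCast_nonneg N
    set W : ℝ := 2 * C1 * (H * (1 + Real.log N)) with hW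
    have hWb : W ≤ 2 * C1 * 2 * (H * Real.log T) := by
      rw [hW]
      calc 2 * C1 * (H * (1 + Real.log N)) ≤ 2 * C1 * (H * (2 * Real.log T)) := by
            gcongr
            linarith
        _ = _ := by ring
    have hw : ∀ (j : ℕ) (D : ℝ), ∫ y in (0:ℝ)..H, ‖gs N j c (hl (t + y)) D‖ ^ 2 ≤ W := fun j D =>
      gs_win hC1 hMV (by linarith) hNH j hc D t
    have cA : ∀ (j : ℕ) (D : ℝ), Continuous fun y : ℝ => ‖gs N (j + 1) c (hl (t + y)) D‖ ^ 2 := by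
      intro j D
      have h := (gs_cont2 (N := N) (k := j) hc t D).comp (by fun_prop : Continuous fun y : ℝ => (y, (0:ℝ)))
      simp only [Function.comp_def, add_zero] at h
      exact h.norm.pow 2
    have cE : ∀ D : ℝ, Continuous (Function.uncurry fun y u : ℝ =>
        ‖gs N (k + 1) c (hl (t + y)) (D + u)‖ ^ 2) := fun D =>
      ((gs_cont2 (N := N) (k := k) hc t D).norm.pow 2)
    have cE2 : Continuous (Function.uncurry fun y u : ℝ =>
        (‖gs N (k + 1) c (hl (t + y)) (D2 + u + c)‖ ^ 2 + ‖gs N (k + 1) c (hl (t + y)) (D2 + u)‖ ^ 2)) := by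
      refine Continuous.add ?_ (cE D2)
      have h := cE (D2 + c)
      refine h.congr fun p => ?_
      unfold Function.uncurry
      simp only
      rw [show D2 + c + p.2 = D2 + p.2 + c by ring]
    have cI : Continuous fun y : ℝ => ∫ u in (-3:ℝ)..3, (‖gs N (k + 1) c (hl (t + y)) (D2 + u + c)‖ ^ 2 +
        ‖gs N (k + 1) c (hl (t + y)) (D2 + u)‖ ^ 2) :=
      intervalIntegral.continuous_parametric_intervalIntegral_of_continuous' cE2 _ _
    have hI : ∫ y in (0:ℝ)..H, ∫ u in (-3:ℝ)..3, (‖gs N (k + 1) c (hl (t + y)) (D2 + u + c)‖ ^ 2 +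
        ‖gs N (k + 1) c (hl (t + y)) (D2 + u)‖ ^ 2) ≤ 12 * W := by
      refine fub_win cE2 hH0.le fun u => ?_
      rw [intervalIntegral.integral_add ((cA k _).intervalIntegrable _ _)
        ((cA k _).intervalIntegrable _ _)]
      have a := hw (k + 1) (D2 + u + c)
      have b := hw (k + 1) (D2 + u)
      linarith
    have hz' : ∀ y ∈ Icc 0 H, ‖z (t + y)‖ ^ 2 ≤ C2 * (1 + ‖gs N (k + 2) c (hl (t + y)) D1‖ ^ 2 +
        ‖gs N (k + 2) c (hl (t + y)) D2‖ ^ 2 +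
        ∫ u in (-3:ℝ)..3, (‖gs N (k + 1) c (hl (t + y)) (D2 + u + c)‖ ^ 2 +
        ‖gs N (k + 1) c (hl (t + y)) (D2 + u)‖ ^ 2)) := by
      intro y hy
      have h5 := hz (t + y) (by linarith [hy.1]) (by linarith [hy.2])
      have e : z (t + y) = riemannZeta (hl (t + y)) := by
        unfold Pool.Agent.TH612.GS.z hl
        congr 1
        push_cast
        ring
      rw [e]
      exact h5
    exact fin_win hH0 (by linarith) hC3.le hC1.le (fun y => ‖z (t + y)‖ ^ 2)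
      (fun y : ℝ => ‖gs N (k + 2) c (hl (t + y)) D1‖ ^ 2)
      (fun y : ℝ => ‖gs N (k + 2) c (hl (t + y)) D2‖ ^ 2)
      (fun y : ℝ => ∫ u in (-3:ℝ)..3, (‖gs N (k + 1) c (hl (t + y)) (D2 + u + c)‖ ^ 2 +
        ‖gs N (k + 1) c (hl (t + y)) (D2 + u)‖ ^ 2))
      (by have := z_cont; fun_prop) (cA (k + 1) D1) (cA (k + 1) D2) cI hlogT hWb (hw (k + 2) D1)
      (hw (k + 2) D2) hI hz'

end

end Pool.Agent.Y752.SR
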