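import Pool.Agent.Y752.SR.C
import Pool.Agent.TH612.GS.Asm2

set_option autoImplicit false

/-! The product of zeta values against the product of the partial sums. -/

namespace Pool.Agent.Y752.SR

open MeasureTheory Set Filter Complex
open Pool.Agent.TH612.GS (mP z PN z_cont PN_cont fz fz_cont fz_norm fz_prod int_conj A1)

noncomputable section

theorem partA (k : ℕ) {η : ℝ} (hη : 0 < η) (hη1 : η ≤ 1 / 100) : ∃ C T₀ : ℝ, 1 ≤ C ∧ 3 ≤ T₀ ∧
    ∀ (T S H : ℝ) (N : ℕ), T₀ ≤ T → 0 ≤ S → S ≤ T → T ^ (1 / 2 + 3 * η) ≤ H → H ≤ T →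
    H ≤ 2 * N → (N : ℝ) ≤ H →
    ∫⁻ γ, ENNReal.ofReal (‖A1 N S γ‖ ^ 2) ∂(mP (Fin k ⊕ Fin k) H) ≤
      ENNReal.ofReal (C * Real.log T ^ (2 * k + 1) * H ^ (2 * k) * (T ^ 2 / H)) := by
  obtain ⟨C1, T1, hC1, hT1, h1⟩ := op
  obtain ⟨C2, T2, hC2, hT2, h2⟩ := win hη hη1
  obtain ⟨C3, hC3, h3⟩ := PN_win
  rcases Nat.eq_zero_or_pos k with hk | hk
  · subst hk
    refine ⟨1, 3, by norm_num, le_rfl, fun T S H N hT hS0 hST hH hHT hN1 hN2 => ?_⟩
    unfold Pool.Agent.TH612.GS.A1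
    simp
  refine ⟨1 + 4 ^ (2 * k) * C1 * (C2 + 2 * C3) ^ (2 * k - 1), max 3 (max T1 (max (T2 ^ (2:ℝ)) ((4:ℝ) ^ (1 / (6 * η))))),
    by have : 0 ≤ 4 ^ (2 * k) * C1 * (C2 + 2 * C3) ^ (2 * k - 1) := by positivity
       linarith,
    le_max_left _ _, fun T S H N hT hS0 hST hHl hHT hN1 hN2 => ?_⟩
  have hT3 : 3 ≤ T := (le_max_left _ _).trans hT
  have hT' := (le_max_right _ _).trans hT
  have hTT1 : T1 ≤ T := (le_max_left _ _).trans hT'
  have hT'' := (le_max_right _ _).trans hT'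
  have hTT2 : T2 ^ (2:ℝ) ≤ T := (le_max_left _ _).trans hT''
  have hT4 : (4:ℝ) ^ (1 / (6 * η)) ≤ T := (le_max_right _ _).trans hT''
  have hT0 : 0 < T := by linarith
  have hlog : 1 ≤ Real.log T := by
    rw [Real.le_log_iff_exp_le hT0]
    exact (Real.exp_one_lt_d9.le.trans (by norm_num)).trans hT3
  have hHT2 : T2 ≤ H := by
    have h5 : (T2 ^ (2:ℝ)) ^ (1 / 2 : ℝ) ≤ T ^ (1 / 2 : ℝ) :=
      Real.rpow_le_rpow (by positivity) hTT2 (by norm_num)
    rw [← Real.rpow_mul (by linarith), show (2:ℝ) * (1 / 2) = 1 by norm_num, Real.rpow_one] at h5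
    refine h5.trans (le_trans ?_ hHl)
    exact Real.rpow_le_rpow_of_exponent_le (by linarith) (by linarith)
  have hH3 : 3 ≤ H := hT2.trans hHT2
  have hH0 : 0 < H := by linarith
  have hH2 : 4 * T ≤ H ^ 2 := by
    have h5 : ((4:ℝ) ^ (1 / (6 * η))) ^ (6 * η) ≤ T ^ (6 * η) :=
      Real.rpow_le_rpow (by positivity) hT4 (by positivity)
    rw [← Real.rpow_mul (by norm_num), one_div_mul_cancel (by positivity), Real.rpow_one] at h5
    calc 4 * T ≤ T ^ (6 * η) * T := by gcongr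
      _ = T ^ (6 * η) * T ^ (1:ℝ) := by rw [Real.rpow_one]
      _ = (T ^ (1 / 2 + 3 * η)) ^ 2 := by
          rw [← Real.rpow_add hT0, ← Real.rpow_natCast, ← Real.rpow_mul hT0.le]
          congr 1
          push_cast
          ring
      _ ≤ H ^ 2 := by gcongr
  have hNlog : 1 + Real.log N ≤ 2 * Real.log T := by
    have : Real.log N ≤ Real.log T := by
      rcases Nat.eq_zero_or_pos N with h0 | h0
      · rw [h0]
        simp only [Nat.cast_zero, Real.log_zero]
        linarith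
      · exact Real.log_le_log (by exact_mod_cast h0) (hN2.trans hHT)
    linarith
  set K : ℝ := C1 * (T * Real.log T ^ 2) with hK
  set V : ℝ := (C2 + 2 * C3) * (H * Real.log T) with hV
  have hK0 : 0 ≤ K := by positivity
  have hV0 : 0 ≤ V := by positivity
  have key := rep (fz k z) (fz k (PN N)) hS0 hH0.le hK0 hV0
    (fun i => fz_cont z_cont i) (fun i => fz_cont (PN_cont N) i) ?_ ?_ ?_
  · have e1 : ∀ γ : Fin k ⊕ Fin k → ℝ,
        (∫ t in (0:ℝ)..S, (∏ i, fz k z i (t + γ i) - ∏ i, fz k (PN N) i (t + γ i))) = A1 N S γ := by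
      intro γ
      rw [intervalIntegral.integral_sub]
      · simp only [fz_prod]
        rfl
      · refine Continuous.intervalIntegrable ?_ _ _
        exact continuous_finsetProd _ fun i _ => (fz_cont z_cont i).comp (by fun_prop)
      · refine Continuous.intervalIntegrable ?_ _ _
        exact continuous_finsetProd _ fun i _ => (fz_cont (PN_cont N) i).comp (by fun_prop)
    simp only [e1] at key
    refine key.trans (ENNReal.ofReal_le_ofReal ?_)
    have hc : Fintype.card (Fin k ⊕ Fin k) = 2 * k := by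
      rw [Fintype.card_sum, Fintype.card_fin]; ring
    rw [hc]
    obtain ⟨m, hm⟩ : ∃ m, 2 * k = m + 1 := ⟨2 * k - 1, by omega⟩
    rw [hm, Nat.add_sub_cancel, hV, hK, mul_pow, mul_pow]
    have e2 : (4:ℝ) ^ (m + 1) * (C1 * (T * Real.log T ^ 2)) * ((C2 + 2 * C3) ^ m * (H ^ m * Real.log T ^ m)) * S ≤
        (4:ℝ) ^ (m + 1) * (C1 * (T * Real.log T ^ 2)) * ((C2 + 2 * C3) ^ m * (H ^ m * Real.log T ^ m)) * T := by
      gcongr
    refine e2.trans ?_
    have e3 : (4:ℝ) ^ (m + 1) * (C1 * (T * Real.log T ^ 2)) * ((C2 + 2 * C3) ^ m * (H ^ m * Real.log T ^ m)) * T =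
        4 ^ (m + 1) * C1 * (C2 + 2 * C3) ^ m * (Real.log T ^ (m + 1 + 1) * H ^ (m + 1) * (T ^ 2 / H)) := by
      have : H ^ (m + 1) * (T ^ 2 / H) = H ^ m * T ^ 2 := by
        rw [pow_succ]
        field_simp
      rw [mul_assoc (Real.log T ^ (m + 1 + 1)), this]
      ring
    rw [e3]
    have e4 : 0 ≤ Real.log T ^ (m + 1 + 1) * H ^ (m + 1) * (T ^ 2 / H) := by positivity
    have e5 : (1 + 4 ^ (m + 1) * C1 * (C2 + 2 * C3) ^ m) * Real.log T ^ (m + 1 + 1) * H ^ (m + 1) * (T ^ 2 / H) =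
        Real.log T ^ (m + 1 + 1) * H ^ (m + 1) * (T ^ 2 / H) +
        4 ^ (m + 1) * C1 * (C2 + 2 * C3) ^ m * (Real.log T ^ (m + 1 + 1) * H ^ (m + 1) * (T ^ 2 / H)) := by
      ring
    rw [e5]
    linarith
  · intro i R hR
    cases i with
    | inl j =>
      have := h1 T S H N R hTT1 hS0 hST (by linarith) hHT hH2 hN1 hN2 hR
      simpa [fz] using this
    | inr j =>
      have := h1 T S H N (fun t => (starRingEnd ℂ) (R t)) hTT1 hS0 hST (by linarith) hHT hH2 hN1 hN2
        (Complex.continuous_conj.comp hR)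
      simp only [Complex.norm_conj] at this
      refine le_trans (le_of_eq ?_) this
      refine intervalIntegral.integral_congr fun y _ => ?_
      have e3 : (∫ t in (0:ℝ)..S, (fz k z (Sum.inr j) (t + y) - fz k (PN N) (Sum.inr j) (t + y)) * R t) =
          (starRingEnd ℂ) (∫ t in (0:ℝ)..S, (z (t + y) - PN N (t + y)) * (starRingEnd ℂ) (R t)) := by
        rw [← int_conj]
        refine intervalIntegral.integral_congr fun t _ => ?_
        simp only [fz, Sum.elim_inr, map_mul, map_sub, Complex.conj_conj]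
      change ‖_‖ ^ 2 = ‖_‖ ^ 2
      rw [e3, Complex.norm_conj]
  · intro i t ht
    simp only [fz_norm]
    refine (h2 T H t hHT2 hHT hHl ht.1 (ht.2.trans hST)).trans ?_
    rw [hV]
    have : 0 ≤ 2 * C3 * (H * Real.log T) := by positivity
    linarith
  · intro i t ht
    simp only [fz_norm]
    refine (h3 H N t (by linarith) hN2).trans ?_
    rw [hV]
    have h6 : C3 * (H * (1 + Real.log N)) ≤ C3 * (H * (2 * Real.log T)) := by gcongr
    have : 0 ≤ C2 * (H * Real.log T) := by positivity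
    linarith

end

end Pool.Agent.Y752.SR
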