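import Pool.Agent.Y752.SR.D
import Pool.Agent.TH612.GS.GF2

set_option autoImplicit false

/-! Mean values of polynomials in several variables. -/

namespace Pool.Agent.Y752.SR

open MeasureTheory Set Filter Complex
open Pool.Agent.TH612.GS (mP conj_cpow_nat)
open Pool.Agent.TH521.GS (mor lint_prod lint_equiv lint1)

noncomputable section

/-- `n ^ (-iy)` or `n ^ (iy)` -/
def chs (σ : Bool) (n : ℕ) (y : ℝ) : ℂ := if σ then (n : ℂ) ^ (-(I * (y : ℂ))) else (n : ℂ) ^ (I * (y : ℂ))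

lemma chs_cont (σ : Bool) {n : ℕ} (hn : 1 ≤ n) : Continuous (chs σ n) := by
  have hn0 : (n : ℂ) ≠ 0 := by exact_mod_cast (by omega : n ≠ 0)
  unfold chs
  cases σ
  · simp only [Bool.false_eq_true, if_false]
    exact Continuous.const_cpow (by fun_prop) (Or.inl hn0)
  · simp only [if_true]
    exact Continuous.const_cpow (by fun_prop) (Or.inl hn0)

lemma chs_norm (σ : Bool) {n : ℕ} (hn : 1 ≤ n) (y : ℝ) : ‖chs σ n y‖ = 1 := by
  unfold chs
  cases σ
  · simp only [Bool.false_eq_true, if_false]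
    rw [Complex.norm_natCast_cpow_of_pos (by omega)]
    simp
  · simp only [if_true]
    rw [Complex.norm_natCast_cpow_of_pos (by omega)]
    simp

lemma chs_mul (σ : Bool) (m n : ℕ) (y : ℝ) : chs σ (m * n) y = chs σ m y * chs σ n y := by
  unfold chs
  cases σ
  · simp only [Bool.false_eq_true, if_false]
    push_cast
    rw [natCast_mul_natCast_cpow]
  · simp only [if_true]
    push_cast
    rw [natCast_mul_natCast_cpow]

/-- the mean value theorem with both signs -/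
lemma ls1 {C1 : ℝ} (hMV : ∀ (T : ℝ) (X : ℕ) (a : ℕ → ℂ), 1 ≤ T → (X : ℝ) ≤ T ^ 2 →
      ∫ u in (0:ℝ)..(2 * T), ‖∑ n ∈ Finset.Icc 1 X, a n * (n : ℂ) ^ (-(I * u))‖ ^ 2 ≤
        C1 * ∑ n ∈ Finset.Icc 1 X, (T + n) * ‖a n‖ ^ 2)
    {H : ℝ} (hH : 1 ≤ H) {X : ℕ} (hX : (X : ℝ) ≤ H ^ 2) (σ : Bool) (a : ℕ → ℂ) :
    ∫⁻ y, ENNReal.ofReal (‖∑ n ∈ Finset.Icc 1 X, a n * chs σ n y‖ ^ 2) ∂(volume.restrict (Icc 0 H)) ≤
      ENNReal.ofReal (C1 * ∑ n ∈ Finset.Icc 1 X, (H + n) * ‖a n‖ ^ 2) := by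
  have hH0 : 0 < H := by linarith
  have main : ∀ b : ℕ → ℂ, ∫ y in (0:ℝ)..H, ‖∑ n ∈ Finset.Icc 1 X, b n * (n : ℂ) ^ (-(I * (y : ℂ)))‖ ^ 2 ≤
      C1 * ∑ n ∈ Finset.Icc 1 X, (H + n) * ‖b n‖ ^ 2 := by
    intro b
    have hcont : Continuous fun y : ℝ => ‖∑ n ∈ Finset.Icc 1 X, b n * (n : ℂ) ^ (-(I * y))‖ ^ 2 := by
      refine Continuous.pow (Continuous.norm ?_) 2
      apply continuous_finsetSum
      intro n hn
      exact (Pool.Agent.TH889.GS.cont_cpow (Finset.mem_Icc.1 hn).1).const_mul _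
    have h1 : ∫ y in (0:ℝ)..H, ‖∑ n ∈ Finset.Icc 1 X, b n * (n : ℂ) ^ (-(I * y))‖ ^ 2 ≤
        ∫ y in (0:ℝ)..(2 * H), ‖∑ n ∈ Finset.Icc 1 X, b n * (n : ℂ) ^ (-(I * y))‖ ^ 2 :=
      intervalIntegral.integral_mono_interval le_rfl hH0.le (by linarith)
        (Eventually.of_forall fun _ => by positivity) (hcont.intervalIntegrable _ _)
    exact h1.trans (hMV H X b hH hX)
  have hc : Continuous fun y : ℝ => ‖∑ n ∈ Finset.Icc 1 X, a n * chs σ n y‖ ^ 2 := by
    refine Continuous.pow (Continuous.norm ?_) 2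
    apply continuous_finsetSum
    intro n hn
    exact (chs_cont σ (Finset.mem_Icc.1 hn).1).const_mul _
  rw [lint1 hH0.le hc fun y => by positivity]
  refine ENNReal.ofReal_le_ofReal ?_
  cases σ
  · have h1 := main (fun n => (starRingEnd ℂ) (a n))
    simp only [Complex.norm_conj] at h1
    refine le_trans (le_of_eq ?_) h1
    refine intervalIntegral.integral_congr fun y _ => ?_
    rw [← Complex.norm_conj, map_sum]
    congr 2
    refine Finset.sum_congr rfl fun n _ => ?_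
    unfold chs
    simp only [Bool.false_eq_true, if_false]
    rw [map_mul, conj_cpow_nat]
    congr 2
    simp
  · have h1 := main a
    refine le_trans (le_of_eq ?_) h1
    refine intervalIntegral.integral_congr fun y _ => ?_
    congr 2

lemma sum_cont {m : ℕ} (σ : Fin m → Bool) {κ : Type} (s : Finset κ) (N : κ → Fin m → ℕ) (c : κ → ℂ)
    (h : ∀ q ∈ s, ∀ i, 1 ≤ N q i) :
    Continuous fun γ : Fin m → ℝ => ‖∑ q ∈ s, c q * ∏ i, chs (σ i) (N q i) (γ i)‖ ^ 2 := by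
  refine Continuous.pow (Continuous.norm ?_) 2
  refine continuous_finsetSum _ fun q hq => continuous_const.mul ?_
  exact continuous_finsetProd _ fun i _ => (chs_cont (σ i) (h q hq i)).comp (continuous_apply i)

lemma csum {κ : Type} (s : Finset κ) (c : κ → ℂ) : ‖∑ q ∈ s, c q‖ ^ 2 ≤ s.card * ∑ q ∈ s, ‖c q‖ ^ 2 :=
  (pow_le_pow_left₀ (norm_nonneg _) (norm_sum_le _ _) 2).trans sq_sum_le_card_mul_sum_sq

theorem tls {C1 : ℝ} (hC1 : 0 < C1) (hMV : ∀ (T : ℝ) (X : ℕ) (a : ℕ → ℂ), 1 ≤ T → (X : ℝ) ≤ T ^ 2 →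
      ∫ u in (0:ℝ)..(2 * T), ‖∑ n ∈ Finset.Icc 1 X, a n * (n : ℂ) ^ (-(I * u))‖ ^ 2 ≤
        C1 * ∑ n ∈ Finset.Icc 1 X, (T + n) * ‖a n‖ ^ 2)
    {H : ℝ} (hH : 1 ≤ H) : ∀ (m : ℕ) (σ : Fin m → Bool) {κ : Type} (s : Finset κ)
    (N : κ → Fin m → ℕ) (c : κ → ℂ) (D : ℕ), (∀ q ∈ s, ∀ i, 1 ≤ N q i ∧ (N q i : ℝ) ≤ H) →
    (∀ q ∈ s, (s.filter fun q' => N q' = N q).card ≤ D) →
    ∫⁻ γ, ENNReal.ofReal (‖∑ q ∈ s, c q * ∏ i, chs (σ i) (N q i) (γ i)‖ ^ 2) ∂(mP (Fin m) H) ≤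
      ENNReal.ofReal ((2 * C1 * H) ^ m * (D * ∑ q ∈ s, ‖c q‖ ^ 2)) := by
  intro m
  have hH0 : 0 < H := by linarith
  induction m with
  | zero =>
    intro σ κ s N c D hN hD
    have hcard : s.card ≤ D := by
      rcases s.eq_empty_or_nonempty with h | ⟨q, hq⟩
      · rw [h]; simp
      · refine le_trans (le_of_eq ?_) (hD q hq)
        congr 1
        rw [Finset.filter_true_of_mem]
        intro q' _
        exact Subsingleton.elim _ _
    have h1 : ∀ γ : Fin 0 → ℝ, ENNReal.ofReal (‖∑ q ∈ s, c q * ∏ i, chs (σ i) (N q i) (γ i)‖ ^ 2) ≤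
        ENNReal.ofReal ((2 * C1 * H) ^ 0 * (D * ∑ q ∈ s, ‖c q‖ ^ 2)) := by
      intro γ
      refine ENNReal.ofReal_le_ofReal ?_
      simp only [Finset.univ_eq_empty, Finset.prod_empty, mul_one, pow_zero, one_mul]
      refine (csum s c).trans ?_
      have : (s.card : ℝ) ≤ D := by exact_mod_cast hcard
      gcongr
    refine (lintegral_mono h1).trans ?_
    rw [lintegral_const]
    simp [mP, Measure.pi_empty_univ]
  | succ m ih =>
    intro σ κ s N c D hN hD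
    classical
    set X : ℕ := ⌊H⌋₊ with hX
    have hXH : (X : ℝ) ≤ H := Nat.floor_le hH0.le
    have hXH2 : (X : ℝ) ≤ H ^ 2 := hXH.trans (by nlinarith)
    set A : ℕ → (Fin m → ℝ) → ℂ := fun n γ => ∑ q ∈ s.filter (fun q => N q 0 = n), c q *
      ∏ i : Fin m, chs (σ i.succ) (N q i.succ) (γ i) with hA
    have hc := sum_cont σ s N c fun q hq i => (hN q hq i).1
    rw [lint_prod H _ (mor hc)]
    have hcc : Continuous fun p : ℝ × (Fin m → ℝ) => (Fin.cons p.1 p.2 : Fin (m + 1) → ℝ) :=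
      Continuous.finCons (A := fun _ => ℝ) continuous_fst continuous_snd
    have hcomp : Continuous fun p : ℝ × (Fin m → ℝ) => ‖∑ q ∈ s, c q *
        ∏ i, chs (σ i) (N q i) ((Fin.cons p.1 p.2 : Fin (m + 1) → ℝ) i)‖ ^ 2 := hc.comp hcc
    rw [lintegral_prod_symm _ (mor hcomp).aemeasurable]
    have hcA : ∀ n, Continuous fun γ : Fin m → ℝ => ‖A n γ‖ ^ 2 := fun n =>
      sum_cont (fun i => σ i.succ) (s.filter fun q => N q 0 = n) (fun q i => N q i.succ) c
        fun q hq i => (hN q (Finset.mem_filter.1 hq).1 i.succ).1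
    have e1 : ∀ γ : Fin m → ℝ, ∫⁻ y, ENNReal.ofReal (‖∑ q ∈ s, c q *
        ∏ i, chs (σ i) (N q i) ((Fin.cons y γ : Fin (m + 1) → ℝ) i)‖ ^ 2)
          ∂(volume.restrict (Icc 0 H)) ≤
        ENNReal.ofReal (2 * C1 * H) * ∑ n ∈ Finset.Icc 1 X, ENNReal.ofReal (‖A n γ‖ ^ 2) := by
      intro γ
      have e2 : ∀ y : ℝ, ∑ q ∈ s, c q * ∏ i, chs (σ i) (N q i) ((Fin.cons y γ : Fin (m + 1) → ℝ) i) =
          ∑ n ∈ Finset.Icc 1 X, A n γ * chs (σ 0) n y := by
        intro y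
        have hmaps : ∀ q ∈ s, N q 0 ∈ Finset.Icc 1 X := fun q hq => by
          rw [Finset.mem_Icc]
          exact ⟨(hN q hq 0).1, Nat.le_floor (hN q hq 0).2⟩
        rw [← Finset.sum_fiberwise_of_maps_to hmaps]
        refine Finset.sum_congr rfl fun n _ => ?_
        rw [hA]
        simp only
        rw [Finset.sum_mul]
        refine Finset.sum_congr rfl fun q hq => ?_
        rw [Fin.prod_univ_succ]
        simp only [Fin.cons_zero, Fin.cons_succ]
        rw [(Finset.mem_filter.1 hq).2]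
        ring
      simp only [e2]
      refine (ls1 hMV hH hXH2 (σ 0) (fun n => A n γ)).trans ?_
      rw [← ENNReal.ofReal_sum_of_nonneg fun n _ => by positivity, ← ENNReal.ofReal_mul (by positivity)]
      refine ENNReal.ofReal_le_ofReal ?_
      rw [Finset.mul_sum, Finset.mul_sum]
      refine Finset.sum_le_sum fun n hn => ?_
      have hnX : (n : ℝ) ≤ X := by exact_mod_cast (Finset.mem_Icc.1 hn).2
      calc C1 * ((H + n) * ‖A n γ‖ ^ 2) ≤ C1 * ((2 * H) * ‖A n γ‖ ^ 2) := by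
            gcongr
            linarith
        _ = _ := by ring
    refine (lintegral_mono e1).trans ?_
    rw [lintegral_const_mul' _ _ ENNReal.ofReal_ne_top, lintegral_finsetSum _ fun n _ => mor (hcA n)]
    have e3 : ∀ n ∈ Finset.Icc 1 X, ∫⁻ γ, ENNReal.ofReal (‖A n γ‖ ^ 2) ∂(mP (Fin m) H) ≤
        ENNReal.ofReal ((2 * C1 * H) ^ m * (D * ∑ q ∈ s.filter (fun q => N q 0 = n), ‖c q‖ ^ 2)) := by
      intro n _
      refine ih (fun i => σ i.succ) (s.filter fun q => N q 0 = n) (fun q i => N q i.succ) c D ?_ ?_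
      · intro q hq i
        exact hN q (Finset.mem_filter.1 hq).1 i.succ
      · intro q hq
        refine le_trans (Finset.card_le_card ?_) (hD q (Finset.mem_filter.1 hq).1)
        intro q' hq'
        rw [Finset.mem_filter, Finset.mem_filter] at hq'
        rw [Finset.mem_filter]
        refine ⟨hq'.1.1, funext fun i => ?_⟩
        refine Fin.cases ?_ (fun j => ?_) i
        · rw [hq'.1.2, (Finset.mem_filter.1 hq).2]
        · exact congrFun hq'.2 j
    refine (mul_le_mul' le_rfl (Finset.sum_le_sum e3)).trans ?_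
    rw [← ENNReal.ofReal_sum_of_nonneg fun n _ => by positivity, ← ENNReal.ofReal_mul (by positivity)]
    refine ENNReal.ofReal_le_ofReal ?_
    have hmaps : ∀ q ∈ s, N q 0 ∈ Finset.Icc 1 X := fun q hq => by
      rw [Finset.mem_Icc]
      exact ⟨(hN q hq 0).1, Nat.le_floor (hN q hq 0).2⟩
    rw [← Finset.mul_sum, ← Finset.mul_sum, Finset.sum_fiberwise_of_maps_to hmaps]
    refine le_of_eq ?_
    ring

end

end Pool.Agent.Y752.SR
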