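import Pool.Agent.Y752.SR.E

set_option autoImplicit false

/-! Mean values of polynomials in several variables with one long frequency. -/

namespace Pool.Agent.Y752.SR

open MeasureTheory Set Filter Complex
open Pool.Agent.TH612.GS (mP conj_cpow_nat)
open Pool.Agent.TH521.GS (mor lint_prod lint_equiv lint1)

noncomputable section

theorem mix {C1 : ℝ} (hC1 : 0 < C1) (hMV : ∀ (T : ℝ) (X : ℕ) (a : ℕ → ℂ), 1 ≤ T → (X : ℝ) ≤ T ^ 2 →
      ∫ u in (0:ℝ)..(2 * T), ‖∑ n ∈ Finset.Icc 1 X, a n * (n : ℂ) ^ (-(I * u))‖ ^ 2 ≤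
        C1 * ∑ n ∈ Finset.Icc 1 X, (T + n) * ‖a n‖ ^ 2)
    {H : ℝ} (hH : 1 ≤ H) {m : ℕ} (σ : Fin (m + 1) → Bool) (σ' : Bool) {κ : Type} (s : Finset κ)
    (N : κ → Fin (m + 1) → ℕ) (n : κ → ℕ) (i1 : Fin m) (c : κ → ℂ) (D E X : ℕ) (hX : (X : ℝ) ≤ H ^ 2)
    (hN : ∀ q ∈ s, ∀ i : Fin m, 1 ≤ N q i.succ ∧ (N q i.succ : ℝ) ≤ H)
    (hn : ∀ q ∈ s, 1 ≤ n q ∧ 1 ≤ N q 0 ∧ N q 0 * n q ≤ X)
    (hD : ∀ q ∈ s, (s.filter fun q' => n q' = n q ∧ N q' = N q).card ≤ D)
    (hE : ∀ M ∈ Finset.Icc 1 X, M.divisors.card ≤ E) :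
    ∫⁻ γ, ENNReal.ofReal (‖∑ q ∈ s, c q * ((∏ i, chs (σ i) (N q i) (γ i)) *
      (chs (σ 0) (n q) (γ 0) * chs σ' (n q) (γ i1.succ)))‖ ^ 2) ∂(mP (Fin (m + 1)) H) ≤
      ENNReal.ofReal ((2 * C1 * H) ^ m * D * E * C1 * ∑ q ∈ s, (H + (N q 0 * n q : ℕ)) * ‖c q‖ ^ 2) := by
  classical
  have hH0 : 0 < H := by linarith
  have hc : Continuous fun γ : Fin (m + 1) → ℝ => ‖∑ q ∈ s, c q * ((∏ i, chs (σ i) (N q i) (γ i)) *
      (chs (σ 0) (n q) (γ 0) * chs σ' (n q) (γ i1.succ)))‖ ^ 2 := by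
    refine Continuous.pow (Continuous.norm ?_) 2
    refine continuous_finsetSum _ fun q hq => continuous_const.mul (Continuous.mul ?_ (Continuous.mul ?_ ?_))
    · refine continuous_finsetProd _ fun i _ => (chs_cont (σ i) ?_).comp (continuous_apply i)
      refine Fin.cases ?_ (fun j => ?_) i
      · exact (hn q hq).2.1
      · exact (hN q hq j).1
    · exact (chs_cont _ (hn q hq).1).comp (continuous_apply _)
    · exact (chs_cont _ (hn q hq).1).comp (continuous_apply _)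
  have hcc : Continuous fun p : ℝ × (Fin m → ℝ) => (Fin.cons p.1 p.2 : Fin (m + 1) → ℝ) :=
    Continuous.finCons (A := fun _ => ℝ) continuous_fst continuous_snd
  have hcomp : Continuous fun p : ℝ × (Fin m → ℝ) => ‖∑ q ∈ s, c q *
      ((∏ i, chs (σ i) (N q i) ((Fin.cons p.1 p.2 : Fin (m + 1) → ℝ) i)) *
      (chs (σ 0) (n q) ((Fin.cons p.1 p.2 : Fin (m + 1) → ℝ) 0) *
        chs σ' (n q) ((Fin.cons p.1 p.2 : Fin (m + 1) → ℝ) i1.succ)))‖ ^ 2 := hc.comp hcc
  rw [lint_prod H _ (mor hc), lintegral_prod_symm _ (mor hcomp).aemeasurable]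
  set B : ℕ → ℕ → (Fin m → ℝ) → ℂ := fun M v γ =>
    ∑ q ∈ s.filter (fun q => N q 0 * n q = M ∧ n q = v), c q *
      ∏ i : Fin m, chs (σ i.succ) (N q i.succ) (γ i) with hB
  have hcB : ∀ M v, Continuous fun γ : Fin m → ℝ => ‖B M v γ‖ ^ 2 := fun M v =>
    sum_cont (fun i => σ i.succ) (s.filter fun q => N q 0 * n q = M ∧ n q = v)
      (fun q i => N q i.succ) c fun q hq i => (hN q (Finset.mem_filter.1 hq).1 i).1
  have e1 : ∀ γ : Fin m → ℝ, ∫⁻ y, ENNReal.ofReal (‖∑ q ∈ s, c q *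
      ((∏ i, chs (σ i) (N q i) ((Fin.cons y γ : Fin (m + 1) → ℝ) i)) *
      (chs (σ 0) (n q) ((Fin.cons y γ : Fin (m + 1) → ℝ) 0) *
        chs σ' (n q) ((Fin.cons y γ : Fin (m + 1) → ℝ) i1.succ)))‖ ^ 2) ∂(volume.restrict (Icc 0 H)) ≤
      ∑ M ∈ Finset.Icc 1 X, ENNReal.ofReal (C1 * E * (H + M)) *
        ∑ v ∈ M.divisors, ENNReal.ofReal (‖B M v γ‖ ^ 2) := by
    intro γ
    set A : ℕ → ℂ := fun M => ∑ q ∈ s.filter (fun q => N q 0 * n q = M), c q *
      ((∏ i : Fin m, chs (σ i.succ) (N q i.succ) (γ i)) * chs σ' (n q) (γ i1)) with hA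
    have e2 : ∀ y : ℝ, ∑ q ∈ s, c q * ((∏ i, chs (σ i) (N q i) ((Fin.cons y γ : Fin (m + 1) → ℝ) i)) *
        (chs (σ 0) (n q) ((Fin.cons y γ : Fin (m + 1) → ℝ) 0) *
        chs σ' (n q) ((Fin.cons y γ : Fin (m + 1) → ℝ) i1.succ))) =
        ∑ M ∈ Finset.Icc 1 X, A M * chs (σ 0) M y := by
      intro y
      have hmaps : ∀ q ∈ s, N q 0 * n q ∈ Finset.Icc 1 X := fun q hq => by
        rw [Finset.mem_Icc]
        obtain ⟨a, b, c⟩ := hn q hq
        exact ⟨Nat.mul_pos b a, c⟩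
      rw [← Finset.sum_fiberwise_of_maps_to hmaps]
      refine Finset.sum_congr rfl fun M _ => ?_
      rw [hA]
      simp only
      rw [Finset.sum_mul]
      refine Finset.sum_congr rfl fun q hq => ?_
      rw [Fin.prod_univ_succ]
      simp only [Fin.cons_zero, Fin.cons_succ]
      rw [← (Finset.mem_filter.1 hq).2, chs_mul]
      ring
    simp only [e2]
    refine (ls1 hMV hH hX (σ 0) A).trans ?_
    have e9 : ∀ M : ℕ, ENNReal.ofReal (C1 * E * (H + M)) * ∑ v ∈ M.divisors, ENNReal.ofReal (‖B M v γ‖ ^ 2) =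
        ENNReal.ofReal (C1 * E * (H + M) * ∑ v ∈ M.divisors, ‖B M v γ‖ ^ 2) := by
      intro M
      rw [← ENNReal.ofReal_sum_of_nonneg fun v _ => by positivity, ← ENNReal.ofReal_mul (by positivity)]
    simp only [e9]
    rw [← ENNReal.ofReal_sum_of_nonneg fun M _ => by positivity]
    refine ENNReal.ofReal_le_ofReal ?_
    rw [Finset.mul_sum]
    refine Finset.sum_le_sum fun M hM => ?_
    have h1 : A M = ∑ v ∈ M.divisors, chs σ' v (γ i1) * B M v γ := by
      rw [hA, hB]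
      simp only
      have hmaps : ∀ q ∈ s.filter (fun q => N q 0 * n q = M), n q ∈ M.divisors := fun q hq => by
        rw [Nat.mem_divisors]
        have := (Finset.mem_filter.1 hq).2
        refine ⟨⟨N q 0, by rw [← this]; ring⟩, ?_⟩
        have := (Finset.mem_Icc.1 hM).1
        omega
      rw [← Finset.sum_fiberwise_of_maps_to hmaps]
      refine Finset.sum_congr rfl fun v _ => ?_
      rw [Finset.mul_sum, Finset.filter_filter]
      refine Finset.sum_congr rfl fun q hq => ?_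
      rw [(Finset.mem_filter.1 hq).2.2]
      ring
    have h2 : ‖A M‖ ^ 2 ≤ E * ∑ v ∈ M.divisors, ‖B M v γ‖ ^ 2 := by
      rw [h1]
      refine (csum _ _).trans ?_
      have h3 : (M.divisors.card : ℝ) ≤ E := by exact_mod_cast hE M hM
      have h4 : ∀ v ∈ M.divisors, ‖chs σ' v (γ i1) * B M v γ‖ ^ 2 = ‖B M v γ‖ ^ 2 := by
        intro v hv
        rw [norm_mul, chs_norm _ (Nat.pos_of_mem_divisors hv), one_mul]
      rw [Finset.sum_congr rfl h4]
      gcongr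
    calc C1 * ((H + M) * ‖A M‖ ^ 2) ≤ C1 * ((H + M) * (E * ∑ v ∈ M.divisors, ‖B M v γ‖ ^ 2)) := by
          gcongr
      _ = _ := by ring
  refine (lintegral_mono e1).trans ?_
  rw [lintegral_finsetSum _ fun M _ => Measurable.const_mul
    (Finset.measurable_sum _ fun v _ => mor (hcB M v)) _]
  have e3 : ∀ M ∈ Finset.Icc 1 X, ∫⁻ γ, ENNReal.ofReal (C1 * E * (H + M)) *
        ∑ v ∈ M.divisors, ENNReal.ofReal (‖B M v γ‖ ^ 2) ∂(mP (Fin m) H) ≤
      ENNReal.ofReal (∑ q ∈ s.filter (fun q => N q 0 * n q = M), (2 * C1 * H) ^ m * D * E * C1 *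
        ((H + (N q 0 * n q : ℕ)) * ‖c q‖ ^ 2)) := by
    intro M hM
    rw [lintegral_const_mul' _ _ ENNReal.ofReal_ne_top, lintegral_finsetSum _ fun v _ => mor (hcB M v)]
    have e4 : ∀ v ∈ M.divisors, ∫⁻ γ, ENNReal.ofReal (‖B M v γ‖ ^ 2) ∂(mP (Fin m) H) ≤
        ENNReal.ofReal ((2 * C1 * H) ^ m * (D * ∑ q ∈ s.filter
          (fun q => N q 0 * n q = M ∧ n q = v), ‖c q‖ ^ 2)) := by
      intro v hv
      refine tls hC1 hMV hH m (fun i => σ i.succ) (s.filter fun q => N q 0 * n q = M ∧ n q = v)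
        (fun q i => N q i.succ) c D ?_ ?_
      · intro q hq i
        exact hN q (Finset.mem_filter.1 hq).1 i
      · intro q hq
        refine le_trans (Finset.card_le_card ?_) (hD q (Finset.mem_filter.1 hq).1)
        intro q' hq'
        rw [Finset.mem_filter, Finset.mem_filter] at hq'
        rw [Finset.mem_filter] at hq
        rw [Finset.mem_filter]
        obtain ⟨⟨a1, a2, a3⟩, a4⟩ := hq'
        obtain ⟨b1, b2, b3⟩ := hq
        refine ⟨a1, by rw [a3, b3], funext fun i => ?_⟩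
        refine Fin.cases ?_ (fun j => ?_) i
        · have hpos : 0 < n q := (hn q b1).1
          refine Nat.eq_of_mul_eq_mul_right hpos ?_
          rw [b2, ← a2, a3, b3]
        · exact congrFun a4 j
    refine (mul_le_mul' le_rfl (Finset.sum_le_sum e4)).trans ?_
    rw [← ENNReal.ofReal_sum_of_nonneg fun v _ => by positivity, ← ENNReal.ofReal_mul (by positivity)]
    refine ENNReal.ofReal_le_ofReal ?_
    have hmaps : ∀ q ∈ s.filter (fun q => N q 0 * n q = M), n q ∈ M.divisors := fun q hq => by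
      rw [Nat.mem_divisors]
      have := (Finset.mem_filter.1 hq).2
      refine ⟨⟨N q 0, by rw [← this]; ring⟩, ?_⟩
      have := (Finset.mem_Icc.1 hM).1
      omega
    rw [← Finset.mul_sum, ← Finset.mul_sum]
    have e5 : ∑ v ∈ M.divisors, ∑ q ∈ s.filter (fun q => N q 0 * n q = M ∧ n q = v), ‖c q‖ ^ 2 =
        ∑ q ∈ s.filter (fun q => N q 0 * n q = M), ‖c q‖ ^ 2 := by
      rw [← Finset.sum_fiberwise_of_maps_to hmaps]
      refine Finset.sum_congr rfl fun v _ => ?_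
      rw [Finset.filter_filter]
    rw [e5, Finset.mul_sum, Finset.mul_sum, Finset.mul_sum]
    refine Finset.sum_le_sum fun q hq => le_of_eq ?_
    rw [(Finset.mem_filter.1 hq).2]
    ring
  refine (Finset.sum_le_sum e3).trans ?_
  rw [← ENNReal.ofReal_sum_of_nonneg fun M _ => Finset.sum_nonneg fun q _ => by positivity]
  refine ENNReal.ofReal_le_ofReal ?_
  have hmaps : ∀ q ∈ s, N q 0 * n q ∈ Finset.Icc 1 X := fun q hq => by
    rw [Finset.mem_Icc]
    obtain ⟨a, b, c⟩ := hn q hq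
    exact ⟨Nat.mul_pos b a, c⟩
  rw [Finset.sum_fiberwise_of_maps_to hmaps, ← Finset.mul_sum]

end

end Pool.Agent.Y752.SR
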