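import Pool.Agent.Y752.SR.G
import Pool.Agent.TH367.GS.SS
import Pool.Agent.TH509.GS.DIAG

set_option autoImplicit false

/-! The expansion of the product of the partial sums. -/

namespace Pool.Agent.Y752.SR

open MeasureTheory Set Filter Complex
open Pool.Agent.TH612.GS (mP PN tup ch wt dr PN_cont)
open Pool.Agent.TH612.CF (dg)
open Pool.Agent.W182.KO (tau)
open Pool.Agent.TH367.GS (pl pr dgn mem_tup pl_pos mem_dgn fiber_sum fma_card)
open Pool.Agent.TH509.GS (th th_eq integrand_eq norm_int_exp)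

noncomputable section

variable {k : ℕ}

/-- the sharp sum of the coefficients -/
def AN (N : ℕ) (γ : Fin k ⊕ Fin k → ℝ) : ℂ := ∑ n ∈ Finset.Icc 1 N, dr γ n

/-- the signs -/
def sg (i : Fin k ⊕ Fin k) : Bool := Sum.elim (fun _ => true) (fun _ => false) i

lemma ch_eq (ν : Fin k ⊕ Fin k → ℕ) (γ : Fin k ⊕ Fin k → ℝ) :
    ch ν γ = ∏ i, chs (sg i) (ν i) (γ i) := by
  rw [Fintype.prod_sum_type]
  unfold ch sg chs
  simp only [Sum.elim_inl, Sum.elim_inr, if_true, Bool.false_eq_true, if_false]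

lemma AN_eq (N : ℕ) (γ : Fin k ⊕ Fin k → ℝ) : AN N γ = ∑ ν ∈ tup k N,
    if pl ν = pr ν ∧ pl ν ≤ N then ((pl ν : ℕ) : ℂ)⁻¹ * ch ν γ else 0 := by
  have h1 : AN N γ = ∑ n ∈ Finset.Icc 1 N, ∑ ν ∈ dgn k N,
      if pl ν = n then ((n : ℕ) : ℂ)⁻¹ * ch ν γ else 0 := by
    unfold AN
    refine Finset.sum_congr rfl fun n hn => ?_
    rw [Finset.mem_Icc] at hn
    rw [← Finset.sum_filter]
    have h2 := fiber_sum (k := k) N n hn.1 hn.2 (fun g f => ((n : ℕ) : ℂ)⁻¹ *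
      ((∏ j, (g j : ℂ) ^ (-(I * γ (Sum.inl j)))) * ∏ j, (f j : ℂ) ^ (I * γ (Sum.inr j))))
    have h3 : ∑ ν ∈ (dgn k N).filter (fun ν => pl ν = n), ((n : ℕ) : ℂ)⁻¹ * ch ν γ =
      ∑ g ∈ Nat.finMulAntidiag k n, ∑ f ∈ Nat.finMulAntidiag k n, ((n : ℕ) : ℂ)⁻¹ *
      ((∏ j, (g j : ℂ) ^ (-(I * γ (Sum.inl j)))) * ∏ j, (f j : ℂ) ^ (I * γ (Sum.inr j))) := h2
    rw [h3]
    unfold Pool.Agent.TH612.GS.dr dg tau
    simp_rw [← Finset.mul_sum]
    rw [← Finset.sum_mul]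
    ring
  rw [h1, Finset.sum_comm]
  unfold dgn
  rw [Finset.sum_filter]
  refine Finset.sum_congr rfl fun ν hν => ?_
  by_cases h : pl ν = pr ν
  · rw [if_pos h, Finset.sum_ite_eq]
    by_cases h2 : pl ν ≤ N
    · rw [if_pos (Finset.mem_Icc.2 ⟨pl_pos hν, h2⟩), if_pos ⟨h, h2⟩]
    · rw [if_neg (fun h3 => h2 (Finset.mem_Icc.1 h3).2), if_neg (fun h3 => h2 h3.2)]
  · rw [if_neg h, if_neg (fun h3 => h h3.1)]

/-- the oscillatory integral -/
def JJ (S : ℝ) (ν : Fin k ⊕ Fin k → ℕ) : ℂ := ∫ t in (0:ℝ)..S, Complex.exp (I * t * (th ν : ℝ))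

lemma JJ_le (S : ℝ) (hS : 0 ≤ S) (ν : Fin k ⊕ Fin k → ℕ) : ‖JJ S ν‖ ≤ S := by
  unfold JJ
  have h := intervalIntegral.norm_integral_le_of_norm_le_const (a := (0:ℝ)) (b := S)
    (f := fun t : ℝ => Complex.exp (I * t * (th ν : ℝ))) (C := 1) (fun t _ => by
      have : I * (t : ℂ) * ((th ν : ℝ) : ℂ) = ((t * th ν : ℝ) : ℂ) * I := by push_cast; ring
      rw [this, Complex.norm_exp_ofReal_mul_I])
  rwa [one_mul, sub_zero, abs_of_nonneg hS] at h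

lemma int_eq (N : ℕ) (S : ℝ) (γ : Fin k ⊕ Fin k → ℝ) :
    ∫ t in (0:ℝ)..S, ∏ j : Fin k, PN N (t + γ (Sum.inl j)) *
      (starRingEnd ℂ) (PN N (t + γ (Sum.inr j))) = ∑ ν ∈ tup k N, ((wt ν : ℂ) * JJ S ν) * ch ν γ := by
  simp only [integrand_eq]
  rw [intervalIntegral.integral_finsetSum]
  · refine Finset.sum_congr rfl fun ν _ => ?_
    rw [intervalIntegral.integral_const_mul]
    unfold JJ
    ring
  · intro ν _
    refine Continuous.intervalIntegrable ?_ _ _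
    fun_prop

/-- the coefficients -/
def cB (N : ℕ) (S : ℝ) (ν : Fin k ⊕ Fin k → ℕ) : ℂ := (wt ν : ℂ) * JJ S ν -
  (if pl ν = pr ν ∧ pl ν ≤ N then (S : ℂ) * ((pl ν : ℕ) : ℂ)⁻¹ else 0)

lemma diff_expand (N : ℕ) (S : ℝ) (γ : Fin k ⊕ Fin k → ℝ) :
    (∫ t in (0:ℝ)..S, ∏ j : Fin k, PN N (t + γ (Sum.inl j)) *
      (starRingEnd ℂ) (PN N (t + γ (Sum.inr j)))) - S * AN N γ = ∑ ν ∈ tup k N, cB N S ν * ch ν γ := by
  rw [int_eq, AN_eq, Finset.mul_sum, ← Finset.sum_sub_distrib]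
  refine Finset.sum_congr rfl fun ν _ => ?_
  unfold cB
  split_ifs
  · ring
  · ring

/-- the size of the coefficients -/
def wB (N : ℕ) (S : ℝ) (p : ℕ × ℕ) : ℝ :=
  if p.1 = p.2 then (if p.1 ≤ N then 0 else S ^ 2 / (p.1 : ℝ) ^ 2)
  else 2 * S / ((p.1 : ℝ) * p.2 * |Real.log p.2 - Real.log p.1|)

lemma wt_sq {N : ℕ} {ν : Fin k ⊕ Fin k → ℕ} (hν : ν ∈ tup k N) :
    wt ν ^ 2 = ((pl ν : ℝ) * pr ν)⁻¹ := by
  unfold wt
  have h1 : ∏ i, (ν i : ℝ) = (pl ν : ℝ) * pr ν := by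
    rw [Fintype.prod_sum_type]
    unfold pl pr
    push_cast
    rfl
  rw [h1]
  have h0 : 0 ≤ (pl ν : ℝ) * pr ν := by positivity
  rw [← Real.rpow_natCast, ← Real.rpow_mul h0, ← Real.rpow_neg_one]
  norm_num

lemma wt_nn (ν : Fin k ⊕ Fin k → ℕ) : 0 ≤ wt ν := by
  unfold wt
  positivity

lemma pr_pos {N : ℕ} {ν : Fin k ⊕ Fin k → ℕ} (h : ν ∈ tup k N) : 1 ≤ pr ν := by
  have h1 : 0 < ∏ j, ν (Sum.inr j) := Finset.prod_pos fun j _ => (mem_tup.1 h (Sum.inr j)).1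
  exact h1

lemma cB_le {N : ℕ} {S : ℝ} (hS : 0 ≤ S) {ν : Fin k ⊕ Fin k → ℕ} (hν : ν ∈ tup k N) :
    ‖cB N S ν‖ ^ 2 ≤ wB N S (pl ν, pr ν) := by
  have hth := th_eq ν fun i => (mem_tup.1 hν i).1
  have hpl := pl_pos hν
  have hpr := pr_pos hν
  have hpl0 : (0:ℝ) < pl ν := by exact_mod_cast hpl
  have hpr0 : (0:ℝ) < pr ν := by exact_mod_cast hpr
  have hsq := wt_sq hν
  have hth' : th ν = Real.log (pr ν) - Real.log (pl ν) := hth
  unfold wB
  simp only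
  by_cases h : pl ν = pr ν
  · have hw : wt ν = (pl ν : ℝ)⁻¹ := by
      have h1 : wt ν ^ 2 = ((pl ν : ℝ)⁻¹) ^ 2 := by
        rw [hsq, ← h, mul_inv, pow_two]
      exact (pow_left_inj₀ (wt_nn ν) (by positivity) two_ne_zero).1 h1
    have hJ : JJ S ν = S := by
      unfold JJ
      have : th ν = 0 := by rw [hth', h, sub_self]
      rw [this]
      simp
    rw [if_pos h]
    unfold cB
    rw [hJ, hw]
    split_ifs with h2 h3 h3
    · push_cast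
      simp [mul_comm]
    · exact absurd h2.2 h3
    · exact absurd ⟨h, h3⟩ h2
    · rw [sub_zero, norm_mul, Complex.norm_real, Complex.norm_real, Real.norm_of_nonneg hS,
        Real.norm_of_nonneg (by positivity), mul_pow]
      refine le_of_eq ?_
      field_simp
  · rw [if_neg h]
    unfold cB
    rw [if_neg (fun h2 => h h2.1), sub_zero, norm_mul, Complex.norm_real,
      Real.norm_of_nonneg (wt_nn ν), mul_pow, hsq]
    have hne : th ν ≠ 0 := by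
      rw [hth']
      intro h0
      have h1 : Real.log (pr ν) = Real.log (pl ν) := by linarith
      have h2 := Real.log_injOn_pos (Set.mem_Ioi.2 hpr0) (Set.mem_Ioi.2 hpl0) h1
      exact h (by exact_mod_cast h2.symm)
    have h1 := norm_int_exp hne S
    have h2 := JJ_le S hS ν
    have h3 : ‖JJ S ν‖ ^ 2 ≤ S * (2 / |th ν|) := by
      rw [pow_two]
      exact mul_le_mul h2 h1 (norm_nonneg _) hS
    have habs : 0 < |th ν| := abs_pos.2 hne
    rw [hth'] at h3 habs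
    calc ((pl ν : ℝ) * pr ν)⁻¹ * ‖JJ S ν‖ ^ 2
        ≤ ((pl ν : ℝ) * pr ν)⁻¹ * (S * (2 / |Real.log (pr ν) - Real.log (pl ν)|)) := by gcongr
      _ = _ := by
          field_simp

end

end Pool.Agent.Y752.SR
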