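import Pool.Agent.Y752.SR.H1

set_option autoImplicit false

/-! The mean square of the product of the partial sums minus the diagonal terms. -/

namespace Pool.Agent.Y752.SR

open MeasureTheory Set Filter Complex
open Pool.Agent.TH612.GS (mP PN tup ch wt dr PN_cont)
open Pool.Agent.TH367.GS (pl pr dgn mem_tup pl_pos mem_dgn fiber_sum fma_card)

noncomputable section

variable {k : ℕ}

lemma log_diff_lb {a b : ℕ} (ha : 1 ≤ a) (hab : a < b) :
    ((b : ℝ) - a) / b ≤ |Real.log b - Real.log a| := by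
  have ha0 : (0:ℝ) < a := by exact_mod_cast ha
  have hab' : (a : ℝ) < b := by exact_mod_cast hab
  have hb0 : (0:ℝ) < b := by linarith
  refine le_trans ?_ (le_abs_self _)
  rw [← Real.log_div hb0.ne' ha0.ne']
  refine le_trans (le_of_eq ?_) (Real.one_sub_inv_le_log_of_pos (div_pos hb0 ha0))
  rw [inv_div]
  field_simp

lemma half_sum (X : ℕ) : ∑ a ∈ Finset.Icc 1 X, ∑ b ∈ Finset.Icc 1 X,
    (if a < b then 1 / ((a : ℝ) * ((b : ℝ) - a)) else 0) ≤ (1 + Real.log X) ^ 2 := by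
  have h0 : 0 ≤ 1 + Real.log X := by
    have := Real.log_natCast_nonneg X
    linarith
  have h1 : ∀ a ∈ Finset.Icc 1 X, ∑ b ∈ Finset.Icc 1 X,
      (if a < b then 1 / ((a : ℝ) * ((b : ℝ) - a)) else 0) ≤ (a : ℝ)⁻¹ * (1 + Real.log X) := by
    intro a ha
    rw [← Finset.sum_filter]
    have e1 : ∑ b ∈ (Finset.Icc 1 X).filter (fun b => a < b), 1 / ((a : ℝ) * ((b : ℝ) - a)) =
        (a : ℝ)⁻¹ * ∑ b ∈ (Finset.Icc 1 X).filter (fun b => a < b), (((b - a : ℕ) : ℝ))⁻¹ := by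
      rw [Finset.mul_sum]
      refine Finset.sum_congr rfl fun b hb => ?_
      rw [Nat.cast_sub (Finset.mem_filter.1 hb).2.le, one_div, mul_inv]
    rw [e1]
    refine mul_le_mul_of_nonneg_left ?_ (by positivity)
    refine le_trans ?_ (sum_inv_le X)
    have e2 : ∑ b ∈ (Finset.Icc 1 X).filter (fun b => a < b), (((b - a : ℕ) : ℝ))⁻¹ =
        ∑ h ∈ ((Finset.Icc 1 X).filter (fun b => a < b)).image (fun b => b - a), ((h : ℕ) : ℝ)⁻¹ := by
      rw [Finset.sum_image]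
      intro b hb b' hb' h
      have h1 := (Finset.mem_filter.1 hb).2
      have h2 := (Finset.mem_filter.1 hb').2
      simp only at h
      omega
    rw [e2]
    refine Finset.sum_le_sum_of_subset_of_nonneg ?_ fun _ _ _ => by positivity
    intro h hh
    obtain ⟨b, hb, rfl⟩ := Finset.mem_image.1 hh
    obtain ⟨h1, h2⟩ := Finset.mem_filter.1 hb
    rw [Finset.mem_Icc] at h1 ⊢
    omega
  refine (Finset.sum_le_sum h1).trans ?_
  rw [← Finset.sum_mul, pow_two]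
  exact mul_le_mul_of_nonneg_right (sum_inv_le X) h0

lemma w_sum {N X : ℕ} {S : ℝ} (hS : 0 ≤ S) (hN : 1 ≤ N) :
    ∑ p ∈ Finset.Icc 1 X ×ˢ Finset.Icc 1 X, wB N S p ≤ S ^ 2 / N + 4 * S * (1 + Real.log X) ^ 2 := by
  have h1 : ∀ p ∈ Finset.Icc 1 X ×ˢ Finset.Icc 1 X, wB N S p ≤
      (if p.1 = p.2 ∧ N < p.1 then S ^ 2 / (p.1 : ℝ) ^ 2 else 0) +
      (2 * S * (if p.1 < p.2 then 1 / ((p.1 : ℝ) * ((p.2 : ℝ) - p.1)) else 0) +
      2 * S * (if p.2 < p.1 then 1 / ((p.2 : ℝ) * ((p.1 : ℝ) - p.2)) else 0)) := by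
    intro p hp
    obtain ⟨hp1, hp2⟩ := Finset.mem_product.1 hp
    have ha := (Finset.mem_Icc.1 hp1).1
    have hb := (Finset.mem_Icc.1 hp2).1
    have ha0 : (0:ℝ) < p.1 := by exact_mod_cast ha
    have hb0 : (0:ℝ) < p.2 := by exact_mod_cast hb
    unfold wB
    rcases lt_trichotomy p.1 p.2 with h | h | h
    · rw [if_neg h.ne, if_neg (fun h2 => h.ne h2.1), if_pos h, if_neg (by omega), mul_zero, add_zero, zero_add]
      have h2 := log_diff_lb ha h
      have hd : (0:ℝ) < p.2 - p.1 := by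
        have : (p.1 : ℝ) < p.2 := by exact_mod_cast h
        linarith
      calc 2 * S / ((p.1 : ℝ) * p.2 * |Real.log p.2 - Real.log p.1|)
          ≤ 2 * S / ((p.1 : ℝ) * p.2 * (((p.2 : ℝ) - p.1) / p.2)) := by gcongr
        _ = _ := by field_simp
    · have hlt1 : ¬ p.1 < p.2 := by omega
      have hlt2 : ¬ p.2 < p.1 := by omega
      rw [if_pos h, if_neg hlt1, if_neg hlt2]
      split_ifs with h2 h3 h3
      · omega
      · simp
      · simp
      · exact absurd ⟨h, not_le.1 h2⟩ h3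
    · rw [if_neg h.ne', if_neg (fun h2 => h.ne' h2.1), if_neg (by omega), if_pos h, mul_zero, zero_add, zero_add]
      have h2 := log_diff_lb hb h
      rw [abs_sub_comm] at h2
      have hd : (0:ℝ) < p.1 - p.2 := by
        have : (p.2 : ℝ) < p.1 := by exact_mod_cast h
        linarith
      calc 2 * S / ((p.1 : ℝ) * p.2 * |Real.log p.2 - Real.log p.1|)
          ≤ 2 * S / ((p.1 : ℝ) * p.2 * (((p.1 : ℝ) - p.2) / p.1)) := by gcongr
        _ = _ := by field_simp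
  refine (Finset.sum_le_sum h1).trans ?_
  rw [Finset.sum_add_distrib, Finset.sum_add_distrib, ← Finset.mul_sum, ← Finset.mul_sum,
    Finset.sum_product, Finset.sum_product, Finset.sum_product]
  have h2 := half_sum X
  have h3 : ∑ a ∈ Finset.Icc 1 X, ∑ b ∈ Finset.Icc 1 X,
      (if b < a then 1 / ((b : ℝ) * ((a : ℝ) - b)) else 0) ≤ (1 + Real.log X) ^ 2 := by
    rw [Finset.sum_comm]
    exact h2
  have h4 : ∑ a ∈ Finset.Icc 1 X, ∑ b ∈ Finset.Icc 1 X,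
      (if a = b ∧ N < a then S ^ 2 / (a : ℝ) ^ 2 else 0) ≤ S ^ 2 / N := by
    have e1 : ∀ a ∈ Finset.Icc 1 X, ∑ b ∈ Finset.Icc 1 X,
        (if a = b ∧ N < a then S ^ 2 / (a : ℝ) ^ 2 else 0) =
        if N < a then S ^ 2 * ((a : ℝ) ^ 2)⁻¹ else 0 := by
      intro a ha
      by_cases h : N < a
      · simp only [h, and_true, if_true]
        rw [Finset.sum_ite_eq, if_pos ha, div_eq_mul_inv]
      · simp [h]
    rw [Finset.sum_congr rfl e1, ← Finset.sum_filter, ← Finset.mul_sum, div_eq_mul_inv]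
    refine mul_le_mul_of_nonneg_left ?_ (by positivity)
    have e2 : (Finset.Icc 1 X).filter (fun a => N < a) = Finset.Ioc N X := by
      ext a
      rw [Finset.mem_filter, Finset.mem_Icc, Finset.mem_Ioc]
      omega
    rw [e2]
    rcases le_or_gt N X with h | h
    · have h5 := sum_Ioc_inv_sq_le_sub (α := ℝ) (k := N) (n := X) (by omega) h
      have h6 : (0:ℝ) ≤ ((X : ℕ) : ℝ)⁻¹ := by positivity
      linarith
    · rw [Finset.Ioc_eq_empty (by omega), Finset.sum_empty]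
      positivity
  have h5 : 2 * S * ∑ a ∈ Finset.Icc 1 X, ∑ b ∈ Finset.Icc 1 X,
      (if a < b then 1 / ((a : ℝ) * ((b : ℝ) - a)) else 0) ≤ 2 * S * (1 + Real.log X) ^ 2 := by gcongr
  have h6 : 2 * S * ∑ a ∈ Finset.Icc 1 X, ∑ b ∈ Finset.Icc 1 X,
      (if b < a then 1 / ((b : ℝ) * ((a : ℝ) - b)) else 0) ≤ 2 * S * (1 + Real.log X) ^ 2 := by gcongr
  linarith

/-- number of tuples with given products -/
lemma fib2_card (N a b : ℕ) (ha : 1 ≤ a) (hb : 1 ≤ b) :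
    ((tup k N).filter (fun ν => (pl ν, pr ν) = (a, b))).card ≤ a.divisors.card ^ k * b.divisors.card ^ k := by
  refine le_trans ?_ (Nat.mul_le_mul (fma_card (k := k) a ha) (fma_card (k := k) b hb))
  rw [← Finset.card_product]
  refine Finset.card_le_card_of_injOn
    (fun ν => (fun j => ν (Sum.inl j), fun j => ν (Sum.inr j))) ?_ ?_
  · intro ν hν
    rw [Finset.mem_coe, Finset.mem_filter, Prod.mk.injEq] at hν
    rw [Finset.mem_coe, Finset.mem_product, Nat.mem_finMulAntidiag, Nat.mem_finMulAntidiag]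
    exact ⟨⟨hν.2.1, by omega⟩, ⟨hν.2.2, by omega⟩⟩
  · intro ν _ μ _ h
    simp only [Prod.mk.injEq] at h
    funext i
    rcases i with j | j
    · exact congrFun h.1 j
    · exact congrFun h.2 j

lemma prod_le_pow {N : ℕ} {ν : Fin k ⊕ Fin k → ℕ} (hν : ν ∈ tup k N) : pl ν ≤ N ^ k ∧ pr ν ≤ N ^ k := by
  constructor
  · have := Finset.prod_le_pow_card Finset.univ (fun j : Fin k => ν (Sum.inl j)) N
      fun j _ => (mem_tup.1 hν _).2
    rw [Finset.card_univ, Fintype.card_fin] at this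
    exact this
  · have := Finset.prod_le_pow_card Finset.univ (fun j : Fin k => ν (Sum.inr j)) N
      fun j _ => (mem_tup.1 hν _).2
    rw [Finset.card_univ, Fintype.card_fin] at this
    exact this

theorem partB (k : ℕ) {ε : ℝ} (hε : 0 < ε) : ∃ C : ℝ, 1 ≤ C ∧ ∀ (H S : ℝ) (N : ℕ), 1 ≤ N →
    (N : ℝ) ≤ H → 0 ≤ S →
    ∫⁻ γ, ENNReal.ofReal (‖(∫ t in (0:ℝ)..S, ∏ j : Fin k, PN N (t + γ (Sum.inl j)) *
      (starRingEnd ℂ) (PN N (t + γ (Sum.inr j)))) - S * AN N γ‖ ^ 2) ∂(mP (Fin k ⊕ Fin k) H) ≤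
      ENNReal.ofReal (C * H ^ (2 * k) * H ^ ε * (S + S ^ 2 / N)) := by
  classical
  obtain ⟨C1, hC1, hMV⟩ := Pool.Agent.TH928.GS.t_MV
  set δ : ℝ := ε / (4 * ((k : ℝ) + 1) ^ 2) with hδ
  have hδ0 : 0 < δ := by positivity
  obtain ⟨C2, hC2, hdiv⟩ := Pool.Agent.H510R2.divisor_bound δ hδ0
  set K : ℝ := (2 * C1) ^ (2 * k) * (C2 ^ (2 * k) * (4 * (1 + 1 / δ) ^ 2)) with hK
  have hK0 : 0 ≤ K := by positivity
  refine ⟨1 + K, by linarith, fun H S N hN hNH hS => ?_⟩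
  have hN1 : (1:ℝ) ≤ N := by exact_mod_cast hN
  have hH1 : 1 ≤ H := hN1.trans hNH
  have hH0 : 0 < H := by linarith
  simp only [diff_expand, ch_eq]
  have h1 := tlsι hC1 hMV hH1 sg (tup k N) (fun ν => ν) (cB N S) 1
    (fun ν hν i => ⟨(mem_tup.1 hν i).1, le_trans (by exact_mod_cast (mem_tup.1 hν i).2) hNH⟩)
    (fun ν _ => by
      refine Finset.card_le_one.2 fun a ha b hb => ?_
      rw [(Finset.mem_filter.1 ha).2, (Finset.mem_filter.1 hb).2])
  refine h1.trans (ENNReal.ofReal_le_ofReal ?_)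
  have hc : Fintype.card (Fin k ⊕ Fin k) = 2 * k := by
    rw [Fintype.card_sum, Fintype.card_fin]; ring
  rw [hc, Nat.cast_one, one_mul]
  set X : ℕ := N ^ k with hX
  have hX1 : 1 ≤ X := Nat.one_le_pow _ _ hN
  have hX1r : (1:ℝ) ≤ X := by exact_mod_cast hX1
  have hX0 : (0:ℝ) < X := by linarith
  set M : ℝ := (C2 * (X : ℝ) ^ δ) ^ (2 * k) with hM
  have hM0 : 0 ≤ M := by positivity
  have h2 : ∑ ν ∈ tup k N, ‖cB N S ν‖ ^ 2 ≤ M * (S ^ 2 / N + 4 * S * (1 + Real.log X) ^ 2) := by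
    refine (Finset.sum_le_sum fun ν hν => cB_le hS hν).trans ?_
    have hmaps : ∀ ν ∈ tup k N, (pl ν, pr ν) ∈ Finset.Icc 1 X ×ˢ Finset.Icc 1 X := by
      intro ν hν
      rw [Finset.mem_product, Finset.mem_Icc, Finset.mem_Icc]
      exact ⟨⟨pl_pos hν, (prod_le_pow hν).1⟩, ⟨pr_pos hν, (prod_le_pow hν).2⟩⟩
    rw [← Finset.sum_fiberwise_of_maps_to hmaps]
    refine le_trans ?_ (mul_le_mul_of_nonneg_left (w_sum (X := X) hS hN) hM0)
    rw [Finset.mul_sum]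
    refine Finset.sum_le_sum fun p hp => ?_
    obtain ⟨hp1, hp2⟩ := Finset.mem_product.1 hp
    obtain ⟨ha, haX⟩ := Finset.mem_Icc.1 hp1
    obtain ⟨hb, hbX⟩ := Finset.mem_Icc.1 hp2
    have hwn : 0 ≤ wB N S p := by
      unfold wB
      split_ifs
      · exact le_rfl
      · positivity
      · positivity
    have e1 : ∑ ν ∈ (tup k N).filter (fun ν => (pl ν, pr ν) = p), wB N S (pl ν, pr ν) =
        (((tup k N).filter (fun ν => (pl ν, pr ν) = p)).card : ℝ) * wB N S p := by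
      rw [Finset.sum_congr rfl (g := fun _ => wB N S p)]
      · rw [Finset.sum_const, nsmul_eq_mul]
      · intro ν hν
        rw [(Finset.mem_filter.1 hν).2]
    rw [e1]
    refine mul_le_mul_of_nonneg_right ?_ hwn
    have h3 := fib2_card (k := k) N p.1 p.2 ha hb
    have h4 : (((tup k N).filter (fun ν => (pl ν, pr ν) = p)).card : ℝ) ≤
        (p.1.divisors.card : ℝ) ^ k * (p.2.divisors.card : ℝ) ^ k := by exact_mod_cast h3
    have h5 : ∀ a : ℕ, 1 ≤ a → a ≤ X → (a.divisors.card : ℝ) ^ k ≤ (C2 * (X : ℝ) ^ δ) ^ k := by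
      intro a h1 h2
      refine pow_le_pow_left₀ (by positivity) ((hdiv a h1).trans ?_) k
      have : (a : ℝ) ≤ X := by exact_mod_cast h2
      gcongr
    calc _ ≤ _ := h4
      _ ≤ (C2 * (X : ℝ) ^ δ) ^ k * (C2 * (X : ℝ) ^ δ) ^ k :=
          mul_le_mul (h5 _ ha haX) (h5 _ hb hbX) (by positivity) (by positivity)
      _ = M := by
          rw [hM, two_mul, pow_add]
  have hlogX : 1 + Real.log X ≤ (1 + 1 / δ) * (X : ℝ) ^ δ := by
    have h3 := Real.log_le_rpow_div hX0.le hδ0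
    have h4 := Real.one_le_rpow hX1r hδ0.le
    have e : (1 + 1 / δ) * (X : ℝ) ^ δ = (X : ℝ) ^ δ + (X : ℝ) ^ δ / δ := by ring
    rw [e]
    linarith
  have hlogX0 : 0 ≤ 1 + Real.log X := by
    have := Real.log_nonneg hX1r
    linarith
  have h6 : S ^ 2 / N + 4 * S * (1 + Real.log X) ^ 2 ≤
      4 * (1 + 1 / δ) ^ 2 * ((X : ℝ) ^ δ) ^ 2 * (S + S ^ 2 / N) := by
    have h7 : (1 + Real.log X) ^ 2 ≤ ((1 + 1 / δ) * (X : ℝ) ^ δ) ^ 2 :=
      pow_le_pow_left₀ hlogX0 hlogX 2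
    have h8 : 1 ≤ (1 + 1 / δ) ^ 2 * ((X : ℝ) ^ δ) ^ 2 := by
      have a1 : (1:ℝ) ≤ 1 + 1 / δ := by
        have : 0 < 1 / δ := by positivity
        linarith
      have a2 := Real.one_le_rpow hX1r hδ0.le
      have a3 : (1:ℝ) ≤ (1 + 1 / δ) ^ 2 := one_le_pow₀ a1
      have a4 : (1:ℝ) ≤ ((X : ℝ) ^ δ) ^ 2 := one_le_pow₀ a2
      nlinarith
    rw [mul_pow] at h7
    have h9 : 0 ≤ S ^ 2 / N := by positivity
    have h10 : 4 * S * (1 + Real.log X) ^ 2 ≤ 4 * S * ((1 + 1 / δ) ^ 2 * ((X : ℝ) ^ δ) ^ 2) := by gcongr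
    have h11 : S ^ 2 / N ≤ (4 * ((1 + 1 / δ) ^ 2 * ((X : ℝ) ^ δ) ^ 2)) * (S ^ 2 / N) := by
      nlinarith
    calc S ^ 2 / N + 4 * S * (1 + Real.log X) ^ 2
        ≤ (4 * ((1 + 1 / δ) ^ 2 * ((X : ℝ) ^ δ) ^ 2)) * (S ^ 2 / N) +
          4 * S * ((1 + 1 / δ) ^ 2 * ((X : ℝ) ^ δ) ^ 2) := add_le_add h11 h10
      _ = _ := by ring
  have hNp : ((X : ℝ) ^ δ) ^ (2 * k) * ((X : ℝ) ^ δ) ^ 2 ≤ H ^ ε := by
    rw [← pow_add, ← Real.rpow_natCast ((X:ℝ) ^ δ), ← Real.rpow_mul hX0.le, hX]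
    push_cast
    rw [← Real.rpow_natCast (N:ℝ), ← Real.rpow_mul (by linarith)]
    calc (N : ℝ) ^ ((k : ℝ) * (δ * (2 * k + 2))) ≤ (N : ℝ) ^ ε := by
          refine Real.rpow_le_rpow_of_exponent_le hN1 ?_
          rw [hδ]
          have hk0 : (0:ℝ) ≤ k := by positivity
          rw [div_mul_eq_mul_div, mul_div_assoc', div_le_iff₀ (by positivity)]
          nlinarith [mul_nonneg hε.le hk0, mul_nonneg hε.le (mul_nonneg hk0 hk0)]
      _ ≤ H ^ ε := Real.rpow_le_rpow (by positivity) hNH hε.le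
  have hSS : 0 ≤ S + S ^ 2 / N := by positivity
  calc (2 * C1 * H) ^ (2 * k) * ∑ ν ∈ tup k N, ‖cB N S ν‖ ^ 2
      ≤ (2 * C1 * H) ^ (2 * k) * (M * (4 * (1 + 1 / δ) ^ 2 * ((X : ℝ) ^ δ) ^ 2 * (S + S ^ 2 / N))) := by
        refine mul_le_mul_of_nonneg_left (h2.trans ?_) (by positivity)
        gcongr
    _ = K * H ^ (2 * k) * (((X : ℝ) ^ δ) ^ (2 * k) * ((X : ℝ) ^ δ) ^ 2) * (S + S ^ 2 / N) := by
        rw [hM, hK, mul_pow, mul_pow C2]
        ring
    _ ≤ K * H ^ (2 * k) * H ^ ε * (S + S ^ 2 / N) := by gcongr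
    _ ≤ (1 + K) * H ^ (2 * k) * H ^ ε * (S + S ^ 2 / N) := by
        gcongr
        linarith

end

end Pool.Agent.Y752.SR
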