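import Pool.Agent.Y752.SR.H2

set_option autoImplicit false

/-! Products of one-variable characters over the edges. -/

namespace Pool.Agent.Y752.SR

open MeasureTheory Set Filter Complex
open Pool.Agent.TH612.GS (mP)
open Pool.Agent.TH612.CF (pw pw_apply pw_mult)

noncomputable section

variable {k : ℕ}

/-- the exponent of an edge -/
def lx (γ : Fin k ⊕ Fin k → ℝ) (e : Fin k × Fin k) : ℂ :=
  -(I * ((γ (Sum.inl e.1) : ℂ) - γ (Sum.inr e.2)))

/-- the product of the one-variable characters -/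
def XX (s : Finset (Fin k × Fin k)) (γ : Fin k ⊕ Fin k → ℝ) : ArithmeticFunction ℂ :=
  ∏ e ∈ s, pw (lx γ e)

/-- tuples indexed by the edges -/
def TT (s : Finset (Fin k × Fin k)) (W : ℕ) : Finset (Fin k × Fin k → ℕ) :=
  Fintype.piFinset fun e => if e ∈ s then Finset.Icc 1 W else {1}

lemma mem_TT {s : Finset (Fin k × Fin k)} {W : ℕ} {ν : Fin k × Fin k → ℕ} :
    ν ∈ TT s W ↔ (∀ e ∈ s, 1 ≤ ν e ∧ ν e ≤ W) ∧ ∀ e, e ∉ s → ν e = 1 := by
  unfold TT
  rw [Fintype.mem_piFinset]
  constructor
  · intro h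
    refine ⟨fun e he => ?_, fun e he => ?_⟩
    · have := h e
      rw [if_pos he] at this
      exact Finset.mem_Icc.1 this
    · have := h e
      rw [if_neg he] at this
      exact Finset.mem_singleton.1 this
  · intro h e
    split_ifs with he
    · exact Finset.mem_Icc.2 (h.1 e he)
    · exact Finset.mem_singleton.2 (h.2 e he)

lemma TT_pos {s : Finset (Fin k × Fin k)} {W : ℕ} {ν : Fin k × Fin k → ℕ} (h : ν ∈ TT s W)
    (e : Fin k × Fin k) : 1 ≤ ν e := by
  rw [mem_TT] at h
  by_cases he : e ∈ s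
  · exact (h.1 e he).1
  · rw [h.2 e he]

lemma prod_upd {M : Type*} [CommMonoid M] (F : Fin k × Fin k → ℕ → M) (ν : Fin k × Fin k → ℕ)
    (a : Fin k × Fin k) (b : ℕ) (h : F a (ν a) = 1) :
    ∏ e, F e (Function.update ν a b e) = F a b * ∏ e, F e (ν e) := by
  rw [← Finset.mul_prod_erase Finset.univ _ (Finset.mem_univ a),
    ← Finset.mul_prod_erase Finset.univ (fun e => F e (ν e)) (Finset.mem_univ a),
    Function.update_self, h, one_mul]
  congr 1
  refine Finset.prod_congr rfl fun e he => ?_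
  rw [Function.update_of_ne (Finset.ne_of_mem_erase he)]

theorem XX_expand (γ : Fin k ⊕ Fin k → ℝ) (W : ℕ) (s : Finset (Fin k × Fin k)) :
    ∀ m : ℕ, 1 ≤ m → m ≤ W → XX s γ m =
      ∑ ν ∈ (TT s W).filter (fun ν => ∏ e, ν e = m), ∏ e, (ν e : ℂ) ^ (lx γ e) := by
  induction s using Finset.induction_on with
  | empty =>
    intro m hm hmW
    have h1 : TT (∅ : Finset (Fin k × Fin k)) W = {fun _ => 1} := by
      ext ν
      rw [mem_TT, Finset.mem_singleton]
      constructor
      · intro h
        funext e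
        exact h.2 e (by simp)
      · rintro rfl
        simp
    unfold XX
    rw [Finset.prod_empty, h1, Finset.sum_filter, Finset.sum_singleton, ArithmeticFunction.one_apply]
    simp only [Finset.prod_const_one, Nat.cast_one, Complex.one_cpow]
    by_cases h : m = 1
    · rw [if_pos h, if_pos h.symm]
    · rw [if_neg h, if_neg (fun h' => h h'.symm)]
  | insert a s ha ih =>
    intro m hm hmW
    have e0 : XX (insert a s) γ = pw (lx γ a) * XX s γ := by
      unfold XX
      rw [Finset.prod_insert ha]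
    rw [e0, ArithmeticFunction.mul_apply]
    have e1 : ∀ p ∈ m.divisorsAntidiagonal, pw (lx γ a) p.1 * XX s γ p.2 =
        ∑ ν ∈ (TT s W).filter (fun ν => ∏ e, ν e = p.2),
          (p.1 : ℂ) ^ (lx γ a) * ∏ e, (ν e : ℂ) ^ (lx γ e) := by
      intro p hp
      obtain ⟨h1, h2⟩ := Nat.mem_divisorsAntidiagonal.1 hp
      have hp1 : p.1 ≠ 0 := by rintro h; rw [h, zero_mul] at h1; exact h2 h1.symm
      have hp2 : p.2 ≠ 0 := by rintro h; rw [h, mul_zero] at h1; exact h2 h1.symm
      have hle : p.2 ≤ m := by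
        rw [← h1]
        exact Nat.le_mul_of_pos_left _ (Nat.pos_of_ne_zero hp1)
      rw [pw_apply _ hp1, ih p.2 (Nat.one_le_iff_ne_zero.2 hp2) (hle.trans hmW), Finset.mul_sum]
    rw [Finset.sum_congr rfl e1, Finset.sum_sigma']
    refine Finset.sum_bij' (fun x _ => Function.update x.2 a x.1.1)
      (fun ν _ => ⟨(ν a, ∏ e, Function.update ν a 1 e), Function.update ν a 1⟩) ?_ ?_ ?_ ?_ ?_
    · rintro ⟨⟨u, w⟩, ν⟩ hx
      simp only [Finset.mem_sigma, Finset.mem_filter, Nat.mem_divisorsAntidiagonal] at hx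
      obtain ⟨⟨h1, h2⟩, h3, h4⟩ := hx
      rw [mem_TT] at h3
      have hu : u ≠ 0 := by rintro h; rw [h, zero_mul] at h1; exact h2 h1.symm
      have hw : w ≠ 0 := by rintro h; rw [h, mul_zero] at h1; exact h2 h1.symm
      have hle : u ≤ m := by
        rw [← h1]
        exact Nat.le_mul_of_pos_right _ (Nat.pos_of_ne_zero hw)
      simp only [Finset.mem_filter, mem_TT]
      refine ⟨⟨fun e he => ?_, fun e he => ?_⟩, ?_⟩
      · by_cases hea : e = a
        · rw [hea, Function.update_self]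
          exact ⟨Nat.one_le_iff_ne_zero.2 hu, hle.trans hmW⟩
        · rw [Function.update_of_ne hea]
          exact h3.1 e (Finset.mem_of_mem_insert_of_ne he hea)
      · have hea : e ≠ a := by rintro rfl; exact he (Finset.mem_insert_self _ _)
        rw [Function.update_of_ne hea]
        exact h3.2 e fun h => he (Finset.mem_insert_of_mem h)
      · have h5 := prod_upd (fun _ n => n) ν a u (h3.2 a ha)
        rw [h5, h4, h1]
    · intro ν hν
      simp only [Finset.mem_filter, mem_TT] at hν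
      obtain ⟨⟨h1, h2⟩, h3⟩ := hν
      have h5 := prod_upd (fun _ n => n) (Function.update ν a 1) a (ν a) (Function.update_self _ _ _)
      simp only [Function.update_idem, Function.update_eq_self] at h5
      simp only [Finset.mem_sigma, Finset.mem_filter, Nat.mem_divisorsAntidiagonal, mem_TT]
      refine ⟨⟨by rw [← h5, h3], by omega⟩, ⟨fun e he => ?_, fun e he => ?_⟩, trivial⟩
      · have hea : e ≠ a := by rintro rfl; exact ha he
        rw [Function.update_of_ne hea]
        exact h1 e (Finset.mem_insert_of_mem he)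
      · by_cases hea : e = a
        · rw [hea, Function.update_self]
        · rw [Function.update_of_ne hea]
          exact h2 e fun h => he (Finset.mem_of_mem_insert_of_ne h hea)
    · rintro ⟨⟨u, w⟩, ν⟩ hx
      simp only [Finset.mem_sigma, Finset.mem_filter, Nat.mem_divisorsAntidiagonal] at hx
      obtain ⟨⟨h1, h2⟩, h3, h4⟩ := hx
      rw [mem_TT] at h3
      have h6 : Function.update ν a 1 = ν := by
        conv_rhs => rw [← Function.update_eq_self a ν]
        rw [h3.2 a ha]
      simp only [Function.update_self, Function.update_idem]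
      rw [h6, h4]
    · intro ν hν
      simp only [Function.update_idem, Function.update_eq_self]
    · rintro ⟨⟨u, w⟩, ν⟩ hx
      simp only [Finset.mem_sigma, Finset.mem_filter, Nat.mem_divisorsAntidiagonal] at hx
      obtain ⟨⟨h1, h2⟩, h3, h4⟩ := hx
      rw [mem_TT] at h3
      have h5 := prod_upd (fun e n => (n : ℂ) ^ (lx γ e)) ν a u (by
        rw [h3.2 a ha, Nat.cast_one, Complex.one_cpow])
      exact h5.symm

/-- the exponents of the variables -/
def fx (ν : Fin k × Fin k → ℕ) : Fin k ⊕ Fin k → ℕ :=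
  Sum.elim (fun j => ∏ l, ν (j, l)) (fun l => ∏ j, ν (j, l))

lemma chs_one (σ : Bool) (y : ℝ) : chs σ 1 y = 1 := by
  unfold chs
  cases σ <;> simp

lemma chs_prod {κ : Type} (σ : Bool) (s : Finset κ) (g : κ → ℕ) (y : ℝ) :
    ∏ l ∈ s, chs σ (g l) y = chs σ (∏ l ∈ s, g l) y := by
  classical
  induction s using Finset.induction_on with
  | empty => rw [Finset.prod_empty, Finset.prod_empty, chs_one]
  | insert a s ha ih => rw [Finset.prod_insert ha, Finset.prod_insert ha, chs_mul, ih]

lemma pow_lx (γ : Fin k ⊕ Fin k → ℝ) (e : Fin k × Fin k) {n : ℕ} (hn : 1 ≤ n) :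
    (n : ℂ) ^ (lx γ e) = chs true n (γ (Sum.inl e.1)) * chs false n (γ (Sum.inr e.2)) := by
  have hn0 : (n : ℂ) ≠ 0 := by exact_mod_cast (by omega : n ≠ 0)
  unfold lx chs
  simp only [if_true, Bool.false_eq_true, if_false]
  rw [← Complex.cpow_add _ _ hn0]
  congr 1
  ring

lemma prod_lx (γ : Fin k ⊕ Fin k → ℝ) {ν : Fin k × Fin k → ℕ} (h : ∀ e, 1 ≤ ν e) :
    ∏ e, (ν e : ℂ) ^ (lx γ e) = ∏ i, chs (sg i) (fx ν i) (γ i) := by
  rw [Finset.prod_congr rfl fun e _ => pow_lx γ e (h e), Finset.prod_mul_distrib, Fintype.prod_sum_type,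
    Fintype.prod_prod_type, Fintype.prod_prod_type]
  congr 1
  · refine Finset.prod_congr rfl fun j _ => ?_
    unfold sg fx
    simp only [Sum.elim_inl]
    exact chs_prod true Finset.univ (fun l => ν (j, l)) _
  · rw [Finset.prod_comm]
    refine Finset.prod_congr rfl fun j _ => ?_
    unfold sg fx
    simp only [Sum.elim_inr]
    exact chs_prod false Finset.univ (fun l => ν (l, j)) _

lemma fx_pos {ν : Fin k × Fin k → ℕ} (h : ∀ e, 1 ≤ ν e) (i : Fin k ⊕ Fin k) : 1 ≤ fx ν i := by
  cases i with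
  | inl j =>
    have h1 : 0 < ∏ l, ν (j, l) := Finset.prod_pos fun l _ => Nat.lt_of_succ_le (h (j, l))
    exact h1
  | inr j =>
    have h1 : 0 < ∏ l, ν (l, j) := Finset.prod_pos fun l _ => Nat.lt_of_succ_le (h (l, j))
    exact h1

lemma fx_dvd (ν : Fin k × Fin k → ℕ) (i : Fin k ⊕ Fin k) : fx ν i ∣ ∏ e, ν e := by
  rw [Fintype.prod_prod_type]
  cases i with
  | inl j =>
    exact Finset.dvd_prod_of_mem (fun j => ∏ l, ν (j, l)) (Finset.mem_univ j)
  | inr j =>
    rw [Finset.prod_comm]
    exact Finset.dvd_prod_of_mem (fun j => ∏ l, ν (l, j)) (Finset.mem_univ j)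

lemma dvd_fx (ν : Fin k × Fin k → ℕ) (e : Fin k × Fin k) : ν e ∣ fx ν (Sum.inl e.1) := by
  unfold fx
  simp only [Sum.elim_inl]
  exact Finset.dvd_prod_of_mem (fun l => ν (e.1, l)) (Finset.mem_univ e.2)

end

end Pool.Agent.Y752.SR
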