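import Pool.Agent.Y752.SR.K1

set_option autoImplicit false

/-! Hyperbolic sums and the first excess. -/

namespace Pool.Agent.Y752.SR

open MeasureTheory Set Filter Complex
open Pool.Agent.TH612.GS (mP)
open Pool.Agent.TH612.CF (pw pw_apply pw_mult)

noncomputable section

variable {k : ℕ}

lemma dbl_sum {W N : ℕ} (hWN : W ≤ N) (F : ℕ → ℕ → ℂ) :
    ∑ M ∈ Finset.Icc 1 W, ∑ p ∈ M.divisorsAntidiagonal, F p.1 p.2 =
      ∑ m ∈ Finset.Icc 1 W, ∑ n ∈ Finset.Icc 1 N, if m * n ≤ W then F n m else 0 := by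
  have e1 : ∑ m ∈ Finset.Icc 1 W, ∑ n ∈ Finset.Icc 1 N, (if m * n ≤ W then F n m else 0) =
      ∑ x ∈ (Finset.Icc 1 W ×ˢ Finset.Icc 1 N).filter (fun x => x.1 * x.2 ≤ W), F x.2 x.1 := by
    rw [Finset.sum_filter, Finset.sum_product]
  rw [e1, Finset.sum_sigma']
  refine Finset.sum_bij' (fun x _ => (x.2.2, x.2.1)) (fun x _ => ⟨x.1 * x.2, (x.2, x.1)⟩) ?_ ?_ ?_ ?_ ?_
  · rintro ⟨M, u, w⟩ hx
    simp only [Finset.mem_sigma, Finset.mem_Icc, Nat.mem_divisorsAntidiagonal] at hx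
    obtain ⟨⟨h1, h2⟩, h3, h4⟩ := hx
    have hu : u ≠ 0 := by rintro rfl; omega
    have hw : w ≠ 0 := by rintro rfl; omega
    have hu1 : u ≤ M := by rw [← h3]; exact Nat.le_mul_of_pos_right _ (Nat.pos_of_ne_zero hw)
    have hw1 : w ≤ M := by rw [← h3]; exact Nat.le_mul_of_pos_left _ (Nat.pos_of_ne_zero hu)
    simp only [Finset.mem_filter, Finset.mem_product, Finset.mem_Icc]
    refine ⟨⟨⟨by omega, by omega⟩, by omega, by omega⟩, ?_⟩
    rw [mul_comm, h3]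
    exact h2
  · rintro ⟨m, n⟩ hx
    simp only [Finset.mem_filter, Finset.mem_product, Finset.mem_Icc] at hx
    obtain ⟨⟨h1, h2⟩, h3⟩ := hx
    have h4 : 0 < m * n := Nat.mul_pos (by omega) (by omega)
    simp only [Finset.mem_sigma, Finset.mem_Icc, Nat.mem_divisorsAntidiagonal]
    exact ⟨⟨h4, h3⟩, mul_comm _ _, h4.ne'⟩
  · rintro ⟨M, u, w⟩ hx
    simp only [Finset.mem_sigma, Finset.mem_Icc, Nat.mem_divisorsAntidiagonal] at hx
    obtain ⟨⟨h1, h2⟩, h3, h4⟩ := hx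
    simp only
    rw [mul_comm w u, h3]
  · rintro ⟨m, n⟩ _
    rfl
  · rintro ⟨M, u, w⟩ _
    rfl

/-- one factor -/
def QQ (N : ℕ) (γ : Fin k ⊕ Fin k → ℝ) (e : Fin k × Fin k) : ℂ :=
  ∑ n ∈ Finset.Icc 1 N, (n : ℂ)⁻¹ * pw (lx γ e) n

/-- the hyperbolic sum -/
def PP (s : Finset (Fin k × Fin k)) (W : ℕ) (γ : Fin k ⊕ Fin k → ℝ) : ℂ :=
  ∑ m ∈ Finset.Icc 1 W, (m : ℂ)⁻¹ * XX s γ m

/-- the first excess -/
def AA (s : Finset (Fin k × Fin k)) (a : Fin k × Fin k) (W N : ℕ) (γ : Fin k ⊕ Fin k → ℝ) : ℂ :=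
  ∑ m ∈ Finset.Icc 1 W, ∑ n ∈ Finset.Icc 1 N,
    if W < m * n then (m : ℂ)⁻¹ * (n : ℂ)⁻¹ * (pw (lx γ a) n * XX s γ m) else 0

/-- the remainder -/
def RR (s : Finset (Fin k × Fin k)) (W N : ℕ) (γ : Fin k ⊕ Fin k → ℝ) : ℂ :=
  (∏ e ∈ s, QQ N γ e) - PP s W γ

lemma split_A {s : Finset (Fin k × Fin k)} {a : Fin k × Fin k} (ha : a ∉ s) {W N : ℕ} (hWN : W ≤ N)
    (γ : Fin k ⊕ Fin k → ℝ) : QQ N γ a * PP s W γ = PP (insert a s) W γ + AA s a W N γ := by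
  have e0 : XX (insert a s) γ = pw (lx γ a) * XX s γ := by
    unfold XX
    rw [Finset.prod_insert ha]
  have e1 : PP (insert a s) W γ = ∑ m ∈ Finset.Icc 1 W, ∑ n ∈ Finset.Icc 1 N,
      if m * n ≤ W then (m : ℂ)⁻¹ * (n : ℂ)⁻¹ * (pw (lx γ a) n * XX s γ m) else 0 := by
    rw [← dbl_sum hWN (fun n m => (m : ℂ)⁻¹ * (n : ℂ)⁻¹ * (pw (lx γ a) n * XX s γ m))]
    unfold PP
    refine Finset.sum_congr rfl fun M _ => ?_
    rw [e0, ArithmeticFunction.mul_apply, Finset.mul_sum]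
    refine Finset.sum_congr rfl fun p hp => ?_
    obtain ⟨h1, _⟩ := Nat.mem_divisorsAntidiagonal.1 hp
    rw [← h1]
    push_cast
    rw [mul_inv]
    ring
  rw [e1]
  unfold QQ PP AA
  rw [← Finset.sum_add_distrib, Finset.sum_mul_sum, Finset.sum_comm]
  refine Finset.sum_congr rfl fun m _ => ?_
  rw [← Finset.sum_add_distrib]
  refine Finset.sum_congr rfl fun n _ => ?_
  by_cases h : m * n ≤ W
  · rw [if_pos h, if_neg (by omega)]
    ring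
  · rw [if_neg h, if_pos (by omega)]
    ring

lemma RR_insert {s : Finset (Fin k × Fin k)} {a : Fin k × Fin k} (ha : a ∉ s) {W N : ℕ} (hWN : W ≤ N)
    (γ : Fin k ⊕ Fin k → ℝ) : RR (insert a s) W N γ = QQ N γ a * RR s W N γ + AA s a W N γ := by
  have h := split_A ha hWN γ
  unfold RR
  rw [Finset.prod_insert ha]
  linear_combination h

lemma RR_empty {W : ℕ} (hW : 1 ≤ W) (N : ℕ) (γ : Fin k ⊕ Fin k → ℝ) : RR ∅ W N γ = 0 := by
  unfold RR PP XX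
  rw [Finset.prod_empty, Finset.prod_empty]
  have : ∑ m ∈ Finset.Icc 1 W, (m : ℂ)⁻¹ * (1 : ArithmeticFunction ℂ) m = 1 := by
    rw [Finset.sum_eq_single 1]
    · simp
    · intro m _ hm
      rw [ArithmeticFunction.one_apply, if_neg hm, mul_zero]
    · intro h
      exact absurd (Finset.mem_Icc.2 ⟨le_rfl, hW⟩) h
  rw [this, sub_self]

/-- the index set -/
def SI (s : Finset (Fin k × Fin k)) (W N : ℕ) : Finset ((Fin k × Fin k → ℕ) × ℕ) :=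
  (TT s W ×ˢ Finset.Icc 1 N).filter fun q => ∏ e, q.1 e ≤ W ∧ W < (∏ e, q.1 e) * q.2

/-- the coefficients -/
def cI (q : (Fin k × Fin k → ℕ) × ℕ) : ℂ := ((∏ e, q.1 e : ℕ) : ℂ)⁻¹ * (q.2 : ℂ)⁻¹

lemma AA_expand (s : Finset (Fin k × Fin k)) (a : Fin k × Fin k) (W N : ℕ) (γ : Fin k ⊕ Fin k → ℝ) :
    AA s a W N γ = ∑ q ∈ SI s W N, cI q * ((∏ i, chs (sg i) (fx q.1 i) (γ i)) *
      (chs (sg (Sum.inl a.1 : Fin k ⊕ Fin k)) q.2 (γ (Sum.inl a.1)) * chs false q.2 (γ (Sum.inr a.2)))) := by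
  have e1 : ∀ m ∈ Finset.Icc 1 W, ∀ n ∈ Finset.Icc 1 N,
      (if W < m * n then (m : ℂ)⁻¹ * (n : ℂ)⁻¹ * (pw (lx γ a) n * XX s γ m) else 0) =
      ∑ ν ∈ TT s W, if ∏ e, ν e = m then (if W < m * n then (m : ℂ)⁻¹ * (n : ℂ)⁻¹ *
        ((∏ i, chs (sg i) (fx ν i) (γ i)) *
      (chs (sg (Sum.inl a.1 : Fin k ⊕ Fin k)) n (γ (Sum.inl a.1)) * chs false n (γ (Sum.inr a.2)))) else 0) else 0 := by
    intro m hm n hn
    rw [Finset.mem_Icc] at hm hn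
    by_cases h : W < m * n
    · simp only [if_pos h]
      rw [← Finset.sum_filter, XX_expand γ W s m hm.1 hm.2, pw_apply _ (by omega : n ≠ 0), pow_lx γ a hn.1,
        Finset.mul_sum, Finset.mul_sum]
      refine Finset.sum_congr rfl fun ν hν => ?_
      rw [prod_lx γ (TT_pos (Finset.mem_filter.1 hν).1)]
      unfold sg
      simp only [Sum.elim_inl]
      ring
    · simp only [if_neg h, ite_self, Finset.sum_const_zero]
  have e2 : AA s a W N γ = ∑ ν ∈ TT s W, ∑ n ∈ Finset.Icc 1 N, ∑ m ∈ Finset.Icc 1 W,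
      (if ∏ e, ν e = m then (if W < m * n then (m : ℂ)⁻¹ * (n : ℂ)⁻¹ *
        ((∏ i, chs (sg i) (fx ν i) (γ i)) *
      (chs (sg (Sum.inl a.1 : Fin k ⊕ Fin k)) n (γ (Sum.inl a.1)) * chs false n (γ (Sum.inr a.2)))) else 0) else 0) := by
    unfold AA
    rw [Finset.sum_congr rfl fun m hm => Finset.sum_congr rfl fun n hn => e1 m hm n hn, Finset.sum_comm]
    rw [Finset.sum_congr rfl fun n _ => Finset.sum_comm]
    rw [Finset.sum_comm]
  rw [e2]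
  unfold SI
  rw [Finset.sum_filter, Finset.sum_product]
  refine Finset.sum_congr rfl fun ν hν => Finset.sum_congr rfl fun n _ => ?_
  rw [Finset.sum_ite_eq]
  have hp : 1 ≤ ∏ e, ν e := by
    have : 0 < ∏ e, ν e := Finset.prod_pos fun e _ => Nat.lt_of_succ_le (TT_pos hν e)
    exact this
  by_cases h1 : ∏ e, ν e ≤ W
  · rw [if_pos (Finset.mem_Icc.2 ⟨hp, h1⟩)]
    by_cases h2 : W < (∏ e, ν e) * n
    · rw [if_pos h2, if_pos ⟨h1, h2⟩]
      rfl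
    · rw [if_neg h2, if_neg (fun h => h2 h.2)]
  · rw [if_neg (fun h => h1 (Finset.mem_Icc.1 h).2), if_neg (fun h => h1 h.1)]

end

end Pool.Agent.Y752.SR
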