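import Pool.Agent.Y752.SR.K2

set_option autoImplicit false

/-! Mean squares of the first excess. -/

namespace Pool.Agent.Y752.SR

open MeasureTheory Set Filter Complex
open Pool.Agent.TH612.GS (mP)
open Pool.Agent.TH612.CF (pw pw_apply pw_mult)
open Pool.Agent.TH521.GS (mor)

noncomputable section

variable {k : ℕ}

/-- the largest number of divisors -/
def EE (N : ℕ) : ℕ := (Finset.Icc 1 (N * N)).sup fun M => M.divisors.card

lemma EE_le {ε : ℝ} (hε : 0 < ε) : ∃ C : ℝ, 1 ≤ C ∧ ∀ N : ℕ, 1 ≤ N → (EE N : ℝ) ≤ C * (N : ℝ) ^ ε := by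
  obtain ⟨C, hC0, hC⟩ := Pool.Agent.H510R2.divisor_bound (ε / 2) (by positivity)
  refine ⟨max C 1, le_max_right _ _, fun N hN => ?_⟩
  have hN0 : (0:ℝ) ≤ N := by positivity
  have hne : (Finset.Icc 1 (N * N)).Nonempty := ⟨1, Finset.mem_Icc.2 ⟨le_rfl, Nat.mul_pos hN hN⟩⟩
  obtain ⟨M, hM, he⟩ := Finset.exists_mem_eq_sup _ hne fun M : ℕ => M.divisors.card
  have hM' := Finset.mem_Icc.1 hM
  have e1 : (EE N : ℝ) = M.divisors.card := by
    unfold EE
    rw [he]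
  rw [e1]
  refine (hC M hM'.1).trans ?_
  have h1 : (M : ℝ) ^ (ε / 2) ≤ (N : ℝ) ^ ε := by
    calc (M : ℝ) ^ (ε / 2) ≤ ((N : ℝ) * N) ^ (ε / 2) := by
          refine Real.rpow_le_rpow (by positivity) ?_ (by positivity)
          exact_mod_cast hM'.2
      _ = (N : ℝ) ^ ε := by
          rw [← pow_two, ← Real.rpow_natCast, ← Real.rpow_mul hN0]
          congr 1
          push_cast
          ring
  have h2 : 0 ≤ (M : ℝ) ^ (ε / 2) := by positivity
  have h3 : C ≤ max C 1 := le_max_left _ _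
  have h4 : 0 ≤ max C 1 := by positivity
  exact mul_le_mul h3 h1 h2 h4

lemma tt_sum (s : Finset (Fin k × Fin k)) {W N : ℕ} (hW : 1 ≤ W) (hWN : W ≤ N) :
    ∑ ν ∈ TT s W, ∏ e, ((ν e : ℕ) : ℝ)⁻¹ ≤ (1 + Real.log N) ^ (k * k) := by
  have e1 : ∑ ν ∈ TT s W, ∏ e, ((ν e : ℕ) : ℝ)⁻¹ =
      ∏ e : Fin k × Fin k, ∑ x ∈ (if e ∈ s then Finset.Icc 1 W else {1}), ((x : ℕ) : ℝ)⁻¹ := by
    unfold TT
    rw [Finset.prod_univ_sum]
  rw [e1]
  have hN1 : (1:ℝ) ≤ N := by exact_mod_cast hW.trans hWN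
  have hlN : 0 ≤ Real.log N := Real.log_nonneg hN1
  have e2 : ∏ e : Fin k × Fin k, (1 + Real.log N) = (1 + Real.log N) ^ (k * k) := by
    simp
  rw [← e2]
  refine Finset.prod_le_prod (fun e _ => Finset.sum_nonneg fun x _ => by positivity) fun e _ => ?_
  split_ifs
  · refine (sum_inv_le W).trans ?_
    have : Real.log W ≤ Real.log N := Real.log_le_log (by exact_mod_cast hW) (by exact_mod_cast hWN)
    linarith
  · rw [Finset.sum_singleton]
    simp only [Nat.cast_one, inv_one]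
    linarith

theorem AA_ms {C1 : ℝ} (hC1 : 0 < C1) (hMV : ∀ (T : ℝ) (X : ℕ) (a : ℕ → ℂ), 1 ≤ T → (X : ℝ) ≤ T ^ 2 →
      ∫ u in (0:ℝ)..(2 * T), ‖∑ n ∈ Finset.Icc 1 X, a n * (n : ℂ) ^ (-(I * u))‖ ^ 2 ≤
        C1 * ∑ n ∈ Finset.Icc 1 X, (T + n) * ‖a n‖ ^ 2)
    {H : ℝ} (hH : 1 ≤ H) (s : Finset (Fin k × Fin k)) (a : Fin k × Fin k) {W N : ℕ} (hW : 1 ≤ W)
    (hWN : W ≤ N) (hN : (N : ℝ) ≤ H) :
    ∫⁻ γ, ENNReal.ofReal (‖AA s a W N γ‖ ^ 2) ∂(mP (Fin k ⊕ Fin k) H) ≤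
      ENNReal.ofReal ((2 * C1 * H) ^ (2 * k - 1) * (EE N : ℝ) ^ (k * k) * EE N * C1 *
        ((H / W + 1) * (1 + Real.log N) ^ (k * k + 1))) := by
  classical
  have hH0 : 0 < H := by linarith
  have hW0 : (0:ℝ) < W := by exact_mod_cast hW
  have hN1 : (1:ℝ) ≤ N := by exact_mod_cast hW.trans hWN
  have hlN : 0 ≤ Real.log N := Real.log_nonneg hN1
  have hmem : ∀ q ∈ SI s W N, q.1 ∈ TT s W ∧ (1 ≤ q.2 ∧ q.2 ≤ N) ∧ ∏ e, q.1 e ≤ W ∧
      W < (∏ e, q.1 e) * q.2 := by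
    intro q hq
    unfold SI at hq
    rw [Finset.mem_filter, Finset.mem_product, Finset.mem_Icc] at hq
    exact ⟨hq.1.1, hq.1.2, hq.2⟩
  have hpp : ∀ q ∈ SI s W N, 1 ≤ ∏ e, q.1 e := by
    intro q hq
    have : 0 < ∏ e, q.1 e := Finset.prod_pos fun e _ => Nat.lt_of_succ_le (TT_pos (hmem q hq).1 e)
    exact this
  have hfW : ∀ q ∈ SI s W N, ∀ i, fx q.1 i ≤ ∏ e, q.1 e := fun q hq i =>
    Nat.le_of_dvd (hpp q hq) (fx_dvd q.1 i)
  have hne : (Sum.inr a.2 : Fin k ⊕ Fin k) ≠ Sum.inl a.1 := by simp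
  have h1 := mixι hC1 hMV hH hne (sg : Fin k ⊕ Fin k → Bool) false (SI s W N)
    (fun q => fx q.1) (fun q => q.2) cI (EE N ^ (k * k)) (EE N) (N * N)
    (by
      push_cast
      nlinarith)
    (fun q hq i => by
      refine ⟨fx_pos (TT_pos (hmem q hq).1) i, ?_⟩
      have h2 : fx q.1 i ≤ N := (hfW q hq i).trans ((hmem q hq).2.2.1.trans hWN)
      have h3 : (fx q.1 i : ℝ) ≤ N := by exact_mod_cast h2
      exact h3.trans hN)
    (fun q hq => by
      refine ⟨(hmem q hq).2.1.1, ?_⟩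
      exact Nat.mul_le_mul ((hfW q hq _).trans ((hmem q hq).2.2.1.trans hWN)) (hmem q hq).2.1.2)
    (fun q hq => by
      have h2 : ((SI s W N).filter fun q' => q'.2 = q.2 ∧ fx q'.1 = fx q.1).card ≤
          (Fintype.piFinset fun _ : Fin k × Fin k => (∏ e, q.1 e).divisors).card := by
        refine Finset.card_le_card_of_injOn (fun q' => q'.1) ?_ ?_
        · intro q' hq'
          rw [Finset.mem_coe, Finset.mem_filter] at hq'
          rw [Finset.mem_coe, Fintype.mem_piFinset]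
          intro e
          rw [Nat.mem_divisors]
          refine ⟨?_, by have := hpp q hq; omega⟩
          refine (dvd_fx q'.1 e).trans ?_
          rw [hq'.2.2]
          exact fx_dvd q.1 _
        · intro q' hq' q'' hq'' h
          rw [Finset.mem_coe, Finset.mem_filter] at hq' hq''
          exact Prod.ext h (hq'.2.1.trans hq''.2.1.symm)
      refine h2.trans ?_
      rw [Fintype.card_piFinset, Finset.prod_const, Finset.card_univ, Fintype.card_prod, Fintype.card_fin]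
      refine Nat.pow_le_pow_left ?_ _
      unfold EE
      refine Finset.le_sup (f := fun M : ℕ => M.divisors.card) (Finset.mem_Icc.2 ⟨hpp q hq, ?_⟩)
      have := (hmem q hq).2.2.1.trans hWN
      nlinarith [hW.trans hWN])
    (fun M hM => by
      unfold EE
      exact Finset.le_sup (f := fun M : ℕ => M.divisors.card) hM)
  have e0 : Fintype.card (Fin k ⊕ Fin k) - 1 = 2 * k - 1 := by
    simp
    omega
  rw [e0] at h1
  simp only [AA_expand]
  refine h1.trans (ENNReal.ofReal_le_ofReal ?_)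
  push_cast
  have h3 : ∀ q ∈ SI s W N, (H + (fx q.1 (Sum.inl a.1) : ℝ) * q.2) * ‖cI q‖ ^ 2 ≤
      (H / W + 1) * ((∏ e, ((q.1 e : ℕ) : ℝ)⁻¹) * (q.2 : ℝ)⁻¹) := by
    intro q hq
    obtain ⟨h4, ⟨h5, h6⟩, h7, h8⟩ := hmem q hq
    set p : ℕ := ∏ e, q.1 e with hp
    have hp1 : (1:ℝ) ≤ p := by exact_mod_cast hpp q hq
    have hq1 : (1:ℝ) ≤ q.2 := by exact_mod_cast h5
    have e1 : ∏ e, ((q.1 e : ℕ) : ℝ)⁻¹ = (p : ℝ)⁻¹ := by
      rw [hp, Finset.prod_inv_distrib]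
      push_cast
      rfl
    have e2 : ‖cI q‖ = (p : ℝ)⁻¹ * (q.2 : ℝ)⁻¹ := by
      unfold cI
      rw [norm_mul, norm_inv, norm_inv, Complex.norm_natCast, Complex.norm_natCast]
    rw [e1, e2]
    have h9 : (fx q.1 (Sum.inl a.1) : ℝ) ≤ p := by exact_mod_cast hfW q hq _
    have h10 : (W : ℝ) ≤ p * q.2 := by
      have : (W : ℝ) < ((p * q.2 : ℕ) : ℝ) := by exact_mod_cast h8
      push_cast at this
      exact this.le
    set x : ℝ := (p : ℝ)⁻¹ * (q.2 : ℝ)⁻¹ with hx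
    have hx0 : 0 < x := by positivity
    have hx1 : x * ((p : ℝ) * q.2) = 1 := by rw [hx]; field_simp
    have hxW : x ≤ 1 / W := by
      rw [le_div_iff₀ hW0]
      calc x * W ≤ x * (p * q.2) := by gcongr
        _ = 1 := hx1
    calc (H + (fx q.1 (Sum.inl a.1) : ℝ) * q.2) * x ^ 2 ≤ (H + p * q.2) * x ^ 2 := by gcongr
      _ = (H * x + x * (p * q.2)) * x := by ring
      _ = (H * x + 1) * x := by rw [hx1]
      _ ≤ (H * (1 / W) + 1) * x := by gcongr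
      _ = (H / W + 1) * x := by ring
  have h4 : ∑ q ∈ SI s W N, (H + (fx q.1 (Sum.inl a.1) : ℝ) * q.2) * ‖cI q‖ ^ 2 ≤
      (H / W + 1) * (1 + Real.log N) ^ (k * k + 1) := by
    refine (Finset.sum_le_sum h3).trans ?_
    rw [← Finset.mul_sum]
    refine mul_le_mul_of_nonneg_left ?_ (by positivity)
    have h5 : ∑ q ∈ SI s W N, (∏ e, ((q.1 e : ℕ) : ℝ)⁻¹) * (q.2 : ℝ)⁻¹ ≤
        ∑ q ∈ TT s W ×ˢ Finset.Icc 1 N, (∏ e, ((q.1 e : ℕ) : ℝ)⁻¹) * (q.2 : ℝ)⁻¹ := by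
      unfold SI
      refine Finset.sum_le_sum_of_subset_of_nonneg (Finset.filter_subset _ _) fun q _ _ => ?_
      exact mul_nonneg (Finset.prod_nonneg fun e _ => by positivity) (by positivity)
    refine h5.trans ?_
    rw [Finset.sum_product]
    have e6 : ∑ x ∈ TT s W, ∑ y ∈ Finset.Icc 1 N, (∏ e, ((x e : ℕ) : ℝ)⁻¹) * (y : ℝ)⁻¹ =
        (∑ x ∈ TT s W, ∏ e, ((x e : ℕ) : ℝ)⁻¹) * ∑ y ∈ Finset.Icc 1 N, (y : ℝ)⁻¹ := by
      rw [Finset.sum_mul_sum]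
    refine (le_of_eq e6).trans ?_
    rw [pow_succ]
    refine mul_le_mul (tt_sum s hW hWN) (sum_inv_le N) (Finset.sum_nonneg fun _ _ => by positivity) (by positivity)
  have h5 : 0 ≤ (2 * C1 * H) ^ (2 * k - 1) * (EE N : ℝ) ^ (k * k) * EE N * C1 := by positivity
  exact mul_le_mul_of_nonneg_left h4 h5

end

end Pool.Agent.Y752.SR
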