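import Pool.Agent.Y752.SR.K5

set_option autoImplicit false

/-! The arithmetic factor as a Dirichlet series. -/

namespace Pool.Agent.Y752.SR

open MeasureTheory Set Filter Complex Topology
open Pool.Agent.TH612.GS (mP dr zN GM)
open Pool.Agent.TH612.CF (pw pw_apply pw_mult tauA tauA_apply tauA_mult tau_prime tau_le dg FH FH_cont zh_eq
  tau_shift dg_zero)
open Pool.Agent.W182.KO (tau)

noncomputable section

variable {k : ℕ}

lemma ps_LS (γ : Fin k ⊕ Fin k → ℝ) {s : ℂ} (hs : 1 / 2 < s.re) :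
    LSeriesSummable (fun n => ps γ n) s := by
  unfold LSeriesSummable
  refine Summable.of_norm_bounded (gg_sum (2 * k + k * k) hs) fun n => ?_
  rw [LSeries.norm_term_eq]
  split_ifs with h
  · exact mul_nonneg (gg_nonneg _ _) (by positivity)
  · rw [div_eq_mul_inv, ← Real.rpow_neg (by positivity)]
    exact mul_le_mul_of_nonneg_right (ps_le γ n) (by positivity)

lemma pw_LS {l : ℂ} (hl : l.re = 0) {s : ℂ} (hs : 1 < s.re) :
    LSeriesSummable (fun n => pw l n) s ∧ LSeries (fun n => pw l n) s = riemannZeta (s - l) := by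
  constructor
  · refine LSeriesSummable_of_bounded_of_one_lt_re (m := 1) (fun n hn => ?_) hs
    rw [pw_apply l hn, Complex.norm_natCast_cpow_of_pos (Nat.pos_of_ne_zero hn), hl, Real.rpow_zero]
  · have h1 : 1 < (s - l).re := by rw [sub_re, hl, sub_zero]; exact hs
    rw [zeta_eq_tsum_one_div_nat_cpow h1]
    unfold LSeries
    refine tsum_congr fun n => ?_
    rcases Nat.eq_zero_or_pos n with h | h
    · subst h
      have h2 : s - l ≠ 0 := by
        intro h3
        rw [h3, zero_re] at h1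
        linarith
      rw [LSeries.term_zero, Nat.cast_zero, Complex.zero_cpow h2, div_zero]
    · have hn0 : (n : ℂ) ≠ 0 := by exact_mod_cast h.ne'
      rw [LSeries.term_of_ne_zero h.ne', pw_apply l h.ne', Complex.cpow_sub _ _ hn0, one_div_div]

lemma XX_LS (s : Finset (Fin k × Fin k)) (γ : Fin k ⊕ Fin k → ℝ) {w : ℂ} (hw : 1 < w.re) :
    LSeriesSummable (fun n => XX s γ n) w ∧
      LSeries (fun n => XX s γ n) w = ∏ e ∈ s, riemannZeta (w - lx γ e) := by
  induction s using Finset.induction_on with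
  | empty =>
    have e : (fun n => XX (∅ : Finset (Fin k × Fin k)) γ n) = LSeries.delta := by
      unfold XX
      rw [Finset.prod_empty]
      exact ArithmeticFunction.one_eq_delta
    rw [e, LSeries_delta, Finset.prod_empty]
    refine ⟨?_, rfl⟩
    refine LSeriesSummable_of_bounded_of_one_lt_re (m := 1) (fun n hn => ?_) hw
    unfold LSeries.delta
    split_ifs <;> simp
  | insert a s ha ih =>
    have e0 : XX (insert a s) γ = pw (lx γ a) * XX s γ := by
      unfold XX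
      rw [Finset.prod_insert ha]
    obtain ⟨h1, h2⟩ := pw_LS (lx_re γ a) hw
    rw [e0, Finset.prod_insert ha]
    refine ⟨ArithmeticFunction.LSeriesSummable_mul h1 ih.1, ?_⟩
    rw [ArithmeticFunction.LSeries_mul' h1 ih.1, h2, ih.2]

lemma FH_ps_pos (γ : Fin k ⊕ Fin k → ℝ) {δ : ℝ} (hδ : 0 < δ) (hδ1 : δ ≤ 1 / 8) :
    FH (fun j => (γ (Sum.inl j) : ℂ) - I * δ) (fun j => (γ (Sum.inr j) : ℂ) + I * δ) =
      LSeries (fun n => ps γ n) (1 + 2 * δ) := by
  have hre : (1:ℝ) < (1 + 2 * (δ : ℂ)).re := by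
    simp
    exact hδ
  have h1 := zh_eq (a := fun j => (γ (Sum.inl j) : ℂ) - I * δ) (b := fun j => (γ (Sum.inr j) : ℂ) + I * δ)
    (c := 1 / 8) (by norm_num) (fun j => by
      constructor <;> simp [abs_of_pos hδ] <;> linarith) hδ (fun j => by simp)
  obtain ⟨h2, h3⟩ := XX_LS Finset.univ γ hre
  have h4 := ps_LS γ (s := 1 + 2 * (δ : ℂ)) (by linarith)
  have h5 := ArithmeticFunction.LSeries_mul' h2 h4
  rw [ps_mul, h3] at h5
  have e1 : ∑' n, dg (fun j => (γ (Sum.inl j) : ℂ) - I * δ) (fun j => (γ (Sum.inr j) : ℂ) + I * δ) n =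
      LSeries (fun n => DA γ n) (1 + 2 * δ) := by
    unfold LSeries
    refine tsum_congr fun n => ?_
    rcases Nat.eq_zero_or_pos n with h | h
    · subst h
      rw [dg_zero, LSeries.term_zero]
    · have hn0 : (n : ℂ) ≠ 0 := by exact_mod_cast h.ne'
      rw [LSeries.term_of_ne_zero h.ne', DA_apply]
      unfold dg
      have k1 : (fun j : Fin k => I * ((γ (Sum.inr j) : ℂ) + I * δ)) =
          fun j => I * (γ (Sum.inr j) : ℂ) + (-(δ : ℂ)) := by
        funext j
        linear_combination (δ : ℂ) * Complex.I_mul_I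
      have k2 : (fun j : Fin k => -(I * ((γ (Sum.inl j) : ℂ) - I * δ))) =
          fun j => -(I * (γ (Sum.inl j) : ℂ)) + (-(δ : ℂ)) := by
        funext j
        linear_combination (δ : ℂ) * Complex.I_mul_I
      rw [k1, k2, tau_shift, tau_shift]
      have k3 : (n : ℂ) ^ (1 + 2 * (δ : ℂ)) = n * ((n : ℂ) ^ (δ : ℂ) * (n : ℂ) ^ (δ : ℂ)) := by
        rw [← Complex.cpow_add _ _ hn0, Complex.cpow_add _ _ hn0, Complex.cpow_one]
        congr 2
        ring
      have k4 : (n : ℂ) ^ (-(δ : ℂ)) = ((n : ℂ) ^ (δ : ℂ))⁻¹ := Complex.cpow_neg _ _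
      have k5 : (n : ℂ) ^ (δ : ℂ) ≠ 0 := by
        rw [Complex.cpow_ne_zero_iff]
        exact Or.inl hn0
      rw [k3, k4]
      field_simp
  have e2 : ∏ j, ∏ l, riemannZeta (1 + I * ((γ (Sum.inl j) : ℂ) - I * δ) - I * ((γ (Sum.inr l) : ℂ) + I * δ)) =
      ∏ e : Fin k × Fin k, riemannZeta (1 + 2 * (δ : ℂ) - lx γ e) := by
    rw [Fintype.prod_prod_type]
    refine Finset.prod_congr rfl fun j _ => Finset.prod_congr rfl fun l _ => ?_
    congr 1
    unfold lx
    linear_combination (-2 * (δ : ℂ)) * Complex.I_mul_I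
  rw [e1, h5, e2, mul_comm] at h1
  have hne : ∏ e : Fin k × Fin k, riemannZeta (1 + 2 * (δ : ℂ) - lx γ e) ≠ 0 := by
    refine Finset.prod_ne_zero_iff.2 fun e _ => riemannZeta_ne_zero_of_one_lt_re ?_
    rw [sub_re, lx_re, sub_zero]
    exact hre
  exact mul_left_cancel₀ hne h1

theorem FH_ps (γ : Fin k ⊕ Fin k → ℝ) :
    FH (fun j => (γ (Sum.inl j) : ℂ)) (fun j => (γ (Sum.inr j) : ℂ)) = ∑' n : ℕ, ps γ n * (n : ℂ)⁻¹ := by
  have h1 : ContinuousOn (fun δ : ℝ => FH (fun j => (γ (Sum.inl j) : ℂ) - I * δ)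
      (fun j => (γ (Sum.inr j) : ℂ) + I * δ)) (Ioo (-(1 / 8)) (1 / 8)) := by
    refine FH_cont (c := 1 / 8) isOpen_Ioo (by norm_num) (fun j => by fun_prop) (fun j => by fun_prop) ?_
    intro δ hδ j
    have : |δ| ≤ 1 / 8 := abs_le.2 ⟨hδ.1.le, hδ.2.le⟩
    constructor <;> simp <;> linarith
  have h2 : ContinuousAt (fun δ : ℝ => LSeries (fun n => ps γ n) (1 + 2 * δ)) 0 := by
    have h3 : LSeries.abscissaOfAbsConv (fun n => ps γ n) < ((1 : ℂ).re : EReal) := by
      have h4 := (ps_LS γ (s := (3 / 4 : ℝ)) (by norm_num)).abscissaOfAbsConv_le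
      refine lt_of_le_of_lt h4 ?_
      rw [Complex.ofReal_re, Complex.one_re]
      exact_mod_cast (by norm_num : (3 / 4 : ℝ) < 1)
    have h5 : ContinuousAt (LSeries (fun n => ps γ n)) 1 := (LSeries_hasDerivAt h3).continuousAt
    have h6 : ContinuousAt (LSeries (fun n => ps γ n)) ((fun δ : ℝ => (1 : ℂ) + 2 * δ) 0) := by
      simpa using h5
    exact ContinuousAt.comp (f := fun δ : ℝ => (1 : ℂ) + 2 * δ) h6 (by fun_prop)
  have h3 : Tendsto (fun δ : ℝ => FH (fun j => (γ (Sum.inl j) : ℂ) - I * δ)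
      (fun j => (γ (Sum.inr j) : ℂ) + I * δ)) (𝓝[>] 0)
      (𝓝 (FH (fun j => (γ (Sum.inl j) : ℂ) - I * (0 : ℝ)) (fun j => (γ (Sum.inr j) : ℂ) + I * (0 : ℝ)))) :=
    ((h1.continuousAt (Ioo_mem_nhds (by norm_num) (by norm_num))).tendsto).mono_left nhdsWithin_le_nhds
  have h4 : Tendsto (fun δ : ℝ => LSeries (fun n => ps γ n) (1 + 2 * δ)) (𝓝[>] 0)
      (𝓝 (LSeries (fun n => ps γ n) (1 + 2 * (0 : ℝ)))) := h2.tendsto.mono_left nhdsWithin_le_nhds
  have h5 : (fun δ : ℝ => FH (fun j => (γ (Sum.inl j) : ℂ) - I * δ)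
      (fun j => (γ (Sum.inr j) : ℂ) + I * δ)) =ᶠ[𝓝[>] 0]
      fun δ : ℝ => LSeries (fun n => ps γ n) (1 + 2 * δ) := by
    filter_upwards [Ioc_mem_nhdsGT (show (0:ℝ) < 1 / 8 by norm_num)] with δ hδ
    exact FH_ps_pos γ hδ.1 hδ.2
  have h6 := tendsto_nhds_unique (h3.congr' h5) h4
  rw [Complex.ofReal_zero, mul_zero, mul_zero, add_zero] at h6
  simp only [sub_zero, add_zero] at h6
  rw [h6]
  unfold LSeries
  refine tsum_congr fun n => ?_
  rcases Nat.eq_zero_or_pos n with h | h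
  · subst h
    simp
  · rw [LSeries.term_of_ne_zero h.ne', Complex.cpow_one, div_eq_mul_inv]

end

end Pool.Agent.Y752.SR
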