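import Pool.Agent.Y752.SR.K6
import Pool.Agent.TH811.GS.One
import Pool.Agent.TH347.GS.A4

set_option autoImplicit false

/-! The sharp sum of the coefficients and the product of the partial sums. -/

namespace Pool.Agent.Y752.SR

open MeasureTheory Set Filter Complex Topology
open Pool.Agent.TH612.GS (mP dr zN GM)
open Pool.Agent.TH612.CF (pw pw_apply FH)
open Pool.Agent.TH521.GS (mor)

noncomputable section

variable {k : ℕ}

lemma zN_QQ (N : ℕ) (γ : Fin k ⊕ Fin k → ℝ) (e : Fin k × Fin k) :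
    zN N (1 + I * ((γ (Sum.inl e.1) : ℂ) - γ (Sum.inr e.2))) = QQ N γ e := by
  unfold zN QQ
  refine Finset.sum_congr rfl fun n hn => ?_
  have hn1 := (Finset.mem_Icc.1 hn).1
  have hn0 : (n : ℂ) ≠ 0 := by exact_mod_cast (by omega : n ≠ 0)
  rw [pw_apply _ (by omega : n ≠ 0), neg_add, Complex.cpow_add _ _ hn0, Complex.cpow_neg_one]
  rfl

lemma GM_eq (N : ℕ) (γ : Fin k ⊕ Fin k → ℝ) : GM N γ 0 =
    FH (fun j => (γ (Sum.inl j) : ℂ)) (fun j => (γ (Sum.inr j) : ℂ)) * ∏ e, QQ N γ e := by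
  unfold GM
  rw [Fintype.prod_prod_type]
  simp only [mul_zero, zero_div, sub_zero, add_zero]
  congr 1
  refine Finset.prod_congr rfl fun j _ => Finset.prod_congr rfl fun l _ => ?_
  exact zN_QQ N γ (j, l)

lemma AN_ps (N : ℕ) (γ : Fin k ⊕ Fin k → ℝ) : AN N γ =
    ∑ b ∈ Finset.Icc 1 N, (ps γ b * (b : ℂ)⁻¹) * PP Finset.univ (N / b) γ := by
  have e1 : AN N γ = ∑ M ∈ Finset.Icc 1 N, ∑ p ∈ M.divisorsAntidiagonal,
      (fun n m : ℕ => (ps γ m * (m : ℂ)⁻¹) * ((n : ℂ)⁻¹ * XX Finset.univ γ n)) p.1 p.2 := by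
    unfold AN
    refine Finset.sum_congr rfl fun M _ => ?_
    rw [dr_DA, ← ps_mul, ArithmeticFunction.mul_apply, Finset.sum_mul]
    refine Finset.sum_congr rfl fun p hp => ?_
    obtain ⟨h1, _⟩ := Nat.mem_divisorsAntidiagonal.1 hp
    simp only
    rw [← h1]
    push_cast
    rw [mul_inv]
    ring
  refine e1.trans ((dbl_sum le_rfl (fun n m : ℕ => (ps γ m * (m : ℂ)⁻¹) * ((n : ℂ)⁻¹ *
    XX Finset.univ γ n))).trans ?_)
  refine Finset.sum_congr rfl fun b hb => ?_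
  have hb1 := (Finset.mem_Icc.1 hb).1
  unfold PP
  rw [Finset.mul_sum, ← Finset.sum_filter]
  refine Finset.sum_congr ?_ fun _ _ => rfl
  ext n
  rw [Finset.mem_filter, Finset.mem_Icc, Finset.mem_Icc, Nat.le_div_iff_mul_le hb1]
  constructor
  · rintro ⟨⟨h1, h2⟩, h3⟩
    exact ⟨h1, by rw [mul_comm]; exact h3⟩
  · rintro ⟨h1, h2⟩
    refine ⟨⟨h1, ?_⟩, by rw [mul_comm]; exact h2⟩
    exact (Nat.le_mul_of_pos_right _ hb1).trans h2

/-- the total weight -/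
def GG' (A : ℕ) (σ : ℝ) : ℝ := ∑' b : ℕ, gg A b * (b : ℝ) ^ (-σ)

lemma GG'_nonneg (A : ℕ) (σ : ℝ) : 0 ≤ GG' A σ :=
  tsum_nonneg fun b => mul_nonneg (gg_nonneg _ _) (by positivity)

lemma gg_fin_le (A : ℕ) {σ : ℝ} (hσ : 1 / 2 < σ) (s : Finset ℕ) :
    ∑ b ∈ s, gg A b * (b : ℝ) ^ (-σ) ≤ GG' A σ :=
  (gg_sum A hσ).sum_le_tsum _ fun b _ => mul_nonneg (gg_nonneg _ _) (by positivity)

lemma ps_summable (γ : Fin k ⊕ Fin k → ℝ) : Summable fun n : ℕ => ps γ n * (n : ℂ)⁻¹ := by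
  refine Summable.of_norm_bounded (gg_sum (2 * k + k * k) (σ := 1) (by norm_num)) fun n => ?_
  rw [norm_mul, norm_inv, Complex.norm_natCast, Real.rpow_neg_one]
  exact mul_le_mul_of_nonneg_right (ps_le γ n) (by positivity)

lemma ps_tail (γ : Fin k ⊕ Fin k → ℝ) {N : ℕ} (hN : 1 ≤ N) {η : ℝ} (hη : 0 < η) (hη1 : η < 1 / 2) :
    ‖∑' n : ℕ, ps γ n * (n : ℂ)⁻¹ - ∑ b ∈ Finset.Icc 1 N, ps γ b * (b : ℂ)⁻¹‖ ≤
      GG' (2 * k + k * k) (1 / 2 + η) * (N : ℝ) ^ (-(1 / 2 - η)) := by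
  set A := 2 * k + k * k with hA
  have hN0 : (0:ℝ) < N := by exact_mod_cast hN
  have h1 := (ps_summable γ).sum_add_tsum_compl (s := Finset.Icc 1 N)
  rw [← h1, add_sub_cancel_left]
  have hs := gg_sum A (σ := 1 / 2 + η) (by linarith)
  have hs' := (hs.mul_right ((N : ℝ) ^ (-(1 / 2 - η)))).subtype ((Finset.Icc 1 N : Finset ℕ) : Set ℕ)ᶜ
  refine (tsum_of_norm_bounded hs'.hasSum fun b => ?_).trans ?_
  · obtain ⟨b, hb⟩ := b
    have hb' : b ∉ Finset.Icc 1 N := fun h => hb (Finset.mem_coe.2 h)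
    simp only [Function.comp]
    rcases Nat.eq_zero_or_pos b with h | h
    · subst h
      rw [ArithmeticFunction.map_zero, zero_mul, norm_zero]
      exact mul_nonneg (mul_nonneg (gg_nonneg _ _) (by positivity)) (by positivity)
    · have hNb : N < b := by
        by_contra hcon
        exact hb' (Finset.mem_Icc.2 ⟨h, by omega⟩)
      have hNb' : (N : ℝ) ≤ b := by exact_mod_cast hNb.le
      have hb0 : (0:ℝ) < b := by exact_mod_cast h
      rw [norm_mul, norm_inv, Complex.norm_natCast]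
      have h2 : (b : ℝ)⁻¹ = (b : ℝ) ^ (-(1 / 2 + η)) * (b : ℝ) ^ (-(1 / 2 - η)) := by
        rw [← Real.rpow_add hb0, ← Real.rpow_neg_one]
        congr 1
        ring
      have h3 : (b : ℝ) ^ (-(1 / 2 - η)) ≤ (N : ℝ) ^ (-(1 / 2 - η)) :=
        Real.rpow_le_rpow_of_nonpos hN0 hNb' (by linarith)
      rw [h2, ← mul_assoc]
      have h4 := ps_le γ b
      have h5 := gg_nonneg A b
      gcongr
  · have h6 := (hs.mul_right ((N : ℝ) ^ (-(1 / 2 - η)))).tsum_subtype_le _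
      ((Finset.Icc 1 N : Finset ℕ) : Set ℕ)ᶜ (fun b => mul_nonneg (mul_nonneg (gg_nonneg _ _) (by positivity)) (by positivity))
    refine le_trans h6 ?_
    rw [tsum_mul_right]
    exact le_rfl

lemma diff_id (N : ℕ) (γ : Fin k ⊕ Fin k → ℝ) : GM N γ 0 - AN N γ =
    ∑ b ∈ Finset.Icc 1 N, (ps γ b * (b : ℂ)⁻¹) * RR Finset.univ (N / b) N γ +
      (∑' n : ℕ, ps γ n * (n : ℂ)⁻¹ - ∑ b ∈ Finset.Icc 1 N, ps γ b * (b : ℂ)⁻¹) * ∏ e, QQ N γ e := by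
  rw [GM_eq, AN_ps, FH_ps]
  unfold RR
  simp only [mul_sub]
  rw [Finset.sum_sub_distrib, ← Finset.sum_mul]
  ring

lemma cs_b (γ : Fin k ⊕ Fin k → ℝ) (N : ℕ) {η : ℝ} (hη : 0 < η) :
    ‖∑ b ∈ Finset.Icc 1 N, (ps γ b * (b : ℂ)⁻¹) * RR Finset.univ (N / b) N γ‖ ^ 2 ≤
      GG' (2 * k + k * k) (1 / 2 + η) * ∑ b ∈ Finset.Icc 1 N, (gg (2 * k + k * k) b *
        (b : ℝ) ^ (-(3 / 2 - η))) * ‖RR Finset.univ (N / b) N γ‖ ^ 2 := by
  set A := 2 * k + k * k with hA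
  have h1 : ‖∑ b ∈ Finset.Icc 1 N, (ps γ b * (b : ℂ)⁻¹) * RR Finset.univ (N / b) N γ‖ ≤
      ∑ b ∈ Finset.Icc 1 N, gg A b * (b : ℝ)⁻¹ * ‖RR Finset.univ (N / b) N γ‖ := by
    refine norm_sum_le_of_le _ fun b _ => ?_
    rw [norm_mul, norm_mul, norm_inv, Complex.norm_natCast]
    have h4 := ps_le γ b
    gcongr
  have h2 := Finset.sum_sq_le_sum_mul_sum_of_sq_le_mul (Finset.Icc 1 N)
    (f := fun b => gg A b * (b : ℝ) ^ (-(1 / 2 + η)))
    (g := fun b => (gg A b * (b : ℝ) ^ (-(3 / 2 - η))) * ‖RR (Finset.univ : Finset (Fin k × Fin k)) (N / b) N γ‖ ^ 2)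
    (r := fun b => gg A b * (b : ℝ)⁻¹ * ‖RR (Finset.univ : Finset (Fin k × Fin k)) (N / b) N γ‖)
    (fun b _ => mul_nonneg (gg_nonneg _ _) (by positivity))
    (fun b _ => mul_nonneg (mul_nonneg (gg_nonneg _ _) (by positivity)) (by positivity))
    (fun b hb => by
      have hb1 := (Finset.mem_Icc.1 hb).1
      have hb0 : (0:ℝ) < b := by exact_mod_cast hb1
      have e1 : (b : ℝ) ^ (-(1 / 2 + η)) * (b : ℝ) ^ (-(3 / 2 - η)) = ((b : ℝ)⁻¹) ^ 2 := by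
        rw [← Real.rpow_add hb0, ← Real.rpow_neg_one, ← Real.rpow_natCast, ← Real.rpow_mul hb0.le]
        congr 1
        push_cast
        ring
      have e2 : ∀ x r : ℝ, (x * (b : ℝ) ^ (-(1 / 2 + η))) * ((x * (b : ℝ) ^ (-(3 / 2 - η))) * r ^ 2) =
          x ^ 2 * ((b : ℝ) ^ (-(1 / 2 + η)) * (b : ℝ) ^ (-(3 / 2 - η))) * r ^ 2 := fun x r => by ring
      rw [e2, e1]
      refine le_of_eq ?_
      ring)
  refine (pow_le_pow_left₀ (norm_nonneg _) h1 2).trans (h2.trans ?_)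
  refine mul_le_mul_of_nonneg_right (gg_fin_le A (by linarith) _) ?_
  exact Finset.sum_nonneg fun b _ => mul_nonneg (mul_nonneg (gg_nonneg _ _) (by positivity)) (by positivity)

lemma floor_lb {N b : ℕ} (hb : 1 ≤ b) (hbN : b ≤ N) : (N : ℝ) / (2 * b) ≤ ((N / b : ℕ) : ℝ) := by
  have h1 : 1 ≤ N / b := (Nat.one_le_div_iff hb).2 hbN
  have h2 : N < (N / b + 1) * b := by
    rw [← Nat.div_lt_iff_lt_mul hb]
    exact Nat.lt_succ_self _
  have hb0 : (0:ℝ) < b := by exact_mod_cast hb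
  rw [div_le_iff₀ (by positivity)]
  have h3 : (N : ℝ) < ((N / b : ℕ) + 1) * b := by exact_mod_cast h2
  have h4 : (1:ℝ) ≤ ((N / b : ℕ) : ℝ) := by exact_mod_cast h1
  nlinarith

theorem GA_ms (k : ℕ) {ε : ℝ} (hε : 0 < ε) : ∃ C : ℝ, 1 ≤ C ∧ ∀ (H : ℝ) (N : ℕ), 1 ≤ N → (N : ℝ) ≤ H →
    ∫⁻ γ, ENNReal.ofReal (‖GM N γ 0 - AN N γ‖ ^ 2) ∂(mP (Fin k ⊕ Fin k) H) ≤
      ENNReal.ofReal (C * H ^ (2 * k) * H ^ ε / N) := by
  set η : ℝ := min (ε / 4) (1 / 4) with hη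
  have hη0 : 0 < η := lt_min (by positivity) (by norm_num)
  have hη1 : η < 1 / 2 := lt_of_le_of_lt (min_le_right _ _) (by norm_num)
  have hη2 : η ≤ ε / 4 := min_le_left _ _
  obtain ⟨C2, hC2, h2⟩ := RR_ms k Finset.univ (ε := ε / 2) (by positivity)
  obtain ⟨C4, hC4, h4⟩ := logp_le (δ := ε / 2) (by positivity) (2 * (k * k))
  set A := 2 * k + k * k with hA
  set G := GG' A (1 / 2 + η) with hG
  have hG0 : 0 ≤ G := GG'_nonneg _ _
  refine ⟨max 1 (4 * G ^ 2 * C2 + 2 * G ^ 2 * C4), le_max_left _ _, ?_⟩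
  intro H N hN hNH
  have hN1 : (1:ℝ) ≤ N := by exact_mod_cast hN
  have hN0 : (0:ℝ) < N := by linarith
  have hH : 1 ≤ H := hN1.trans hNH
  have hH0 : 0 < H := by linarith
  set L : ℝ := 1 + Real.log N with hL
  have hL0 : 0 ≤ L := by
    have := Real.log_nonneg hN1
    linarith
  -- pointwise
  have hpt : ∀ γ : Fin k ⊕ Fin k → ℝ, ENNReal.ofReal (‖GM N γ 0 - AN N γ‖ ^ 2) ≤
      (∑ b ∈ Finset.Icc 1 N, ENNReal.ofReal (2 * G * (gg A b * (b : ℝ) ^ (-(3 / 2 - η)))) *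
        ENNReal.ofReal (‖RR Finset.univ (N / b) N γ‖ ^ 2)) +
        ENNReal.ofReal (2 * (G * (N : ℝ) ^ (-(1 / 2 - η)) * L ^ (k * k)) ^ 2) := by
    intro γ
    have e1 : (∑ b ∈ Finset.Icc 1 N, ENNReal.ofReal (2 * G * (gg A b * (b : ℝ) ^ (-(3 / 2 - η)))) *
        ENNReal.ofReal (‖RR Finset.univ (N / b) N γ‖ ^ 2)) = ENNReal.ofReal (2 * (G *
        ∑ b ∈ Finset.Icc 1 N, (gg A b * (b : ℝ) ^ (-(3 / 2 - η))) * ‖RR Finset.univ (N / b) N γ‖ ^ 2)) := by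
      rw [Finset.mul_sum, Finset.mul_sum, ENNReal.ofReal_sum_of_nonneg fun b _ => by
        have := gg_nonneg A b
        positivity]
      refine Finset.sum_congr rfl fun b _ => ?_
      have := gg_nonneg A b
      rw [← ENNReal.ofReal_mul (by positivity)]
      congr 1
      ring
    rw [e1, ← ENNReal.ofReal_add]
    · refine ENNReal.ofReal_le_ofReal ?_
      rw [diff_id]
      set U := ∑ b ∈ Finset.Icc 1 N, (ps γ b * (b : ℂ)⁻¹) * RR Finset.univ (N / b) N γ with hU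
      set V := (∑' n : ℕ, ps γ n * (n : ℂ)⁻¹ - ∑ b ∈ Finset.Icc 1 N, ps γ b * (b : ℂ)⁻¹) *
        ∏ e, QQ N γ e with hV
      have k1 : ‖U‖ ^ 2 ≤ G * ∑ b ∈ Finset.Icc 1 N, (gg A b * (b : ℝ) ^ (-(3 / 2 - η))) *
          ‖RR Finset.univ (N / b) N γ‖ ^ 2 := cs_b γ N hη0
      have k2 : ‖V‖ ≤ G * (N : ℝ) ^ (-(1 / 2 - η)) * L ^ (k * k) := by
        rw [hV, norm_mul, norm_prod]
        have k3 := ps_tail γ hN hη0 hη1
        have k4 : ∏ e : Fin k × Fin k, ‖QQ N γ e‖ ≤ L ^ (k * k) := by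
          calc ∏ e : Fin k × Fin k, ‖QQ N γ e‖ ≤ ∏ _e : Fin k × Fin k, L :=
                Finset.prod_le_prod (fun _ _ => norm_nonneg _) fun e _ => QQ_le hN γ e
            _ = _ := by simp
        exact mul_le_mul k3 k4 (Finset.prod_nonneg fun _ _ => norm_nonneg _) (by positivity)
      have k3 : ‖V‖ ^ 2 ≤ (G * (N : ℝ) ^ (-(1 / 2 - η)) * L ^ (k * k)) ^ 2 := by gcongr
      have k4 : ‖U + V‖ ^ 2 ≤ 2 * ‖U‖ ^ 2 + 2 * ‖V‖ ^ 2 := by
        calc ‖U + V‖ ^ 2 ≤ (‖U‖ + ‖V‖) ^ 2 := by gcongr; exact norm_add_le _ _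
          _ ≤ _ := by nlinarith [sq_nonneg (‖U‖ - ‖V‖)]
      linarith
    · have : 0 ≤ ∑ b ∈ Finset.Icc 1 N, (gg A b * (b : ℝ) ^ (-(3 / 2 - η))) *
          ‖RR Finset.univ (N / b) N γ‖ ^ 2 := Finset.sum_nonneg fun b _ => by
        have := gg_nonneg A b
        positivity
      positivity
    · positivity
  have hm : ∀ b : ℕ, Measurable fun γ : Fin k ⊕ Fin k → ℝ =>
      ENNReal.ofReal (2 * G * (gg A b * (b : ℝ) ^ (-(3 / 2 - η)))) *
        ENNReal.ofReal (‖RR Finset.univ (N / b) N γ‖ ^ 2) := fun b =>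
    (mor ((RR_cont Finset.univ (N / b) N).norm.pow 2)).const_mul _
  refine (lintegral_mono hpt).trans ?_
  rw [lintegral_add_left (Finset.measurable_fun_sum _ fun b _ => hm b), lintegral_finsetSum _ fun b _ => hm b,
    lintegral_const, Pool.Agent.TH347.GS.mP_univ k hH0.le]
  simp only [lintegral_const_mul' _ _ ENNReal.ofReal_ne_top]
  have hb : ∀ b ∈ Finset.Icc 1 N, ENNReal.ofReal (2 * G * (gg A b * (b : ℝ) ^ (-(3 / 2 - η)))) *
      ∫⁻ γ, ENNReal.ofReal (‖RR Finset.univ (N / b) N γ‖ ^ 2) ∂(mP (Fin k ⊕ Fin k) H) ≤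
      ENNReal.ofReal (4 * G * C2 * H ^ (2 * k) * H ^ (ε / 2) * (N : ℝ) ^ (2 * η) / N *
        (gg A b * (b : ℝ) ^ (-(1 / 2 + η)))) := by
    intro b hb
    obtain ⟨hb1, hb2⟩ := Finset.mem_Icc.1 hb
    have hb0 : (0:ℝ) < b := by exact_mod_cast hb1
    have hg := gg_nonneg A b
    have hW : 1 ≤ N / b := (Nat.one_le_div_iff hb1).2 hb2
    have hW0 : (0:ℝ) < ((N / b : ℕ) : ℝ) := by exact_mod_cast hW
    have k1 := h2 H (N / b) N hW (Nat.div_le_self _ _) hNH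
    refine (mul_le_mul_right k1 _).trans ?_
    rw [← ENNReal.ofReal_mul (by positivity)]
    refine ENNReal.ofReal_le_ofReal ?_
    have k2 := floor_lb hb1 hb2
    have k3 : C2 * H ^ (2 * k) * H ^ (ε / 2) / ((N / b : ℕ) : ℝ) ≤
        C2 * H ^ (2 * k) * H ^ (ε / 2) / ((N : ℝ) / (2 * b)) := by gcongr
    have k4 : (b : ℝ) ^ (-(3 / 2 - η)) * b = (b : ℝ) ^ (-(1 / 2 + η)) * (b : ℝ) ^ (2 * η) := by
      rw [← Real.rpow_add hb0]
      nth_rewrite 2 [← Real.rpow_one (b : ℝ)]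
      rw [← Real.rpow_add hb0]
      congr 1
      ring
    have k5 : (b : ℝ) ^ (2 * η) ≤ (N : ℝ) ^ (2 * η) :=
      Real.rpow_le_rpow hb0.le (by exact_mod_cast hb2) (by positivity)
    calc 2 * G * (gg A b * (b : ℝ) ^ (-(3 / 2 - η))) * (C2 * H ^ (2 * k) * H ^ (ε / 2) / ((N / b : ℕ) : ℝ))
        ≤ 2 * G * (gg A b * (b : ℝ) ^ (-(3 / 2 - η))) *
          (C2 * H ^ (2 * k) * H ^ (ε / 2) / ((N : ℝ) / (2 * b))) := by gcongr
      _ = 4 * G * C2 * H ^ (2 * k) * H ^ (ε / 2) / N * (gg A b * ((b : ℝ) ^ (-(3 / 2 - η)) * b)) := by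
          field_simp
          ring
      _ = 4 * G * C2 * H ^ (2 * k) * H ^ (ε / 2) / N * (gg A b * ((b : ℝ) ^ (-(1 / 2 + η)) *
          (b : ℝ) ^ (2 * η))) := by rw [k4]
      _ ≤ 4 * G * C2 * H ^ (2 * k) * H ^ (ε / 2) / N * (gg A b * ((b : ℝ) ^ (-(1 / 2 + η)) *
          (N : ℝ) ^ (2 * η))) := by gcongr
      _ = _ := by ring
  refine (add_le_add (Finset.sum_le_sum hb) le_rfl).trans ?_
  have hHe : H ^ (ε / 2) * H ^ (ε / 2) = H ^ ε := by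
    rw [← Real.rpow_add hH0]
    congr 1
    ring
  have hNe : (N : ℝ) ^ (2 * η) ≤ H ^ (ε / 2) :=
    (Real.rpow_le_rpow hN0.le hNH (by positivity)).trans
      (Real.rpow_le_rpow_of_exponent_le hH (by linarith))
  have hHk : (0:ℝ) ≤ H ^ (2 * k) := by positivity
  rw [← ENNReal.ofReal_sum_of_nonneg fun b _ => by
      have := gg_nonneg A b
      positivity, ← Finset.mul_sum, ← ENNReal.ofReal_mul (by positivity),
    ← ENNReal.ofReal_add]
  · refine ENNReal.ofReal_le_ofReal ?_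
    have k1 : ∑ b ∈ Finset.Icc 1 N, gg A b * (b : ℝ) ^ (-(1 / 2 + η)) ≤ G := gg_fin_le A (by linarith) _
    have hS0 : 0 ≤ ∑ b ∈ Finset.Icc 1 N, gg A b * (b : ℝ) ^ (-(1 / 2 + η)) :=
      Finset.sum_nonneg fun b _ => mul_nonneg (gg_nonneg _ _) (by positivity)
    have k2 : (G * (N : ℝ) ^ (-(1 / 2 - η)) * L ^ (k * k)) ^ 2 =
        G ^ 2 * ((N : ℝ) ^ (2 * η) / N) * L ^ (2 * (k * k)) := by
      have e1 : ((N : ℝ) ^ (-(1 / 2 - η))) ^ 2 = (N : ℝ) ^ (2 * η) / N := by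
        rw [← Real.rpow_natCast, ← Real.rpow_mul hN0.le, ← Real.rpow_sub_one hN0.ne']
        congr 1
        push_cast
        ring
      rw [mul_pow, mul_pow, e1, ← pow_mul, mul_comm (k * k) 2]
    have k3 : L ^ (2 * (k * k)) ≤ C4 * H ^ (ε / 2) :=
      (h4 N hN1).trans (mul_le_mul_of_nonneg_left
        (Real.rpow_le_rpow (by linarith) hNH (by positivity)) (by linarith))
    rw [k2]
    calc 4 * G * C2 * H ^ (2 * k) * H ^ (ε / 2) * (N : ℝ) ^ (2 * η) / N *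
          ∑ b ∈ Finset.Icc 1 N, gg A b * (b : ℝ) ^ (-(1 / 2 + η)) +
          2 * (G ^ 2 * ((N : ℝ) ^ (2 * η) / N) * L ^ (2 * (k * k))) * H ^ (2 * k)
        ≤ 4 * G * C2 * H ^ (2 * k) * H ^ (ε / 2) * H ^ (ε / 2) / N * G +
          2 * (G ^ 2 * (H ^ (ε / 2) / N) * (C4 * H ^ (ε / 2))) * H ^ (2 * k) := by gcongr
      _ = (4 * G ^ 2 * C2 + 2 * G ^ 2 * C4) * H ^ (2 * k) * (H ^ (ε / 2) * H ^ (ε / 2)) / N := by ring
      _ = (4 * G ^ 2 * C2 + 2 * G ^ 2 * C4) * H ^ (2 * k) * H ^ ε / N := by rw [hHe]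
      _ ≤ _ := by
          gcongr
          exact le_max_right _ _
  · refine mul_nonneg (by positivity) (Finset.sum_nonneg fun b _ => ?_)
    have := gg_nonneg A b
    positivity
  · positivity

end

end Pool.Agent.Y752.SR
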