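import Pool.Agent.Y752.SR.L3

set_option autoImplicit false

/-! The sharp sum of the coefficients and its limit, in mean square over the separated shifts. -/

namespace Pool.Agent.Y752.SR

open MeasureTheory Set Filter Complex Topology
open Pool.Agent.TH612.GS (mP dr zN GM zr Sep GM0_cont)
open Pool.Agent.TH521.GS (mor)

noncomputable section

variable {k : ℕ}

theorem partC (k : ℕ) {ε : ℝ} (hε : 0 < ε) : ∃ C T₀ : ℝ, 1 ≤ C ∧ 3 ≤ T₀ ∧ ∀ (H : ℝ) (N : ℕ), T₀ ≤ H →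
    1 ≤ N → (N : ℝ) ≤ H →
    ∫⁻ γ in Sep k H, ENNReal.ofReal (‖AN N γ - zr γ‖ ^ 2) ∂(mP (Fin k ⊕ Fin k) H) ≤
      ENNReal.ofReal (C * H ^ (2 * k) * H ^ ε / N) := by
  obtain ⟨C1, hC1, h1⟩ := GA_ms k hε
  obtain ⟨C2, T2, B, hC2, hT2, h2⟩ := zm' k
  obtain ⟨C3, hC3, h3⟩ := logp_le hε B
  have hC23 : 0 < C2 * C3 := mul_pos hC2 (by linarith)
  refine ⟨2 * C1 + 2 * (C2 * C3), T2, by linarith, hT2, ?_⟩
  intro H N hH hN hNH
  have hH3 : 3 ≤ H := hT2.trans hH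
  have hH0 : 0 < H := by linarith
  have hN0 : (0:ℝ) < N := by exact_mod_cast hN
  have p1 := h1 H N hN hNH
  have p2 := h2 H N hH hN hNH
  have hlog0 : 0 ≤ Real.log H := Real.log_nonneg (by linarith)
  have hL : Real.log H ^ B ≤ C3 * H ^ ε := by
    refine le_trans ?_ (h3 H (by linarith))
    gcongr
    linarith
  have hpt : ∀ γ : Fin k ⊕ Fin k → ℝ, ENNReal.ofReal (‖AN N γ - zr γ‖ ^ 2) ≤
      ENNReal.ofReal 2 * ENNReal.ofReal (‖GM N γ 0 - AN N γ‖ ^ 2) +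
        ENNReal.ofReal 2 * ENNReal.ofReal (‖GM N γ 0 - zr γ‖ ^ 2) := by
    intro γ
    rw [← ENNReal.ofReal_mul (by norm_num), ← ENNReal.ofReal_mul (by norm_num),
      ← ENNReal.ofReal_add (by positivity) (by positivity)]
    refine ENNReal.ofReal_le_ofReal ?_
    have e : AN N γ - zr γ = (GM N γ 0 - zr γ) - (GM N γ 0 - AN N γ) := by ring
    rw [e]
    calc ‖(GM N γ 0 - zr γ) - (GM N γ 0 - AN N γ)‖ ^ 2
        ≤ (‖GM N γ 0 - zr γ‖ + ‖GM N γ 0 - AN N γ‖) ^ 2 := by gcongr; exact norm_sub_le _ _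
      _ ≤ _ := by nlinarith [sq_nonneg (‖GM N γ 0 - zr γ‖ - ‖GM N γ 0 - AN N γ‖)]
  have hm : Measurable fun γ : Fin k ⊕ Fin k → ℝ => ENNReal.ofReal (‖GM N γ 0 - AN N γ‖ ^ 2) :=
    mor (((GM0_cont N).sub (AN_cont N)).norm.pow 2)
  refine (lintegral_mono hpt).trans ?_
  rw [lintegral_add_left (hm.const_mul _), lintegral_const_mul' _ _ ENNReal.ofReal_ne_top,
    lintegral_const_mul' _ _ ENNReal.ofReal_ne_top]
  have p1' : ∫⁻ γ in Sep k H, ENNReal.ofReal (‖GM N γ 0 - AN N γ‖ ^ 2) ∂(mP (Fin k ⊕ Fin k) H) ≤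
      ENNReal.ofReal (C1 * H ^ (2 * k) * H ^ ε / N) := (setLIntegral_le_lintegral _ _).trans p1
  refine (add_le_add (mul_le_mul_right p1' _) (mul_le_mul_right p2 _)).trans ?_
  rw [← ENNReal.ofReal_mul (by norm_num), ← ENNReal.ofReal_mul (by norm_num),
    ← ENNReal.ofReal_add (by positivity) (by positivity)]
  refine ENNReal.ofReal_le_ofReal ?_
  calc 2 * (C1 * H ^ (2 * k) * H ^ ε / N) + 2 * (C2 * Real.log H ^ B * H ^ (2 * k) / N)
      ≤ 2 * (C1 * H ^ (2 * k) * H ^ ε / N) + 2 * (C2 * (C3 * H ^ ε) * H ^ (2 * k) / N) := by gcongr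
    _ = _ := by ring

lemma AN_le (k : ℕ) {ε : ℝ} (hε : 0 < ε) : ∃ C : ℝ, 1 ≤ C ∧ ∀ (N : ℕ) (γ : Fin k ⊕ Fin k → ℝ), 1 ≤ N →
    ‖AN N γ‖ ≤ C * (N : ℝ) ^ ε := by
  obtain ⟨C1, hC1, h1⟩ := EEp_le (δ := ε / 2) (by positivity) (2 * k)
  obtain ⟨C2, hC2, h2⟩ := logp_le (δ := ε / 2) (by positivity) 1
  refine ⟨C1 * C2, by nlinarith, fun N γ hN => ?_⟩
  have hN1 : (1:ℝ) ≤ N := by exact_mod_cast hN
  have hN0 : (0:ℝ) < N := by linarith
  have h3 : ‖AN N γ‖ ≤ (EE N : ℝ) ^ (2 * k) * (1 + Real.log N) := by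
    unfold AN
    refine le_trans (norm_sum_le_of_le (f := fun n => dr γ n)
      (n := fun n : ℕ => (EE N : ℝ) ^ (2 * k) * (n : ℝ)⁻¹) _ fun n hn => ?_) ?_
    · obtain ⟨hn1, hn2⟩ := Finset.mem_Icc.1 hn
      rw [dr_DA, norm_mul, norm_inv, Complex.norm_natCast]
      refine mul_le_mul_of_nonneg_right ((DA_le γ n).trans ?_) (by positivity)
      have : n.divisors.card ≤ EE N := by
        unfold EE
        refine Finset.le_sup (f := fun M : ℕ => M.divisors.card) (Finset.mem_Icc.2 ⟨hn1, ?_⟩)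
        nlinarith
      have : (n.divisors.card : ℝ) ≤ EE N := by exact_mod_cast this
      gcongr
    · rw [← Finset.mul_sum]
      exact mul_le_mul_of_nonneg_left (sum_inv_le N) (by positivity)
  have h4 := h2 N hN1
  rw [pow_one] at h4
  have h5 := h1 N hN
  have h6 : 0 ≤ 1 + Real.log N := by
    have := Real.log_nonneg hN1
    linarith
  calc ‖AN N γ‖ ≤ _ := h3
    _ ≤ (C1 * (N : ℝ) ^ (ε / 2)) * (C2 * (N : ℝ) ^ (ε / 2)) :=
        mul_le_mul h5 h4 h6 (by positivity)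
    _ = C1 * C2 * ((N : ℝ) ^ (ε / 2) * (N : ℝ) ^ (ε / 2)) := by ring
    _ = _ := by
        rw [← Real.rpow_add hN0]
        congr 2
        ring

end

end Pool.Agent.Y752.SR
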