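import Pool.Agent.Y752.SR.D

set_option autoImplicit false

/-! The operator bound and the replacement on subintervals. -/

namespace Pool.Agent.Y752.SR

open MeasureTheory Set Filter Complex Topology
open Pool.Agent.TH612.GS (mP z PN z_cont PN_cont fz fz_cont fz_norm fz_prod int_conj A1)

noncomputable section

/-- continuous cut-offs -/
def cut (n : ℕ) (t : ℝ) : ℝ := min 1 (n * max 0 t)

lemma cut_cont (n : ℕ) : Continuous (cut n) := by
  unfold cut
  fun_prop

lemma cut_nonneg (n : ℕ) (t : ℝ) : 0 ≤ cut n t := by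
  unfold cut
  exact le_min zero_le_one (mul_nonneg (by positivity) (le_max_left _ _))

lemma cut_le (n : ℕ) (t : ℝ) : cut n t ≤ 1 := min_le_left _ _

lemma cut_zero (n : ℕ) {t : ℝ} (ht : t ≤ 0) : cut n t = 0 := by
  unfold cut
  rw [max_eq_left ht, mul_zero]
  exact min_eq_right zero_le_one

lemma cut_tendsto {t : ℝ} (ht : 0 < t) : Tendsto (fun n => cut n t) atTop (𝓝 1) := by
  refine tendsto_const_nhds.congr' ?_
  filter_upwards [eventually_ge_atTop ⌈1 / t⌉₊] with n hn
  unfold cut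
  rw [max_eq_right ht.le]
  have h1 : 1 / t ≤ n := (Nat.le_ceil _).trans (by exact_mod_cast hn)
  rw [div_le_iff₀ ht] at h1
  exact (min_eq_left h1).symm

theorem blk {e : ℝ → ℂ} (he : Continuous e) {A S H K : ℝ} (hA : 0 ≤ A) (hS : 0 ≤ S) (hH : 0 ≤ H)
    (hK : 0 ≤ K) (h : ∀ R : ℝ → ℂ, Continuous R →
      ∫ y in (0:ℝ)..H, ‖∫ t in (0:ℝ)..(A + S), e (t + y) * R t‖ ^ 2 ≤
        K * ∫ t in (0:ℝ)..(A + S), ‖R t‖ ^ 2) (R : ℝ → ℂ) (hR : Continuous R) :
    ∫ y in (0:ℝ)..H, ‖∫ t in (0:ℝ)..S, e (A + (t + y)) * R t‖ ^ 2 ≤ K * ∫ t in (0:ℝ)..S, ‖R t‖ ^ 2 := by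
  have hcn : ∀ n : ℕ, Continuous fun t : ℝ => ((cut n t : ℝ) : ℂ) := fun n =>
    Complex.continuous_ofReal.comp (cut_cont n)
  -- for each cut-off
  have h1 : ∀ n : ℕ, ∫ y in (0:ℝ)..H, ‖∫ t in (0:ℝ)..S, e (A + (t + y)) * ((cut n t : ℂ) * R t)‖ ^ 2 ≤
      K * ∫ t in (0:ℝ)..S, ‖R t‖ ^ 2 := by
    intro n
    have hRn : Continuous fun t : ℝ => (cut n (t - A) : ℂ) * R (t - A) :=
      ((hcn n).comp (by fun_prop : Continuous fun t : ℝ => t - A)).mul
        (hR.comp (by fun_prop : Continuous fun t : ℝ => t - A))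
    have h2 := h _ hRn
    have sp : ∀ (g : ℝ → ℂ), Continuous g → (∀ t ≤ A, g t = 0) →
        ∫ t in (0:ℝ)..(A + S), g t = ∫ t in (0:ℝ)..S, g (t + A) := by
      intro g hg hg0
      rw [← intervalIntegral.integral_add_adjacent_intervals (hg.intervalIntegrable 0 A)
        (hg.intervalIntegrable A (A + S))]
      have e1 : ∫ t in (0:ℝ)..A, g t = 0 := by
        rw [intervalIntegral.integral_congr (g := fun _ => 0)]
        · simp
        · intro t ht
          rw [uIcc_of_le hA] at ht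
          exact hg0 t ht.2
      rw [e1, zero_add, intervalIntegral.integral_comp_add_right g A, zero_add, add_comm S A]
    have spR : ∀ (g : ℝ → ℝ), Continuous g → (∀ t ≤ A, g t = 0) →
        ∫ t in (0:ℝ)..(A + S), g t = ∫ t in (0:ℝ)..S, g (t + A) := by
      intro g hg hg0
      rw [← intervalIntegral.integral_add_adjacent_intervals (hg.intervalIntegrable 0 A)
        (hg.intervalIntegrable A (A + S))]
      have e1 : ∫ t in (0:ℝ)..A, g t = 0 := by
        rw [intervalIntegral.integral_congr (g := fun _ => 0)]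
        · simp
        · intro t ht
          rw [uIcc_of_le hA] at ht
          exact hg0 t ht.2
      rw [e1, zero_add, intervalIntegral.integral_comp_add_right g A, zero_add, add_comm S A]
    have h3 : ∀ y : ℝ, ∫ t in (0:ℝ)..(A + S), e (t + y) * ((cut n (t - A) : ℂ) * R (t - A)) =
        ∫ t in (0:ℝ)..S, e (A + (t + y)) * ((cut n t : ℂ) * R t) := by
      intro y
      rw [sp (fun t => e (t + y) * ((cut n (t - A) : ℂ) * R (t - A)))
        ((he.comp (by fun_prop : Continuous fun t : ℝ => t + y)).mul hRn) (fun t ht => by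
          rw [cut_zero n (by linarith)]
          simp)]
      refine intervalIntegral.integral_congr fun t _ => ?_
      simp only [add_sub_cancel_right]
      congr 2
      ring
    have h4 : ∫ t in (0:ℝ)..(A + S), ‖(cut n (t - A) : ℂ) * R (t - A)‖ ^ 2 ≤ ∫ t in (0:ℝ)..S, ‖R t‖ ^ 2 := by
      rw [spR (fun t => ‖(cut n (t - A) : ℂ) * R (t - A)‖ ^ 2) (hRn.norm.pow 2) (fun t ht => by
          rw [cut_zero n (by linarith)]
          simp)]
      refine intervalIntegral.integral_mono_on hS ?_ ?_ ?_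
      · exact ((hRn.comp (by fun_prop : Continuous fun t : ℝ => t + A)).norm.pow 2).intervalIntegrable _ _
      · exact (hR.norm.pow 2).intervalIntegrable _ _
      · intro t _
        simp only [add_sub_cancel_right]
        rw [norm_mul, Complex.norm_real, Real.norm_of_nonneg (cut_nonneg n t), mul_pow]
        have h5 : cut n t ^ 2 ≤ 1 := pow_le_one₀ (cut_nonneg n t) (cut_le n t)
        exact mul_le_of_le_one_left (by positivity) h5
    simp only [h3] at h2
    exact h2.trans (mul_le_mul_of_nonneg_left h4 hK)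
  -- the limit
  have hF : Continuous (Function.uncurry fun (y t : ℝ) => e (A + (t + y)) * R t) := by
    have h1 : Continuous fun p : ℝ × ℝ => A + (p.2 + p.1) := by fun_prop
    exact (he.comp h1).mul (hR.comp continuous_snd)
  have hFn : ∀ n : ℕ, Continuous (Function.uncurry fun (y t : ℝ) => e (A + (t + y)) * ((cut n t : ℂ) * R t)) := by
    intro n
    have h1 : Continuous fun p : ℝ × ℝ => A + (p.2 + p.1) := by fun_prop
    exact (he.comp h1).mul (((hcn n).comp continuous_snd).mul (hR.comp continuous_snd))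
  have hin : ∀ y : ℝ, Tendsto (fun n : ℕ => ∫ t in (0:ℝ)..S, e (A + (t + y)) * ((cut n t : ℂ) * R t)) atTop
      (𝓝 (∫ t in (0:ℝ)..S, e (A + (t + y)) * R t)) := by
    intro y
    refine intervalIntegral.tendsto_integral_filter_of_dominated_convergence
      (fun t => ‖e (A + (t + y)) * R t‖) ?_ ?_ ?_ ?_
    · refine Eventually.of_forall fun n => ?_
      exact ((hFn n).comp (by fun_prop : Continuous fun t : ℝ => (y, t))).aestronglyMeasurable
    · refine Eventually.of_forall fun n => ae_of_all _ fun t _ => ?_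
      rw [norm_mul, norm_mul, norm_mul, Complex.norm_real, Real.norm_of_nonneg (cut_nonneg n t)]
      have := cut_le n t
      have h2 : cut n t * ‖R t‖ ≤ ‖R t‖ := mul_le_of_le_one_left (norm_nonneg _) this
      gcongr
    · exact (hF.comp (by fun_prop : Continuous fun t : ℝ => (y, t))).norm.intervalIntegrable _ _
    · refine ae_of_all _ fun t ht => ?_
      rw [uIoc_of_le hS] at ht
      have h2 := cut_tendsto ht.1
      have h3 : Tendsto (fun n : ℕ => ((cut n t : ℝ) : ℂ)) atTop (𝓝 ((1:ℝ) : ℂ)) :=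
        (Complex.continuous_ofReal.tendsto _).comp h2
      have h4 := (h3.mul_const (R t)).const_mul (e (A + (t + y)))
      simpa using h4
  have hcF : ∀ n : ℕ, Continuous fun y : ℝ => ∫ t in (0:ℝ)..S, e (A + (t + y)) * ((cut n t : ℂ) * R t) :=
    fun n => intervalIntegral.continuous_parametric_intervalIntegral_of_continuous' (hFn n) 0 S
  have hcG : Continuous fun y : ℝ => ∫ t in (0:ℝ)..S, ‖e (A + (t + y)) * R t‖ := by
    have : Continuous (Function.uncurry fun (y t : ℝ) => ‖e (A + (t + y)) * R t‖) := hF.norm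
    exact intervalIntegral.continuous_parametric_intervalIntegral_of_continuous' this 0 S
  have hlim : Tendsto (fun n : ℕ => ∫ y in (0:ℝ)..H,
      ‖∫ t in (0:ℝ)..S, e (A + (t + y)) * ((cut n t : ℂ) * R t)‖ ^ 2) atTop
      (𝓝 (∫ y in (0:ℝ)..H, ‖∫ t in (0:ℝ)..S, e (A + (t + y)) * R t‖ ^ 2)) := by
    refine intervalIntegral.tendsto_integral_filter_of_dominated_convergence
      (fun y => (∫ t in (0:ℝ)..S, ‖e (A + (t + y)) * R t‖) ^ 2) ?_ ?_ ?_ ?_
    · refine Eventually.of_forall fun n => ?_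
      exact ((hcF n).norm.pow 2).aestronglyMeasurable
    · refine Eventually.of_forall fun n => ae_of_all _ fun y _ => ?_
      rw [Real.norm_of_nonneg (by positivity)]
      refine pow_le_pow_left₀ (norm_nonneg _) ?_ 2
      refine (intervalIntegral.norm_integral_le_integral_norm hS).trans ?_
      refine intervalIntegral.integral_mono_on hS ?_ ?_ ?_
      · exact ((hFn n).comp (by fun_prop : Continuous fun t : ℝ => (y, t))).norm.intervalIntegrable _ _
      · exact (hF.comp (by fun_prop : Continuous fun t : ℝ => (y, t))).norm.intervalIntegrable _ _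
      · intro t _
        rw [norm_mul, norm_mul, norm_mul, Complex.norm_real, Real.norm_of_nonneg (cut_nonneg n t)]
        have := cut_le n t
        have h2 : cut n t * ‖R t‖ ≤ ‖R t‖ := mul_le_of_le_one_left (norm_nonneg _) this
        gcongr
    · exact (hcG.pow 2).intervalIntegrable _ _
    · exact ae_of_all _ fun y _ => ((hin y).norm).pow 2
  exact le_of_tendsto' hlim h1

theorem partA' (k : ℕ) {η : ℝ} (hη : 0 < η) (hη1 : η ≤ 1 / 100) : ∃ C T₀ : ℝ, 1 ≤ C ∧ 3 ≤ T₀ ∧
    ∀ (T A S H : ℝ) (N : ℕ), T₀ ≤ T → 0 ≤ A → 0 ≤ S → A + S ≤ T → T ^ (1 / 2 + 3 * η) ≤ H → H ≤ T →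
    H ≤ 2 * N → (N : ℝ) ≤ H →
    ∫⁻ γ, ENNReal.ofReal (‖∫ t in (0:ℝ)..S, (∏ i, fz k (fun u => z (A + u)) i (t + γ i) -
        ∏ i, fz k (fun u => PN N (A + u)) i (t + γ i))‖ ^ 2) ∂(mP (Fin k ⊕ Fin k) H) ≤
      ENNReal.ofReal (C * Real.log T ^ (2 * k + 1) * H ^ (2 * k) * (T / H) * S) := by
  obtain ⟨C1, T1, hC1, hT1, h1⟩ := op
  obtain ⟨C2, T2, hC2, hT2, h2⟩ := win hη hη1
  obtain ⟨C3, hC3, h3⟩ := PN_win
  rcases Nat.eq_zero_or_pos k with hk | hk
  · subst hk
    refine ⟨1, 3, by norm_num, le_rfl, fun T A S H N hT hA hS0 hST hH hHT hN1 hN2 => ?_⟩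
    simp
  refine ⟨1 + 4 ^ (2 * k) * C1 * (C2 + 2 * C3) ^ (2 * k - 1), max 3 (max T1 (max (T2 ^ (2:ℝ)) ((4:ℝ) ^ (1 / (6 * η))))),
    by have : 0 ≤ 4 ^ (2 * k) * C1 * (C2 + 2 * C3) ^ (2 * k - 1) := by positivity
       linarith,
    le_max_left _ _, fun T A S H N hT hA hS0 hST hHl hHT hN1 hN2 => ?_⟩
  have hT3 : 3 ≤ T := (le_max_left _ _).trans hT
  have hT' := (le_max_right _ _).trans hT
  have hTT1 : T1 ≤ T := (le_max_left _ _).trans hT'
  have hT'' := (le_max_right _ _).trans hT'
  have hTT2 : T2 ^ (2:ℝ) ≤ T := (le_max_left _ _).trans hT''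
  have hT4 : (4:ℝ) ^ (1 / (6 * η)) ≤ T := (le_max_right _ _).trans hT''
  have hT0 : 0 < T := by linarith
  have hlog : 1 ≤ Real.log T := by
    rw [Real.le_log_iff_exp_le hT0]
    exact (Real.exp_one_lt_d9.le.trans (by norm_num)).trans hT3
  have hHT2 : T2 ≤ H := by
    have h5 : (T2 ^ (2:ℝ)) ^ (1 / 2 : ℝ) ≤ T ^ (1 / 2 : ℝ) :=
      Real.rpow_le_rpow (by positivity) hTT2 (by norm_num)
    rw [← Real.rpow_mul (by linarith), show (2:ℝ) * (1 / 2) = 1 by norm_num, Real.rpow_one] at h5
    refine h5.trans (le_trans ?_ hHl)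
    exact Real.rpow_le_rpow_of_exponent_le (by linarith) (by linarith)
  have hH3 : 3 ≤ H := hT2.trans hHT2
  have hH0 : 0 < H := by linarith
  have hH2 : 4 * T ≤ H ^ 2 := by
    have h5 : ((4:ℝ) ^ (1 / (6 * η))) ^ (6 * η) ≤ T ^ (6 * η) :=
      Real.rpow_le_rpow (by positivity) hT4 (by positivity)
    rw [← Real.rpow_mul (by norm_num), one_div_mul_cancel (by positivity), Real.rpow_one] at h5
    calc 4 * T ≤ T ^ (6 * η) * T := by gcongr
      _ = T ^ (6 * η) * T ^ (1:ℝ) := by rw [Real.rpow_one]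
      _ = (T ^ (1 / 2 + 3 * η)) ^ 2 := by
          rw [← Real.rpow_add hT0, ← Real.rpow_natCast, ← Real.rpow_mul hT0.le]
          congr 1
          push_cast
          ring
      _ ≤ H ^ 2 := by gcongr
  have hNlog : 1 + Real.log N ≤ 2 * Real.log T := by
    have : Real.log N ≤ Real.log T := by
      rcases Nat.eq_zero_or_pos N with h0 | h0
      · rw [h0]
        simp only [Nat.cast_zero, Real.log_zero]
        linarith
      · exact Real.log_le_log (by exact_mod_cast h0) (hN2.trans hHT)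
    linarith
  set K : ℝ := C1 * (T * Real.log T ^ 2) with hK
  set V : ℝ := (C2 + 2 * C3) * (H * Real.log T) with hV
  have hK0 : 0 ≤ K := by positivity
  have hV0 : 0 ≤ V := by positivity
  have hzA : Continuous fun u => z (A + u) := z_cont.comp (by fun_prop)
  have hPA : Continuous fun u => PN N (A + u) := (PN_cont N).comp (by fun_prop)
  have hop : ∀ R : ℝ → ℂ, Continuous R →
      ∫ y in (0:ℝ)..H, ‖∫ t in (0:ℝ)..S, (z (A + (t + y)) - PN N (A + (t + y))) * R t‖ ^ 2 ≤
        K * ∫ t in (0:ℝ)..S, ‖R t‖ ^ 2 := by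
    have he : Continuous fun u => z u - PN N u := z_cont.sub (PN_cont N)
    exact blk he hA hS0 hH0.le hK0 fun R hR =>
      h1 T (A + S) H N R hTT1 (by linarith) hST (by linarith) hHT hH2 hN1 hN2 hR
  have key := rep (fz k (fun u => z (A + u))) (fz k (fun u => PN N (A + u))) hS0 hH0.le hK0 hV0
    (fun i => fz_cont hzA i) (fun i => fz_cont hPA i) ?_ ?_ ?_
  · refine key.trans (ENNReal.ofReal_le_ofReal ?_)
    have hc : Fintype.card (Fin k ⊕ Fin k) = 2 * k := by
      rw [Fintype.card_sum, Fintype.card_fin]; ring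
    rw [hc]
    obtain ⟨m, hm⟩ : ∃ m, 2 * k = m + 1 := ⟨2 * k - 1, by omega⟩
    rw [hm, Nat.add_sub_cancel, hV, hK, mul_pow, mul_pow]
    have e3 : (4:ℝ) ^ (m + 1) * (C1 * (T * Real.log T ^ 2)) * ((C2 + 2 * C3) ^ m * (H ^ m * Real.log T ^ m)) * S =
        4 ^ (m + 1) * C1 * (C2 + 2 * C3) ^ m * (Real.log T ^ (m + 1 + 1) * H ^ (m + 1) * (T / H) * S) := by
      have : H ^ (m + 1) * (T / H) = H ^ m * T := by
        rw [pow_succ]
        field_simp
      rw [mul_assoc (Real.log T ^ (m + 1 + 1)), this]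
      ring
    rw [e3]
    have e4 : 0 ≤ Real.log T ^ (m + 1 + 1) * H ^ (m + 1) * (T / H) * S := by positivity
    have e5 : (1 + 4 ^ (m + 1) * C1 * (C2 + 2 * C3) ^ m) * Real.log T ^ (m + 1 + 1) * H ^ (m + 1) * (T / H) * S =
        Real.log T ^ (m + 1 + 1) * H ^ (m + 1) * (T / H) * S +
        4 ^ (m + 1) * C1 * (C2 + 2 * C3) ^ m * (Real.log T ^ (m + 1 + 1) * H ^ (m + 1) * (T / H) * S) := by
      ring
    rw [e5]
    linarith
  · intro i R hR
    cases i with
    | inl j =>
      have := hop R hR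
      simpa [fz] using this
    | inr j =>
      have := hop (fun t => (starRingEnd ℂ) (R t)) (Complex.continuous_conj.comp hR)
      simp only [Complex.norm_conj] at this
      refine le_trans (le_of_eq ?_) this
      refine intervalIntegral.integral_congr fun y _ => ?_
      have e3 : (∫ t in (0:ℝ)..S, (fz k (fun u => z (A + u)) (Sum.inr j) (t + y) -
          fz k (fun u => PN N (A + u)) (Sum.inr j) (t + y)) * R t) =
          (starRingEnd ℂ) (∫ t in (0:ℝ)..S, (z (A + (t + y)) - PN N (A + (t + y))) * (starRingEnd ℂ) (R t)) := by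
        rw [← int_conj]
        refine intervalIntegral.integral_congr fun t _ => ?_
        simp only [fz, Sum.elim_inr, map_mul, map_sub, Complex.conj_conj]
      change ‖_‖ ^ 2 = ‖_‖ ^ 2
      rw [e3, Complex.norm_conj]
  · intro i t ht
    simp only [fz_norm, ← add_assoc]
    refine (h2 T H (A + t) hHT2 hHT hHl (by linarith [ht.1]) (by linarith [ht.2])).trans ?_
    rw [hV]
    have : 0 ≤ 2 * C3 * (H * Real.log T) := by positivity
    linarith
  · intro i t ht
    simp only [fz_norm, ← add_assoc]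
    refine (h3 H N (A + t) (by linarith) hN2).trans ?_
    rw [hV]
    have h6 : C3 * (H * (1 + Real.log N)) ≤ C3 * (H * (2 * Real.log T)) := by gcongr
    have : 0 ≤ C2 * (H * Real.log T) := by positivity
    linarith

end

end Pool.Agent.Y752.SR
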