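import Pool.Agent.Y752.SR.L1
import Pool.Agent.Y752.SR.K8

set_option autoImplicit false

/-! The mean square of the product of the partial sums minus the diagonal terms, on subintervals. -/

namespace Pool.Agent.Y752.SR

open MeasureTheory Set Filter Complex
open Pool.Agent.TH612.GS (mP PN tup ch wt dr PN_cont fz fz_prod)
open Pool.Agent.TH612.CF (tau_shift)
open Pool.Agent.W182.KO (tau)
open Pool.Agent.TH367.GS (pl pr dgn mem_tup pl_pos mem_dgn fiber_sum fma_card)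

noncomputable section

variable {k : ℕ}

lemma chs_add (σ : Bool) {n : ℕ} (hn : 1 ≤ n) (x y : ℝ) : chs σ n (x + y) = chs σ n x * chs σ n y := by
  have hn0 : (n : ℂ) ≠ 0 := by exact_mod_cast (by omega : n ≠ 0)
  unfold chs
  cases σ
  · simp only [Bool.false_eq_true, if_false]
    rw [← Complex.cpow_add _ _ hn0]
    congr 1
    push_cast
    ring
  · simp only [if_true]
    rw [← Complex.cpow_add _ _ hn0]
    congr 1
    push_cast
    ring

/-- the unimodular factors -/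
def uu (A : ℝ) (ν : Fin k ⊕ Fin k → ℕ) : ℂ := ∏ i, chs (sg i) (ν i) A

lemma uu_norm (A : ℝ) {ν : Fin k ⊕ Fin k → ℕ} (h : ∀ i, 1 ≤ ν i) : ‖uu A ν‖ = 1 := by
  unfold uu
  rw [norm_prod]
  exact Finset.prod_eq_one fun i _ => chs_norm _ (h i) _

lemma dr_shift (A : ℝ) (γ : Fin k ⊕ Fin k → ℝ) {n : ℕ} (hn : 1 ≤ n) :
    dr (fun i => A + γ i) n = dr γ n := by
  have hn0 : (n : ℂ) ≠ 0 := by exact_mod_cast (by omega : n ≠ 0)
  rw [dr_DA, dr_DA, DA_apply, DA_apply]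
  have e1 : (fun j : Fin k => I * ((A + γ (Sum.inr j) : ℝ) : ℂ)) =
      fun j => I * (γ (Sum.inr j) : ℂ) + I * A := by
    funext j
    push_cast
    ring
  have e2 : (fun j : Fin k => -(I * ((A + γ (Sum.inl j) : ℝ) : ℂ))) =
      fun j => -(I * (γ (Sum.inl j) : ℂ)) + -(I * A) := by
    funext j
    push_cast
    ring
  rw [e1, e2, tau_shift, tau_shift]
  have e3 : (n : ℂ) ^ (I * (A : ℂ)) * (n : ℂ) ^ (-(I * (A : ℂ))) = 1 := by
    rw [← Complex.cpow_add _ _ hn0, add_neg_cancel, Complex.cpow_zero]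
  linear_combination (tau (fun j : Fin k => I * (γ (Sum.inr j) : ℂ)) n *
    tau (fun j : Fin k => -(I * (γ (Sum.inl j) : ℂ))) n * (n : ℂ)⁻¹) * e3

lemma AN_shift (A : ℝ) (N : ℕ) (γ : Fin k ⊕ Fin k → ℝ) : AN N (fun i => A + γ i) = AN N γ := by
  unfold AN
  exact Finset.sum_congr rfl fun n hn => dr_shift A γ (Finset.mem_Icc.1 hn).1

lemma blk_expand (N : ℕ) (A S : ℝ) (γ : Fin k ⊕ Fin k → ℝ) :
    (∫ t in (0:ℝ)..S, ∏ i, fz k (fun u => PN N (A + u)) i (t + γ i)) - S * AN N γ =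
      ∑ ν ∈ tup k N, (cB N S ν * uu A ν) * ∏ i, chs (sg i) (ν i) (γ i) := by
  have h1 := diff_expand N S (fun i => A + γ i)
  rw [AN_shift] at h1
  have e1 : (∫ t in (0:ℝ)..S, ∏ i, fz k (fun u => PN N (A + u)) i (t + γ i)) =
      ∫ t in (0:ℝ)..S, ∏ j : Fin k, PN N (t + (A + γ (Sum.inl j))) *
        (starRingEnd ℂ) (PN N (t + (A + γ (Sum.inr j)))) := by
    refine intervalIntegral.integral_congr fun t _ => ?_
    simp only [fz_prod]
    refine Finset.prod_congr rfl fun j _ => ?_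
    have a1 : A + (t + γ (Sum.inl j)) = t + (A + γ (Sum.inl j)) := by ring
    have a2 : A + (t + γ (Sum.inr j)) = t + (A + γ (Sum.inr j)) := by ring
    rw [a1, a2]
  rw [e1, h1]
  refine Finset.sum_congr rfl fun ν hν => ?_
  rw [ch_eq, mul_assoc]
  congr 1
  unfold uu
  rw [← Finset.prod_mul_distrib]
  exact Finset.prod_congr rfl fun i _ => chs_add _ (mem_tup.1 hν i).1 _ _

theorem partB' (k : ℕ) {ε : ℝ} (hε : 0 < ε) : ∃ C : ℝ, 1 ≤ C ∧ ∀ (H A S : ℝ) (N : ℕ), 1 ≤ N →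
    (N : ℝ) ≤ H → 0 ≤ S →
    ∫⁻ γ, ENNReal.ofReal (‖(∫ t in (0:ℝ)..S, ∏ i, fz k (fun u => PN N (A + u)) i (t + γ i)) -
      S * AN N γ‖ ^ 2) ∂(mP (Fin k ⊕ Fin k) H) ≤
      ENNReal.ofReal (C * H ^ (2 * k) * H ^ ε * (S + S ^ 2 / N)) := by
  classical
  obtain ⟨C1, hC1, hMV⟩ := Pool.Agent.TH928.GS.t_MV
  set δ : ℝ := ε / (4 * ((k : ℝ) + 1) ^ 2) with hδ
  have hδ0 : 0 < δ := by positivity
  obtain ⟨C2, hC2, hdiv⟩ := Pool.Agent.H510R2.divisor_bound δ hδ0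
  set K : ℝ := (2 * C1) ^ (2 * k) * (C2 ^ (2 * k) * (4 * (1 + 1 / δ) ^ 2)) with hK
  have hK0 : 0 ≤ K := by positivity
  refine ⟨1 + K, by linarith, fun H A S N hN hNH hS => ?_⟩
  have hN1 : (1:ℝ) ≤ N := by exact_mod_cast hN
  have hH1 : 1 ≤ H := hN1.trans hNH
  have hH0 : 0 < H := by linarith
  simp only [blk_expand]
  have h1 := tlsι hC1 hMV hH1 sg (tup k N) (fun ν => ν) (fun ν => cB N S ν * uu A ν) 1
    (fun ν hν i => ⟨(mem_tup.1 hν i).1, le_trans (by exact_mod_cast (mem_tup.1 hν i).2) hNH⟩)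
    (fun ν _ => by
      refine Finset.card_le_one.2 fun a ha b hb => ?_
      rw [(Finset.mem_filter.1 ha).2, (Finset.mem_filter.1 hb).2])
  refine h1.trans (ENNReal.ofReal_le_ofReal ?_)
  have hc : Fintype.card (Fin k ⊕ Fin k) = 2 * k := by
    rw [Fintype.card_sum, Fintype.card_fin]; ring
  rw [hc, Nat.cast_one, one_mul]
  set X : ℕ := N ^ k with hX
  have hX1 : 1 ≤ X := Nat.one_le_pow _ _ hN
  have hX1r : (1:ℝ) ≤ X := by exact_mod_cast hX1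
  have hX0 : (0:ℝ) < X := by linarith
  set M : ℝ := (C2 * (X : ℝ) ^ δ) ^ (2 * k) with hM
  have hM0 : 0 ≤ M := by positivity
  have hu : ∑ ν ∈ tup k N, ‖cB N S ν * uu A ν‖ ^ 2 = ∑ ν ∈ tup k N, ‖cB N S ν‖ ^ 2 := by
    refine Finset.sum_congr rfl fun ν hν => ?_
    rw [norm_mul, uu_norm A fun i => (mem_tup.1 hν i).1, mul_one]
  rw [hu]
  have h2 : ∑ ν ∈ tup k N, ‖cB N S ν‖ ^ 2 ≤ M * (S ^ 2 / N + 4 * S * (1 + Real.log X) ^ 2) := by
    refine (Finset.sum_le_sum fun ν hν => cB_le hS hν).trans ?_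
    have hmaps : ∀ ν ∈ tup k N, (pl ν, pr ν) ∈ Finset.Icc 1 X ×ˢ Finset.Icc 1 X := by
      intro ν hν
      rw [Finset.mem_product, Finset.mem_Icc, Finset.mem_Icc]
      exact ⟨⟨pl_pos hν, (prod_le_pow hν).1⟩, ⟨pr_pos hν, (prod_le_pow hν).2⟩⟩
    rw [← Finset.sum_fiberwise_of_maps_to hmaps]
    refine le_trans ?_ (mul_le_mul_of_nonneg_left (w_sum (X := X) hS hN) hM0)
    rw [Finset.mul_sum]
    refine Finset.sum_le_sum fun p hp => ?_
    obtain ⟨hp1, hp2⟩ := Finset.mem_product.1 hp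
    obtain ⟨ha, haX⟩ := Finset.mem_Icc.1 hp1
    obtain ⟨hb, hbX⟩ := Finset.mem_Icc.1 hp2
    have hwn : 0 ≤ wB N S p := by
      unfold wB
      split_ifs
      · exact le_rfl
      · positivity
      · positivity
    have e1 : ∑ ν ∈ (tup k N).filter (fun ν => (pl ν, pr ν) = p), wB N S (pl ν, pr ν) =
        (((tup k N).filter (fun ν => (pl ν, pr ν) = p)).card : ℝ) * wB N S p := by
      rw [Finset.sum_congr rfl (g := fun _ => wB N S p)]
      · rw [Finset.sum_const, nsmul_eq_mul]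
      · intro ν hν
        rw [(Finset.mem_filter.1 hν).2]
    rw [e1]
    refine mul_le_mul_of_nonneg_right ?_ hwn
    have h3 := fib2_card (k := k) N p.1 p.2 ha hb
    have h4 : (((tup k N).filter (fun ν => (pl ν, pr ν) = p)).card : ℝ) ≤
        (p.1.divisors.card : ℝ) ^ k * (p.2.divisors.card : ℝ) ^ k := by exact_mod_cast h3
    have h5 : ∀ a : ℕ, 1 ≤ a → a ≤ X → (a.divisors.card : ℝ) ^ k ≤ (C2 * (X : ℝ) ^ δ) ^ k := by
      intro a h1 h2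
      refine pow_le_pow_left₀ (by positivity) ((hdiv a h1).trans ?_) k
      have : (a : ℝ) ≤ X := by exact_mod_cast h2
      gcongr
    calc _ ≤ _ := h4
      _ ≤ (C2 * (X : ℝ) ^ δ) ^ k * (C2 * (X : ℝ) ^ δ) ^ k :=
          mul_le_mul (h5 _ ha haX) (h5 _ hb hbX) (by positivity) (by positivity)
      _ = M := by
          rw [hM, two_mul, pow_add]
  have hlogX : 1 + Real.log X ≤ (1 + 1 / δ) * (X : ℝ) ^ δ := by
    have h3 := Real.log_le_rpow_div hX0.le hδ0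
    have h4 := Real.one_le_rpow hX1r hδ0.le
    have e : (1 + 1 / δ) * (X : ℝ) ^ δ = (X : ℝ) ^ δ + (X : ℝ) ^ δ / δ := by ring
    rw [e]
    linarith
  have hlogX0 : 0 ≤ 1 + Real.log X := by
    have := Real.log_nonneg hX1r
    linarith
  have h6 : S ^ 2 / N + 4 * S * (1 + Real.log X) ^ 2 ≤
      4 * (1 + 1 / δ) ^ 2 * ((X : ℝ) ^ δ) ^ 2 * (S + S ^ 2 / N) := by
    have h7 : (1 + Real.log X) ^ 2 ≤ ((1 + 1 / δ) * (X : ℝ) ^ δ) ^ 2 :=
      pow_le_pow_left₀ hlogX0 hlogX 2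
    have h8 : 1 ≤ (1 + 1 / δ) ^ 2 * ((X : ℝ) ^ δ) ^ 2 := by
      have a1 : (1:ℝ) ≤ 1 + 1 / δ := by
        have : 0 < 1 / δ := by positivity
        linarith
      have a2 := Real.one_le_rpow hX1r hδ0.le
      have a3 : (1:ℝ) ≤ (1 + 1 / δ) ^ 2 := one_le_pow₀ a1
      have a4 : (1:ℝ) ≤ ((X : ℝ) ^ δ) ^ 2 := one_le_pow₀ a2
      nlinarith
    rw [mul_pow] at h7
    have h9 : 0 ≤ S ^ 2 / N := by positivity
    have h10 : 4 * S * (1 + Real.log X) ^ 2 ≤ 4 * S * ((1 + 1 / δ) ^ 2 * ((X : ℝ) ^ δ) ^ 2) := by gcongr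
    have h11 : S ^ 2 / N ≤ (4 * ((1 + 1 / δ) ^ 2 * ((X : ℝ) ^ δ) ^ 2)) * (S ^ 2 / N) := by
      nlinarith
    calc S ^ 2 / N + 4 * S * (1 + Real.log X) ^ 2
        ≤ (4 * ((1 + 1 / δ) ^ 2 * ((X : ℝ) ^ δ) ^ 2)) * (S ^ 2 / N) +
          4 * S * ((1 + 1 / δ) ^ 2 * ((X : ℝ) ^ δ) ^ 2) := add_le_add h11 h10
      _ = _ := by ring
  have hNp : ((X : ℝ) ^ δ) ^ (2 * k) * ((X : ℝ) ^ δ) ^ 2 ≤ H ^ ε := by
    rw [← pow_add, ← Real.rpow_natCast ((X:ℝ) ^ δ), ← Real.rpow_mul hX0.le, hX]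
    push_cast
    rw [← Real.rpow_natCast (N:ℝ), ← Real.rpow_mul (by linarith)]
    calc (N : ℝ) ^ ((k : ℝ) * (δ * (2 * k + 2))) ≤ (N : ℝ) ^ ε := by
          refine Real.rpow_le_rpow_of_exponent_le hN1 ?_
          rw [hδ]
          have hk0 : (0:ℝ) ≤ k := by positivity
          rw [div_mul_eq_mul_div, mul_div_assoc', div_le_iff₀ (by positivity)]
          nlinarith [mul_nonneg hε.le hk0, mul_nonneg hε.le (mul_nonneg hk0 hk0)]
      _ ≤ H ^ ε := Real.rpow_le_rpow (by positivity) hNH hε.le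
  have hSS : 0 ≤ S + S ^ 2 / N := by positivity
  calc (2 * C1 * H) ^ (2 * k) * ∑ ν ∈ tup k N, ‖cB N S ν‖ ^ 2
      ≤ (2 * C1 * H) ^ (2 * k) * (M * (4 * (1 + 1 / δ) ^ 2 * ((X : ℝ) ^ δ) ^ 2 * (S + S ^ 2 / N))) := by
        refine mul_le_mul_of_nonneg_left (h2.trans ?_) (by positivity)
        gcongr
    _ = K * H ^ (2 * k) * (((X : ℝ) ^ δ) ^ (2 * k) * ((X : ℝ) ^ δ) ^ 2) * (S + S ^ 2 / N) := by
        rw [hM, hK, mul_pow, mul_pow C2]
        ring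
    _ ≤ K * H ^ (2 * k) * H ^ ε * (S + S ^ 2 / N) := by gcongr
    _ ≤ (1 + K) * H ^ (2 * k) * H ^ ε * (S + S ^ 2 / N) := by
        gcongr
        linarith

end

end Pool.Agent.Y752.SR
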