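import Pool.Agent.Y752.SR.L2
import Pool.Agent.TH612.GS.Asm3
import Pool.Agent.TH767.GS.NS

set_option autoImplicit false

/-! Chaining over dyadic blocks. -/

namespace Pool.Agent.Y752.SR

open MeasureTheory Set Filter Complex Topology
open Pool.Agent.TH612.GS (mP z PN z_cont PN_cont fz fz_cont fz_norm fz_prod dr tau_cont')
open Pool.Agent.TH521.GS (mor lint_equiv pt tonelli cs)

noncomputable section

variable {k : ℕ}

lemma chain_aux {m : ℕ} (f : ℕ → ℂ) (h0 : f 0 = 0) : ∀ l : ℕ, l ≤ m → ∀ i : ℕ, i ≤ 2 ^ l →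
    ‖f (i * 2 ^ (m - l))‖ ≤ ∑ l' ∈ Finset.range (l + 1),
      Real.sqrt (∑ i ∈ Finset.range (2 ^ l'), ‖f ((i + 1) * 2 ^ (m - l')) - f (i * 2 ^ (m - l'))‖ ^ 2) := by
  have hb : ∀ l i : ℕ, i < 2 ^ l → ‖f ((i + 1) * 2 ^ (m - l)) - f (i * 2 ^ (m - l))‖ ≤
      Real.sqrt (∑ i ∈ Finset.range (2 ^ l), ‖f ((i + 1) * 2 ^ (m - l)) - f (i * 2 ^ (m - l))‖ ^ 2) := by
    intro l i hi
    refine Real.le_sqrt_of_sq_le ?_
    exact Finset.single_le_sum (f := fun i => ‖f ((i + 1) * 2 ^ (m - l)) - f (i * 2 ^ (m - l))‖ ^ 2)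
      (fun _ _ => by positivity) (Finset.mem_range.2 hi)
  intro l
  induction l with
  | zero =>
    intro _ i hi
    rw [pow_zero] at hi
    rw [zero_add, Finset.sum_range_one]
    rcases Nat.le_one_iff_eq_zero_or_eq_one.1 hi with h | h
    · subst h
      rw [zero_mul, h0, norm_zero]
      exact Real.sqrt_nonneg _
    · subst h
      have := hb 0 0 (by norm_num)
      rw [zero_mul, h0, sub_zero, zero_add] at this
      exact this
  | succ l ih =>
    intro hl i hi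
    rw [Finset.sum_range_succ]
    have hw : 2 ^ (m - l) = 2 * 2 ^ (m - (l + 1)) := by
      rw [← pow_succ']
      congr 1
      omega
    rcases Nat.even_or_odd' i with ⟨c, hc | hc⟩
    · have h1 := ih (by omega) c (by rw [pow_succ] at hi; omega)
      have e1 : c * 2 ^ (m - l) = i * 2 ^ (m - (l + 1)) := by
        rw [hw, hc]
        ring
      rw [e1] at h1
      exact h1.trans (le_add_of_nonneg_right (Real.sqrt_nonneg _))
    · have hc2 : c < 2 ^ l := by rw [pow_succ] at hi; omega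
      have h1 := ih (by omega) c hc2.le
      have e1 : c * 2 ^ (m - l) = (2 * c) * 2 ^ (m - (l + 1)) := by
        rw [hw]
        ring
      rw [e1] at h1
      have h2 := hb (l + 1) (2 * c) (by rw [pow_succ]; omega)
      rw [← hc] at h2
      have e2 : f (i * 2 ^ (m - (l + 1))) = f ((2 * c) * 2 ^ (m - (l + 1))) +
          (f (i * 2 ^ (m - (l + 1))) - f ((2 * c) * 2 ^ (m - (l + 1)))) := by ring
      rw [e2]
      exact (norm_add_le _ _).trans (add_le_add h1 h2)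

theorem chain2 {m : ℕ} (f : ℕ → ℂ) (h0 : f 0 = 0) {j : ℕ} (hj : j ≤ 2 ^ m) :
    ‖f j‖ ^ 2 ≤ ((m : ℝ) + 1) * ∑ l ∈ Finset.range (m + 1), ∑ i ∈ Finset.range (2 ^ l),
      ‖f ((i + 1) * 2 ^ (m - l)) - f (i * 2 ^ (m - l))‖ ^ 2 := by
  have h1 := chain_aux f h0 m le_rfl j hj
  rw [Nat.sub_self, pow_zero, mul_one] at h1
  refine (pow_le_pow_left₀ (norm_nonneg _) h1 2).trans ?_
  refine (sq_sum_le_card_mul_sum_sq (s := Finset.range (m + 1))).trans ?_
  rw [Finset.card_range]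
  push_cast
  refine mul_le_mul_of_nonneg_left (le_of_eq ?_) (by positivity)
  refine Finset.sum_congr rfl fun l _ => ?_
  rw [Real.sq_sqrt (Finset.sum_nonneg fun _ _ => by positivity)]

/-- the product over a short window, absolute values -/
theorem rep2s {ι : Type} [Fintype ι] (f : ι → ℝ → ℂ) {H B V : ℝ} (hH : 0 ≤ H) (hB : 0 ≤ B)
    (hV : 0 ≤ V) (hf : ∀ i, Continuous (f i))
    (hVf : ∀ i, ∀ t ∈ Icc 0 B, ∫ y in (0:ℝ)..H, ‖f i (t + y)‖ ^ 2 ≤ V) :
    ∫⁻ γ, ENNReal.ofReal ((∫ t in (0:ℝ)..B, ‖∏ i, f i (t + γ i)‖) ^ 2) ∂(mP ι H) ≤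
      ENNReal.ofReal (B ^ 2 * V ^ Fintype.card ι) := by
  set n := Fintype.card ι with hn
  have e : ι ≃ Fin n := Fintype.equivFin ι
  have hcD : Continuous fun γ : ι → ℝ => (∫ t in (0:ℝ)..B, ‖∏ i, f i (t + γ i)‖) ^ 2 := by
    apply Continuous.pow
    apply intervalIntegral.continuous_parametric_intervalIntegral_of_continuous'
    unfold Function.uncurry
    fun_prop
  rw [lint_equiv e H _ (mor hcD)]
  have e1 : ∀ (γ : Fin n → ℝ) (t : ℝ),
      ∏ i, f i (t + γ (e i)) = ∏ j, f (e.symm j) (t + γ j) := by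
    intro γ t
    rw [← Equiv.prod_comp e]
    simp
  have hle : ∀ γ : Fin n → ℝ, ENNReal.ofReal ((∫ t in (0:ℝ)..B, ‖∏ i, f i (t + γ (e i))‖) ^ 2) ≤
      ENNReal.ofReal (∫ t in (0:ℝ)..B, (B - 0) * ∏ j, ‖f (e.symm j) (t + γ j)‖ ^ 2) := by
    intro γ
    apply ENNReal.ofReal_le_ofReal
    simp_rw [e1]
    refine (cs hB (by fun_prop)).trans (le_of_eq ?_)
    rw [← intervalIntegral.integral_const_mul]
    apply intervalIntegral.integral_congr
    intro t _
    dsimp only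
    rw [norm_prod, Finset.prod_pow]
  refine (lintegral_mono hle).trans ?_
  have hG : Continuous (Function.uncurry fun (t : ℝ) (γ : Fin n → ℝ) =>
      ∏ j, ‖f (e.symm j) (t + γ j)‖ ^ 2) := by
    unfold Function.uncurry
    fun_prop
  have hd : 0 ≤ B - 0 := by linarith
  refine (tonelli (mP (Fin n) H) (w := fun _ => B - 0) continuous_const (fun _ => hd) hG
    (fun t γ => Finset.prod_nonneg fun i _ => sq_nonneg _) hB (pow_nonneg hV n)
    fun t ht => pt hH hV t n (fun j => f (e.symm j)) (fun j => hf _) fun j => hVf _ t ht).trans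
      (le_of_eq ?_)
  congr 1
  rw [intervalIntegral.integral_const, smul_eq_mul]
  ring

/-- the product of the zeta values -/
def zp (γ : Fin k ⊕ Fin k → ℝ) (t : ℝ) : ℂ := ∏ i, fz k z i (t + γ i)

lemma zp_cont (γ : Fin k ⊕ Fin k → ℝ) : Continuous (zp γ) := by
  unfold zp
  exact continuous_finsetProd _ fun i _ => (fz_cont z_cont i).comp (by fun_prop)

/-- the remainder with the sharp sum -/
def Eb (N : ℕ) (γ : Fin k ⊕ Fin k → ℝ) (S : ℝ) : ℂ := (∫ t in (0:ℝ)..S, zp γ t) - S * AN N γ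

/-- the remainder over a block -/
def Bk (N : ℕ) (γ : Fin k ⊕ Fin k → ℝ) (a s : ℝ) : ℂ :=
  (∫ t in (0:ℝ)..s, ∏ i, fz k (fun u => z (a + u)) i (t + γ i)) - s * AN N γ

lemma zp_shift (γ : Fin k ⊕ Fin k → ℝ) (a t : ℝ) :
    ∏ i, fz k (fun u => z (a + u)) i (t + γ i) = zp γ (t + a) := by
  unfold zp
  rw [fz_prod, fz_prod]
  refine Finset.prod_congr rfl fun j _ => ?_
  have a1 : a + (t + γ (Sum.inl j)) = t + a + γ (Sum.inl j) := by ring
  have a2 : a + (t + γ (Sum.inr j)) = t + a + γ (Sum.inr j) := by ring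
  simp only [a1, a2]

lemma Eb_blk (N : ℕ) (γ : Fin k ⊕ Fin k → ℝ) (a s : ℝ) :
    Eb N γ (a + s) - Eb N γ a = Bk N γ a s := by
  have h1 : (∫ t in (0:ℝ)..(a + s), zp γ t) - ∫ t in (0:ℝ)..a, zp γ t = ∫ t in a..(a + s), zp γ t :=
    intervalIntegral.integral_interval_sub_left ((zp_cont γ).intervalIntegrable _ _)
      ((zp_cont γ).intervalIntegrable _ _)
  have h2 : ∫ t in (0:ℝ)..s, ∏ i, fz k (fun u => z (a + u)) i (t + γ i) = ∫ t in a..(a + s), zp γ t := by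
    simp only [zp_shift]
    rw [intervalIntegral.integral_comp_add_right (zp γ) a, zero_add, add_comm s a]
  unfold Eb Bk
  rw [h2, ← h1]
  push_cast
  ring

lemma AN_cont (N : ℕ) : Continuous fun γ : Fin k ⊕ Fin k → ℝ => AN N γ := by
  unfold AN Pool.Agent.TH612.GS.dr Pool.Agent.TH612.CF.dg
  refine continuous_finsetSum _ fun n _ => Continuous.mul (Continuous.mul ?_ ?_) continuous_const
  · exact tau_cont' (fun j => by fun_prop) n
  · exact tau_cont' (fun j => by fun_prop) n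

lemma prodint_cont {f : ℝ → ℂ} (hf : Continuous f) (s : ℝ) :
    Continuous fun γ : Fin k ⊕ Fin k → ℝ => ∫ t in (0:ℝ)..s, ∏ i, fz k f i (t + γ i) := by
  have h1 : ∀ i : Fin k ⊕ Fin k, Continuous (fz k f i) := fun i => fz_cont hf i
  apply intervalIntegral.continuous_parametric_intervalIntegral_of_continuous'
  unfold Function.uncurry
  fun_prop

lemma Bk_cont (N : ℕ) (a s : ℝ) : Continuous fun γ : Fin k ⊕ Fin k → ℝ => Bk N γ a s := by
  unfold Bk
  exact (prodint_cont (z_cont.comp (by fun_prop)) s).sub (continuous_const.mul (AN_cont N))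

theorem Bk_ms (k : ℕ) {η : ℝ} (hη : 0 < η) (hη1 : η ≤ 1 / 100) {ε : ℝ} (hε : 0 < ε) :
    ∃ C T₀ : ℝ, 1 ≤ C ∧ 3 ≤ T₀ ∧
    ∀ (T A S H : ℝ) (N : ℕ), T₀ ≤ T → 0 ≤ A → 0 ≤ S → A + S ≤ T → T ^ (1 / 2 + 3 * η) ≤ H → H ≤ T →
    H ≤ 2 * N → (N : ℝ) ≤ H → 1 ≤ N →
    ∫⁻ γ, ENNReal.ofReal (‖Bk N γ A S‖ ^ 2) ∂(mP (Fin k ⊕ Fin k) H) ≤
      ENNReal.ofReal (C * T ^ ε * H ^ (2 * k) * (T / H) * S) := by
  obtain ⟨C1, T1, hC1, hT1, h1⟩ := partA' k hη hη1
  obtain ⟨C2, hC2, h2⟩ := partB' k hε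
  obtain ⟨C3, hC3, h3⟩ := logp_le hε (2 * k + 1)
  refine ⟨2 * C1 * C3 + 6 * C2, T1, by nlinarith, hT1, ?_⟩
  intro T A S H N hT hA hS hAS hHl hHT hN1 hN2 hN
  have hT3 : 3 ≤ T := hT1.trans hT
  have hT0 : 0 < T := by linarith
  have hNr : (1:ℝ) ≤ N := by exact_mod_cast hN
  have hH1 : 1 ≤ H := hNr.trans hN2
  have hH0 : 0 < H := by linarith
  have hlog0 : 0 ≤ Real.log T := Real.log_nonneg (by linarith)
  have hL : Real.log T ^ (2 * k + 1) ≤ C3 * T ^ ε := by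
    refine le_trans ?_ (h3 T (by linarith))
    gcongr
    linarith
  have p1 := h1 T A S H N hT hA hS hAS hHl hHT hN1 hN2
  have p2 := h2 H A S N hN hN2 hS
  set P1 : (Fin k ⊕ Fin k → ℝ) → ℂ := fun γ => ∫ t in (0:ℝ)..S,
    (∏ i, fz k (fun u => z (A + u)) i (t + γ i) - ∏ i, fz k (fun u => PN N (A + u)) i (t + γ i)) with hP1
  set P2 : (Fin k ⊕ Fin k → ℝ) → ℂ := fun γ =>
    (∫ t in (0:ℝ)..S, ∏ i, fz k (fun u => PN N (A + u)) i (t + γ i)) - S * AN N γ with hP2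
  have hzA : Continuous fun u => z (A + u) := z_cont.comp (by fun_prop)
  have hPA : Continuous fun u => PN N (A + u) := (PN_cont N).comp (by fun_prop)
  have hP1e : ∀ γ, P1 γ = (∫ t in (0:ℝ)..S, ∏ i, fz k (fun u => z (A + u)) i (t + γ i)) -
      ∫ t in (0:ℝ)..S, ∏ i, fz k (fun u => PN N (A + u)) i (t + γ i) := by
    intro γ
    rw [hP1]
    simp only
    rw [intervalIntegral.integral_sub]
    · refine Continuous.intervalIntegrable ?_ _ _
      exact continuous_finsetProd _ fun i _ => (fz_cont hzA i).comp (by fun_prop)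
    · refine Continuous.intervalIntegrable ?_ _ _
      exact continuous_finsetProd _ fun i _ => (fz_cont hPA i).comp (by fun_prop)
  have hB : ∀ γ, Bk N γ A S = P1 γ + P2 γ := by
    intro γ
    rw [hP1e, hP2]
    unfold Bk
    ring
  have hcP2 : Continuous P2 := (prodint_cont hPA S).sub (continuous_const.mul (AN_cont N))
  have hpt : ∀ γ, ENNReal.ofReal (‖Bk N γ A S‖ ^ 2) ≤ ENNReal.ofReal 2 * ENNReal.ofReal (‖P2 γ‖ ^ 2) +
      ENNReal.ofReal 2 * ENNReal.ofReal (‖P1 γ‖ ^ 2) := by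
    intro γ
    rw [← ENNReal.ofReal_mul (by norm_num), ← ENNReal.ofReal_mul (by norm_num),
      ← ENNReal.ofReal_add (by positivity) (by positivity), hB]
    refine ENNReal.ofReal_le_ofReal ?_
    calc ‖P1 γ + P2 γ‖ ^ 2 ≤ (‖P1 γ‖ + ‖P2 γ‖) ^ 2 := by gcongr; exact norm_add_le _ _
      _ ≤ _ := by nlinarith [sq_nonneg (‖P1 γ‖ - ‖P2 γ‖)]
  refine (lintegral_mono hpt).trans ?_
  have hm : Measurable fun γ => ENNReal.ofReal (‖P2 γ‖ ^ 2) := mor (hcP2.norm.pow 2)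
  rw [lintegral_add_left (hm.const_mul _),
    lintegral_const_mul' _ _ ENNReal.ofReal_ne_top, lintegral_const_mul' _ _ ENNReal.ofReal_ne_top]
  refine (add_le_add (mul_le_mul_right p2 _) (mul_le_mul_right p1 _)).trans ?_
  rw [← ENNReal.ofReal_mul (by norm_num), ← ENNReal.ofReal_mul (by norm_num),
    ← ENNReal.ofReal_add (by positivity) (by positivity)]
  refine ENNReal.ofReal_le_ofReal ?_
  have hTH : 1 ≤ T / H := by rw [le_div_iff₀ hH0]; linarith
  have hHe : H ^ ε ≤ T ^ ε := Real.rpow_le_rpow hH0.le hHT hε.le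
  have hST : S ≤ T := by linarith
  have hNH : 1 / (N : ℝ) ≤ 2 / H := by
    rw [div_le_div_iff₀ (by linarith) hH0]
    linarith
  have h4 : S + S ^ 2 / N ≤ 3 * ((T / H) * S) := by
    have a1 : S ^ 2 / N = S * S * (1 / N) := by ring
    have a2 : S * S * (1 / N) ≤ T * S * (2 / H) := by gcongr
    have a3 : T * S * (2 / H) = 2 * ((T / H) * S) := by ring
    have a4 : S ≤ (T / H) * S := by nlinarith
    rw [a1]
    linarith
  calc 2 * (C2 * H ^ (2 * k) * H ^ ε * (S + S ^ 2 / N)) +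
        2 * (C1 * Real.log T ^ (2 * k + 1) * H ^ (2 * k) * (T / H) * S)
      ≤ 2 * (C2 * H ^ (2 * k) * T ^ ε * (3 * ((T / H) * S))) +
        2 * (C1 * (C3 * T ^ ε) * H ^ (2 * k) * (T / H) * S) := by gcongr
    _ = _ := by ring

end

end Pool.Agent.Y752.SR
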