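import Pool.Agent.Y752.SR.K9

set_option autoImplicit false

/-! The maximal mean square. -/

namespace Pool.Agent.Y752.SR

open MeasureTheory Set Filter Complex Topology
open Pool.Agent.TH612.GS (mP z PN z_cont PN_cont fz fz_cont fz_norm fz_prod dr zr Sep zr_cont Sep_meas)
open Pool.Agent.TH521.GS (mor)

noncomputable section

variable {k : ℕ}

lemma lint4 {Ω : Type*} [MeasurableSpace Ω] {μ : Measure Ω} {G J K L : Ω → ℝ} (hG : Measurable G)
    (hJ : Measurable J) (hK : Measurable K) (hG0 : ∀ x, 0 ≤ G x) (hJ0 : ∀ x, 0 ≤ J x)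
    (hK0 : ∀ x, 0 ≤ K x) (hL0 : ∀ x, 0 ≤ L x) {a b c d : ℝ} (ha : 0 ≤ a) (hb : 0 ≤ b) (hc : 0 ≤ c)
    (hd : 0 ≤ d) (h1 : ∫⁻ x, ENNReal.ofReal (G x) ∂μ ≤ ENNReal.ofReal a)
    (h2 : ∫⁻ x, ENNReal.ofReal (J x) ∂μ ≤ ENNReal.ofReal b)
    (h3 : ∫⁻ x, ENNReal.ofReal (K x) ∂μ ≤ ENNReal.ofReal c)
    (h4 : ∫⁻ x, ENNReal.ofReal (L x) ∂μ ≤ ENNReal.ofReal d) :
    ∫⁻ x, ENNReal.ofReal (4 * (G x + (J x + (K x + L x)))) ∂μ ≤ ENNReal.ofReal (4 * (a + (b + (c + d)))) := by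
  have e : ∀ x, ENNReal.ofReal (4 * (G x + (J x + (K x + L x)))) = ENNReal.ofReal 4 *
      (ENNReal.ofReal (G x) + (ENNReal.ofReal (J x) + (ENNReal.ofReal (K x) + ENNReal.ofReal (L x)))) := by
    intro x
    have := hG0 x
    have := hJ0 x
    have := hK0 x
    have := hL0 x
    rw [ENNReal.ofReal_mul (by norm_num), ENNReal.ofReal_add (by positivity) (by positivity),
      ENNReal.ofReal_add (by positivity) (by positivity), ENNReal.ofReal_add (by positivity) (by positivity)]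
  simp only [e]
  rw [lintegral_const_mul' _ _ ENNReal.ofReal_ne_top, lintegral_add_left hG.ennreal_ofReal,
    lintegral_add_left hJ.ennreal_ofReal, lintegral_add_left hK.ennreal_ofReal,
    ENNReal.ofReal_mul (by norm_num), ENNReal.ofReal_add (by positivity) (by positivity),
    ENNReal.ofReal_add (by positivity) (by positivity), ENNReal.ofReal_add (by positivity) (by positivity)]
  gcongr

lemma sq4 {a b c d : ℝ} : (a + b + c + d) ^ 2 ≤ 4 * (a ^ 2 + (b ^ 2 + (c ^ 2 + d ^ 2))) := by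
  nlinarith [sq_nonneg (a - b), sq_nonneg (a - c), sq_nonneg (a - d), sq_nonneg (b - c),
    sq_nonneg (b - d), sq_nonneg (c - d)]

/-- the positions and lengths of the dyadic blocks -/
def aa (m : ℕ) (u : ℝ) (l i : ℕ) : ℝ := ((i * 2 ^ (m - l) : ℕ) : ℝ) * u

/-- lengths -/
def ss (m : ℕ) (u : ℝ) (l : ℕ) : ℝ := ((2 ^ (m - l) : ℕ) : ℝ) * u

/-- the chained sum of squares -/
def GX (m N : ℕ) (u : ℝ) (γ : Fin k ⊕ Fin k → ℝ) : ℝ := ((m : ℝ) + 1) *
  ∑ l ∈ Finset.range (m + 1), ∑ i ∈ Finset.range (2 ^ l), ‖Bk N γ (aa m u l i) (ss m u l)‖ ^ 2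

/-- the windows -/
def WX (u : ℝ) (j : ℕ) (γ : Fin k ⊕ Fin k → ℝ) : ℝ :=
  ∫ t in (0:ℝ)..u, ‖∏ i, fz k (fun v => z (j * u + v)) i (t + γ i)‖

/-- the sum over the windows -/
def JX (m : ℕ) (u : ℝ) (γ : Fin k ⊕ Fin k → ℝ) : ℝ :=
  ∑ j ∈ Finset.range (2 ^ m), WX u j γ ^ 2

lemma GX_nonneg (m N : ℕ) (u : ℝ) (γ : Fin k ⊕ Fin k → ℝ) : 0 ≤ GX m N u γ := by
  unfold GX
  exact mul_nonneg (by positivity) (Finset.sum_nonneg fun _ _ => Finset.sum_nonneg fun _ _ => by positivity)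

lemma JX_nonneg (m : ℕ) (u : ℝ) (γ : Fin k ⊕ Fin k → ℝ) : 0 ≤ JX m u γ :=
  Finset.sum_nonneg fun _ _ => by positivity

lemma GX_cont (m N : ℕ) (u : ℝ) : Continuous fun γ : Fin k ⊕ Fin k → ℝ => GX m N u γ := by
  unfold GX
  refine continuous_const.mul ?_
  exact continuous_finsetSum _ fun l _ => continuous_finsetSum _ fun i _ => (Bk_cont N _ _).norm.pow 2

lemma WX_cont (u : ℝ) (j : ℕ) : Continuous fun γ : Fin k ⊕ Fin k → ℝ => WX u j γ := by
  unfold WX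
  have h0 : Continuous fun v => z (j * u + v) := z_cont.comp (by fun_prop)
  have h1 : ∀ i : Fin k ⊕ Fin k, Continuous (fz k (fun v => z (j * u + v)) i) := fun i => fz_cont h0 i
  apply intervalIntegral.continuous_parametric_intervalIntegral_of_continuous'
  unfold Function.uncurry
  fun_prop

lemma JX_cont (m : ℕ) (u : ℝ) : Continuous fun γ : Fin k ⊕ Fin k → ℝ => JX m u γ := by
  unfold JX
  exact continuous_finsetSum _ fun j _ => (WX_cont u j).pow 2

lemma grid (m N : ℕ) (u : ℝ) (γ : Fin k ⊕ Fin k → ℝ) {j : ℕ} (hj : j ≤ 2 ^ m) :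
    ‖Eb N γ (j * u)‖ ^ 2 ≤ GX m N u γ := by
  have h0 : Eb N γ ((0 : ℕ) * u) = 0 := by
    unfold Eb
    simp
  have h1 := chain2 (m := m) (fun j : ℕ => Eb N γ (j * u)) h0 hj
  refine h1.trans (le_of_eq ?_)
  unfold GX
  congr 1
  refine Finset.sum_congr rfl fun l _ => Finset.sum_congr rfl fun i _ => ?_
  rw [← Eb_blk]
  unfold aa ss
  congr 4
  push_cast
  ring

lemma pwise (m N : ℕ) {u T : ℝ} (hu : 0 < u) (hu1 : u ≤ 1) (huT : 2 ^ m * u = T)
    (γ : Fin k ⊕ Fin k → ℝ) {S : ℝ} (hS : 0 ≤ S) (hST : S ≤ T) :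
    ‖(∫ t in (0:ℝ)..S, zp γ t) - S * zr γ‖ ^ 2 ≤
      4 * (GX m N u γ + (JX m u γ + (‖AN N γ‖ ^ 2 + T ^ 2 * ‖AN N γ - zr γ‖ ^ 2))) := by
  obtain ⟨j, hj, hj1, hj2⟩ : ∃ j : ℕ, j < 2 ^ m ∧ (j : ℝ) * u ≤ S ∧ S ≤ (j + 1) * u := by
    rcases lt_or_ge ⌊S / u⌋₊ (2 ^ m) with h | h
    · refine ⟨⌊S / u⌋₊, h, ?_, ?_⟩
      · rw [← le_div_iff₀ hu]
        exact Nat.floor_le (by positivity)
      · rw [← div_le_iff₀ hu]
        exact (Nat.lt_floor_add_one _).le
    · have h1 : ((2 ^ m : ℕ) : ℝ) ≤ S / u := by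
        exact (by exact_mod_cast h : ((2 ^ m : ℕ) : ℝ) ≤ (⌊S / u⌋₊ : ℝ)).trans (Nat.floor_le (by positivity))
      rw [le_div_iff₀ hu] at h1
      push_cast at h1
      have hSe : S = 2 ^ m * u := le_antisymm (by rw [huT]; exact hST) h1
      have h2 : 1 ≤ 2 ^ m := Nat.one_le_two_pow
      refine ⟨2 ^ m - 1, by omega, ?_, ?_⟩
      · rw [Nat.cast_sub h2]
        push_cast
        rw [hSe]
        nlinarith
      · rw [Nat.cast_sub h2]
        push_cast
        rw [hSe]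
        linarith
  set s : ℝ := S - j * u with hs
  have hs0 : 0 ≤ s := by linarith
  have hsu : s ≤ u := by linarith
  have e0 : S = j * u + s := by rw [hs]; ring
  have e1 : (∫ t in (0:ℝ)..S, zp γ t) - S * zr γ = Eb N γ (j * u) + Bk N γ (j * u) s +
      S * (AN N γ - zr γ) := by
    rw [← Eb_blk, ← e0]
    unfold Eb
    ring
  have hz : Continuous fun v => z (j * u + v) := z_cont.comp (by fun_prop)
  have hcp : Continuous fun t : ℝ => ∏ i, fz k (fun v => z (j * u + v)) i (t + γ i) :=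
    continuous_finsetProd _ fun i _ => (fz_cont hz i).comp (by fun_prop)
  have e2 : ‖Bk N γ (j * u) s‖ ≤ WX u j γ + ‖AN N γ‖ := by
    unfold Bk
    refine (norm_sub_le _ _).trans (add_le_add ?_ ?_)
    · refine (intervalIntegral.norm_integral_le_integral_norm hs0).trans ?_
      unfold WX
      exact intervalIntegral.integral_mono_interval le_rfl hs0 hsu
        (Eventually.of_forall fun _ => norm_nonneg _) (hcp.norm.intervalIntegrable _ _)
    · rw [norm_mul, Complex.norm_real, Real.norm_of_nonneg hs0]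
      exact mul_le_of_le_one_left (norm_nonneg _) (hsu.trans hu1)
  have e3 : ‖(∫ t in (0:ℝ)..S, zp γ t) - S * zr γ‖ ≤
      ‖Eb N γ (j * u)‖ + WX u j γ + ‖AN N γ‖ + T * ‖AN N γ - zr γ‖ := by
    rw [e1]
    have e4 : ‖(S : ℂ) * (AN N γ - zr γ)‖ ≤ T * ‖AN N γ - zr γ‖ := by
      rw [norm_mul, Complex.norm_real, Real.norm_of_nonneg hS]
      gcongr
    have e5 := norm_add_le (Eb N γ (j * u) + Bk N γ (j * u) s) (S * (AN N γ - zr γ))
    have e6 := norm_add_le (Eb N γ (j * u)) (Bk N γ (j * u) s)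
    linarith
  refine (pow_le_pow_left₀ (norm_nonneg _) e3 2).trans (sq4.trans ?_)
  have h1 := grid m N u γ hj.le
  have h2 : WX u j γ ^ 2 ≤ JX m u γ := by
    unfold JX
    exact Finset.single_le_sum (f := fun j => WX u j γ ^ 2) (fun _ _ => by positivity) (Finset.mem_range.2 hj)
  rw [mul_pow]
  linarith

theorem maxi (k : ℕ) {η : ℝ} (hη : 0 < η) (hη1 : η ≤ 1 / 100) {ε : ℝ} (hε : 0 < ε) :
    ∃ C T₀ : ℝ, 1 ≤ C ∧ 3 ≤ T₀ ∧ ∀ (T H : ℝ), T₀ ≤ T → T ^ (1 / 2 + 3 * η) ≤ H → H ≤ T →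
    ∃ Mx : (Fin k ⊕ Fin k → ℝ) → ℝ,
      AEMeasurable Mx ((mP (Fin k ⊕ Fin k) H).restrict (Sep k H)) ∧
      (∀ γ S, 0 ≤ S → S ≤ T → ‖(∫ t in (0:ℝ)..S, zp γ t) - S * zr γ‖ ^ 2 ≤ Mx γ) ∧
      ∫⁻ γ in Sep k H, ENNReal.ofReal (Mx γ) ∂(mP (Fin k ⊕ Fin k) H) ≤
        ENNReal.ofReal (C * T ^ ε * H ^ (2 * k) * (T ^ 2 / H)) := by
  obtain ⟨C1, T1, hC1, hT1, h1⟩ := Bk_ms k hη hη1 (ε := ε / 2) (by positivity)
  obtain ⟨C3, hC3, h3⟩ := logp_le (δ := ε / 2) (by positivity) 2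
  obtain ⟨C4, T4, hC4, hT4, h4⟩ := win hη hη1
  obtain ⟨C5, hC5, h5⟩ := logp_le hε (2 * k)
  obtain ⟨C6, hC6, h6⟩ := AN_le k (ε := ε / 2) (by positivity)
  obtain ⟨C7, T7, hC7, hT7, h7⟩ := partC k hε
  refine ⟨4 * (4 * C3 * C1 + C4 ^ (2 * k) * C5 + C6 ^ 2 + 2 * C7), max T1 (max (T4 ^ 2) (T7 ^ 2)), ?_,
    hT1.trans (le_max_left _ _), ?_⟩
  · have : 1 ≤ C6 ^ 2 := one_le_pow₀ hC6
    have : 0 ≤ C4 ^ (2 * k) * C5 := by positivity
    nlinarith
  have hC10 : 0 < C1 := by linarith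
  have hC30 : 0 < C3 := by linarith
  have hC40 : 0 < C4 := by linarith
  have hC50 : 0 < C5 := by linarith
  have hC60 : 0 < C6 := by linarith
  have hC70 : 0 < C7 := by linarith
  intro T H hT hHl hHT
  have hTT1 : T1 ≤ T := (le_max_left _ _).trans hT
  have hTT4 : T4 ^ 2 ≤ T := (le_max_left _ _).trans ((le_max_right _ _).trans hT)
  have hTT7 : T7 ^ 2 ≤ T := (le_max_right _ _).trans ((le_max_right _ _).trans hT)
  have hT3 : 3 ≤ T := hT1.trans hTT1
  have hT0 : 0 < T := by linarith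
  have hhalf : ∀ x : ℝ, 0 ≤ x → x ^ 2 ≤ T → x ≤ H := by
    intro x hx h
    have e1 : x ≤ T ^ (1 / 2 : ℝ) := by
      calc x = (x ^ 2) ^ (1 / 2 : ℝ) := by
            rw [← Real.rpow_natCast, ← Real.rpow_mul hx]
            norm_num
        _ ≤ T ^ (1 / 2 : ℝ) := Real.rpow_le_rpow (by positivity) h (by norm_num)
    refine e1.trans (le_trans ?_ hHl)
    exact Real.rpow_le_rpow_of_exponent_le (by linarith) (by linarith)
  have hH4 : T4 ≤ H := hhalf T4 (by linarith) hTT4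
  have hH7 : T7 ≤ H := hhalf T7 (by linarith) hTT7
  have hH3 : 3 ≤ H := hT4.trans hH4
  have hH0 : 0 < H := by linarith
  set N : ℕ := ⌊H⌋₊ with hN
  have hNH : (N : ℝ) ≤ H := Nat.floor_le hH0.le
  have hN1 : 1 ≤ N := by
    rw [hN, Nat.one_le_floor_iff]
    linarith
  have hN1r : (1:ℝ) ≤ N := by exact_mod_cast hN1
  have hHN : H ≤ 2 * N := by
    have := Nat.lt_floor_add_one H
    rw [← hN] at this
    linarith
  obtain ⟨n, hn1, hn2⟩ := exists_nat_pow_near (x := T) (y := 2) (by linarith) (by norm_num)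
  set m : ℕ := n + 1 with hm
  set u : ℝ := T / 2 ^ m with hu
  have h2m : (0:ℝ) < 2 ^ m := by positivity
  have hu0 : 0 < u := by positivity
  have hu1 : u ≤ 1 := by
    rw [hu, div_le_one h2m]
    exact hn2.le
  have huT : 2 ^ m * u = T := by
    rw [hu]
    field_simp
  have hlog0 : 0 ≤ Real.log T := Real.log_nonneg (by linarith)
  have hmlog : (m : ℝ) + 1 ≤ 2 * (1 + Real.log T) := by
    have e1 : (n : ℝ) * Real.log 2 ≤ Real.log T := by
      rw [← Real.log_pow]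
      exact Real.log_le_log (by positivity) hn1
    have e2 : (0.69:ℝ) ≤ Real.log 2 := by
      have := Real.log_two_gt_d9
      linarith
    have e3 : (n : ℝ) * 0.69 ≤ Real.log T := (mul_le_mul_of_nonneg_left e2 (by positivity)).trans e1
    rw [hm]
    push_cast
    linarith
  have hm2 : ((m : ℝ) + 1) ^ 2 ≤ 4 * (C3 * T ^ (ε / 2)) := by
    calc ((m : ℝ) + 1) ^ 2 ≤ (2 * (1 + Real.log T)) ^ 2 := by gcongr
      _ = 4 * (1 + Real.log T) ^ 2 := by ring
      _ ≤ _ := by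
          have := h3 T (by linarith)
          gcongr
  have hTe : T ^ (ε / 2) * T ^ (ε / 2) = T ^ ε := by
    rw [← Real.rpow_add hT0]
    congr 1
    ring
  refine ⟨fun γ => 4 * (GX m N u γ + (JX m u γ + (‖AN N γ‖ ^ 2 + T ^ 2 * ‖AN N γ - zr γ‖ ^ 2))), ?_, ?_, ?_⟩
  · have c1 : ContinuousOn (fun γ : Fin k ⊕ Fin k → ℝ => 4 * (GX m N u γ + (JX m u γ + (‖AN N γ‖ ^ 2 +
        T ^ 2 * ‖AN N γ - zr γ‖ ^ 2)))) (Sep k H) := by
      refine continuousOn_const.mul ((GX_cont m N u).continuousOn.add ((JX_cont m u).continuousOn.add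
        (((AN_cont N).norm.pow 2).continuousOn.add (continuousOn_const.mul ?_))))
      exact (((AN_cont N).continuousOn.sub (zr_cont (by linarith))).norm).pow 2
    exact c1.aemeasurable (Sep_meas k H)
  · intro γ S hS hST
    exact pwise m N hu0 hu1 huT γ hS hST
  -- the four parts
  have hH2k : 0 ≤ H ^ (2 * k) := by positivity
  have hT2H : T ≤ T ^ 2 / H := by
    rw [le_div_iff₀ hH0]
    nlinarith
  have g1 : ∫⁻ γ in Sep k H, ENNReal.ofReal (GX m N u γ) ∂(mP (Fin k ⊕ Fin k) H) ≤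
      ENNReal.ofReal (4 * C3 * C1 * T ^ ε * H ^ (2 * k) * (T ^ 2 / H)) := by
    refine (setLIntegral_le_lintegral _ _).trans ?_
    have e1 : ∀ γ : Fin k ⊕ Fin k → ℝ, ENNReal.ofReal (GX m N u γ) = ENNReal.ofReal ((m : ℝ) + 1) *
        ∑ l ∈ Finset.range (m + 1), ∑ i ∈ Finset.range (2 ^ l),
          ENNReal.ofReal (‖Bk N γ (aa m u l i) (ss m u l)‖ ^ 2) := by
      intro γ
      unfold GX
      rw [ENNReal.ofReal_mul (by positivity), ENNReal.ofReal_sum_of_nonneg fun l _ =>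
        Finset.sum_nonneg fun _ _ => by positivity]
      congr 1
      exact Finset.sum_congr rfl fun l _ => ENNReal.ofReal_sum_of_nonneg fun _ _ => by positivity
    have hmb : ∀ l i : ℕ, Measurable fun γ : Fin k ⊕ Fin k → ℝ =>
        ENNReal.ofReal (‖Bk N γ (aa m u l i) (ss m u l)‖ ^ 2) := fun l i =>
      mor ((Bk_cont N _ _).norm.pow 2)
    simp only [e1]
    rw [lintegral_const_mul' _ _ ENNReal.ofReal_ne_top, lintegral_finsetSum _ fun l _ =>
      Finset.measurable_fun_sum _ fun i _ => hmb l i]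
    have e2 : ∀ l ∈ Finset.range (m + 1), ∫⁻ γ, ∑ i ∈ Finset.range (2 ^ l),
        ENNReal.ofReal (‖Bk N γ (aa m u l i) (ss m u l)‖ ^ 2) ∂(mP (Fin k ⊕ Fin k) H) ≤
        ENNReal.ofReal (C1 * T ^ (ε / 2) * H ^ (2 * k) * (T / H) * T) := by
      intro l hl
      have hl' : l ≤ m := Nat.lt_succ_iff.1 (Finset.mem_range.1 hl)
      rw [lintegral_finsetSum _ fun i _ => hmb l i]
      have hs0 : 0 ≤ ss m u l := by unfold ss; positivity
      have h2l : (2:ℝ) ^ l * ss m u l = T := by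
        unfold ss
        push_cast
        rw [← mul_assoc, ← pow_add, show l + (m - l) = m by omega, huT]
      have e3 : ∀ i ∈ Finset.range (2 ^ l), ∫⁻ γ, ENNReal.ofReal (‖Bk N γ (aa m u l i) (ss m u l)‖ ^ 2)
          ∂(mP (Fin k ⊕ Fin k) H) ≤ ENNReal.ofReal (C1 * T ^ (ε / 2) * H ^ (2 * k) * (T / H) * ss m u l) := by
        intro i hi
        have hi' : (i : ℝ) + 1 ≤ 2 ^ l := by exact_mod_cast Finset.mem_range.1 hi
        refine h1 T (aa m u l i) (ss m u l) H N hTT1 (by unfold aa; positivity) hs0 ?_ hHl hHT hHN hNH hN1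
        have e4 : aa m u l i + ss m u l = ((i : ℝ) + 1) * ss m u l := by
          unfold aa ss
          push_cast
          ring
        rw [e4, ← h2l]
        gcongr
      refine (Finset.sum_le_sum e3).trans ?_
      rw [Finset.sum_const, Finset.card_range, nsmul_eq_mul, ← ENNReal.ofReal_natCast,
        ← ENNReal.ofReal_mul (by positivity)]
      refine ENNReal.ofReal_le_ofReal (le_of_eq ?_)
      rw [← h2l]
      push_cast
      ring
    refine (mul_le_mul_right (Finset.sum_le_sum e2) _).trans ?_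
    rw [Finset.sum_const, Finset.card_range, nsmul_eq_mul, ← ENNReal.ofReal_natCast,
      ← ENNReal.ofReal_mul (by positivity), ← ENNReal.ofReal_mul (by positivity)]
    refine ENNReal.ofReal_le_ofReal ?_
    push_cast
    calc ((m : ℝ) + 1) * (((m : ℝ) + 1) * (C1 * T ^ (ε / 2) * H ^ (2 * k) * (T / H) * T))
        = ((m : ℝ) + 1) ^ 2 * (C1 * T ^ (ε / 2) * H ^ (2 * k) * (T / H) * T) := by ring
      _ ≤ (4 * (C3 * T ^ (ε / 2))) * (C1 * T ^ (ε / 2) * H ^ (2 * k) * (T / H) * T) := by gcongr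
      _ = 4 * C3 * C1 * (T ^ (ε / 2) * T ^ (ε / 2)) * H ^ (2 * k) * (T ^ 2 / H) := by ring
      _ = _ := by rw [hTe]
  have g2 : ∫⁻ γ in Sep k H, ENNReal.ofReal (JX m u γ) ∂(mP (Fin k ⊕ Fin k) H) ≤
      ENNReal.ofReal (C4 ^ (2 * k) * C5 * T ^ ε * H ^ (2 * k) * (T ^ 2 / H)) := by
    refine (setLIntegral_le_lintegral _ _).trans ?_
    have e1 : ∀ γ : Fin k ⊕ Fin k → ℝ, ENNReal.ofReal (JX m u γ) =
        ∑ j ∈ Finset.range (2 ^ m), ENNReal.ofReal (WX u j γ ^ 2) := by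
      intro γ
      unfold JX
      exact ENNReal.ofReal_sum_of_nonneg fun _ _ => by positivity
    have hmb : ∀ j : ℕ, Measurable fun γ : Fin k ⊕ Fin k → ℝ => ENNReal.ofReal (WX u j γ ^ 2) := fun j =>
      mor ((WX_cont u j).pow 2)
    simp only [e1]
    rw [lintegral_finsetSum _ fun j _ => hmb j]
    set V : ℝ := C4 * (H * Real.log T) with hV
    have hV0 : 0 ≤ V := by positivity
    have hc : Fintype.card (Fin k ⊕ Fin k) = 2 * k := by
      rw [Fintype.card_sum, Fintype.card_fin]; ring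
    have e2 : ∀ j ∈ Finset.range (2 ^ m), ∫⁻ γ, ENNReal.ofReal (WX u j γ ^ 2) ∂(mP (Fin k ⊕ Fin k) H) ≤
        ENNReal.ofReal (u ^ 2 * V ^ (2 * k)) := by
      intro j hj
      have hj' : (j : ℝ) + 1 ≤ 2 ^ m := by exact_mod_cast Finset.mem_range.1 hj
      have hz : Continuous fun v => z (j * u + v) := z_cont.comp (by fun_prop)
      have e3 := rep2s (fz k (fun v => z (j * u + v))) hH0.le hu0.le hV0 (fun i => fz_cont hz i)
        (fun i t ht => by
          simp only [fz_norm, ← add_assoc]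
          refine h4 T H (j * u + t) hH4 hHT hHl ?_ ?_
          · have := ht.1
            positivity
          · calc (j : ℝ) * u + t ≤ j * u + u := by linarith [ht.2]
              _ = (j + 1) * u := by ring
              _ ≤ 2 ^ m * u := by gcongr
              _ = T := huT)
      rw [hc] at e3
      exact e3
    refine (Finset.sum_le_sum e2).trans ?_
    rw [Finset.sum_const, Finset.card_range, nsmul_eq_mul, ← ENNReal.ofReal_natCast,
      ← ENNReal.ofReal_mul (by positivity)]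
    refine ENNReal.ofReal_le_ofReal ?_
    push_cast
    have e5 : Real.log T ^ (2 * k) ≤ C5 * T ^ ε := by
      refine le_trans ?_ (h5 T (by linarith))
      gcongr
      linarith
    calc (2:ℝ) ^ m * (u ^ 2 * V ^ (2 * k)) = (2 ^ m * u) * u * V ^ (2 * k) := by ring
      _ ≤ (2 ^ m * u) * 1 * V ^ (2 * k) := by gcongr
      _ = C4 ^ (2 * k) * Real.log T ^ (2 * k) * H ^ (2 * k) * T := by
          rw [huT, hV, mul_pow, mul_pow]
          ring
      _ ≤ C4 ^ (2 * k) * (C5 * T ^ ε) * H ^ (2 * k) * (T ^ 2 / H) := by gcongr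
      _ = _ := by ring
  have g3 : ∫⁻ γ in Sep k H, ENNReal.ofReal (‖AN N γ‖ ^ 2) ∂(mP (Fin k ⊕ Fin k) H) ≤
      ENNReal.ofReal (C6 ^ 2 * T ^ ε * H ^ (2 * k) * (T ^ 2 / H)) := by
    refine (setLIntegral_le_lintegral _ _).trans ?_
    have e1 : ∀ γ : Fin k ⊕ Fin k → ℝ, ENNReal.ofReal (‖AN N γ‖ ^ 2) ≤ ENNReal.ofReal (C6 ^ 2 * T ^ ε) := by
      intro γ
      refine ENNReal.ofReal_le_ofReal ?_
      have e2 : ‖AN N γ‖ ≤ C6 * T ^ (ε / 2) :=
        (h6 N γ hN1).trans (mul_le_mul_of_nonneg_left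
          (Real.rpow_le_rpow (by linarith) (hNH.trans hHT) (by positivity)) (by linarith))
      calc ‖AN N γ‖ ^ 2 ≤ (C6 * T ^ (ε / 2)) ^ 2 := by gcongr
        _ = C6 ^ 2 * (T ^ (ε / 2) * T ^ (ε / 2)) := by ring
        _ = _ := by rw [hTe]
    refine (lintegral_mono e1).trans ?_
    rw [lintegral_const, Pool.Agent.TH347.GS.mP_univ k hH0.le, ← ENNReal.ofReal_mul (by positivity)]
    refine ENNReal.ofReal_le_ofReal ?_
    have : 1 ≤ T ^ 2 / H := by linarith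
    have h0 : 0 ≤ C6 ^ 2 * T ^ ε * H ^ (2 * k) := by positivity
    nlinarith
  have g4 : ∫⁻ γ in Sep k H, ENNReal.ofReal (T ^ 2 * ‖AN N γ - zr γ‖ ^ 2) ∂(mP (Fin k ⊕ Fin k) H) ≤
      ENNReal.ofReal (2 * C7 * T ^ ε * H ^ (2 * k) * (T ^ 2 / H)) := by
    have e1 : ∀ γ : Fin k ⊕ Fin k → ℝ, ENNReal.ofReal (T ^ 2 * ‖AN N γ - zr γ‖ ^ 2) =
        ENNReal.ofReal (T ^ 2) * ENNReal.ofReal (‖AN N γ - zr γ‖ ^ 2) := fun γ =>
      ENNReal.ofReal_mul (by positivity)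
    simp only [e1]
    rw [lintegral_const_mul' _ _ ENNReal.ofReal_ne_top]
    refine (mul_le_mul_right (h7 H N hH7 hN1 hNH) _).trans ?_
    rw [← ENNReal.ofReal_mul (by positivity)]
    refine ENNReal.ofReal_le_ofReal ?_
    have e2 : 1 / (N : ℝ) ≤ 2 / H := by
      rw [div_le_div_iff₀ (by linarith) hH0]
      linarith
    have e3 : H ^ ε ≤ T ^ ε := Real.rpow_le_rpow hH0.le hHT hε.le
    calc T ^ 2 * (C7 * H ^ (2 * k) * H ^ ε / N) = T ^ 2 * (C7 * H ^ (2 * k) * H ^ ε * (1 / N)) := by ring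
      _ ≤ T ^ 2 * (C7 * H ^ (2 * k) * T ^ ε * (2 / H)) := by gcongr
      _ = _ := by ring
  have g5 := lint4 (μ := (mP (Fin k ⊕ Fin k) H).restrict (Sep k H))
    (G := fun γ => GX m N u γ) (J := fun γ => JX m u γ) (K := fun γ => ‖AN N γ‖ ^ 2)
    (L := fun γ => T ^ 2 * ‖AN N γ - zr γ‖ ^ 2)
    (a := 4 * C3 * C1 * T ^ ε * H ^ (2 * k) * (T ^ 2 / H))
    (b := C4 ^ (2 * k) * C5 * T ^ ε * H ^ (2 * k) * (T ^ 2 / H))
    (c := C6 ^ 2 * T ^ ε * H ^ (2 * k) * (T ^ 2 / H))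
    (d := 2 * C7 * T ^ ε * H ^ (2 * k) * (T ^ 2 / H))
    (GX_cont m N u).measurable
    (JX_cont m u).measurable ((AN_cont N).norm.pow 2).measurable (GX_nonneg m N u) (JX_nonneg m u)
    (fun γ => by positivity) (fun γ => by positivity)
    (by positivity) (by positivity) (by positivity) (by positivity) g1 g2 g3 g4
  refine g5.trans (ENNReal.ofReal_le_ofReal (le_of_eq ?_))
  ring

end

end Pool.Agent.Y752.SR
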