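import Pool.Agent.Y752.SR.M1
import Pool.Agent.TH612.GS.Inv

set_option autoImplicit false

/-! The maximal mean square against the full prediction. -/

namespace Pool.Agent.Y752.SR

open MeasureTheory Set Filter Complex Topology
open Pool.Agent.TH612.GS (mP IG zr Sep Sep_meas DD DD_eq Pk ZB zp_bd norm_GG GG_cont_t Zg_fz fz_prod z inv_le_one)
open Pool.Agent.TH612.CF (GG Zg)
open Pool.Agent.TH521.GS (mor)

noncomputable section

variable {k : ℕ}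

/-- the integral of a swap factor over a block -/
def BG (π : Equiv.Perm (Fin k ⊕ Fin k)) (γ : Fin k ⊕ Fin k → ℝ) (a s : ℝ) : ℂ :=
  ∫ t in (0:ℝ)..s, GG (a + t) (fun i => (γ i : ℂ)) π

lemma IG_blk (π : Equiv.Perm (Fin k ⊕ Fin k)) (γ : Fin k ⊕ Fin k → ℝ) (a s : ℝ) :
    IG (a + s) γ π - IG a γ π = BG π γ a s := by
  have hc := GG_cont_t γ π
  unfold IG BG
  rw [intervalIntegral.integral_interval_sub_left (hc.intervalIntegrable _ _) (hc.intervalIntegrable _ _)]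
  have h1 := intervalIntegral.integral_comp_add_left (a := 0) (b := s)
    (fun t => GG t (fun i => (γ i : ℂ)) π) a
  rw [h1, add_zero]

/-- the chained sum of squares of a swap factor -/
def GY (m : ℕ) (u : ℝ) (π : Equiv.Perm (Fin k ⊕ Fin k)) (γ : Fin k ⊕ Fin k → ℝ) : ℝ := ((m : ℝ) + 1) *
  ∑ l ∈ Finset.range (m + 1), ∑ i ∈ Finset.range (2 ^ l), ‖BG π γ (aa m u l i) (ss m u l)‖ ^ 2

lemma GY_nonneg (m : ℕ) (u : ℝ) (π : Equiv.Perm (Fin k ⊕ Fin k)) (γ : Fin k ⊕ Fin k → ℝ) :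
    0 ≤ GY m u π γ := by
  unfold GY
  exact mul_nonneg (by positivity) (Finset.sum_nonneg fun _ _ => Finset.sum_nonneg fun _ _ => by positivity)

lemma GY_cont (m : ℕ) (u : ℝ) (π : Equiv.Perm (Fin k ⊕ Fin k)) :
    Continuous fun γ : Fin k ⊕ Fin k → ℝ => GY m u π γ := by
  unfold GY BG
  refine continuous_const.mul ?_
  exact continuous_finsetSum _ fun l _ => continuous_finsetSum _ fun i _ => (cont_intA π _ _).norm.pow 2

lemma exj (m : ℕ) {u T : ℝ} (hu : 0 < u) (huT : 2 ^ m * u = T) {S : ℝ} (hS : 0 ≤ S) (hST : S ≤ T) :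
    ∃ j : ℕ, j < 2 ^ m ∧ (j : ℝ) * u ≤ S ∧ S ≤ (j + 1) * u := by
  rcases lt_or_ge ⌊S / u⌋₊ (2 ^ m) with h | h
  · refine ⟨⌊S / u⌋₊, h, ?_, ?_⟩
    · rw [← le_div_iff₀ hu]
      exact Nat.floor_le (by positivity)
    · rw [← div_le_iff₀ hu]
      exact (Nat.lt_floor_add_one _).le
  · have h1 : ((2 ^ m : ℕ) : ℝ) ≤ S / u := by
      exact (by exact_mod_cast h : ((2 ^ m : ℕ) : ℝ) ≤ (⌊S / u⌋₊ : ℝ)).trans (Nat.floor_le (by positivity))
    rw [le_div_iff₀ hu] at h1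
    push_cast at h1
    have hSe : S = 2 ^ m * u := le_antisymm (by rw [huT]; exact hST) h1
    have h2 : 1 ≤ 2 ^ m := Nat.one_le_two_pow
    refine ⟨2 ^ m - 1, by omega, ?_, ?_⟩
    · rw [Nat.cast_sub h2]
      push_cast
      rw [hSe]
      nlinarith
    · rw [Nat.cast_sub h2]
      push_cast
      rw [hSe]
      linarith

lemma IG_le (m : ℕ) {u T : ℝ} (hu : 0 < u) (hu1 : u ≤ 1) (huT : 2 ^ m * u = T)
    (π : Equiv.Perm (Fin k ⊕ Fin k)) (γ : Fin k ⊕ Fin k → ℝ) {S : ℝ} (hS : 0 ≤ S) (hST : S ≤ T) :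
    ‖IG S γ π‖ ^ 2 ≤ 2 * (GY m u π γ + 1) := by
  obtain ⟨j, hj, hj1, hj2⟩ := exj m hu huT hS hST
  have h0 : IG ((0 : ℕ) * u) γ π = 0 := by
    unfold IG
    simp
  have h1 := chain2 (m := m) (fun j : ℕ => IG (j * u) γ π) h0 hj.le
  have h2 : ‖IG (j * u) γ π‖ ^ 2 ≤ GY m u π γ := by
    refine h1.trans (le_of_eq ?_)
    unfold GY
    congr 1
    refine Finset.sum_congr rfl fun l _ => Finset.sum_congr rfl fun i _ => ?_
    rw [← IG_blk]
    unfold aa ss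
    congr 4
    push_cast
    ring
  set s : ℝ := S - j * u with hs
  have hs0 : 0 ≤ s := by linarith
  have hsu : s ≤ u := by linarith
  have e0 : S = j * u + s := by rw [hs]; ring
  have h3 : ‖BG π γ (j * u) s‖ ≤ 1 := by
    unfold BG
    have h := intervalIntegral.norm_integral_le_of_norm_le_const (a := (0:ℝ)) (b := s)
      (f := fun t : ℝ => GG (j * u + t) (fun i => (γ i : ℂ)) π) (C := 1) (fun t _ => (norm_GG _ γ π).le)
    rw [one_mul, sub_zero, abs_of_nonneg hs0] at h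
    linarith
  have h4 : IG S γ π = IG (j * u) γ π + BG π γ (j * u) s := by
    rw [← IG_blk, ← e0]
    ring
  rw [h4]
  have h5 : ‖BG π γ (j * u) s‖ ^ 2 ≤ 1 := pow_le_one₀ (norm_nonneg _) h3
  calc ‖IG (j * u) γ π + BG π γ (j * u) s‖ ^ 2 ≤ (‖IG (j * u) γ π‖ + ‖BG π γ (j * u) s‖) ^ 2 := by
        gcongr
        exact norm_add_le _ _
    _ ≤ 2 * (‖IG (j * u) γ π‖ ^ 2 + ‖BG π γ (j * u) s‖ ^ 2) := by
        nlinarith [sq_nonneg (‖IG (j * u) γ π‖ - ‖BG π γ (j * u) s‖)]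
    _ ≤ _ := by linarith

theorem GY_ms (k : ℕ) : ∃ C T₀ : ℝ, 0 < C ∧ 3 ≤ T₀ ∧ ∀ (T H u : ℝ) (m : ℕ)
    (π : Equiv.Perm (Fin k ⊕ Fin k)), T₀ ≤ T → 0 < H → H ≤ T → 0 < u → 2 ^ m * u = T →
    (∃ j, (π (Sum.inr j)).isLeft = true) →
    ∫⁻ γ, ENNReal.ofReal (GY m u π γ) ∂(mP (Fin k ⊕ Fin k) H) ≤
      ENNReal.ofReal (C * ((m : ℝ) + 1) ^ 2 * Real.log T ^ 2 * H ^ (2 * k) * (T ^ 2 / H)) := by
  obtain ⟨C, T₀, hC, hT₀, h1⟩ := swA k
  refine ⟨C, T₀, hC, hT₀, ?_⟩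
  intro T H u m π hT hH0 hHT hu huT hπ
  have hT3 : 3 ≤ T := hT₀.trans hT
  have hT0 : 0 < T := by linarith
  have e1 : ∀ γ : Fin k ⊕ Fin k → ℝ, ENNReal.ofReal (GY m u π γ) = ENNReal.ofReal ((m : ℝ) + 1) *
      ∑ l ∈ Finset.range (m + 1), ∑ i ∈ Finset.range (2 ^ l),
        ENNReal.ofReal (‖BG π γ (aa m u l i) (ss m u l)‖ ^ 2) := by
    intro γ
    unfold GY
    rw [ENNReal.ofReal_mul (by positivity), ENNReal.ofReal_sum_of_nonneg fun l _ =>
      Finset.sum_nonneg fun _ _ => by positivity]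
    congr 1
    exact Finset.sum_congr rfl fun l _ => ENNReal.ofReal_sum_of_nonneg fun _ _ => by positivity
  have hmb : ∀ l i : ℕ, Measurable fun γ : Fin k ⊕ Fin k → ℝ =>
      ENNReal.ofReal (‖BG π γ (aa m u l i) (ss m u l)‖ ^ 2) := fun l i => by
    unfold BG
    exact mor ((cont_intA π _ _).norm.pow 2)
  simp only [e1]
  rw [lintegral_const_mul' _ _ ENNReal.ofReal_ne_top, lintegral_finsetSum _ fun l _ =>
    Finset.measurable_fun_sum _ fun i _ => hmb l i]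
  have e2 : ∀ l ∈ Finset.range (m + 1), ∫⁻ γ, ∑ i ∈ Finset.range (2 ^ l),
      ENNReal.ofReal (‖BG π γ (aa m u l i) (ss m u l)‖ ^ 2) ∂(mP (Fin k ⊕ Fin k) H) ≤
      ENNReal.ofReal (C * Real.log T ^ 2 * H ^ (2 * k) * (T / H) * T) := by
    intro l hl
    have hl' : l ≤ m := Nat.lt_succ_iff.1 (Finset.mem_range.1 hl)
    rw [lintegral_finsetSum _ fun i _ => hmb l i]
    have hs0 : 0 ≤ ss m u l := by unfold ss; positivity
    have h2l : (2:ℝ) ^ l * ss m u l = T := by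
      unfold ss
      push_cast
      rw [← mul_assoc, ← pow_add, show l + (m - l) = m by omega, huT]
    have e3 : ∀ i ∈ Finset.range (2 ^ l), ∫⁻ γ, ENNReal.ofReal (‖BG π γ (aa m u l i) (ss m u l)‖ ^ 2)
        ∂(mP (Fin k ⊕ Fin k) H) ≤ ENNReal.ofReal (C * Real.log T ^ 2 * H ^ (2 * k) * (T / H) * ss m u l) := by
      intro i hi
      have hi' : (i : ℝ) + 1 ≤ 2 ^ l := by exact_mod_cast Finset.mem_range.1 hi
      unfold BG
      refine h1 T (aa m u l i) (ss m u l) H π hT (by unfold aa; positivity) hs0 ?_ hH0 hHT hπ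
      have e4 : aa m u l i + ss m u l = ((i : ℝ) + 1) * ss m u l := by
        unfold aa ss
        push_cast
        ring
      rw [e4, ← h2l]
      gcongr
    refine (Finset.sum_le_sum e3).trans ?_
    rw [Finset.sum_const, Finset.card_range, nsmul_eq_mul, ← ENNReal.ofReal_natCast,
      ← ENNReal.ofReal_mul (by positivity)]
    refine ENNReal.ofReal_le_ofReal (le_of_eq ?_)
    rw [← h2l]
    push_cast
    ring
  refine (mul_le_mul_right (Finset.sum_le_sum e2) _).trans ?_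
  rw [Finset.sum_const, Finset.card_range, nsmul_eq_mul, ← ENNReal.ofReal_natCast,
    ← ENNReal.ofReal_mul (by positivity), ← ENNReal.ofReal_mul (by positivity)]
  refine ENNReal.ofReal_le_ofReal (le_of_eq ?_)
  push_cast
  ring

lemma int_Zg (γ : Fin k ⊕ Fin k → ℝ) (S : ℝ) : ∫ t in (0:ℝ)..S, Zg γ t = ∫ t in (0:ℝ)..S, zp γ t := by
  refine intervalIntegral.integral_congr fun t _ => ?_
  simp only [Zg_fz]
  unfold zp
  rw [fz_prod]

lemma exm {T : ℝ} (hT : 3 ≤ T) : ∃ (m : ℕ) (u : ℝ), 0 < u ∧ u ≤ 1 ∧ 2 ^ m * u = T ∧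
    (m : ℝ) + 1 ≤ 2 * (1 + Real.log T) := by
  obtain ⟨n, hn1, hn2⟩ := exists_nat_pow_near (x := T) (y := 2) (by linarith) (by norm_num)
  have h2m : (0:ℝ) < 2 ^ (n + 1) := by positivity
  refine ⟨n + 1, T / 2 ^ (n + 1), by positivity, ?_, ?_, ?_⟩
  · rw [div_le_one h2m]
    exact hn2.le
  · field_simp
  · have e1 : (n : ℝ) * Real.log 2 ≤ Real.log T := by
      rw [← Real.log_pow]
      exact Real.log_le_log (by positivity) hn1
    have e2 : (0.69:ℝ) ≤ Real.log 2 := by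
      have := Real.log_two_gt_d9
      linarith
    have e3 : (n : ℝ) * 0.69 ≤ Real.log T := (mul_le_mul_of_nonneg_left e2 (by positivity)).trans e1
    have hlog0 : 0 ≤ Real.log T := Real.log_nonneg (by linarith)
    push_cast
    linarith

theorem maxiQ (k : ℕ) {η : ℝ} (hη : 0 < η) (hη1 : η ≤ 1 / 100) {ε : ℝ} (hε : 0 < ε) :
    ∃ C T₀ : ℝ, 1 ≤ C ∧ 3 ≤ T₀ ∧ ∀ (T H : ℝ), T₀ ≤ T → T ^ (1 / 2 + 3 * η) ≤ H → H ≤ T →
    ∃ Mq : (Fin k ⊕ Fin k → ℝ) → ℝ,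
      AEMeasurable Mq ((mP (Fin k ⊕ Fin k) H).restrict (Sep k H)) ∧
      (∀ γ ∈ Sep k H, ∀ S, 0 ≤ S → S ≤ T → ‖DD S γ‖ ^ 2 ≤ Mq γ) ∧
      ∫⁻ γ in Sep k H, ENNReal.ofReal (Mq γ) ∂(mP (Fin k ⊕ Fin k) H) ≤
        ENNReal.ofReal (C * T ^ ε * H ^ (2 * k) * (T ^ 2 / H)) := by
  classical
  obtain ⟨C1, T1, hC1, hT1, h1⟩ := maxi k hη hη1 hε
  obtain ⟨C2, T2, hC2, hT2, h2⟩ := GY_ms k
  obtain ⟨C3, T3, hC3, hT3, h3⟩ := one' Pool.Agent.TH928.GS.t_MV
  obtain ⟨C4, hC4, h4⟩ := logp_le hε (2 * k ^ 2 + 4)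
  set P : ℝ := ((Pk k)ᶜ.card : ℝ) with hP
  have hP0 : 0 ≤ P := by positivity
  set F : ℝ := Pool.Agent.TH612.CF.BF k (1 / 8) with hF
  have hF0 : 0 ≤ F := by
    rw [hF]
    unfold Pool.Agent.TH612.CF.BF
    positivity
  have hC10 : 0 < C1 := by linarith
  have hC40 : 0 < C4 := by linarith
  -- the constant
  refine ⟨2 * C1 + 4 * P ^ 2 * (F * C3 ^ (k ^ 2)) ^ 2 * (4 * C2 + 1) * C4, max T1 (max T2 (T3 ^ 2)), ?_,
    hT1.trans (le_max_left _ _), ?_⟩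
  · have : 0 ≤ 4 * P ^ 2 * (F * C3 ^ (k ^ 2)) ^ 2 * (4 * C2 + 1) * C4 := by positivity
    linarith
  intro T H hT hHl hHT
  have hTT1 : T1 ≤ T := (le_max_left _ _).trans hT
  have hTT2 : T2 ≤ T := (le_max_left _ _).trans ((le_max_right _ _).trans hT)
  have hTT3 : T3 ^ 2 ≤ T := (le_max_right _ _).trans ((le_max_right _ _).trans hT)
  have hT3' : 3 ≤ T := hT1.trans hTT1
  have hT0 : 0 < T := by linarith
  have hH3' : T3 ≤ H := by
    have e1 : T3 ≤ T ^ (1 / 2 : ℝ) := by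
      calc T3 = (T3 ^ 2) ^ (1 / 2 : ℝ) := by
            rw [← Real.rpow_natCast, ← Real.rpow_mul (by linarith)]
            norm_num
        _ ≤ T ^ (1 / 2 : ℝ) := Real.rpow_le_rpow (by positivity) hTT3 (by norm_num)
    refine e1.trans (le_trans ?_ hHl)
    exact Real.rpow_le_rpow_of_exponent_le (by linarith) (by linarith)
  have hH3 : 3 ≤ H := hT3.trans hH3'
  have hH0 : 0 < H := by linarith
  obtain ⟨Mx, hMm, hMp, hMi⟩ := h1 T H hTT1 hHl hHT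
  obtain ⟨m, u, hu0, hu1, huT, hml⟩ := exm hT3'
  have hlog0 : 0 ≤ Real.log T := Real.log_nonneg (by linarith)
  have hlogHT : Real.log H ≤ Real.log T := Real.log_le_log hH0 hHT
  have hlogH0 : 0 ≤ Real.log H := Real.log_nonneg (by linarith)
  have hone := (h3 H 1 hH3' le_rfl (by push_cast; linarith)).1
  set Zb : ℝ := ZB k C3 H with hZb
  have hZb0 : 0 ≤ Zb := by
    rw [hZb]
    unfold ZB
    positivity
  have hZbT : Zb ≤ F * C3 ^ (k ^ 2) * (1 + Real.log T) ^ (k ^ 2) := by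
    rw [hZb]
    unfold ZB
    rw [mul_pow, ← mul_assoc]
    gcongr
    linarith
  refine ⟨fun γ => 2 * Mx γ + (2 * Zb ^ 2 * P) * ∑ π ∈ (Pk k)ᶜ, 2 * (GY m u π γ + 1), ?_, ?_, ?_⟩
  · refine (hMm.const_mul 2).add (Continuous.aemeasurable ?_)
    exact continuous_const.mul (continuous_finsetSum _ fun π _ =>
      continuous_const.mul ((GY_cont m u π).add continuous_const))
  · intro γ hγ S hS hST
    have k1 := hMp γ S hS hST
    rw [DD_eq Pool.Agent.TH612.GS.t_INV, int_Zg]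
    set D := (∫ t in (0:ℝ)..S, zp γ t) - S * zr γ with hD
    set E := ((Nat.factorial k : ℂ) ^ 2)⁻¹ * ∑ π ∈ (Pk k)ᶜ, IG S γ π * Pool.Agent.TH612.GS.zp γ π with hE
    have k2 : ‖E‖ ≤ Zb * ∑ π ∈ (Pk k)ᶜ, ‖IG S γ π‖ := by
      rw [hE, norm_mul]
      calc _ ≤ 1 * ‖∑ π ∈ (Pk k)ᶜ, IG S γ π * Pool.Agent.TH612.GS.zp γ π‖ := by
            gcongr
            exact inv_le_one
        _ ≤ 1 * ∑ π ∈ (Pk k)ᶜ, ‖IG S γ π * Pool.Agent.TH612.GS.zp γ π‖ := by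
            gcongr
            exact norm_sum_le _ _
        _ ≤ 1 * ∑ π ∈ (Pk k)ᶜ, ‖IG S γ π‖ * Zb := by
            gcongr with π hπ
            rw [norm_mul]
            gcongr
            exact zp_bd hH3 hC3 hone hγ π
        _ = _ := by rw [one_mul, ← Finset.sum_mul, mul_comm]
    have k3 : ‖E‖ ^ 2 ≤ Zb ^ 2 * P * ∑ π ∈ (Pk k)ᶜ, 2 * (GY m u π γ + 1) := by
      calc ‖E‖ ^ 2 ≤ (Zb * ∑ π ∈ (Pk k)ᶜ, ‖IG S γ π‖) ^ 2 := by gcongr
        _ = Zb ^ 2 * (∑ π ∈ (Pk k)ᶜ, ‖IG S γ π‖) ^ 2 := by ring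
        _ ≤ Zb ^ 2 * (P * ∑ π ∈ (Pk k)ᶜ, ‖IG S γ π‖ ^ 2) := by
            refine mul_le_mul_of_nonneg_left ?_ (by positivity)
            exact sq_sum_le_card_mul_sum_sq
        _ ≤ Zb ^ 2 * (P * ∑ π ∈ (Pk k)ᶜ, 2 * (GY m u π γ + 1)) := by
            refine mul_le_mul_of_nonneg_left (mul_le_mul_of_nonneg_left
              (Finset.sum_le_sum fun π _ => IG_le m hu0 hu1 huT π γ hS hST) hP0) (by positivity)
        _ = _ := by ring
    have k4 : ‖D - E‖ ^ 2 ≤ 2 * ‖D‖ ^ 2 + 2 * ‖E‖ ^ 2 := by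
      calc ‖D - E‖ ^ 2 ≤ (‖D‖ + ‖E‖) ^ 2 := by gcongr; exact norm_sub_le _ _
        _ ≤ _ := by nlinarith [sq_nonneg (‖D‖ - ‖E‖)]
    simp only
    nlinarith [k1, k3, k4]
  · have hMx0 : ∀ γ, 0 ≤ Mx γ := fun γ => le_trans (by positivity) (hMp γ 0 le_rfl hT0.le)
    have e1 : ∀ γ : Fin k ⊕ Fin k → ℝ, ENNReal.ofReal (2 * Mx γ + (2 * Zb ^ 2 * P) *
        ∑ π ∈ (Pk k)ᶜ, 2 * (GY m u π γ + 1)) = ENNReal.ofReal 2 * ENNReal.ofReal (Mx γ) +
        ENNReal.ofReal (4 * Zb ^ 2 * P) * ∑ π ∈ (Pk k)ᶜ, (ENNReal.ofReal (GY m u π γ) + ENNReal.ofReal 1) := by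
      intro γ
      have a1 : ∀ π, 0 ≤ GY m u π γ := fun π => GY_nonneg m u π γ
      have a2 : 0 ≤ ∑ π ∈ (Pk k)ᶜ, 2 * (GY m u π γ + 1) := Finset.sum_nonneg fun π _ => by
        have := a1 π
        positivity
      have a3 := hMx0 γ
      rw [ENNReal.ofReal_add (by positivity) (by positivity), ENNReal.ofReal_mul (by norm_num)]
      congr 1
      rw [← Finset.mul_sum]
      have a4 : (2 * Zb ^ 2 * P) * (2 * ∑ π ∈ (Pk k)ᶜ, (GY m u π γ + 1)) =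
          (4 * Zb ^ 2 * P) * ∑ π ∈ (Pk k)ᶜ, (GY m u π γ + 1) := by ring
      rw [a4, ENNReal.ofReal_mul (by positivity), ENNReal.ofReal_sum_of_nonneg fun π _ => by
        have := a1 π
        positivity]
      congr 1
      exact Finset.sum_congr rfl fun π _ => ENNReal.ofReal_add (a1 π) zero_le_one
    simp only [e1]
    have hmG : ∀ π : Equiv.Perm (Fin k ⊕ Fin k), Measurable fun γ : Fin k ⊕ Fin k → ℝ =>
        ENNReal.ofReal (GY m u π γ) := fun π => mor (GY_cont m u π)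
    have hmG1 : ∀ π : Equiv.Perm (Fin k ⊕ Fin k), Measurable fun γ : Fin k ⊕ Fin k → ℝ =>
        (ENNReal.ofReal (GY m u π γ) + ENNReal.ofReal 1) := fun π => (hmG π).add_const _
    have hmS : Measurable fun γ : Fin k ⊕ Fin k → ℝ => ENNReal.ofReal (4 * Zb ^ 2 * P) *
        ∑ π ∈ (Pk k)ᶜ, (ENNReal.ofReal (GY m u π γ) + ENNReal.ofReal 1) :=
      (Finset.measurable_fun_sum _ fun π _ => hmG1 π).const_mul _
    rw [lintegral_add_right _ hmS,
      lintegral_const_mul' _ _ ENNReal.ofReal_ne_top, lintegral_const_mul' _ _ ENNReal.ofReal_ne_top,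
      lintegral_finsetSum _ fun π _ => hmG1 π]
    have e2 : ∀ π ∈ (Pk k)ᶜ, ∫⁻ γ in Sep k H, (ENNReal.ofReal (GY m u π γ) + ENNReal.ofReal 1)
        ∂(mP (Fin k ⊕ Fin k) H) ≤ ENNReal.ofReal ((4 * C2 + 1) * (1 + Real.log T) ^ 4 * H ^ (2 * k) * (T ^ 2 / H)) := by
      intro π hπ
      have hπ' : ∃ j, (π (Sum.inr j)).isLeft = true := by
        rw [Finset.mem_compl, Pk, Finset.mem_filter, not_and] at hπ
        have := hπ (Finset.mem_univ _)
        push Not at this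
        obtain ⟨j, hj⟩ := this
        exact ⟨j, by simpa using hj⟩
      refine (setLIntegral_le_lintegral _ _).trans ?_
      rw [lintegral_add_left (hmG π), lintegral_const, Pool.Agent.TH347.GS.mP_univ k hH0.le]
      refine (add_le_add (h2 T H u m π hTT2 hH0 hHT hu0 huT hπ') le_rfl).trans ?_
      rw [← ENNReal.ofReal_mul (by norm_num), ← ENNReal.ofReal_add (by positivity) (by positivity)]
      refine ENNReal.ofReal_le_ofReal ?_
      have a1 : ((m : ℝ) + 1) ^ 2 ≤ (2 * (1 + Real.log T)) ^ 2 := by gcongr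
      have a2 : Real.log T ^ 2 ≤ (1 + Real.log T) ^ 2 := by
        gcongr
        linarith
      have a3 : 1 ≤ T ^ 2 / H := by
        rw [le_div_iff₀ hH0]
        nlinarith
      have a4 : 1 ≤ (1 + Real.log T) ^ 4 := one_le_pow₀ (by linarith)
      have a5 : 1 * H ^ (2 * k) ≤ (1 + Real.log T) ^ 4 * H ^ (2 * k) * (T ^ 2 / H) := by
        calc 1 * H ^ (2 * k) = 1 * H ^ (2 * k) * 1 := by ring
          _ ≤ _ := by gcongr
      calc C2 * ((m : ℝ) + 1) ^ 2 * Real.log T ^ 2 * H ^ (2 * k) * (T ^ 2 / H) + 1 * H ^ (2 * k)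
          ≤ C2 * (2 * (1 + Real.log T)) ^ 2 * (1 + Real.log T) ^ 2 * H ^ (2 * k) * (T ^ 2 / H) +
            (1 + Real.log T) ^ 4 * H ^ (2 * k) * (T ^ 2 / H) := by gcongr
        _ = _ := by ring
    refine (add_le_add (mul_le_mul_right hMi _) (mul_le_mul_right (Finset.sum_le_sum e2) _)).trans ?_
    have hc0 : 0 ≤ 1 + Real.log T := by linarith
    rw [Finset.sum_const, nsmul_eq_mul, ← ENNReal.ofReal_natCast, ← hP, ← ENNReal.ofReal_mul (by positivity),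
      ← ENNReal.ofReal_mul (by positivity), ← ENNReal.ofReal_mul (by positivity),
      ← ENNReal.ofReal_add (by positivity) (by positivity)]
    refine ENNReal.ofReal_le_ofReal ?_
    have a1 : Zb ^ 2 * (1 + Real.log T) ^ 4 ≤ (F * C3 ^ (k ^ 2)) ^ 2 * (C4 * T ^ ε) := by
      calc Zb ^ 2 * (1 + Real.log T) ^ 4
          ≤ (F * C3 ^ (k ^ 2) * (1 + Real.log T) ^ (k ^ 2)) ^ 2 * (1 + Real.log T) ^ 4 := by gcongr
        _ = (F * C3 ^ (k ^ 2)) ^ 2 * (1 + Real.log T) ^ (2 * k ^ 2 + 4) := by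
            rw [mul_pow, pow_add, mul_comm 2 (k ^ 2), pow_mul]
            ring
        _ ≤ _ := by
            have := h4 T (by linarith)
            gcongr
    calc 2 * (C1 * T ^ ε * H ^ (2 * k) * (T ^ 2 / H)) +
          4 * Zb ^ 2 * P * (P * ((4 * C2 + 1) * (1 + Real.log T) ^ 4 * H ^ (2 * k) * (T ^ 2 / H)))
        = 2 * (C1 * T ^ ε * H ^ (2 * k) * (T ^ 2 / H)) +
          4 * P ^ 2 * (4 * C2 + 1) * (Zb ^ 2 * (1 + Real.log T) ^ 4) * (H ^ (2 * k) * (T ^ 2 / H)) := by ring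
      _ ≤ 2 * (C1 * T ^ ε * H ^ (2 * k) * (T ^ 2 / H)) +
          4 * P ^ 2 * (4 * C2 + 1) * ((F * C3 ^ (k ^ 2)) ^ 2 * (C4 * T ^ ε)) * (H ^ (2 * k) * (T ^ 2 / H)) := by
          gcongr
      _ = _ := by ring

end

end Pool.Agent.Y752.SR
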