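import Pool.Agent.Y752.SR.M2

set_option autoImplicit false

/-! The exceptional sets. -/

namespace Pool.Agent.Y752.SR

open MeasureTheory Set Filter Complex Topology
open Pool.Agent.TH612.GS (mP zr Sep Sep_meas DD cheb vol_cube)

noncomputable section

variable {k : ℕ}

/-- a measure bound from a maximal mean square -/
lemma exc {ε T H : ℝ} {C : ℝ} (hC : 1 ≤ C) (hT : 1 ≤ T) (hH : 1 ≤ H)
    (hH2 : T ^ (1 / 2 : ℝ) ≤ H) {f : (Fin k ⊕ Fin k → ℝ) → ℝ → ℝ} {M : (Fin k ⊕ Fin k → ℝ) → ℝ}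
    (hM : AEMeasurable M ((mP (Fin k ⊕ Fin k) H).restrict (Sep k H)))
    (hf0 : ∀ γ S, 0 ≤ f γ S)
    (hf : ∀ γ ∈ Sep k H, ∀ S, 0 ≤ S → S ≤ T → f γ S ^ 2 ≤ M γ)
    (hi : ∫⁻ γ in Sep k H, ENNReal.ofReal (M γ) ∂(mP (Fin k ⊕ Fin k) H) ≤
        ENNReal.ofReal (C * T ^ ε * H ^ (2 * k) * (T ^ 2 / H))) :
    volume {γ : Fin k ⊕ Fin k → ℝ | (∀ i, 0 ≤ γ i ∧ γ i ≤ H) ∧
        ∃ S : ℝ, 0 ≤ S ∧ S ≤ T ∧ T ^ (1 + ε) / H ^ (1 / 2 : ℝ) < f γ S} ≤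
      ENNReal.ofReal (H ^ (2 * k) * (C * T ^ (-ε) + 8 * k ^ 2 * T ^ (-(1 / 4) : ℝ))) := by
  have hT0 : 0 < T := by linarith
  have hH0 : 0 < H := by linarith
  set V : ℝ := T ^ (1 + ε) / H ^ (1 / 2 : ℝ) with hV
  have hV0 : 0 < V := by positivity
  have hV2 : V ^ 2 = T ^ (2 + 2 * ε) / H := by
    rw [hV, div_pow, ← Real.rpow_natCast, ← Real.rpow_mul hT0.le, ← Real.rpow_natCast (H ^ _),
      ← Real.rpow_mul hH0.le]
    push_cast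
    norm_num
    congr 2
    ring
  rw [vol_cube (T := H) fun γ hγ => hγ.1]
  have hsub : {γ : Fin k ⊕ Fin k → ℝ | (∀ i, 0 ≤ γ i ∧ γ i ≤ H) ∧
      ∃ S : ℝ, 0 ≤ S ∧ S ≤ T ∧ V < f γ S} ⊆
      (Sep k H)ᶜ ∪ (Sep k H ∩ {γ | ENNReal.ofReal (V ^ 2) ≤ ENNReal.ofReal (M γ)}) := by
    rintro γ ⟨_, S, hS0, hST, hlt⟩
    by_cases h : γ ∈ Sep k H
    · right
      refine ⟨h, ?_⟩
      have h1 := hf γ h S hS0 hST
      have h2 : V ^ 2 ≤ f γ S ^ 2 := pow_le_pow_left₀ hV0.le hlt.le 2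
      exact ENNReal.ofReal_le_ofReal (h2.trans h1)
    · left
      exact h
  refine (measure_mono hsub).trans ((measure_union_le _ _).trans ?_)
  have m1 := Pool.Agent.TH767.GS.t_NS k H hH
  have m2 : mP (Fin k ⊕ Fin k) H (Sep k H ∩ {γ | ENNReal.ofReal (V ^ 2) ≤ ENNReal.ofReal (M γ)}) ≤
      ENNReal.ofReal (C * T ^ (-ε) * H ^ (2 * k)) := by
    have e0 : mP (Fin k ⊕ Fin k) H (Sep k H ∩ {γ | ENNReal.ofReal (V ^ 2) ≤ ENNReal.ofReal (M γ)}) ≤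
        ((mP (Fin k ⊕ Fin k) H).restrict (Sep k H)) {γ | ENNReal.ofReal (V ^ 2) ≤ ENNReal.ofReal (M γ)} := by
      rw [inter_comm]
      exact Measure.le_restrict_apply _ _
    have h2 := meas_ge_le_lintegral_div hM.ennreal_ofReal (ε := ENNReal.ofReal (V ^ 2))
      (by rw [Ne, ENNReal.ofReal_eq_zero, not_le]; positivity) ENNReal.ofReal_ne_top
    refine e0.trans (h2.trans ((ENNReal.div_le_div_right hi _).trans ?_))
    rw [← ENNReal.ofReal_div_of_pos (by positivity)]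
    refine ENNReal.ofReal_le_ofReal (le_of_eq ?_)
    rw [hV2]
    have e3 : T ^ (2 + 2 * ε) = T ^ 2 * T ^ ε * T ^ ε := by
      rw [← Real.rpow_natCast, ← Real.rpow_add hT0, ← Real.rpow_add hT0]
      congr 1
      push_cast
      ring
    have e4 : T ^ (-ε) = (T ^ ε)⁻¹ := Real.rpow_neg hT0.le ε
    rw [e3, e4]
    have : T ^ ε ≠ 0 := by positivity
    field_simp
  refine (add_le_add m1 m2).trans ?_
  rw [← ENNReal.ofReal_add (by positivity) (by positivity)]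
  refine ENNReal.ofReal_le_ofReal ?_
  have e5 : H ^ (2 * k - 1 / 2 : ℝ) ≤ H ^ (2 * k) * T ^ (-(1 / 4) : ℝ) := by
    have a1 : H ^ (2 * k - 1 / 2 : ℝ) = H ^ (2 * k) * H ^ (-(1 / 2) : ℝ) := by
      rw [← Real.rpow_natCast, ← Real.rpow_add hH0]
      congr 1
      push_cast
      ring
    rw [a1]
    have a2 : H ^ (-(1 / 2) : ℝ) ≤ (T ^ (1 / 2 : ℝ)) ^ (-(1 / 2) : ℝ) :=
      Real.rpow_le_rpow_of_nonpos (by positivity) hH2 (by norm_num)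
    rw [← Real.rpow_mul hT0.le] at a2
    norm_num at a2
    have a3 : T ^ (-(1 / 4) : ℝ) = T ^ (-1 / 4 : ℝ) := by norm_num
    norm_num
    gcongr
  nlinarith [mul_le_mul_of_nonneg_left e5 (by positivity : (0:ℝ) ≤ 8 * k ^ 2)]

theorem final (k : ℕ) {θ ε : ℝ} (hθ : 1 / 2 < θ) (hε : 0 < ε) : ∃ δ : ℝ, 0 < δ ∧ ∃ T₀ : ℝ,
    ∀ T H : ℝ, T₀ ≤ T → T ^ θ ≤ H → H ≤ T →
    volume {γ : Fin k ⊕ Fin k → ℝ | (∀ i, 0 ≤ γ i ∧ γ i ≤ H) ∧
        ∃ S : ℝ, 0 ≤ S ∧ S ≤ T ∧ T ^ (1 + ε) / H ^ (1 / 2 : ℝ) < ‖DD S γ‖} ≤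
      ENNReal.ofReal (H ^ (2 * k) * T ^ (-δ)) ∧
    volume {γ : Fin k ⊕ Fin k → ℝ | (∀ i, 0 ≤ γ i ∧ γ i ≤ H) ∧
        ∃ S : ℝ, 0 ≤ S ∧ S ≤ T ∧ T ^ (1 + ε) / H ^ (1 / 2 : ℝ) <
          ‖(∫ t in (0:ℝ)..S, zp γ t) - S * zr γ‖} ≤
      ENNReal.ofReal (H ^ (2 * k) * T ^ (-δ)) := by
  set η : ℝ := min ((θ - 1 / 2) / 3) (1 / 100) with hη
  have hη0 : 0 < η := lt_min (by linarith) (by norm_num)
  have hη1 : η ≤ 1 / 100 := min_le_right _ _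
  have hη2 : 1 / 2 + 3 * η ≤ θ := by
    have := min_le_left ((θ - 1 / 2) / 3) (1 / 100 : ℝ)
    linarith
  obtain ⟨C1, T1, hC1, hT1, h1⟩ := maxiQ k hη0 hη1 hε
  obtain ⟨C2, T2, hC2, hT2, h2⟩ := maxi k hη0 hη1 hε
  set κ : ℝ := min ε (1 / 4) with hκ
  have hκ0 : 0 < κ := lt_min hε (by norm_num)
  set C : ℝ := max C1 C2 with hC
  have hCC : 1 ≤ C := hC1.trans (le_max_left _ _)
  set B : ℝ := C + 8 * k ^ 2 with hB
  have hB1 : 1 ≤ B := by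
    have : (0:ℝ) ≤ 8 * k ^ 2 := by positivity
    linarith
  refine ⟨κ / 2, by positivity, max T1 (max T2 (B ^ (2 / κ))), ?_⟩
  intro T H hT hTH hHT
  have hTT1 : T1 ≤ T := (le_max_left _ _).trans hT
  have hTT2 : T2 ≤ T := (le_max_left _ _).trans ((le_max_right _ _).trans hT)
  have hTB : B ^ (2 / κ) ≤ T := (le_max_right _ _).trans ((le_max_right _ _).trans hT)
  have hT3 : 3 ≤ T := hT1.trans hTT1
  have hT0 : 0 < T := by linarith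
  have hHl : T ^ (1 / 2 + 3 * η) ≤ H :=
    (Real.rpow_le_rpow_of_exponent_le (by linarith) hη2).trans hTH
  have hH2 : T ^ (1 / 2 : ℝ) ≤ H :=
    (Real.rpow_le_rpow_of_exponent_le (by linarith) (by linarith)).trans hHl
  have hH1 : 1 ≤ H := (Real.one_le_rpow (by linarith) (by norm_num)).trans hH2
  have hH0 : 0 < H := by linarith
  have hBT : B ≤ T ^ (κ / 2) := by
    have a1 : (B ^ (2 / κ)) ^ (κ / 2) ≤ T ^ (κ / 2) := Real.rpow_le_rpow (by positivity) hTB (by positivity)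
    rw [← Real.rpow_mul (by linarith)] at a1
    have a2 : 2 / κ * (κ / 2) = 1 := by field_simp
    rwa [a2, Real.rpow_one] at a1
  have hbound : ∀ c : ℝ, c ≤ C → H ^ (2 * k) * (c * T ^ (-ε) + 8 * k ^ 2 * T ^ (-(1 / 4) : ℝ)) ≤
      H ^ (2 * k) * T ^ (-(κ / 2)) := by
    intro c hc
    refine mul_le_mul_of_nonneg_left ?_ (by positivity)
    have a1 : T ^ (-ε) ≤ T ^ (-κ) :=
      Real.rpow_le_rpow_of_exponent_le (by linarith) (by linarith [min_le_left ε (1 / 4 : ℝ)])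
    have a2 : T ^ (-(1 / 4) : ℝ) ≤ T ^ (-κ) :=
      Real.rpow_le_rpow_of_exponent_le (by linarith) (by linarith [min_le_right ε (1 / 4 : ℝ)])
    calc c * T ^ (-ε) + 8 * k ^ 2 * T ^ (-(1 / 4) : ℝ) ≤ C * T ^ (-κ) + 8 * k ^ 2 * T ^ (-κ) := by
          have a3 : 0 ≤ T ^ (-ε) := by positivity
          have a4 : c * T ^ (-ε) ≤ C * T ^ (-ε) := by gcongr
          have a5 : C * T ^ (-ε) ≤ C * T ^ (-κ) := by gcongr
          have a6 : 8 * (k:ℝ) ^ 2 * T ^ (-(1 / 4) : ℝ) ≤ 8 * k ^ 2 * T ^ (-κ) := by gcongr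
          linarith
      _ = B * T ^ (-κ) := by rw [hB]; ring
      _ ≤ T ^ (κ / 2) * T ^ (-κ) := by gcongr
      _ = T ^ (-(κ / 2)) := by
          rw [← Real.rpow_add hT0]
          congr 1
          ring
  constructor
  · obtain ⟨M, hMm, hMp, hMi⟩ := h1 T H hTT1 hHl hHT
    exact (exc hC1 (by linarith) hH1 hH2 hMm (f := fun γ S => ‖DD S γ‖) (fun _ _ => norm_nonneg _)
      hMp hMi).trans (ENNReal.ofReal_le_ofReal (hbound C1 (le_max_left _ _)))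
  · obtain ⟨M, hMm, hMp, hMi⟩ := h2 T H hTT2 hHl hHT
    exact (exc hC2 (by linarith) hH1 hH2 hMm (f := fun γ S => ‖(∫ t in (0:ℝ)..S, zp γ t) - S * zr γ‖)
      (fun _ _ => norm_nonneg _)
      (fun γ _ => hMp γ) hMi).trans (ENNReal.ofReal_le_ofReal (hbound C2 (le_max_right _ _)))

end

end Pool.Agent.Y752.SR
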